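import Pool.Agent.H52.UB.Defs

/-!
# Project UB (MP_a3214d), row UB-17: a small prime not dividing a given integer
-/

set_option autoImplicit false

open NumberField Polynomial Module

namespace Pool.Agent.H52.UB

theorem ub17_pow (K : ℕ) : 2 ^ (K ^ 2) ≤ (∏ i ∈ Finset.range K, 2 ^ (i + 1)) ^ 2 := by
  induction K with
  | zero => simp
  | succ K ih =>
    rw [Finset.prod_range_succ, mul_pow]
    calc 2 ^ ((K + 1) ^ 2) ≤ 2 ^ (K ^ 2 + (K + 1) * 2) :=
          Nat.pow_le_pow_right (by norm_num) (by nlinarith)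
      _ = 2 ^ (K ^ 2) * (2 ^ (K + 1)) ^ 2 := by rw [pow_add, pow_mul]
      _ ≤ _ := Nat.mul_le_mul_right _ ih

/-- an integer divisible by all primes `≤ 2^(K+1)` is large -/
theorem ub17_large (a : ℤ) (ha : a ≠ 0) (K : ℕ)
    (h : ∀ p : ℕ, p.Prime → p ≤ 2 ^ (K + 1) → (p : ℤ) ∣ a) : 2 ^ (K ^ 2) ≤ a.natAbs ^ 2 := by
  have h1 : ∀ i : ℕ, ∃ q : ℕ, q.Prime ∧ 2 ^ (i + 1) < q ∧ q ≤ 2 ^ (i + 2) := by
    intro i
    obtain ⟨q, hq, h2, h3⟩ := Nat.exists_prime_lt_and_le_two_mul (2 ^ (i + 1)) (by positivity)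
    exact ⟨q, hq, h2, by rw [pow_succ 2 (i + 1)]; omega⟩
  choose q hq hq1 hq2 using h1
  have hlt : ∀ i j, i < j → q i < q j := by
    intro i j hij
    calc q i ≤ 2 ^ (i + 2) := hq2 i
      _ ≤ 2 ^ (j + 1) := Nat.pow_le_pow_right (by norm_num) (by omega)
      _ < q j := hq1 j
  have h2 : ∏ i ∈ Finset.range K, (q i : ℤ) ∣ a := by
    refine Finset.prod_dvd_of_coprime ?_ ?_
    · intro i _ j _ hij
      show IsCoprime (q i : ℤ) (q j : ℤ)
      rw [Nat.isCoprime_iff_coprime, Nat.coprime_primes (hq i) (hq j)]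
      rcases lt_or_gt_of_ne hij with h3 | h3
      · exact (hlt i j h3).ne
      · exact (hlt j i h3).ne'
    · intro i hi
      rw [Finset.mem_range] at hi
      exact h _ (hq i) ((hq2 i).trans (Nat.pow_le_pow_right (by norm_num) (by omega)))
  have h3 : ∏ i ∈ Finset.range K, q i ∣ a.natAbs := by
    have h4 : ((∏ i ∈ Finset.range K, q i : ℕ) : ℤ) ∣ a := by
      push_cast
      exact h2
    exact Int.natCast_dvd.mp h4
  have h5 : ∏ i ∈ Finset.range K, 2 ^ (i + 1) ≤ a.natAbs :=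
    (Finset.prod_le_prod' fun i _ => (hq1 i).le).trans
      (Nat.le_of_dvd (Int.natAbs_pos.mpr ha) h3)
  exact (ub17_pow K).trans (Nat.pow_le_pow_left h5 2)

theorem exists_prime_not_dvd : ∃ C : ℝ, 0 < C ∧ ∀ (a : ℤ) (Y : ℝ), a ≠ 0 → 2 ≤ Y →
    |(a : ℝ)| ≤ Y → ∃ p : ℕ, p.Prime ∧ (p : ℝ) ≤ Real.exp (C * √(Real.log Y)) ∧
      ¬ (p : ℤ) ∣ a := by
  have hl2 : 0 < Real.log 2 := Real.log_pos (by norm_num)
  refine ⟨(√(2 / Real.log 2) + 2 / √(Real.log 2)) * Real.log 2, by positivity, ?_⟩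
  intro a Y ha hY haY
  have hlY : Real.log 2 ≤ Real.log Y := Real.log_le_log (by norm_num) hY
  have hlY0 : 0 < Real.log Y := hl2.trans_le hlY
  obtain ⟨K, hK⟩ : ∃ K : ℕ, K = ⌊√(2 / Real.log 2) * √(Real.log Y)⌋₊ + 1 := ⟨_, rfl⟩
  have hK1 : √(2 / Real.log 2) * √(Real.log Y) < K := by
    rw [hK]
    push_cast
    exact Nat.lt_floor_add_one _
  have hK2 : (K : ℝ) ≤ √(2 / Real.log 2) * √(Real.log Y) + 1 := by
    rw [hK]
    push_cast
    have := Nat.floor_le (by positivity : 0 ≤ √(2 / Real.log 2) * √(Real.log Y))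
    linarith
  have hK3 : 2 * Real.log Y < (K : ℝ) ^ 2 * Real.log 2 := by
    have h1 : (√(2 / Real.log 2) * √(Real.log Y)) ^ 2 < (K : ℝ) ^ 2 :=
      pow_lt_pow_left₀ hK1 (by positivity) (by norm_num)
    rw [mul_pow, Real.sq_sqrt (by positivity), Real.sq_sqrt hlY0.le, div_mul_eq_mul_div,
      div_lt_iff₀ hl2] at h1
    exact h1
  by_contra hcon
  push Not at hcon
  have h2 : ∀ p : ℕ, p.Prime → p ≤ 2 ^ (K + 1) → (p : ℤ) ∣ a := by
    intro p hp hpK
    refine hcon p hp ?_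
    have h3 : (p : ℝ) ≤ 2 ^ (K + 1) := by exact_mod_cast hpK
    refine h3.trans ?_
    rw [← Real.exp_log (by norm_num : (0 : ℝ) < 2), ← Real.exp_nat_mul, Real.exp_log (by norm_num)]
    apply Real.exp_le_exp.mpr
    have h4 : 1 ≤ √(Real.log Y) / √(Real.log 2) := by
      rw [one_le_div (by positivity)]
      exact Real.sqrt_le_sqrt hlY
    push_cast
    have h5 : (K : ℝ) + 1 ≤ (√(2 / Real.log 2) + 2 / √(Real.log 2)) * √(Real.log Y) := by
      calc (K : ℝ) + 1 ≤ √(2 / Real.log 2) * √(Real.log Y) + 2 * 1 := by linarith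
        _ ≤ √(2 / Real.log 2) * √(Real.log Y) + 2 * (√(Real.log Y) / √(Real.log 2)) := by
          linarith
        _ = _ := by ring
    calc ((K : ℝ) + 1) * Real.log 2 ≤
          ((√(2 / Real.log 2) + 2 / √(Real.log 2)) * √(Real.log Y)) * Real.log 2 :=
          mul_le_mul_of_nonneg_right h5 hl2.le
      _ = _ := by ring
  have h6 := ub17_large a ha K h2
  have h7 : (2 : ℝ) ^ (K ^ 2) ≤ |(a : ℝ)| ^ 2 := by
    have h8 : ((2 ^ (K ^ 2) : ℕ) : ℝ) ≤ ((a.natAbs ^ 2 : ℕ) : ℝ) := by exact_mod_cast h6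
    push_cast at h8
    rwa [Nat.cast_natAbs, Int.cast_abs] at h8
  have h9 : (2 : ℝ) ^ (K ^ 2) ≤ Y ^ 2 := h7.trans (pow_le_pow_left₀ (abs_nonneg _) haY 2)
  have h10 := Real.log_le_log (by positivity) h9
  rw [Real.log_pow, Real.log_pow] at h10
  push_cast at h10
  linarith

theorem exists_prime (k : Type) [Field k] [NumberField k] (Dg : ℕ) : ∃ C : ℝ, 0 < C ∧
    ∀ (z : Zb k) (Y : ℝ), z ≠ 0 → 2 ≤ Y → (minpoly ℤ z).natDegree ≤ Dg →
      (∀ φ : AlgebraicClosure k →+* ℂ, ‖φ (z : AlgebraicClosure k)‖ ≤ Y) →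
      ∃ p : ℕ, p.Prime ∧ (p : ℝ) ≤ Real.exp (C * √(Real.log Y)) ∧
        ∀ P : Ideal (Zb k), P.IsMaximal → (p : Zb k) ∈ P → z ∉ P := by
  obtain ⟨C, hC, hp⟩ := exists_prime_not_dvd
  haveI : Algebra.IsAlgebraic ℚ (AlgebraicClosure k) := Algebra.IsAlgebraic.trans ℚ k _
  refine ⟨C * √(Dg + 1), by positivity, ?_⟩
  intro z Y hz hY hdeg hφ
  have hint : IsIntegral ℤ (z : AlgebraicClosure k) := z.2
  have hzint : IsIntegral ℤ z :=
    (isIntegral_algebraMap_iff (FaithfulSMul.algebraMap_injective (Zb k) _)).mp hint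
  have hmz : minpoly ℤ (z : AlgebraicClosure k) = minpoly ℤ z :=
    minpoly.algebraMap_eq (FaithfulSMul.algebraMap_injective (Zb k) (AlgebraicClosure k)) z
  have hmq : minpoly ℚ (z : AlgebraicClosure k) = (minpoly ℤ z).map (algebraMap ℤ ℚ) := by
    rw [← hmz]
    exact minpoly.isIntegrallyClosed_eq_field_fractions' ℚ hint
  have hmonic : (minpoly ℤ z).Monic := minpoly.monic hzint
  have ha : (minpoly ℤ z).coeff 0 ≠ 0 := by
    intro h0
    have h1 : (minpoly ℚ (z : AlgebraicClosure k)).coeff 0 = 0 := by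
      rw [hmq, coeff_map, h0, map_zero]
    rw [minpoly.coeff_zero_eq_zero (hint.tower_top (A := ℚ))] at h1
    exact hz (Subtype.ext h1)
  have hroots : ∀ r ∈ ((minpoly ℤ z).map (algebraMap ℤ ℂ)).roots, ‖r‖ ≤ Y := by
    intro r hr
    have h1 : r ∈ (minpoly ℚ (z : AlgebraicClosure k)).rootSet ℂ := by
      rw [Polynomial.mem_rootSet]
      refine ⟨minpoly.ne_zero (hint.tower_top (A := ℚ)), ?_⟩
      rw [hmq, aeval_map_algebraMap]
      have h2 := (mem_roots'.mp hr).2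
      rwa [IsRoot.def, eval_map, ← aeval_def] at h2
    rw [← Algebra.IsAlgebraic.range_eval_eq_rootSet_minpoly] at h1
    obtain ⟨ψ, hψ⟩ := h1
    rw [← hψ]
    exact hφ ψ.toRingHom
  have hsize : |(((minpoly ℤ z).coeff 0 : ℤ) : ℝ)| ≤ Y ^ (Dg + 1) := by
    have h1 := coeff_le_of_roots_le (f := algebraMap ℤ ℂ) 0 hmonic (IsAlgClosed.splits _) hroots
    rw [coeff_map, Nat.sub_zero, Nat.choose_zero_right, Nat.cast_one, mul_one] at h1
    have h2 : ‖algebraMap ℤ ℂ ((minpoly ℤ z).coeff 0)‖ =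
        |(((minpoly ℤ z).coeff 0 : ℤ) : ℝ)| := by
      rw [eq_intCast, Complex.norm_intCast]
    rw [h2] at h1
    exact h1.trans (pow_le_pow_right₀ (by linarith) (by omega))
  have hY1 : 2 ≤ Y ^ (Dg + 1) := hY.trans (le_self_pow₀ (by linarith) (by omega))
  obtain ⟨p, hpp, hpY, hpa⟩ := hp _ _ ha hY1 hsize
  refine ⟨p, hpp, ?_, ?_⟩
  · refine hpY.trans (le_of_eq ?_)
    rw [Real.log_pow, Real.sqrt_mul (by positivity)]
    push_cast
    ring_nf
  · intro P hP hpP hzP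
    -- `z` divides the constant coefficient
    have h1 : ((minpoly ℤ z).coeff 0 : Zb k) ∈ P := by
      have h2 : aeval z (minpoly ℤ z) = 0 := minpoly.aeval ℤ z
      rw [← divX_mul_X_add (minpoly ℤ z), map_add, map_mul, aeval_X, aeval_C] at h2
      have h3 : algebraMap ℤ (Zb k) ((minpoly ℤ z).coeff 0) =
          -(aeval z (minpoly ℤ z).divX * z) := by
        rw [eq_neg_iff_add_eq_zero, add_comm]
        exact h2
      rw [eq_intCast] at h3
      rw [h3]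
      exact P.neg_mem (P.mul_mem_left _ hzP)
    have h4 : IsCoprime (p : ℤ) ((minpoly ℤ z).coeff 0) := by
      rw [Prime.coprime_iff_not_dvd (Nat.prime_iff_prime_int.mp hpp)]
      exact hpa
    obtain ⟨u, v, huv⟩ := h4
    apply hP.ne_top
    rw [Ideal.eq_top_iff_one]
    have h5 : ((u : Zb k) * (p : Zb k) + (v : Zb k) * ((minpoly ℤ z).coeff 0 : Zb k)) = 1 := by
      exact_mod_cast congrArg (fun t : ℤ => (t : Zb k)) huv
    rw [← h5]
    exact P.add_mem (P.mul_mem_left _ hpP) (P.mul_mem_left _ h1)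

end Pool.Agent.H52.UB
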