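import Pool.Agent.H52.UB.Defs

/-!
# Project UB (MP_a3214d): definitions, second part (all extensions of degree `n`)

General form of the condition of the tile lemma, free blocks, tile systems with blocks, the number
of all extensions of degree `n`.
-/

set_option autoImplicit false

open NumberField

namespace Pool.Agent.H52.UB

/-- For every `i` and every choice `c` of the coordinates before `i`: the elements of `W i` take
arbitrary values at the points having a row whose exponent has these coordinates. -/
def NodeOnto {F : Type*} [Field F] {Z : Type} {q : ℕ} {D V : Type} (a : D ⊕ V → Fin q → ℕ)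
    (ι : D ⊕ V → Z) (W : Fin q → Submodule F (Z → F)) : Prop :=
  ∀ (i : Fin q) (c : Fin q → ℕ) (f : D ⊕ V → F), ∃ w ∈ W i, ∀ ρ : Ix q D V,
    (∀ l < i, bet a ρ l = c l) → w (ι (pt ρ)) = f (pt ρ)

/-- The combinations of the first `s` vectors take arbitrary values on `A`. -/
def FreeAt {F : Type*} [Field F] {n : ℕ} (w : Fin n → Fin n → F) (s : ℕ) (A : Set (Fin n)) :
    Prop :=
  ∀ f : Fin n → F, ∃ v : Fin n → F, (∀ l : Fin n, s ≤ (l : ℕ) → v l = 0) ∧
    ∀ j ∈ A, ∑ l, v l * w l j = f j

/-- For every `i` and every choice `c` of the coordinates before `i`: the combinations of the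
first `s i` vectors take arbitrary values at the places having an exponent with these
coordinates. -/
def Reach {F : Type*} [Field F] {n q : ℕ} (a : Fin n → Fin (q + 1) → ℕ) (s : Fin (q + 1) → ℕ)
    (w : Fin n → Fin n → F) : Prop :=
  ∀ (i : Fin (q + 1)) (c : Fin (q + 1) → ℕ),
    FreeAt w (s i) {j | ∃ i', ∀ l < i, tbet a (j, i') l = c l}

/-- Blocks: the size of every block `t` is at most `⌈s m / n⌉`, `m` the number of the places in
the blocks `≥ t`. -/
def BlockOK (n s : ℕ) (blk : Fin n → ℕ) : Prop :=
  ∀ t : ℕ, n * Nat.card {j : Fin n // blk j = t} < s * Nat.card {j : Fin n // t ≤ blk j} + n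

/-- A tile system (as in `Tiles`) with blocks: places with exponents which agree in the first `h`
coordinates are in the same block. -/
structure BTiles (n q d h s : ℕ) (blk : Fin n → ℕ) (a : Fin n → Fin (q + 1) → ℕ) : Prop where
  pos : ∀ j, 1 ≤ a j 0
  inj : Function.Injective (tbet a)
  deg : ∀ ρ, ∑ l, tbet a ρ l ≤ d
  ok : BlockOK n s blk
  one : ∀ ρ ρ' : Fin n × Fin (q + 1),
    (∀ l : Fin (q + 1), (l : ℕ) < h → tbet a ρ l = tbet a ρ' l) → blk ρ.1 = blk ρ'.1

/-- the exponent of the `l`-th coordinate -/
noncomputable def ex2 (n q h s : ℕ) (l : Fin (q + 1)) : ℝ :=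
  if (l : ℕ) < h then 1 / (n : ℝ) else 1 / (2 * (n - s + 1))

/-- the exponent of the bound for all extensions of degree `n` -/
noncomputable def expo2 (n q h s : ℕ) (a : Fin n → Fin (q + 1) → ℕ) : ℝ :=
  ∑ ρ, ∑ l, (tbet a ρ l : ℝ) * ex2 n q h s l

/-- The extensions of `k` of degree `n` in the algebraic closure with the property `Q` and with
`|N(disc)| ≤ B`, up to isomorphism. -/
abbrev Cls (k : Type) [Field k] [NumberField k] (n : ℕ)
    (Q : IntermediateField k (AlgebraicClosure k) → Prop) (B : ℝ) : Type :=
  Quot (fun L L' : {M : IntermediateField k (AlgebraicClosure k) //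
      Module.finrank k M = n ∧ Q M ∧ ∃ h : NumberField M,
        ((|@NumberField.discr M _ h| : ℤ) : ℝ) ≤ B * ((|NumberField.discr k| : ℤ) : ℝ) ^ n}
    => Nonempty (L.1 ≃ₐ[k] L'.1))

/-- All extensions of `k` of degree `n` with `|N(disc)| ≤ B`, up to isomorphism. -/
abbrev ExtCls (k : Type) [Field k] [NumberField k] (n : ℕ) (B : ℝ) : Type :=
  Quot (fun L L' : {M : IntermediateField k (AlgebraicClosure k) //
      Module.finrank k M = n ∧ ∃ h : NumberField M,
        ((|@NumberField.discr M _ h| : ℤ) : ℝ) ≤ B * ((|NumberField.discr k| : ℤ) : ℝ) ^ n}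
    => Nonempty (L.1 ≃ₐ[k] L'.1))

/-- The number of all extensions of `k` of degree `n` with `|N(disc)| ≤ B`, up to isomorphism. -/
noncomputable def extCount (k : Type) [Field k] [NumberField k] (n : ℕ) (B : ℝ) : ℕ :=
  Nat.card (ExtCls k n B)

/-- the number of the coordinates with all of `K` used in the asymptotics -/
def hfull (q : ℕ) : ℕ := 4 * (Nat.log 2 (q + 1) + 1)

end Pool.Agent.H52.UB
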