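import Pool.Agent.H52.UB.Defs

/-!
# Project UB, row UB-18: degree and size of the Jacobian
-/

set_option autoImplicit false

open NumberField Polynomial Module

namespace Pool.Agent.H52.UB

private theorem ub18_map_jac {R S : Type*} [CommRing R] [CommRing S] {n q : ℕ} (f : R →+* S)
    (β : Fin n × Fin (q + 1) → Fin (q + 1) → ℕ) (x : Fin n → Fin (q + 1) → R) :
    f (jac β x).det = (jac β (fun j i => f (x j i))).det := by
  rw [RingHom.map_det]
  congr 1
  ext ρ' ρ
  rw [RingHom.mapMatrix_apply, Matrix.map_apply]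
  unfold jac
  rw [map_mul, map_natCast, map_prod]
  congr 1
  refine Finset.prod_congr rfl fun l _ => ?_
  rw [map_pow]

theorem jac_deg {k : Type} [Field k] [NumberField k] {n q : ℕ}
    {M : IntermediateField k (AlgebraicClosure k)} [NumberField M] (hd : finrank k M = n)
    (e : (M →ₐ[k] AlgebraicClosure k) ≃ Fin n)
    (β : Fin n × Fin (q + 1) → Fin (q + 1) → ℕ) (x : Fin (q + 1) → 𝓞 M) (z : Zb k)
    (hz : (z : AlgebraicClosure k) = (jac β (fun j i => e.symm j (x i : M))).det) :
    (minpoly ℤ z).natDegree ≤ finrank ℚ k * n.factorial := by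
  classical
  set y : AlgebraicClosure k := (z : AlgebraicClosure k) with hy
  have hint : IsIntegral ℤ y := z.2
  have hintk : IsIntegral k y := hint.tower_top
  -- the degree over `k`
  have hk : (minpoly k y).natDegree ≤ n.factorial := by
    have hsep : (minpoly k y).Separable := (minpoly.irreducible hintk).separable
    have hsplit : ((minpoly k y).map (algebraMap k (AlgebraicClosure k))).Splits :=
      IsAlgClosed.splits _
    rw [← card_rootSet_eq_natDegree (K := AlgebraicClosure k) hsep hsplit]
    have hsub : (minpoly k y).rootSet (AlgebraicClosure k) ⊆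
        ((Finset.univ : Finset (Equiv.Perm (Fin n))).image fun π =>
          (jac β (fun j i => e.symm (π j) (x i : M))).det : Finset (AlgebraicClosure k)) := by
      intro w hw
      have hw2 : aeval w (minpoly k y) = 0 := (mem_rootSet.1 hw).2
      obtain ⟨σ, hσ⟩ := minpoly.exists_algEquiv_of_root' hintk.isAlgebraic hw2
      have hinj : Function.Injective
          (fun j : Fin n => e ((σ : AlgebraicClosure k →ₐ[k] AlgebraicClosure k).comp (e.symm j))) := by
        intro i j hij
        have h1 := e.injective hij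
        apply e.symm.injective
        ext m
        have h2 := congrArg (fun f : M →ₐ[k] AlgebraicClosure k => f m) h1
        exact σ.injective h2
      set π : Equiv.Perm (Fin n) := Equiv.ofBijective _ (Finite.injective_iff_bijective.1 hinj)
        with hπ
      rw [Finset.coe_image, Finset.coe_univ, Set.image_univ]
      refine ⟨π, ?_⟩
      have h3 : ∀ j, e.symm (π j) =
          (σ : AlgebraicClosure k →ₐ[k] AlgebraicClosure k).comp (e.symm j) := by
        intro j
        rw [hπ, Equiv.ofBijective_apply, Equiv.symm_apply_apply]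
      have h4 := ub18_map_jac (σ : AlgebraicClosure k →+* AlgebraicClosure k) β
        (fun j i => e.symm j (x i : M))
      rw [← hz] at h4
      change (jac β (fun j i => e.symm (π j) (x i : M))).det = w
      rw [← hσ]
      refine Eq.trans ?_ h4.symm
      congr 2
      funext j i
      rw [h3]
      rfl
    have h5 : Fintype.card ((minpoly k y).rootSet (AlgebraicClosure k)) =
        ((minpoly k y).rootSet (AlgebraicClosure k)).ncard := by
      rw [← Nat.card_eq_fintype_card, Nat.card_coe_set_eq]
    rw [h5]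
    refine (Set.ncard_le_ncard hsub (Finset.finite_toSet _)).trans ?_
    rw [Set.ncard_coe_finset]
    refine Finset.card_image_le.trans ?_
    rw [Finset.card_univ, Fintype.card_perm, Fintype.card_fin]
  -- the degree over `ℚ`
  have h1 : (minpoly ℤ z).natDegree = (minpoly ℚ y).natDegree := by
    have h2 : minpoly ℤ y = minpoly ℤ z :=
      minpoly.algebraMap_eq (A := ℤ) (B := Zb k) (B' := AlgebraicClosure k)
        Subtype.coe_injective z
    rw [minpoly.isIntegrallyClosed_eq_field_fractions' ℚ hint, h2]
    exact ((minpoly.monic (Algebra.IsIntegral.isIntegral z)).natDegree_map _).symm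
  rw [h1]
  have : FiniteDimensional k (IntermediateField.adjoin k {y}) :=
    IntermediateField.adjoin.finiteDimensional hintk
  have h3 : (minpoly ℚ y).natDegree ≤ finrank ℚ (IntermediateField.adjoin k {y}) := by
    have : FiniteDimensional ℚ (IntermediateField.adjoin k {y}) :=
      FiniteDimensional.trans ℚ k _
    have h4 := minpoly.natDegree_le (A := ℚ) (IntermediateField.AdjoinSimple.gen k y)
    have h5 : minpoly ℚ y = minpoly ℚ (IntermediateField.AdjoinSimple.gen k y) := by
      have h6 := minpoly.algebraMap_eq (A := ℚ) (B := IntermediateField.adjoin k {y})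
        (B' := AlgebraicClosure k) Subtype.coe_injective (IntermediateField.AdjoinSimple.gen k y)
      exact h6
    rw [h5]
    exact h4
  refine h3.trans ?_
  rw [← Module.finrank_mul_finrank ℚ k (IntermediateField.adjoin k {y}),
    IntermediateField.adjoin.finrank hintk]
  exact Nat.mul_le_mul_left _ hk

theorem jac_size {k : Type} [Field k] [NumberField k] {n q d : ℕ}
    {M : IntermediateField k (AlgebraicClosure k)} [NumberField M]
    (e : (M →ₐ[k] AlgebraicClosure k) ≃ Fin n)
    (β : Fin n × Fin (q + 1) → Fin (q + 1) → ℕ) (hβ : ∀ ρ, ∑ l, β ρ l ≤ d)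
    (x : Fin (q + 1) → 𝓞 M) (Y : ℝ) (hY : 1 ≤ Y) (hx : ∀ i, house (x i : M) ≤ Y)
    (φ : AlgebraicClosure k →+* ℂ) :
    ‖φ (jac β (fun j i => e.symm j (x i : M))).det‖ ≤
      (n * (q + 1)).factorial * ((d : ℝ) * Y ^ d) ^ (n * (q + 1)) := by
  rw [ub18_map_jac]
  have h1 := Matrix.det_le (A := jac β (fun j i => φ (e.symm j (x i : M))))
    (abv := NormedField.toAbsoluteValue ℂ) (x := (d : ℝ) * Y ^ d) (fun ρ' ρ => by
      change ‖((β ρ' ρ.2 : ℕ) : ℂ) *
        ∏ l, φ (e.symm ρ.1 (x l : M)) ^ (β ρ' l - if l = ρ.2 then 1 else 0)‖ ≤ _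
      rw [norm_mul, norm_prod, Complex.norm_natCast]
      have h2 : ((β ρ' ρ.2 : ℕ) : ℝ) ≤ d := by
        exact_mod_cast (Finset.single_le_sum (f := fun l => β ρ' l) (fun _ _ => Nat.zero_le _)
          (Finset.mem_univ ρ.2)).trans (hβ ρ')
      have h3 : ∏ l, ‖φ (e.symm ρ.1 (x l : M)) ^ (β ρ' l - if l = ρ.2 then 1 else 0)‖ ≤ Y ^ d := by
        calc ∏ l, ‖φ (e.symm ρ.1 (x l : M)) ^ (β ρ' l - if l = ρ.2 then 1 else 0)‖
            ≤ ∏ l, Y ^ β ρ' l := by
              refine Finset.prod_le_prod (fun l _ => norm_nonneg _) fun l _ => ?_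
              rw [norm_pow]
              have h4 : ‖φ (e.symm ρ.1 (x l : M))‖ ≤ Y :=
                (norm_embedding_le_house (x l : M)
                  (φ.comp (e.symm ρ.1 : M →+* AlgebraicClosure k))).trans (hx l)
              calc ‖φ (e.symm ρ.1 (x l : M))‖ ^ (β ρ' l - if l = ρ.2 then 1 else 0)
                  ≤ Y ^ (β ρ' l - if l = ρ.2 then 1 else 0) :=
                    pow_le_pow_left₀ (norm_nonneg _) h4 _
                _ ≤ Y ^ β ρ' l := pow_le_pow_right₀ hY (Nat.sub_le _ _)
          _ = Y ^ ∑ l, β ρ' l := Finset.prod_pow_eq_pow_sum _ _ _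
          _ ≤ Y ^ d := pow_le_pow_right₀ hY (hβ ρ')
      exact mul_le_mul h2 h3 (Finset.prod_nonneg fun _ _ => norm_nonneg _) (Nat.cast_nonneg d))
  have h2 : Fintype.card (Fin n × Fin (q + 1)) = n * (q + 1) := by
    rw [Fintype.card_prod, Fintype.card_fin, Fintype.card_fin]
  rw [h2, nsmul_eq_mul] at h1
  exact h1

end Pool.Agent.H52.UB
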