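import Mathlib
import Pool.Agent.H67.MU.Defs

/-!
# Project UB (MP_a3214d): definitions

Upper bound for Malle's counting function for the groups `S_n` and `A_n`.
Monomials, nodes of the tile lemma, the Jacobian of the traces, systems of minima.
-/

set_option autoImplicit false

open NumberField

namespace Pool.Agent.H52.UB

/-- the monomial `x^b` -/
def mon {R : Type*} [CommMonoid R] {q : ℕ} (x : Fin q → R) (b : Fin q → ℕ) : R :=
  ∏ i, x i ^ b i

section Node

variable {q : ℕ} {D V : Type}

/-- The rows (and the columns) of the matrix of a node with double points `D` and simple points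
`V`. -/
abbrev Ix (q : ℕ) (D V : Type) : Type := (D × Option (Fin q)) ⊕ V

/-- the point of a row -/
def pt : Ix q D V → D ⊕ V
  | .inl (j, _) => .inl j
  | .inr v => .inr v

/-- the exponent of a column -/
def bet (a : D ⊕ V → Fin q → ℕ) : Ix q D V → Fin q → ℕ
  | .inl (j, none) => a (.inl j)
  | .inl (j, some i) => a (.inl j) + Pi.single i 1
  | .inr v => a (.inr v)

/-- the factor of a row: `1` for a value row, `b_i` for the derivative row in direction `i` -/
def wt : Ix q D V → (Fin q → ℕ) → ℕ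
  | .inl (_, none), _ => 1
  | .inl (_, some i), b => b i
  | .inr _, _ => 1

/-- the matrix of a node with the exponents `a` at the points `x` -/
def nodeMat {R : Type*} [CommRing R] (a : D ⊕ V → Fin q → ℕ) (x : D ⊕ V → Fin q → R) :
    Matrix (Ix q D V) (Ix q D V) R :=
  fun ρ ρ' => (wt ρ (bet a ρ') : R) * mon (x (pt ρ)) (bet a ρ')

end Node

section Slice

variable {q : ℕ} {D V : Type}

/-- the double points of the slice `e` -/
abbrev SD (a : D ⊕ V → Fin (q + 1) → ℕ) (e : ℕ) : Type := {j : D // a (.inl j) 0 = e}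

/-- the simple points of the slice `e` -/
abbrev SV (a : D ⊕ V → Fin (q + 1) → ℕ) (e : ℕ) : Type :=
  {j : D // a (.inl j) 0 + 1 = e} ⊕ {v : V // a (.inr v) 0 = e}

/-- the points of the slice `e` as points of the node -/
def sp (a : D ⊕ V → Fin (q + 1) → ℕ) (e : ℕ) : SD a e ⊕ SV a e → D ⊕ V
  | .inl j => .inl j.1
  | .inr (.inl j) => .inl j.1
  | .inr (.inr v) => .inr v.1

/-- the exponents of the slice `e` -/
def sa (a : D ⊕ V → Fin (q + 1) → ℕ) (e : ℕ) : SD a e ⊕ SV a e → Fin q → ℕ :=
  fun p => Fin.tail (a (sp a e p))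

end Slice

/-- `W` is onto `F^A` for every set `A` of at most `s` places. -/
def Onto {F Z : Type*} [Field F] (W : Submodule F (Z → F)) (s : ℕ) : Prop :=
  ∀ A : Finset Z, A.card ≤ s → ∀ f : Z → F, ∃ w ∈ W, ∀ z ∈ A, w z = f z

/-- `f` is a polynomial function of degree at most `d` on every line. -/
def LP {F V : Type*} [Field F] [AddCommGroup V] [Module F V] (d : ℕ) (f : V → F) : Prop :=
  ∀ x y : V, ∃ p : Polynomial F, p.natDegree ≤ d ∧ ∀ t : F, f (x + t • y) = p.eval t

section Top

variable {n q : ℕ}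

/-- The exponents of the tiles at the top level: `a_j` and `a_j + e_i`, `i ≠ 0`. -/
def tbet (a : Fin n → Fin (q + 1) → ℕ) : Fin n × Fin (q + 1) → Fin (q + 1) → ℕ :=
  fun ρ => if ρ.2 = 0 then a ρ.1 else a ρ.1 + Pi.single ρ.2 1

/-- The matrix `b_i x_j^b` (rows `(j,i)`, columns the exponents `b` of the tiles). -/
def topMat {R : Type*} [CommRing R] (a : Fin n → Fin (q + 1) → ℕ) (x : Fin n → Fin (q + 1) → R) :
    Matrix (Fin n × Fin (q + 1)) (Fin n × Fin (q + 1)) R :=
  fun ρ ρ' => ((tbet a ρ' ρ.2 : ℕ) : R) * mon (x ρ.1) (tbet a ρ')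

/-- The Jacobian matrix of the power sums `∑_j x_j^b`, `b = β ρ'`. -/
def jac {R : Type*} [CommRing R] (β : Fin n × Fin (q + 1) → Fin (q + 1) → ℕ)
    (x : Fin n → Fin (q + 1) → R) : Matrix (Fin n × Fin (q + 1)) (Fin n × Fin (q + 1)) R :=
  fun ρ' ρ => ((β ρ' ρ.2 : ℕ) : R) *
    ∏ l, x ρ.1 l ^ (β ρ' l - if l = ρ.2 then 1 else 0)

/-- A tile system: `n` disjoint tiles of total degree at most `d`; for every `i` and every choice
of the coordinates before `i`, at most `s i` tiles have an exponent with these coordinates. -/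
structure Tiles (n q d : ℕ) (s : Fin (q + 1) → ℕ) (a : Fin n → Fin (q + 1) → ℕ) : Prop where
  pos : ∀ j, 1 ≤ a j 0
  inj : Function.Injective (tbet a)
  deg : ∀ ρ, ∑ l, tbet a ρ l ≤ d
  size : ∀ (i : Fin (q + 1)) (c : Fin (q + 1) → ℕ),
    Nat.card {j : Fin n // ∃ i', ∀ l < i, tbet a (j, i') l = c l} ≤ s i
  le : ∀ i, s i ≤ n

/-- the exponent of the bound -/
noncomputable def expo (n q : ℕ) (s : Fin (q + 1) → ℕ) (a : Fin n → Fin (q + 1) → ℕ) : ℝ :=
  ∑ ρ, ∑ l, (tbet a ρ l : ℝ) / (2 * n - s l)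

/-- the sizes `s` used for all exponents of degree at most `d` -/
def sz (n q d : ℕ) (l : Fin (q + 1)) : ℕ := min n (Nat.choose (d + (q + 1) - l) d)

end Top

/-- Square systems of vectors (`w l` the vector of the conjugates of the `l`-th element): the
first `t` vectors are onto at any `t` places. -/
def Unif {F : Type*} [Field F] {n : ℕ} (w : Fin n → Fin n → F) : Prop :=
  ∀ t : ℕ, t ≤ n → ∀ A : Finset (Fin n), A.card ≤ t → ∀ f : Fin n → F,
    ∃ c : Fin n → F, (∀ l : Fin n, t ≤ (l : ℕ) → c l = 0) ∧ ∀ j ∈ A, ∑ l, c l * w l j = f j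

/-- A system of minima over `k` of the integers of `K`. -/
structure MinSys (k K : Type) [Field k] [NumberField k] [Field K] [NumberField K] [Algebra k K]
    (n : ℕ) (θ : Fin n → 𝓞 K) (lam : Fin n → ℝ) : Prop where
  indep : LinearIndependent k (fun i => (θ i : K))
  mono : Monotone lam
  one_le : ∀ i, 1 ≤ lam i
  le : ∀ i, house (θ i : K) ≤ lam i
  min : ∀ (i : Fin n) (x : 𝓞 K), house (x : K) < lam i →
    (x : K) ∈ Submodule.span k ((fun l => (θ l : K)) '' {l | l < i})

/-- The ring of all algebraic integers in the algebraic closure of `k`. -/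
abbrev Zb (k : Type) [Field k] : Type := integralClosure ℤ (AlgebraicClosure k)

end Pool.Agent.H52.UB
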