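import Mathlib
import Pool.Agent.H52.UB.Defs

/-!
# Project UB: the number of residues (row UB-16)
-/

set_option autoImplicit false

open NumberField Polynomial Module

namespace Pool.Agent.H52.UB

/-- the integers of `k` in the ring of all algebraic integers -/
noncomputable def ub16_inc (k : Type) [Field k] [NumberField k] : 𝓞 k →+* Zb k :=
  RingHom.codRestrict (algebraMap (𝓞 k) (AlgebraicClosure k))
    (integralClosure ℤ (AlgebraicClosure k))
    (fun x => map_isIntegral_int (algebraMap (𝓞 k) (AlgebraicClosure k))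
      (RingOfIntegers.isIntegral x))

theorem ub16_card (k : Type) [Field k] [NumberField k] (p : ℕ) (hp : p.Prime)
    (R : Type) [Ring R] (φ : 𝓞 k →+* R) (h : φ (p : 𝓞 k) = 0) :
    Finite φ.range ∧ Nat.card φ.range ≤ p ^ finrank ℚ k := by
  have h1 : (Ideal.span {(p : 𝓞 k)}) ≤ RingHom.ker φ := by
    rw [Ideal.span_singleton_le_iff_mem]
    exact h
  have hne : Ideal.span {(p : 𝓞 k)} ≠ ⊥ := by
    rw [Ne, Ideal.span_singleton_eq_bot]
    exact_mod_cast hp.ne_zero
  have hfin : Finite (𝓞 k ⧸ Ideal.span {(p : 𝓞 k)}) :=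
    Ideal.finiteQuotientOfFreeOfNeBot _ hne
  have hcard : Nat.card (𝓞 k ⧸ Ideal.span {(p : 𝓞 k)}) = p ^ finrank ℚ k := by
    have h2 : Nat.card (𝓞 k ⧸ Ideal.span {(p : 𝓞 k)}) = Ideal.absNorm (Ideal.span {(p : 𝓞 k)}) :=
      rfl
    rw [h2, Ideal.absNorm_span_singleton]
    have h3 : (p : 𝓞 k) = algebraMap ℤ (𝓞 k) (p : ℤ) := by simp
    rw [h3, Algebra.norm_algebraMap, RingOfIntegers.rank]
    rw [Int.natAbs_pow, Int.natAbs_natCast]
  let ψ : (𝓞 k ⧸ Ideal.span {(p : 𝓞 k)}) → φ.range :=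
    fun y => ⟨Ideal.Quotient.lift (Ideal.span {(p : 𝓞 k)}) φ (fun a ha => h1 ha) y, by
      obtain ⟨x, rfl⟩ := Ideal.Quotient.mk_surjective y
      rw [Ideal.Quotient.lift_mk]
      exact ⟨x, rfl⟩⟩
  have hψ : Function.Surjective ψ := by
    rintro ⟨y, x, rfl⟩
    refine ⟨Ideal.Quotient.mk _ x, ?_⟩
    apply Subtype.ext
    simp only [ψ, Ideal.Quotient.lift_mk]
  refine ⟨Finite.of_surjective ψ hψ, ?_⟩
  rw [← hcard]
  exact Nat.card_le_card_of_surjective ψ hψ

theorem residues (k : Type) [Field k] [NumberField k] (n p : ℕ) (hp : p.Prime)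
    (P : Ideal (Zb k)) [P.IsMaximal] (hP : (p : Zb k) ∈ P) :
    Set.Finite {y : Zb k ⧸ P | ∃ x : Zb k, (∃ f : (𝓞 k)[X], f.Monic ∧ f.natDegree = n ∧
      (f.map (algebraMap (𝓞 k) (AlgebraicClosure k))).eval (x : AlgebraicClosure k) = 0) ∧
      Ideal.Quotient.mk P x = y} ∧
    Set.ncard {y : Zb k ⧸ P | ∃ x : Zb k, (∃ f : (𝓞 k)[X], f.Monic ∧ f.natDegree = n ∧
      (f.map (algebraMap (𝓞 k) (AlgebraicClosure k))).eval (x : AlgebraicClosure k) = 0) ∧
      Ideal.Quotient.mk P x = y} ≤ n * p ^ (n * finrank ℚ k) := by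
  classical
  set S : Set (Zb k ⧸ P) := {y : Zb k ⧸ P | ∃ x : Zb k, (∃ f : (𝓞 k)[X], f.Monic ∧
      f.natDegree = n ∧
      (f.map (algebraMap (𝓞 k) (AlgebraicClosure k))).eval (x : AlgebraicClosure k) = 0) ∧
      Ideal.Quotient.mk P x = y} with hS
  let φ : 𝓞 k →+* Zb k ⧸ P := (Ideal.Quotient.mk P).comp (ub16_inc k)
  have hφ : φ (p : 𝓞 k) = 0 := by
    rw [map_natCast]
    have h1 : Ideal.Quotient.mk P (p : Zb k) = 0 := Ideal.Quotient.eq_zero_iff_mem.mpr hP
    rwa [map_natCast] at h1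
  obtain ⟨hfin, hcard⟩ := ub16_card k p hp (Zb k ⧸ P) φ hφ
  have : Fintype φ.range := Fintype.ofFinite _
  let F : (Fin n → φ.range) → (Zb k ⧸ P)[X] := fun c =>
    X ^ n + ∑ i : Fin n, C ((c i : Zb k ⧸ P)) * X ^ (i : ℕ)
  have hF : ∀ c, (F c).natDegree ≤ n := by
    intro c
    refine Polynomial.natDegree_add_le_of_degree_le (Polynomial.natDegree_X_pow_le n) ?_
    refine Polynomial.natDegree_sum_le_of_forall_le _ _ ?_
    intro i _
    exact le_trans (Polynomial.natDegree_C_mul_X_pow_le _ _) i.2.le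
  let T : Finset (Zb k ⧸ P) := Finset.univ.biUnion (fun c => (F c).roots.toFinset)
  have hST : S ⊆ (T : Set (Zb k ⧸ P)) := by
    rintro y ⟨x, ⟨f, hf, hd, hx⟩, rfl⟩
    have h1 : f.eval₂ (ub16_inc k) x = 0 := by
      apply Subtype.ext
      have h2 := Polynomial.hom_eval₂ f (ub16_inc k)
        ((integralClosure ℤ (AlgebraicClosure k)).subtype : _ →+* AlgebraicClosure k) x
      rw [Polynomial.eval_map] at hx
      refine Eq.trans h2 ?_
      exact hx
    have h3 : f.eval₂ φ (Ideal.Quotient.mk P x) = 0 := by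
      rw [← Polynomial.hom_eval₂, h1, map_zero]
    have h4 : (f.map φ).Monic := hf.map φ
    have h5 : (f.map φ).natDegree = n := by rw [hf.natDegree_map, hd]
    let c : Fin n → φ.range := fun i => ⟨φ (f.coeff i), ⟨_, rfl⟩⟩
    have h6 : F c = f.map φ := by
      rw [h4.as_sum, h5]
      simp only [F, c]
      congr 1
      rw [Finset.sum_range]
      refine Finset.sum_congr rfl (fun i _ => ?_)
      rw [Polynomial.coeff_map]
    simp only [T, Finset.coe_biUnion, Finset.mem_coe, Finset.mem_univ, Set.iUnion_true,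
      Set.mem_iUnion]
    refine ⟨c, ?_⟩
    rw [h6, Multiset.mem_toFinset, Polynomial.mem_roots h4.ne_zero, Polynomial.IsRoot.def,
      Polynomial.eval_map]
    exact h3
  have hT : T.card ≤ n * p ^ (n * finrank ℚ k) := by
    refine le_trans (Finset.card_biUnion_le_card_mul _ _ n (fun c _ => ?_)) ?_
    · exact le_trans (Multiset.toFinset_card_le _) (le_trans (Polynomial.card_roots' _) (hF c))
    · rw [mul_comm]
      refine Nat.mul_le_mul_left _ ?_
      rw [Finset.card_univ, Fintype.card_fun, Fintype.card_fin, mul_comm n, pow_mul]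
      rw [← Nat.card_eq_fintype_card]
      exact Nat.pow_le_pow_left hcard n
  refine ⟨T.finite_toSet.subset hST, ?_⟩
  refine le_trans (Set.ncard_le_ncard hST T.finite_toSet) ?_
  rwa [Set.ncard_coe_finset]

end Pool.Agent.H52.UB
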