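import Pool.Agent.H52.UB.Defs

/-!
# UB-20: the point determines the field
-/

set_option autoImplicit false

open NumberField Polynomial Module

namespace Pool.Agent.H52.UB

/-- If the Jacobian is non-zero, the points `X j` are different. -/
theorem ub20_inj {F : Type*} [Field F] {n q : ℕ}
    (β : Fin n × Fin (q + 1) → Fin (q + 1) → ℕ) (X : Fin n → Fin (q + 1) → F)
    (hJ : (jac β X).det ≠ 0) : Function.Injective X := by
  intro j j' h
  by_contra hne
  apply hJ
  refine Matrix.det_zero_of_column_eq (i := (j, 0)) (j := (j', 0)) ?_ ?_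
  · intro h'
    exact hne (congrArg Prod.fst h')
  · intro ρ
    simp only [jac]
    rw [h]

/-- elements with different conjugates generate the field -/
theorem ub20_top {k : Type} [Field k] [NumberField k] {n q : ℕ} (hn : 1 ≤ n)
    {M : IntermediateField k (AlgebraicClosure k)} (hd : finrank k M = n)
    (e : (M →ₐ[k] AlgebraicClosure k) ≃ Fin n) (x : Fin (q + 1) → M)
    (hinj : Function.Injective (fun (j : Fin n) (i : Fin (q + 1)) => e.symm j (x i))) :
    IntermediateField.adjoin k (Set.range x) = ⊤ := by
  have : FiniteDimensional k M := FiniteDimensional.of_finrank_pos (by omega)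
  set F := IntermediateField.adjoin k (Set.range x) with hF
  have : FiniteDimensional k F := inferInstance
  have : CharZero k := inferInstance
  have h1 : Fintype.card (F →ₐ[k] AlgebraicClosure k) = finrank k F :=
    AlgHom.card k F (AlgebraicClosure k)
  have h2 : Function.Injective (fun j : Fin n => (e.symm j).comp F.val) := by
    intro j j' h
    apply hinj
    funext i
    have hi : x i ∈ F := IntermediateField.subset_adjoin k _ ⟨i, rfl⟩
    exact DFunLike.congr_fun h ⟨x i, hi⟩
  have h3 : n ≤ finrank k F := by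
    rw [← h1]
    simpa using Fintype.card_le_of_injective _ h2
  refine IntermediateField.eq_of_le_of_finrank_le le_top ?_
  rw [IntermediateField.finrank_top', hd]
  exact h3

theorem ub20_range {k : Type} [Field k] [NumberField k] {n q : ℕ} (hn : 1 ≤ n)
    {M : IntermediateField k (AlgebraicClosure k)} (hd : finrank k M = n)
    (e : (M →ₐ[k] AlgebraicClosure k) ≃ Fin n) (x : Fin (q + 1) → M)
    (hinj : Function.Injective (fun (j : Fin n) (i : Fin (q + 1)) => e.symm j (x i)))
    (σ : M →ₐ[k] AlgebraicClosure k) :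
    σ.fieldRange = IntermediateField.adjoin k (Set.range (fun i => σ (x i))) := by
  have h := ub20_top hn hd e x hinj
  rw [AlgHom.fieldRange_eq_map, ← h, IntermediateField.adjoin_map]
  congr 1
  rw [← Set.range_comp]
  rfl

theorem same_field {k : Type} [Field k] [NumberField k] {n q : ℕ} (hn : 1 ≤ n)
    {M M' : IntermediateField k (AlgebraicClosure k)} (hd : finrank k M = n)
    (hd' : finrank k M' = n) (e : (M →ₐ[k] AlgebraicClosure k) ≃ Fin n)
    (e' : (M' →ₐ[k] AlgebraicClosure k) ≃ Fin n)
    (β : Fin n × Fin (q + 1) → Fin (q + 1) → ℕ) (x : Fin (q + 1) → M) (x' : Fin (q + 1) → M')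
    (h : (fun (j : Fin n) i => e.symm j (x i)) = fun j i => e'.symm j (x' i))
    (hJ : (jac β (fun j i => e.symm j (x i))).det ≠ 0) : Nonempty (M ≃ₐ[k] M') := by
  have hinj := ub20_inj β _ hJ
  have hinj' : Function.Injective (fun (j : Fin n) i => e'.symm j (x' i)) := by
    rw [← h]
    exact hinj
  have h1 := ub20_range hn hd e x hinj (e.symm ⟨0, hn⟩)
  have h2 := ub20_range hn hd' e' x' hinj' (e'.symm ⟨0, hn⟩)
  have h3 : (fun i => (e.symm ⟨0, hn⟩) (x i)) = fun i => (e'.symm ⟨0, hn⟩) (x' i) :=
    congrFun h ⟨0, hn⟩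
  rw [h3, ← h2] at h1
  exact ⟨((AlgEquiv.ofInjectiveField (e.symm ⟨0, hn⟩)).trans
    (IntermediateField.equivOfEq h1)).trans
      (AlgEquiv.ofInjectiveField (e'.symm ⟨0, hn⟩)).symm⟩

end Pool.Agent.H52.UB
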