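import Pool.Agent.H52.UB.Defs

/-!
# Project UB (MP_a3214d), row UB-19: traces of monomials and characteristic polynomials
-/

set_option autoImplicit false

open NumberField Polynomial Module

namespace Pool.Agent.H52.UB

private theorem ub19_fin {k : Type} [Field k] [NumberField k]
    {M : IntermediateField k (AlgebraicClosure k)} [NumberField M] : FiniteDimensional k M :=
  Module.Finite.of_restrictScalars_finite ℚ k M

private theorem ub19_mon {A B : Type*} [CommRing A] [CommRing B] (φ : A →+* B) {q : ℕ}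
    (x : Fin q → A) (b : Fin q → ℕ) : φ (mon x b) = mon (fun i => φ (x i)) b := by
  simp [mon]

theorem trace_spec {k : Type} [Field k] [NumberField k] {n q : ℕ}
    {M : IntermediateField k (AlgebraicClosure k)} [NumberField M] (hd : finrank k M = n)
    (e : (M →ₐ[k] AlgebraicClosure k) ≃ Fin n) (x : Fin (q + 1) → 𝓞 M) (b : Fin (q + 1) → ℕ)
    (Y : Fin (q + 1) → ℝ) (hx : ∀ i, house (x i : M) ≤ Y i) :
    ∃ T : 𝓞 k, (algebraMap k (AlgebraicClosure k)) (T : k) =
        ∑ j, mon (fun i => e.symm j (x i : M)) b ∧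
      Pool.Agent.H67.MU.Bdd (n * ∏ i, Y i ^ b i) T := by
  have hfin : FiniteDimensional k M := ub19_fin
  set m : M := mon (fun i => (x i : M)) b with hm
  have hint : IsIntegral ℤ m := by
    rw [hm]
    refine IsIntegral.prod _ fun i _ => IsIntegral.pow ?_ _
    exact RingOfIntegers.isIntegral_coe (x i)
  have hTint : IsIntegral ℤ (Algebra.trace k M m) := Algebra.isIntegral_trace hint
  refine ⟨⟨Algebra.trace k M m, hTint⟩, ?_, ?_⟩
  · change (algebraMap k (AlgebraicClosure k)) (Algebra.trace k M m) = _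
    rw [trace_eq_sum_embeddings (AlgebraicClosure k)]
    refine Fintype.sum_equiv e _ _ fun σ => ?_
    rw [Equiv.symm_apply_apply, hm]
    exact ub19_mon (σ : M →+* AlgebraicClosure k) _ _
  · intro φ
    change ‖φ (Algebra.trace k M m)‖ ≤ _
    letI : Algebra k ℂ := φ.toAlgebra
    have h1 : φ (Algebra.trace k M m) = ∑ σ : M →ₐ[k] ℂ, σ m :=
      trace_eq_sum_embeddings (K := k) (L := M) ℂ (x := m)
    rw [h1]
    have hcard : Fintype.card (M →ₐ[k] ℂ) = n := by rw [AlgHom.card, hd]
    have h2 : ∀ σ : M →ₐ[k] ℂ, ‖σ m‖ ≤ ∏ i, Y i ^ b i := by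
      intro σ
      have h3 : σ m = mon (fun i => σ (x i : M)) b := by
        rw [hm]
        exact ub19_mon (σ : M →+* ℂ) _ _
      rw [h3, mon, norm_prod]
      refine Finset.prod_le_prod (fun i _ => norm_nonneg _) fun i _ => ?_
      rw [norm_pow]
      refine pow_le_pow_left₀ (norm_nonneg _) ?_ _
      exact (norm_embedding_le_house (x i : M) (σ : M →+* ℂ)).trans (hx i)
    refine (norm_sum_le _ _).trans ((Finset.sum_le_sum fun σ _ => h2 σ).trans ?_)
    rw [Finset.sum_const, Finset.card_univ, hcard, nsmul_eq_mul]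

/-- each conjugate is a root of a monic polynomial of degree `n` over the integers of `k` -/
theorem exists_charpoly {k : Type} [Field k] [NumberField k] {n : ℕ}
    {M : IntermediateField k (AlgebraicClosure k)} [NumberField M] (hd : finrank k M = n)
    (x : 𝓞 M) (σ : M →ₐ[k] AlgebraicClosure k) :
    ∃ f : (𝓞 k)[X], f.Monic ∧ f.natDegree = n ∧
      (f.map (algebraMap (𝓞 k) (AlgebraicClosure k))).eval (σ (x : M)) = 0 := by
  have hfin : FiniteDimensional k M := ub19_fin
  have hint : IsIntegral (𝓞 k) x := Algebra.IsIntegral.isIntegral x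
  have hmonic : (minpoly (𝓞 k) x).Monic := minpoly.monic hint
  have h1 : minpoly k (x : M) = (minpoly (𝓞 k) x).map (algebraMap (𝓞 k) k) :=
    minpoly.isIntegrallyClosed_eq_field_fractions k M hint
  have hdeg : (minpoly (𝓞 k) x).natDegree ≤ n := by
    rw [← hd, ← hmonic.natDegree_map (algebraMap (𝓞 k) k), ← h1]
    exact minpoly.natDegree_le _
  refine ⟨minpoly (𝓞 k) x * X ^ (n - (minpoly (𝓞 k) x).natDegree), hmonic.mul (monic_X_pow _), ?_,
    ?_⟩
  · rw [hmonic.natDegree_mul (monic_X_pow _), natDegree_X_pow]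
    omega
  · rw [Polynomial.map_mul, eval_mul]
    have h2 : ((minpoly (𝓞 k) x).map (algebraMap (𝓞 k) (AlgebraicClosure k))).eval (σ (x : M)) =
        0 := by
      have h3 : (minpoly (𝓞 k) x).map (algebraMap (𝓞 k) (AlgebraicClosure k)) =
          (minpoly k (x : M)).map (algebraMap k (AlgebraicClosure k)) := by
        rw [h1, Polynomial.map_map]
        congr 1
      rw [h3, eval_map, ← aeval_def]
      have h4 := minpoly.aeval k (x : M)
      have h5 := congrArg σ h4
      rw [map_zero, ← aeval_algHom_apply] at h5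
      exact h5
    rw [h2, zero_mul]

end Pool.Agent.H52.UB
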