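import Pool.Agent.H52.UB.Uniq
import Pool.Agent.H52.UB.Residues
import Pool.Agent.H52.UB.Prime
import Pool.Agent.H52.UB.JacSize
import Pool.Agent.H52.UB.Traces
import Pool.Agent.H52.UB.SameField
import Pool.Agent.H52.UB.Defs2
import Pool.Agent.H67.MU.Bdd

/-!
# Project UB (MP_a3214d): the count
-/

set_option autoImplicit false

open NumberField Polynomial Module

namespace Pool.Agent.H52.UB

theorem ub22_map_jac {R S : Type*} [CommRing R] [CommRing S] (f : R →+* S) {n q : ℕ}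
    (β : Fin n × Fin (q + 1) → Fin (q + 1) → ℕ) (x : Fin n → Fin (q + 1) → R) :
    f (jac β x).det = (jac β (fun j i => f (x j i))).det := by
  rw [RingHom.map_det]
  congr 1
  ext ρ' ρ
  simp [jac, RingHom.mapMatrix_apply, map_prod]

theorem ub22_map_mon {R S : Type*} [CommRing R] [CommRing S] (f : R →+* S) {q : ℕ}
    (x : Fin q → R) (b : Fin q → ℕ) : f (mon x b) = mon (fun i => f (x i)) b := by
  simp [mon, map_prod]

/-- two fields with the same data are isomorphic -/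
theorem ub22_same {k : Type} [Field k] [NumberField k] {n q : ℕ} (hn : 1 ≤ n)
    (β : Fin n × Fin (q + 1) → Fin (q + 1) → ℕ) (P : Ideal (Zb k)) [P.IsMaximal]
    {M M' : IntermediateField k (AlgebraicClosure k)} (hd : finrank k M = n)
    (hd' : finrank k M' = n) (e : (M →ₐ[k] AlgebraicClosure k) ≃ Fin n)
    (e' : (M' →ₐ[k] AlgebraicClosure k) ≃ Fin n) (x : Fin (q + 1) → M) (x' : Fin (q + 1) → M')
    (Xt Xt' : Fin n → Fin (q + 1) → Zb k)
    (hX : ∀ j i, (Xt j i : AlgebraicClosure k) = e.symm j (x i))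
    (hX' : ∀ j i, (Xt' j i : AlgebraicClosure k) = e'.symm j (x' i))
    (hT : ∀ ρ, ∑ j, mon (fun i => e.symm j (x i)) (β ρ) =
      ∑ j, mon (fun i => e'.symm j (x' i)) (β ρ))
    (hR : ∀ j i, Ideal.Quotient.mk P (Xt j i) = Ideal.Quotient.mk P (Xt' j i))
    (hJ : (jac β Xt).det ∉ P) : Nonempty (M ≃ₐ[k] M') := by
  have hinj : Function.Injective (algebraMap (Zb k) (AlgebraicClosure k)) :=
    Subtype.coe_injective
  have h1 : Xt = Xt' := by
    refine uniq P β Xt Xt' (fun ρ => ?_) (fun j i => ?_) hJ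
    · apply hinj
      rw [map_sum, map_sum]
      simp_rw [ub22_map_mon]
      have h2 := hT ρ
      have h3 : ∀ j, (fun i => algebraMap (Zb k) (AlgebraicClosure k) (Xt j i)) =
          fun i => e.symm j (x i) := fun j => funext fun i => hX j i
      have h4 : ∀ j, (fun i => algebraMap (Zb k) (AlgebraicClosure k) (Xt' j i)) =
          fun i => e'.symm j (x' i) := fun j => funext fun i => hX' j i
      simp_rw [h3, h4]
      exact h2
    · exact (Ideal.Quotient.eq.1 (hR j i).symm)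
  refine same_field hn hd hd' e e' β x x' ?_ ?_
  · funext j i
    rw [← hX, ← hX', h1]
  · have h2 : (jac β Xt).det ≠ 0 := by
      intro h0
      rw [h0] at hJ
      exact hJ P.zero_mem
    have h3 := ub22_map_jac (algebraMap (Zb k) (AlgebraicClosure k)) β Xt
    have h4 : (fun j i => algebraMap (Zb k) (AlgebraicClosure k) (Xt j i)) =
        fun j i => e.symm j (x i) := funext fun j => funext fun i => hX j i
    rw [h4] at h3
    rw [← h3]
    intro h5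
    exact h2 (hinj (by rw [h5, map_zero]))

/-- the bound for the conjugates of the Jacobian -/
noncomputable def ub22_Z (n q d : ℕ) (Y : ℝ) : ℝ :=
  2 * (n * (q + 1)).factorial * (((d : ℝ) + 1) * Y ^ d) ^ (n * (q + 1))

theorem ub22_two_le_Z (n q d : ℕ) {Y : ℝ} (hY : 1 ≤ Y) : 2 ≤ ub22_Z n q d Y := by
  unfold ub22_Z
  have h1 : (1 : ℝ) ≤ (n * (q + 1)).factorial := by
    exact_mod_cast Nat.one_le_iff_ne_zero.2 (Nat.factorial_ne_zero _)
  have h3 : (1 : ℝ) ≤ Y ^ d := one_le_pow₀ hY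
  have h4 : (1 : ℝ) ≤ ((d : ℝ) + 1) * Y ^ d :=
    one_le_mul_of_one_le_of_one_le (by have : (0 : ℝ) ≤ d := Nat.cast_nonneg d; linarith) h3
  have h5 : (1 : ℝ) ≤ (((d : ℝ) + 1) * Y ^ d) ^ (n * (q + 1)) := one_le_pow₀ h4
  have h6 := one_le_mul_of_one_le_of_one_le h1 h5
  rw [mul_assoc]
  linarith

/-- the exponents of the house bounds are at most `∑ E` -/
theorem ub22_exp_le {m q : ℕ} (hm : 1 ≤ m) {E : Fin (q + 1) → ℝ} (hE : ∀ i, 0 ≤ E i)
    (i : Fin (q + 1)) : E i / m ≤ ∑ l, E l := by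
  have h1 : (1 : ℝ) ≤ m := by exact_mod_cast hm
  have h2 : E i / m ≤ E i := div_le_self (hE i) h1
  exact h2.trans (Finset.single_le_sum (fun l _ => hE l) (Finset.mem_univ i))

/-- existence of the data -/
theorem ub22_exists (k : Type) [Field k] [NumberField k] {n q d : ℕ}
    {a : Fin n → Fin (q + 1) → ℕ} (hdeg : ∀ ρ, ∑ l, tbet a ρ l ≤ d) (E : Fin (q + 1) → ℝ)
    (hE : ∀ i, 0 ≤ E i) {C1 : ℝ} (hC1 : 1 ≤ C1) :
    ∃ C2 : ℝ, ∀ X : ℝ, 1 ≤ X →
      ∀ (M : IntermediateField k (AlgebraicClosure k)) [NumberField M], finrank k M = n →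
      ∀ (e : (M →ₐ[k] AlgebraicClosure k) ≃ Fin n) (x : Fin (q + 1) → 𝓞 M),
        (∀ i, house (x i : M) ≤ C1 * X ^ (E i / finrank ℚ k)) →
        (jac (tbet a) (fun j i => e.symm j (x i : M))).det ≠ 0 →
      ∃ (Xt : Fin n → Fin (q + 1) → Zb k) (T : Fin n × Fin (q + 1) → 𝓞 k) (p : ℕ),
        (∀ j i, (Xt j i : AlgebraicClosure k) = e.symm j (x i)) ∧
        (∀ ρ, (algebraMap k (AlgebraicClosure k)) (T ρ : k) =
          ∑ j, mon (fun i => e.symm j (x i)) (tbet a ρ)) ∧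
        (∀ ρ, Pool.Agent.H67.MU.Bdd (n * ∏ i, (C1 * X ^ (E i / finrank ℚ k)) ^
          tbet a ρ i) (T ρ)) ∧
        p.Prime ∧ (p : ℝ) ≤ Real.exp (C2 * √(Real.log (ub22_Z n q d (C1 * X ^ (∑ l, E l))))) ∧
        (∀ P : Ideal (Zb k), P.IsMaximal → (p : Zb k) ∈ P → (jac (tbet a) Xt).det ∉ P) ∧
        ∀ j i, ∃ f : (𝓞 k)[X], f.Monic ∧ f.natDegree = n ∧
          (f.map (algebraMap (𝓞 k) (AlgebraicClosure k))).eval (Xt j i : AlgebraicClosure k) = 0 := by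
  obtain ⟨C2, hC2, hpr⟩ := exists_prime k (finrank ℚ k * n.factorial)
  refine ⟨C2, ?_⟩
  intro X hX M _ hd e x hx hJ
  have hint : ∀ j i, IsIntegral ℤ (e.symm j (x i : M)) := fun j i =>
    map_isIntegral_int (e.symm j : M →+* AlgebraicClosure k) (RingOfIntegers.isIntegral_coe (x i))
  choose T hT1 hT2 using fun ρ : Fin n × Fin (q + 1) => trace_spec hd e x (tbet a ρ)
    (fun i => C1 * X ^ (E i / finrank ℚ k)) hx
  set Xt : Fin n → Fin (q + 1) → Zb k := fun j i => ⟨e.symm j (x i : M), hint j i⟩ with hXt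
  have hz : (((jac (tbet a) Xt).det : Zb k) : AlgebraicClosure k) =
      (jac (tbet a) (fun j i => e.symm j (x i : M))).det :=
    ub22_map_jac (algebraMap (Zb k) (AlgebraicClosure k)) (tbet a) Xt
  have hm : 1 ≤ finrank ℚ k := finrank_pos
  have hXE : 1 ≤ X ^ (∑ l, E l) := Real.one_le_rpow hX (Finset.sum_nonneg fun l _ => hE l)
  have hY : 1 ≤ C1 * X ^ (∑ l, E l) := one_le_mul_of_one_le_of_one_le hC1 hXE
  obtain ⟨p, hp, hpb, hpP⟩ := hpr (jac (tbet a) Xt).det (ub22_Z n q d (C1 * X ^ (∑ l, E l))) (by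
      intro h0
      rw [h0] at hz
      exact hJ (by rw [← hz]; rfl))
    (ub22_two_le_Z n q d hY) (jac_deg hd e (tbet a) x _ hz) (fun φ => by
      rw [hz]
      refine (jac_size e (tbet a) hdeg x (C1 * X ^ (∑ l, E l)) hY (fun i => (hx i).trans ?_)
        φ).trans ?_
      · refine mul_le_mul_of_nonneg_left ?_ (by linarith)
        exact Real.rpow_le_rpow_of_exponent_le hX (ub22_exp_le hm hE i)
      · unfold ub22_Z
        set Y := C1 * X ^ (∑ l, E l)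
        have h1 : (0 : ℝ) ≤ (n * (q + 1)).factorial := Nat.cast_nonneg _
        have h2 : ((d : ℝ) * Y ^ d) ^ (n * (q + 1)) ≤ (((d : ℝ) + 1) * Y ^ d) ^ (n * (q + 1)) := by
          refine pow_le_pow_left₀ (by positivity) ?_ _
          exact mul_le_mul_of_nonneg_right (by linarith) (by positivity)
        have h3 : (0 : ℝ) ≤ (((d : ℝ) + 1) * Y ^ d) ^ (n * (q + 1)) := by positivity
        calc ((n * (q + 1)).factorial : ℝ) * ((d : ℝ) * Y ^ d) ^ (n * (q + 1)) ≤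
            (n * (q + 1)).factorial * (((d : ℝ) + 1) * Y ^ d) ^ (n * (q + 1)) :=
              mul_le_mul_of_nonneg_left h2 h1
          _ ≤ 2 * (n * (q + 1)).factorial * (((d : ℝ) + 1) * Y ^ d) ^ (n * (q + 1)) := by
              have := mul_nonneg h1 h3
              linarith)
  refine ⟨Xt, T, p, fun j i => rfl, hT1, hT2, hp, hpb, hpP, fun j i => ?_⟩
  exact exists_charpoly hd (x i) (e.symm j)

/-- a maximal ideal over a prime number -/
theorem ub22_maximal (k : Type) [Field k] [NumberField k] (p : ℕ) (hp : p.Prime) :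
    ∃ P : Ideal (Zb k), P.IsMaximal ∧ (p : Zb k) ∈ P := by
  have h : ¬ IsUnit ((p : ℕ) : Zb k) := by
    intro hu
    obtain ⟨y, hy⟩ := hu.exists_right_inv
    have hy1 : ((p : ℕ) : AlgebraicClosure k) * (y : AlgebraicClosure k) = 1 := by
      have := congrArg (algebraMap (Zb k) (AlgebraicClosure k)) hy
      rw [map_mul, map_natCast, map_one] at this
      exact this
    have hp0 : ((p : ℕ) : AlgebraicClosure k) ≠ 0 := by
      intro h0
      rw [h0, zero_mul] at hy1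
      exact zero_ne_one hy1
    have hpq : ((p : ℕ) : ℚ) ≠ 0 := by exact_mod_cast hp.ne_zero
    have hy2 : (y : AlgebraicClosure k) = algebraMap ℚ (AlgebraicClosure k) ((p : ℚ)⁻¹) := by
      rw [map_inv₀, map_natCast]
      exact eq_inv_of_mul_eq_one_right hy1
    have hy3 : IsIntegral ℤ (algebraMap ℚ (AlgebraicClosure k) ((p : ℚ)⁻¹)) := by
      rw [← hy2]
      exact y.2
    have hy4 : IsIntegral ℤ ((p : ℚ)⁻¹) :=
      (isIntegral_algebraMap_iff (algebraMap ℚ (AlgebraicClosure k)).injective).1 hy3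
    obtain ⟨z, hz⟩ := IsIntegrallyClosed.isIntegral_iff.1 hy4
    have hz1 : (z : ℚ) * p = 1 := by
      have : (z : ℚ) = (p : ℚ)⁻¹ := hz
      rw [this, inv_mul_cancel₀ hpq]
    have hz2 : z * (p : ℤ) = 1 := by exact_mod_cast hz1
    have hz3 : (p : ℤ) ∣ 1 := ⟨z, by rw [mul_comm]; exact hz2.symm⟩
    have hz4 : p ∣ 1 := by exact_mod_cast hz3
    exact hp.one_lt.ne' (Nat.dvd_one.1 hz4)
  obtain ⟨P, hP, hle⟩ := Ideal.exists_le_maximal (Ideal.span {((p : ℕ) : Zb k)}) (by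
    rw [Ne, Ideal.span_singleton_eq_top]
    exact h)
  exact ⟨P, hP, hle (Ideal.mem_span_singleton_self _)⟩

/-- the data `(p, T, g)` belong to the field `M` -/
def ub22_Dat {k : Type} [Field k] [NumberField k] {n q L : ℕ}
    (β : Fin n × Fin (q + 1) → Fin (q + 1) → ℕ) (P : ℕ → Ideal (Zb k))
    (F : ∀ p, (Zb k ⧸ P p) → Fin L) (M : IntermediateField k (AlgebraicClosure k)) (p : ℕ)
    (T : Fin n × Fin (q + 1) → 𝓞 k) (g : Fin n → Fin (q + 1) → Fin L) : Prop :=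
  finrank k M = n ∧ p.Prime ∧ ∃ (e : (M →ₐ[k] AlgebraicClosure k) ≃ Fin n) (x : Fin (q + 1) → M)
    (Xt : Fin n → Fin (q + 1) → Zb k),
    (∀ j i, (Xt j i : AlgebraicClosure k) = e.symm j (x i)) ∧
    (∀ ρ, (algebraMap k (AlgebraicClosure k)) (T ρ : k) =
      ∑ j, mon (fun i => e.symm j (x i)) (β ρ)) ∧
    (jac β Xt).det ∉ P p ∧
    (∀ j i, F p (Ideal.Quotient.mk (P p) (Xt j i)) = g j i) ∧
    ∀ j i, ∃ f : (𝓞 k)[X], f.Monic ∧ f.natDegree = n ∧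
      (f.map (algebraMap (𝓞 k) (AlgebraicClosure k))).eval (Xt j i : AlgebraicClosure k) = 0

theorem ub22_dat_inj {k : Type} [Field k] [NumberField k] {n q L N : ℕ} (hn : 1 ≤ n)
    (β : Fin n × Fin (q + 1) → Fin (q + 1) → ℕ) (P : ℕ → Ideal (Zb k))
    (hP : ∀ p : ℕ, p.Prime → (P p).IsMaximal) (F : ∀ p, (Zb k ⧸ P p) → Fin L)
    (hF : ∀ p : ℕ, p.Prime → p ≤ N → Set.InjOn (F p) {y : Zb k ⧸ P p | ∃ x : Zb k,
      (∃ f : (𝓞 k)[X], f.Monic ∧ f.natDegree = n ∧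
      (f.map (algebraMap (𝓞 k) (AlgebraicClosure k))).eval (x : AlgebraicClosure k) = 0) ∧
      Ideal.Quotient.mk (P p) x = y})
    {M M' : IntermediateField k (AlgebraicClosure k)} {p : ℕ} (hpN : p ≤ N)
    {T : Fin n × Fin (q + 1) → 𝓞 k} {g : Fin n → Fin (q + 1) → Fin L}
    (h : ub22_Dat β P F M p T g) (h' : ub22_Dat β P F M' p T g) : Nonempty (M ≃ₐ[k] M') := by
  obtain ⟨hd, hp, e, x, Xt, h1, h2, h3, h4, h5⟩ := h
  obtain ⟨hd', -, e', x', Xt', h1', h2', -, h4', h5'⟩ := h'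
  haveI := hP p hp
  refine ub22_same hn β (P p) hd hd' e e' x x' Xt Xt' h1 h1' (fun ρ => ?_) (fun j i => ?_) h3
  · rw [← h2 ρ, ← h2' ρ]
  · refine hF p hp hpN ⟨Xt j i, h5 j i, rfl⟩ ⟨Xt' j i, h5' j i, rfl⟩ ?_
    rw [h4, h4']

theorem ub22_count (k : Type) [Field k] [NumberField k] {n q : ℕ} (hn : 1 ≤ n)
    (Q : IntermediateField k (AlgebraicClosure k) → Prop)
    (β : Fin n × Fin (q + 1) → Fin (q + 1) → ℕ) (B : ℝ)
    (bd : Fin n × Fin (q + 1) → ℝ) (N : ℕ)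
    (h : ∀ (M : IntermediateField k (AlgebraicClosure k)) [NumberField M],
      Q M → finrank k M = n →
      |(discr M : ℝ)| ≤ B * (|(discr k : ℝ)|) ^ n →
      ∃ (e : (M →ₐ[k] AlgebraicClosure k) ≃ Fin n) (x : Fin (q + 1) → M)
        (Xt : Fin n → Fin (q + 1) → Zb k) (T : Fin n × Fin (q + 1) → 𝓞 k) (p : ℕ),
        (∀ j i, (Xt j i : AlgebraicClosure k) = e.symm j (x i)) ∧
        (∀ ρ, (algebraMap k (AlgebraicClosure k)) (T ρ : k) =
          ∑ j, mon (fun i => e.symm j (x i)) (β ρ)) ∧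
        (∀ ρ, Pool.Agent.H67.MU.Bdd (bd ρ) (T ρ)) ∧
        p.Prime ∧ p ≤ N ∧
        (∀ P : Ideal (Zb k), P.IsMaximal → (p : Zb k) ∈ P → (jac β Xt).det ∉ P) ∧
        ∀ j i, ∃ f : (𝓞 k)[X], f.Monic ∧ f.natDegree = n ∧
          (f.map (algebraMap (𝓞 k) (AlgebraicClosure k))).eval (Xt j i : AlgebraicClosure k) = 0)
    (hfin : ∀ ρ, Set.Finite {t : 𝓞 k | Pool.Agent.H67.MU.Bdd (bd ρ) t ∧ t ∈ (⊤ : Ideal (𝓞 k))}) :
    Finite (Cls k n Q B) ∧ Nat.card (Cls k n Q B) ≤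
      (N + 1) * ((∏ ρ, Set.ncard {t : 𝓞 k | Pool.Agent.H67.MU.Bdd (bd ρ) t ∧
        t ∈ (⊤ : Ideal (𝓞 k))}) * (n * (N + 1) ^ (n * finrank ℚ k)) ^ (n * (q + 1))) := by
  classical
  -- maximal ideals
  have hex : ∀ p : ℕ, ∃ P : Ideal (Zb k), p.Prime → P.IsMaximal ∧ (p : Zb k) ∈ P := by
    intro p
    by_cases hp : p.Prime
    · obtain ⟨P, h1, h2⟩ := ub22_maximal k p hp
      exact ⟨P, fun _ => ⟨h1, h2⟩⟩
    · exact ⟨⊤, fun h => absurd h hp⟩
  choose P hP using hex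
  set L : ℕ := n * (N + 1) ^ (n * finrank ℚ k) with hL
  have hLpos : 0 < L := Nat.mul_pos (by omega) (pow_pos (Nat.succ_pos _) _)
  have hLne : Nonempty (Fin L) := ⟨⟨0, hLpos⟩⟩
  have hexF : ∀ p : ℕ, ∃ F : (Zb k ⧸ P p) → Fin L, p.Prime → p ≤ N →
      Set.InjOn F {y : Zb k ⧸ P p | ∃ x : Zb k,
      (∃ f : (𝓞 k)[X], f.Monic ∧ f.natDegree = n ∧
      (f.map (algebraMap (𝓞 k) (AlgebraicClosure k))).eval (x : AlgebraicClosure k) = 0) ∧
      Ideal.Quotient.mk (P p) x = y} := by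
    intro p
    by_cases hp : p.Prime ∧ p ≤ N
    · have hPm := (hP p hp.1).1
      obtain ⟨h1, h2⟩ := residues k n p hp.1 (P p) (hP p hp.1).2
      have h3 : Set.encard {y : Zb k ⧸ P p | ∃ x : Zb k,
          (∃ f : (𝓞 k)[X], f.Monic ∧ f.natDegree = n ∧
          (f.map (algebraMap (𝓞 k) (AlgebraicClosure k))).eval (x : AlgebraicClosure k) = 0) ∧
          Ideal.Quotient.mk (P p) x = y} ≤ (Set.univ : Set (Fin L)).encard := by
        rw [← h1.cast_ncard_eq, Set.encard_univ, ENat.card_eq_coe_fintype_card, Fintype.card_fin]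
        have h4 : n * p ^ (n * finrank ℚ k) ≤ L :=
          Nat.mul_le_mul_left _ (Nat.pow_le_pow_left (by omega) _)
        exact_mod_cast h2.trans h4
      obtain ⟨F, -, hF⟩ := h1.exists_injOn_of_encard_le h3
      exact ⟨F, fun _ _ => hF⟩
    · exact ⟨fun _ => ⟨0, hLpos⟩, fun h1 h2 => absurd ⟨h1, h2⟩ hp⟩
  choose F hF using hexF
  set S : Fin n × Fin (q + 1) → Set (𝓞 k) := fun ρ =>
    {t : 𝓞 k | Pool.Agent.H67.MU.Bdd (bd ρ) t ∧ t ∈ (⊤ : Ideal (𝓞 k))} with hS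
  have hSf : ∀ ρ, Finite (S ρ) := fun ρ => (hfin ρ).to_subtype
  have hdat : ∀ c : Cls k n Q B, ∃ (p : Fin (N + 1)) (T : ∀ ρ, S ρ)
      (g : Fin n → Fin (q + 1) → Fin L),
      ub22_Dat β P F c.out.1 p (fun ρ => (T ρ : 𝓞 k)) g := by
    intro c
    obtain ⟨hd, hgr, hnf, hdisc⟩ := c.out.2
    obtain ⟨e, x, Xt, T, p, h1, h2, h3, h4, h5, h6, h7⟩ := h c.out.1 hgr hd (by
      simpa using hdisc)
    refine ⟨⟨p, by omega⟩, fun ρ => ⟨T ρ, h3 ρ, Submodule.mem_top⟩,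
      fun j i => F p (Ideal.Quotient.mk (P p) (Xt j i)), hd, h4, e, x, Xt, h1, h2, ?_,
      fun j i => rfl, h7⟩
    exact h6 (P p) (hP p h4).1 (hP p h4).2
  choose pc Tc gc hc using hdat
  have hinj : Function.Injective (fun c : Cls k n Q B => (pc c, Tc c, gc c)) := by
    intro c c' hcc
    simp only [Prod.mk.injEq] at hcc
    obtain ⟨h1, h2, h3⟩ := hcc
    have h4 := hc c
    have h5 := hc c'
    rw [← h1, ← h2, ← h3] at h5
    have h6 := ub22_dat_inj hn β P (fun p hp => (hP p hp).1) F hF (Nat.lt_succ_iff.1 (pc c).2) h4 h5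
    have h7 := Quot.sound (r := fun L L' : {M : IntermediateField k (AlgebraicClosure k) //
      Module.finrank k M = n ∧ Q M ∧ ∃ h : NumberField M,
        ((|@NumberField.discr M _ h| : ℤ) : ℝ) ≤ B * ((|NumberField.discr k| : ℤ) : ℝ) ^ n}
      => Nonempty (L.1 ≃ₐ[k] L'.1)) h6
    rwa [Quot.out_eq, Quot.out_eq] at h7
  refine ⟨Finite.of_injective _ hinj, (Nat.card_le_card_of_injective _ hinj).trans (le_of_eq ?_)⟩
  rw [Nat.card_prod, Nat.card_prod, Nat.card_pi, Nat.card_fun, Nat.card_fun]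
  simp only [Nat.card_eq_fintype_card, Fintype.card_fin]
  rw [← pow_mul, mul_comm (q + 1) n]
  congr 2

theorem ub22_log_Z (n q d : ℕ) {C t : ℝ} (hC : 1 ≤ C) (ht : 0 < t) :
    Real.log (ub22_Z n q d (C * t)) = Real.log (ub22_Z n q d C) +
      (d * (n * (q + 1)) : ℕ) * Real.log t := by
  have h1 : ub22_Z n q d (C * t) = ub22_Z n q d C * t ^ (d * (n * (q + 1))) := by
    unfold ub22_Z
    rw [mul_pow C t, ← mul_assoc ((d : ℝ) + 1), mul_pow (((d : ℝ) + 1) * C ^ d), ← pow_mul t]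
    ring
  have h2 : ub22_Z n q d C ≠ 0 := by
    have := ub22_two_le_Z n q d hC
    linarith
  rw [h1, Real.log_mul h2 (pow_pos ht _).ne', Real.log_pow]

theorem ub22_small (n q d : ℕ) {C C2 η A : ℝ} (hC : 1 ≤ C) (hη : 0 < η) (hA : 0 ≤ A) :
    ∃ K : ℝ, 0 < K ∧ ∀ X : ℝ, 1 ≤ X →
      Real.exp (C2 * √(Real.log (ub22_Z n q d (C * X ^ A)))) ≤ K * X ^ η := by
  set D : ℝ := ((d * (n * (q + 1)) : ℕ) : ℝ) * A with hD
  have hD0 : 0 ≤ D := mul_nonneg (Nat.cast_nonneg _) hA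
  set lam : ℝ := η / (D + 1) with hlam
  have hlam0 : 0 < lam := by positivity
  refine ⟨Real.exp (lam * Real.log (ub22_Z n q d C) + C2 ^ 2 / (4 * lam)), Real.exp_pos _,
    fun X hX => ?_⟩
  have hX0 : 0 < X := by linarith
  have hXA : 1 ≤ C * X ^ A := one_le_mul_of_one_le_of_one_le hC (Real.one_le_rpow hX hA)
  rw [Real.rpow_def_of_pos hX0 η, ← Real.exp_add]
  refine Real.exp_le_exp.2 ?_
  have hv : 0 ≤ Real.log (ub22_Z n q d (C * X ^ A)) :=
    Real.log_nonneg (by have := ub22_two_le_Z n q d hXA; linarith)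
  have h1 : √(Real.log (ub22_Z n q d (C * X ^ A))) ^ 2 = Real.log (ub22_Z n q d (C * X ^ A)) :=
    Real.sq_sqrt hv
  have h2 : C2 * √(Real.log (ub22_Z n q d (C * X ^ A))) ≤
      lam * Real.log (ub22_Z n q d (C * X ^ A)) + C2 ^ 2 / (4 * lam) := by
    have h3 : 0 ≤ lam * (√(Real.log (ub22_Z n q d (C * X ^ A))) - C2 / (2 * lam)) ^ 2 := by
      positivity
    have h4 : lam * (√(Real.log (ub22_Z n q d (C * X ^ A))) - C2 / (2 * lam)) ^ 2 =
        lam * √(Real.log (ub22_Z n q d (C * X ^ A))) ^ 2 -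
          C2 * √(Real.log (ub22_Z n q d (C * X ^ A))) + C2 ^ 2 / (4 * lam) := by
      field_simp
      ring
    rw [h4, h1] at h3
    linarith
  refine h2.trans ?_
  rw [ub22_log_Z n q d hC (Real.rpow_pos_of_pos hX0 A), Real.log_rpow hX0]
  have h5 : lam * D ≤ η := by
    rw [hlam, div_mul_eq_mul_div, div_le_iff₀ (by positivity)]
    nlinarith
  have h6 := mul_le_mul_of_nonneg_right h5 (Real.log_nonneg hX)
  have h7 : lam * (Real.log (ub22_Z n q d C) +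
      ((d * (n * (q + 1)) : ℕ) : ℝ) * (A * Real.log X)) =
      lam * Real.log (ub22_Z n q d C) + lam * D * Real.log X := by
    rw [hD]
    ring
  rw [h7]
  linarith

theorem ub22_pow {C X e : ℝ} (hX : 0 < X) {m : ℕ} (hm : 1 ≤ m) (b : ℕ) :
    ((C * X ^ (e / (m : ℝ))) ^ b) ^ m = C ^ (b * m) * X ^ ((b : ℝ) * e) := by
  have h1 : (m : ℝ) ≠ 0 := by exact_mod_cast (by omega : m ≠ 0)
  rw [← pow_mul, mul_pow, ← Real.rpow_natCast (X ^ _), ← Real.rpow_mul hX.le]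
  congr 2
  push_cast
  field_simp

/-- the counting step in general form -/
theorem count_points (k : Type) [Field k] [NumberField k] {n q d : ℕ} (hn : 1 ≤ n)
    {a : Fin n → Fin (q + 1) → ℕ} (hdeg : ∀ ρ, ∑ l, tbet a ρ l ≤ d) (E : Fin (q + 1) → ℝ)
    (hE : ∀ i, 0 ≤ E i) (Q : IntermediateField k (AlgebraicClosure k) → Prop)
    (hpt : ∃ C : ℝ, 1 ≤ C ∧ ∀ (M : IntermediateField k (AlgebraicClosure k)) [NumberField M],
      Q M → finrank k M = n → ∀ (X : ℝ), 1 ≤ X → |(discr M : ℝ)| ≤ X →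
      ∃ (e : (M →ₐ[k] AlgebraicClosure k) ≃ Fin n) (x : Fin (q + 1) → 𝓞 M),
        (∀ i, house (x i : M) ≤ C * X ^ (E i / finrank ℚ k)) ∧
        (jac (tbet a) (fun j i => e.symm j (x i : M))).det ≠ 0)
    (ε : ℝ) (hε : 0 < ε) :
    ∃ C : ℝ, ∀ B : ℝ, 1 ≤ B → Finite (Cls k n Q B) ∧
      (Nat.card (Cls k n Q B) : ℝ) ≤ C * B ^ ((∑ ρ, ∑ l, (tbet a ρ l : ℝ) * E l) + ε) := by
  classical
  obtain ⟨C1, hC1, hpt⟩ := hpt
  obtain ⟨C2, hex⟩ := ub22_exists k hdeg E hE hC1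
  obtain ⟨C3, hC3, hbc⟩ := Pool.Agent.H67.MU.bdd_mem_count k
  set m := finrank ℚ k with hm
  have hm1 : 1 ≤ m := finrank_pos
  set W : ℕ := 1 + n * m * (n * (q + 1)) with hW
  have hWpos : (0 : ℝ) < W := by positivity
  obtain ⟨K, hK, hKb⟩ := ub22_small n q d (C := C1) (C2 := C2) (η := ε / W) (A := ∑ l, E l) hC1
    (by positivity) (Finset.sum_nonneg fun l _ => hE l)
  set Δ : ℝ := |(discr k : ℝ)| with hΔ
  have hΔ1 : 1 ≤ Δ := by
    have h1 : (1 : ℤ) ≤ |discr k| := Int.one_le_abs (discr_ne_zero k)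
    have h2 : ((1 : ℤ) : ℝ) ≤ ((|discr k| : ℤ) : ℝ) := by exact_mod_cast h1
    rw [Int.cast_abs, Int.cast_one] at h2
    exact h2
  set K1 : ℝ := ∏ ρ : Fin n × Fin (q + 1), (2 * C3 * (n : ℝ) ^ m *
    ∏ i, C1 ^ (tbet a ρ i * m)) with hK1
  have hnr : (1 : ℝ) ≤ n := by exact_mod_cast hn
  have hK1pos : 0 ≤ K1 := Finset.prod_nonneg fun ρ _ => by positivity
  set ex : ℝ := ∑ ρ, ∑ l, (tbet a ρ l : ℝ) * E l with hex0
  refine ⟨K1 * ((n : ℝ) ^ (n * (q + 1)) * (K + 1) ^ W) * (Δ ^ n) ^ (ex + ε), ?_⟩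
  intro B hB
  set X : ℝ := B * Δ ^ n with hX
  have hX1 : 1 ≤ X := one_le_mul_of_one_le_of_one_le hB (one_le_pow₀ hΔ1)
  have hX0 : 0 < X := by linarith
  set bd : Fin n × Fin (q + 1) → ℝ := fun ρ =>
    n * ∏ i, (C1 * X ^ (E i / (m : ℝ))) ^ tbet a ρ i with hbd
  have hbd1 : ∀ ρ, 1 ≤ bd ρ := by
    intro ρ
    refine one_le_mul_of_one_le_of_one_le hnr ?_
    have h1 : ∀ i : Fin (q + 1), (1 : ℝ) ≤ (C1 * X ^ (E i / (m : ℝ))) ^ tbet a ρ i := by
      intro i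
      exact one_le_pow₀ (one_le_mul_of_one_le_of_one_le hC1
        (Real.one_le_rpow hX1 (div_nonneg (hE i) (Nat.cast_nonneg _))))
    calc (1 : ℝ) = ∏ _i : Fin (q + 1), (1 : ℝ) := by simp
      _ ≤ _ := Finset.prod_le_prod (fun _ _ => zero_le_one) fun i _ => h1 i
  set Ex : ℝ := Real.exp (C2 * √(Real.log (ub22_Z n q d (C1 * X ^ (∑ l, E l))))) with hEx
  have hE0 : 0 < Ex := Real.exp_pos _
  set N : ℕ := ⌊Ex⌋₊ with hN
  have hNE : ((N : ℝ) + 1) ≤ (K + 1) * X ^ (ε / W) := by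
    have h1 : (N : ℝ) ≤ Ex := Nat.floor_le hE0.le
    have h2 := hKb X hX1
    have h3 : (1 : ℝ) ≤ X ^ (ε / W) := Real.one_le_rpow hX1 (by positivity)
    linarith
  have hfin : ∀ ρ, Set.Finite {t : 𝓞 k | Pool.Agent.H67.MU.Bdd (bd ρ) t ∧
      t ∈ (⊤ : Ideal (𝓞 k))} := fun ρ =>
    (hbc (bd ρ) (by have := hbd1 ρ; linarith) ⊤ top_ne_bot).1
  have hcard : ∀ ρ, (Set.ncard {t : 𝓞 k | Pool.Agent.H67.MU.Bdd (bd ρ) t ∧
      t ∈ (⊤ : Ideal (𝓞 k))} : ℝ) ≤ 2 * C3 * bd ρ ^ m := by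
    intro ρ
    refine (hbc (bd ρ) (by have := hbd1 ρ; linarith) ⊤ top_ne_bot).2.trans ?_
    rw [Ideal.absNorm_top, Nat.cast_one, div_one]
    have h1 : (1 : ℝ) ≤ bd ρ ^ m := one_le_pow₀ (hbd1 ρ)
    nlinarith
  obtain ⟨hfc, hmain⟩ := ub22_count k hn Q (tbet a) B bd N (by
    intro M _ hgr hd hdisc
    obtain ⟨e, x, hx, hJ⟩ := hpt M hgr hd X hX1 hdisc
    obtain ⟨Xt, T, p, h1, h2, h3, h4, h5, h6, h7⟩ := hex X hX1 M hd e x hx hJ
    exact ⟨e, fun i => (x i : M), Xt, T, p, h1, h2, h3, h4, Nat.le_floor h5, h6, h7⟩) hfin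
  refine ⟨hfc, ?_⟩
  have hmain' : (Nat.card (Cls k n Q B) : ℝ) ≤
      ((N : ℝ) + 1) * ((∏ ρ, (Set.ncard {t : 𝓞 k | Pool.Agent.H67.MU.Bdd (bd ρ) t ∧
        t ∈ (⊤ : Ideal (𝓞 k))} : ℝ)) * ((n : ℝ) * ((N : ℝ) + 1) ^ (n * m)) ^ (n * (q + 1))) := by
    exact_mod_cast hmain
  -- the product over the tiles
  have hprod : (∏ ρ, (Set.ncard {t : 𝓞 k | Pool.Agent.H67.MU.Bdd (bd ρ) t ∧
      t ∈ (⊤ : Ideal (𝓞 k))} : ℝ)) ≤ K1 * X ^ ex := by
    have h1 : ∀ ρ, 2 * C3 * bd ρ ^ m = (2 * C3 * (n : ℝ) ^ m * ∏ i, C1 ^ (tbet a ρ i * m)) *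
        X ^ (∑ l, (tbet a ρ l : ℝ) * E l) := by
      intro ρ
      rw [Real.rpow_sum_of_pos hX0]
      simp only [hbd]
      rw [mul_pow, ← Finset.prod_pow]
      have h2 : ∀ i, ((C1 * X ^ (E i / (m : ℝ))) ^ tbet a ρ i) ^ m =
          C1 ^ (tbet a ρ i * m) * X ^ ((tbet a ρ i : ℝ) * E i) := fun i => ub22_pow hX0 hm1 _
      simp_rw [h2]
      rw [Finset.prod_mul_distrib]
      ring
    calc (∏ ρ, (Set.ncard {t : 𝓞 k | Pool.Agent.H67.MU.Bdd (bd ρ) t ∧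
          t ∈ (⊤ : Ideal (𝓞 k))} : ℝ)) ≤ ∏ ρ, 2 * C3 * bd ρ ^ m :=
            Finset.prod_le_prod (fun _ _ => Nat.cast_nonneg _) fun ρ _ => hcard ρ
      _ = K1 * X ^ ex := by
          simp_rw [h1]
          rw [Finset.prod_mul_distrib, hK1, hex0]
          congr 1
          rw [Real.rpow_sum_of_pos hX0]
  have hrest : ((N : ℝ) + 1) * ((n : ℝ) * ((N : ℝ) + 1) ^ (n * m)) ^ (n * (q + 1)) ≤
      ((n : ℝ) ^ (n * (q + 1)) * (K + 1) ^ W) * X ^ ε := by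
    have h1 : ((N : ℝ) + 1) * ((n : ℝ) * ((N : ℝ) + 1) ^ (n * m)) ^ (n * (q + 1)) =
        (n : ℝ) ^ (n * (q + 1)) * ((N : ℝ) + 1) ^ W := by
      rw [mul_pow, ← pow_mul, hW, pow_add, pow_one]
      ring
    rw [h1]
    have h2 : ((N : ℝ) + 1) ^ W ≤ ((K + 1) * X ^ (ε / W)) ^ W :=
      pow_le_pow_left₀ (by positivity) hNE _
    have h3 : ((K + 1) * X ^ (ε / W)) ^ W = (K + 1) ^ W * X ^ ε := by
      rw [mul_pow, ← Real.rpow_natCast (X ^ _), ← Real.rpow_mul hX0.le,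
        div_mul_cancel₀ _ hWpos.ne']
    rw [h3] at h2
    calc (n : ℝ) ^ (n * (q + 1)) * ((N : ℝ) + 1) ^ W ≤
        (n : ℝ) ^ (n * (q + 1)) * ((K + 1) ^ W * X ^ ε) := by gcongr
      _ = _ := by ring
  have hXe : X ^ (ex + ε) = B ^ (ex + ε) * (Δ ^ n) ^ (ex + ε) := by
    rw [hX, Real.mul_rpow (by linarith) (by positivity)]
  calc (Nat.card (Cls k n Q B) : ℝ) ≤
      ((N : ℝ) + 1) * ((∏ ρ, (Set.ncard {t : 𝓞 k | Pool.Agent.H67.MU.Bdd (bd ρ) t ∧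
        t ∈ (⊤ : Ideal (𝓞 k))} : ℝ)) * ((n : ℝ) * ((N : ℝ) + 1) ^ (n * m)) ^ (n * (q + 1))) :=
        hmain'
    _ = (∏ ρ, (Set.ncard {t : 𝓞 k | Pool.Agent.H67.MU.Bdd (bd ρ) t ∧
        t ∈ (⊤ : Ideal (𝓞 k))} : ℝ)) * (((N : ℝ) + 1) *
          ((n : ℝ) * ((N : ℝ) + 1) ^ (n * m)) ^ (n * (q + 1))) := by ring
    _ ≤ (K1 * X ^ ex) * (((n : ℝ) ^ (n * (q + 1)) * (K + 1) ^ W) * X ^ ε) :=
        mul_le_mul hprod hrest (by positivity) (by positivity)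
    _ = K1 * ((n : ℝ) ^ (n * (q + 1)) * (K + 1) ^ W) * X ^ (ex + ε) := by
        rw [Real.rpow_add hX0]
        ring
    _ = _ := by
        rw [hXe]
        ring

/-- the form used by the project UP -/
theorem count' (k : Type) [Field k] [NumberField k] {n q d : ℕ} (hn : 1 ≤ n)
    (a : Fin n → Fin (q + 1) → ℕ) (hd : ∀ ρ, ∑ l, tbet a ρ l ≤ d)
    (y : Fin (q + 1) → ℝ) (hy : ∀ i, 0 ≤ y i) (C0 : ℝ) (hC0 : 1 ≤ C0)
    (𝓕 : IntermediateField k (AlgebraicClosure k) → Prop)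
    (h𝓕 : ∀ (M : IntermediateField k (AlgebraicClosure k)) [NumberField M], 𝓕 M →
      finrank k M = n → ∀ (X : ℝ), 1 ≤ X → |(discr M : ℝ)| ≤ X →
      ∃ (e : (M →ₐ[k] AlgebraicClosure k) ≃ Fin n) (x : Fin (q + 1) → 𝓞 M),
        (∀ i, house (x i : M) ≤ C0 * X ^ (y i)) ∧
        (jac (tbet a) (fun j i => e.symm j (x i : M))).det ≠ 0) (ε : ℝ) (hε : 0 < ε) :
    ∃ C : ℝ, ∀ B : ℝ, 1 ≤ B →
      Finite (Quot (fun L L' : {M : IntermediateField k (AlgebraicClosure k) //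
          finrank k M = n ∧ 𝓕 M ∧ ∃ h : NumberField M,
            ((|@NumberField.discr M _ h| : ℤ) : ℝ) ≤
              B * ((|NumberField.discr k| : ℤ) : ℝ) ^ n}
        => Nonempty (L.1 ≃ₐ[k] L'.1))) ∧
      (Nat.card (Quot (fun L L' : {M : IntermediateField k (AlgebraicClosure k) //
          finrank k M = n ∧ 𝓕 M ∧ ∃ h : NumberField M,
            ((|@NumberField.discr M _ h| : ℤ) : ℝ) ≤
              B * ((|NumberField.discr k| : ℤ) : ℝ) ^ n}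
        => Nonempty (L.1 ≃ₐ[k] L'.1))) : ℝ) ≤
      C * B ^ (finrank ℚ k * ∑ ρ, ∑ l, (tbet a ρ l : ℝ) * y l + ε) := by
  have hm : (0 : ℝ) < finrank ℚ k := by exact_mod_cast finrank_pos
  have h1 : ∀ i, finrank ℚ k * y i / finrank ℚ k = y i := fun i => by field_simp
  obtain ⟨C, hC⟩ := count_points k hn hd (fun i => finrank ℚ k * y i)
    (fun i => mul_nonneg hm.le (hy i)) 𝓕 ⟨C0, hC0, by
      intro M _ hQ hfr X hX hdisc
      obtain ⟨e, x, hx, hJ⟩ := h𝓕 M hQ hfr X hX hdisc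
      refine ⟨e, x, fun i => ?_, hJ⟩
      beta_reduce
      rw [h1]
      exact hx i⟩ ε hε
  refine ⟨C, fun B hB => ?_⟩
  obtain ⟨hf, hb⟩ := hC B hB
  refine ⟨hf, ?_⟩
  have h2 : (∑ ρ, ∑ l, (tbet a ρ l : ℝ) * (finrank ℚ k * y l)) =
      finrank ℚ k * ∑ ρ, ∑ l, (tbet a ρ l : ℝ) * y l := by
    rw [Finset.mul_sum]
    refine Finset.sum_congr rfl fun ρ _ => ?_
    rw [Finset.mul_sum]
    refine Finset.sum_congr rfl fun l _ => ?_
    ring
  rw [← h2]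
  exact hb

end Pool.Agent.H52.UB
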