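import Pool.Agent.H52.UB.Defs

/-!
# UB-15: uniqueness modulo a prime (Taylor expansion and Nakayama)
-/

set_option autoImplicit false

open NumberField Polynomial Module

namespace Pool.Agent.H52.UB

/-- first order expansion of a product -/
theorem ub15_prod {R ι : Type*} [CommRing R] [DecidableEq ι] (I : Ideal R) (s : Finset ι)
    (u v : ι → R) (hv : ∀ i, v i ∈ I) :
    ∏ i ∈ s, (u i + v i) - ∏ i ∈ s, u i - ∑ i ∈ s, v i * ∏ l ∈ s.erase i, u l ∈ I ^ 2 := by
  induction s using Finset.induction_on with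
  | empty => simp
  | insert a s ha ih =>
    have hS : ∑ i ∈ s, v i * ∏ l ∈ s.erase i, u l ∈ I :=
      Ideal.sum_mem _ fun i _ => I.mul_mem_right _ (hv i)
    have h1 : ∑ i ∈ insert a s, v i * ∏ l ∈ (insert a s).erase i, u l =
        v a * ∏ l ∈ s, u l + u a * ∑ i ∈ s, v i * ∏ l ∈ s.erase i, u l := by
      rw [Finset.sum_insert ha, Finset.erase_insert ha, Finset.mul_sum]
      congr 1
      refine Finset.sum_congr rfl fun i hi => ?_
      have hne : a ≠ i := fun h => ha (h ▸ hi)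
      rw [Finset.erase_insert_of_ne hne, Finset.prod_insert]
      · ring
      · exact fun h => ha (Finset.mem_of_mem_erase h)
    rw [h1, Finset.prod_insert ha, Finset.prod_insert ha]
    have h2 : v a * ∑ i ∈ s, v i * ∏ l ∈ s.erase i, u l ∈ I ^ 2 := by
      rw [pow_two]
      exact Ideal.mul_mem_mul (hv a) hS
    have h3 := (I ^ 2).mul_mem_left (u a + v a) ih
    have h4 := (I ^ 2).add_mem h2 h3
    convert h4 using 1
    ring

/-- first order expansion of a monomial -/
theorem ub15_taylor {R : Type*} [CommRing R] (I : Ideal R) {q : ℕ} (y d : Fin q → R)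
    (hd : ∀ i, d i ∈ I) (b : Fin q → ℕ) :
    mon (fun i => y i + d i) b - mon y b -
      ∑ i, ((b i : ℕ) : R) * (∏ l, y l ^ (b l - if l = i then 1 else 0)) * d i ∈ I ^ 2 := by
  have key : ∀ l : Fin q, ∃ k : R,
      (y l + d l) ^ b l = y l ^ b l + (b l * y l ^ (b l - 1) * d l + k * d l ^ 2) := by
    intro l
    obtain ⟨k, hk⟩ := Polynomial.powAddExpansion (y l) (d l) (b l)
    refine ⟨k, ?_⟩
    rw [hk]
    ring
  choose k hk using key
  have hv : ∀ l, (b l * y l ^ (b l - 1) * d l + k l * d l ^ 2 : R) ∈ I := by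
    intro l
    refine I.add_mem (I.mul_mem_left _ (hd l)) (I.mul_mem_left _ ?_)
    rw [pow_two]
    exact I.mul_mem_left _ (hd l)
  have h1 := ub15_prod I Finset.univ (fun l => y l ^ b l)
    (fun l => (b l * y l ^ (b l - 1) * d l + k l * d l ^ 2 : R)) hv
  have h2 : mon (fun i => y i + d i) b =
      ∏ l, (y l ^ b l + (b l * y l ^ (b l - 1) * d l + k l * d l ^ 2)) :=
    Finset.prod_congr rfl fun l _ => hk l
  have h3 : ∀ i : Fin q, ∏ l, y l ^ (b l - if l = i then 1 else 0) =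
      y i ^ (b i - 1) * ∏ l ∈ Finset.univ.erase i, y l ^ b l := by
    intro i
    rw [← Finset.mul_prod_erase Finset.univ _ (Finset.mem_univ i)]
    rw [if_pos rfl]
    congr 1
    refine Finset.prod_congr rfl fun l hl => ?_
    rw [if_neg (Finset.ne_of_mem_erase hl), Nat.sub_zero]
  have h4 : ∑ i, (k i * d i ^ 2) * ∏ l ∈ Finset.univ.erase i, y l ^ b l ∈ I ^ 2 := by
    refine Ideal.sum_mem _ fun i _ => (I ^ 2).mul_mem_right _ ((I ^ 2).mul_mem_left _ ?_)
    exact Ideal.pow_mem_pow (hd i) 2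
  have h5 := (I ^ 2).add_mem h1 h4
  rw [h2]
  convert h5 using 1
  rw [sub_add, ← Finset.sum_sub_distrib]
  unfold mon
  congr 1
  refine Finset.sum_congr rfl fun i _ => ?_
  rw [h3 i]
  ring

theorem uniq {R : Type*} [CommRing R] [IsDomain R] (P : Ideal R) [P.IsMaximal] {n q : ℕ}
    (β : Fin n × Fin (q + 1) → Fin (q + 1) → ℕ) (x x' : Fin n → Fin (q + 1) → R)
    (hT : ∀ ρ, ∑ j, mon (x j) (β ρ) = ∑ j, mon (x' j) (β ρ))
    (hP : ∀ j i, x' j i - x j i ∈ P) (hJ : (jac β x).det ∉ P) : x = x' := by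
  set δ : Fin n × Fin (q + 1) → R := fun ρ => x' ρ.1 ρ.2 - x ρ.1 ρ.2 with hδ
  set I : Ideal R := Ideal.span (Set.range δ) with hI
  have hδI : ∀ ρ, δ ρ ∈ I := fun ρ => Ideal.subset_span ⟨ρ, rfl⟩
  have hIP : I ≤ P := by
    rw [hI, Ideal.span_le]
    rintro _ ⟨ρ, rfl⟩
    exact hP ρ.1 ρ.2
  have h1 : ∀ ρ', (Matrix.mulVec (jac β x) δ) ρ' ∈ I ^ 2 := by
    intro ρ'
    have h2 : ∀ j, mon (x' j) (β ρ') - mon (x j) (β ρ') -
        ∑ i, ((β ρ' i : ℕ) : R) * (∏ l, x j l ^ (β ρ' l - if l = i then 1 else 0)) * δ (j, i)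
          ∈ I ^ 2 := by
      intro j
      have h3 := ub15_taylor I (x j) (fun i => δ (j, i)) (fun i => hδI (j, i)) (β ρ')
      have h4 : (fun i => x j i + δ (j, i)) = x' j := by
        funext i
        simp only [hδ]
        ring
      rw [h4] at h3
      exact h3
    have h3 := Ideal.sum_mem (I ^ 2) (t := Finset.univ) fun j _ => h2 j
    rw [Finset.sum_sub_distrib, Finset.sum_sub_distrib, hT ρ', sub_self, zero_sub] at h3
    have h4 := (I ^ 2).neg_mem h3
    rw [neg_neg] at h4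
    convert h4 using 1
    unfold Matrix.mulVec dotProduct jac
    rw [Fintype.sum_prod_type]
  have h2 : ∀ ρ, (jac β x).det * δ ρ ∈ I ^ 2 := by
    intro ρ
    have h3 : Matrix.mulVec (Matrix.adjugate (jac β x)) (Matrix.mulVec (jac β x) δ) =
        (jac β x).det • δ := by
      rw [Matrix.mulVec_mulVec, Matrix.adjugate_mul, Matrix.smul_mulVec, Matrix.one_mulVec]
    have h4 := congrFun h3 ρ
    rw [Pi.smul_apply, smul_eq_mul] at h4
    rw [← h4]
    unfold Matrix.mulVec
    unfold Matrix.mulVec at h1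
    exact Ideal.sum_mem _ fun i _ => (I ^ 2).mul_mem_left _ (h1 i)
  obtain ⟨u, i, hi, hu⟩ := Ideal.IsMaximal.exists_inv inferInstance hJ
  have h3 : I ≤ P • I := by
    rw [hI, Ideal.span_le]
    rintro _ ⟨ρ, rfl⟩
    rw [← hI]
    have h4 : δ ρ = u * ((jac β x).det * δ ρ) + i * δ ρ := by
      calc δ ρ = (u * (jac β x).det + i) * δ ρ := by rw [hu, one_mul]
        _ = _ := by ring
    rw [h4]
    refine Submodule.add_mem _ ?_ ?_
    · have h5 : I ^ 2 ≤ P • I := by
        rw [pow_two, smul_eq_mul]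
        exact Ideal.mul_mono_left hIP
      exact h5 ((I ^ 2).mul_mem_left _ (h2 ρ))
    · rw [smul_eq_mul]
      exact Ideal.mul_mem_mul hi (hδI ρ)
  obtain ⟨r, hr1, hr2⟩ := Submodule.exists_sub_one_mem_and_smul_eq_zero_of_fg_of_le_smul P I
    ((Submodule.fg_def).2 ⟨Set.range δ, Set.finite_range δ, rfl⟩) h3
  have hr0 : r ≠ 0 := by
    intro h0
    rw [h0, zero_sub] at hr1
    have h6 := P.neg_mem hr1
    rw [neg_neg] at h6
    exact (Ideal.IsMaximal.ne_top (I := P) inferInstance) ((Ideal.eq_top_iff_one P).2 h6)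
  funext j i
  have h7 := hr2 (δ (j, i)) (hδI (j, i))
  rw [smul_eq_mul] at h7
  have h8 := (mul_eq_zero.1 h7).resolve_left hr0
  exact (sub_eq_zero.1 h8).symm

theorem jac_ne_zero {F : Type*} [Field F] {n q : ℕ} (a : Fin n → Fin (q + 1) → ℕ)
    (x : Fin n → Fin (q + 1) → F) (h : (topMat a x).det ≠ 0) : (jac (tbet a) x).det ≠ 0 := by
  intro h0
  apply h
  have h1 : topMat a x = Matrix.of fun ρ ρ' => x ρ.1 ρ.2 * (jac (tbet a) x).transpose ρ ρ' := by
    ext ρ ρ'
    rw [Matrix.of_apply, Matrix.transpose_apply]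
    unfold topMat jac mon
    rcases Nat.eq_zero_or_pos (tbet a ρ' ρ.2) with h2 | h2
    · rw [h2]
      simp
    · have h3 : ∏ l, x ρ.1 l ^ tbet a ρ' l =
          x ρ.1 ρ.2 * ∏ l, x ρ.1 l ^ (tbet a ρ' l - if l = ρ.2 then 1 else 0) := by
        rw [← Finset.mul_prod_erase Finset.univ (fun l => x ρ.1 l ^ tbet a ρ' l)
            (Finset.mem_univ ρ.2),
          ← Finset.mul_prod_erase Finset.univ
            (fun l => x ρ.1 l ^ (tbet a ρ' l - if l = ρ.2 then 1 else 0)) (Finset.mem_univ ρ.2),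
          ← mul_assoc]
        congr 1
        · rw [if_pos rfl, ← pow_succ', Nat.sub_add_cancel h2]
        · refine Finset.prod_congr rfl fun l hl => ?_
          rw [if_neg (Finset.ne_of_mem_erase hl), Nat.sub_zero]
      rw [h3]
      ring
  rw [h1, Matrix.det_mul_column, Matrix.det_transpose, h0, mul_zero]

end Pool.Agent.H52.UB
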