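import Mathlib

/-!
# Project UB (MP_a3214d), row 11: the alternating group is transitive on the sets of a given size
-/

set_option autoImplicit false

namespace Pool.Agent.H52.UB

/-- Two finite sets with the same number of elements are exchanged by a permutation. -/
theorem ub11_exists_perm {n : ℕ} (A B : Finset (Fin n)) (h : A.card = B.card) :
    ∃ π : Equiv.Perm (Fin n), A.map π.toEmbedding = B := by
  classical
  have e : {x // x ∈ A} ≃ {x // x ∈ B} := Fintype.equivOfCardEq (by simpa using h)
  refine ⟨e.extendSubtype, ?_⟩
  apply Finset.eq_of_subset_of_card_le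
  · intro y hy
    obtain ⟨x, hx, rfl⟩ := Finset.mem_map.mp hy
    exact e.extendSubtype_mem x hx
  · rw [Finset.card_map, h]

theorem alt_transitive {n : ℕ} (hn : 3 ≤ n) (A B : Finset (Fin n)) (h : A.card = B.card) :
    ∃ π ∈ alternatingGroup (Fin n), A.map (π : Equiv.Perm (Fin n)).toEmbedding = B := by
  classical
  obtain ⟨π, hπ⟩ := ub11_exists_perm A B h
  rcases Int.units_eq_one_or (Equiv.Perm.sign π) with hs | hs
  · exact ⟨π, Equiv.Perm.mem_alternatingGroup.mpr hs, hπ⟩
  · -- two different points, both in `A` or both outside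
    obtain ⟨a, b, hab, hiff⟩ : ∃ a b : Fin n, a ≠ b ∧ (a ∈ A ↔ b ∈ A) := by
      by_contra hno
      push Not at hno
      have h0 : (0 : ℕ) < n := by omega
      have h1 : (1 : ℕ) < n := by omega
      have h2 : (2 : ℕ) < n := by omega
      have e1 := hno ⟨0, h0⟩ ⟨1, h1⟩ (by simp)
      have e2 := hno ⟨0, h0⟩ ⟨2, h2⟩ (by simp)
      have e3 := hno ⟨1, h1⟩ ⟨2, h2⟩ (by simp)
      tauto
    refine ⟨π * Equiv.swap a b, ?_, ?_⟩
    · rw [Equiv.Perm.mem_alternatingGroup, Equiv.Perm.sign_mul, hs, Equiv.Perm.sign_swap hab]
      rfl
    · have hA : A.map (Equiv.swap a b).toEmbedding = A := by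
        apply Finset.eq_of_subset_of_card_le
        · intro y hy
          obtain ⟨x, hx, rfl⟩ := Finset.mem_map.mp hy
          change Equiv.swap a b x ∈ A
          by_cases hxa : x = a
          · subst hxa
            rw [Equiv.swap_apply_left]
            exact hiff.mp hx
          · by_cases hxb : x = b
            · subst hxb
              rw [Equiv.swap_apply_right]
              exact hiff.mpr hx
            · rwa [Equiv.swap_apply_of_ne_of_ne hxa hxb]
        · rw [Finset.card_map]
      have hcomp : (π * Equiv.swap a b).toEmbedding =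
          (Equiv.swap a b).toEmbedding.trans π.toEmbedding := by
        ext x; rfl
      rw [hcomp, ← Finset.map_map, hA, hπ]

end Pool.Agent.H52.UB
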