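import Mathlib
import Pool.Agent.H52.UB.Defs

/-!
# Project UB: the bound of the exponent (row UB-24)
-/

set_option autoImplicit false

open Finset

namespace Pool.Agent.H52.UB

/-- number of exponents of degree at most `d` in `m` variables -/
theorem ub24_card (m d : ℕ) (T : Finset (Fin m → ℕ)) (hT : ∀ b ∈ T, ∑ i, b i ≤ d) :
    T.card ≤ (m + d).choose d := by
  classical
  have h1 : (m + d).choose d =
      ((univ : Finset (Fin (m + 1))).finsuppAntidiag d).card := by
    rw [Finset.card_finsuppAntidiag_nat_eq_choose]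
    simp only [card_univ, Fintype.card_fin]
    congr 1
    omega
  rw [h1]
  refine Finset.card_le_card_of_injOn
    (fun b => Finsupp.equivFunOnFinite.symm (Fin.cons (d - ∑ i, b i) b : Fin (m + 1) → ℕ)) ?_ ?_
  · intro b hb
    have h2 := hT b hb
    simp only [mem_coe, mem_finsuppAntidiag, Finset.subset_univ, and_true]
    rw [Fin.sum_univ_succ]
    simp only [Finsupp.equivFunOnFinite_symm_apply_apply, Fin.cons_zero, Fin.cons_succ]
    omega
  · intro b hb c hc hbc
    have h3 := Finsupp.equivFunOnFinite.symm.injective hbc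
    have h5 : Fin.tail (Fin.cons (d - ∑ i, b i) b : Fin (m + 1) → ℕ)
        = Fin.tail (Fin.cons (d - ∑ i, c i) c : Fin (m + 1) → ℕ) := by
      rw [h3]
    simpa using h5

/-- all exponents of degree at most `d` in `m` variables -/
def ub24_S (m d : ℕ) : Finset (Fin m → ℕ) :=
  (Fintype.piFinset (fun _ : Fin m => Finset.range (d + 1))).filter (fun b => ∑ i, b i ≤ d)

theorem ub24_mem (m d : ℕ) (b : Fin m → ℕ) : b ∈ ub24_S m d ↔ ∑ i, b i ≤ d := by
  unfold ub24_S
  rw [Finset.mem_filter, Fintype.mem_piFinset]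
  constructor
  · exact fun h => h.2
  · intro h
    refine ⟨fun i => ?_, h⟩
    rw [Finset.mem_range]
    have := Finset.single_le_sum (f := b) (fun j _ => Nat.zero_le (b j)) (Finset.mem_univ i)
    omega

theorem ub24_swap (m d : ℕ) (l l' : Fin m) :
    ∑ b ∈ ub24_S m d, b l = ∑ b ∈ ub24_S m d, b l' := by
  refine Finset.sum_nbij' (fun b => b ∘ Equiv.swap l l') (fun b => b ∘ Equiv.swap l l') ?_ ?_ ?_ ?_ ?_
  · intro b hb
    rw [ub24_mem] at hb ⊢
    rw [← Equiv.sum_comp (Equiv.swap l l')] at hb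
    exact hb
  · intro b hb
    rw [ub24_mem] at hb ⊢
    rw [← Equiv.sum_comp (Equiv.swap l l')] at hb
    exact hb
  · intro b _
    funext i
    simp
  · intro b _
    funext i
    simp
  · intro b _
    simp

theorem ub24_sum (m d : ℕ) (l : Fin m) :
    m * ∑ b ∈ ub24_S m d, b l ≤ d * (ub24_S m d).card := by
  have h1 : m * ∑ b ∈ ub24_S m d, b l = ∑ l' : Fin m, ∑ b ∈ ub24_S m d, b l' := by
    rw [Finset.sum_congr rfl (fun l' _ => ub24_swap m d l' l)]
    simp
  rw [h1, Finset.sum_comm, mul_comm d, ← smul_eq_mul]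
  refine Finset.sum_le_card_nsmul _ _ _ ?_
  intro b hb
  exact (ub24_mem m d b).mp hb

theorem ub24_half (r m : ℕ) (h : m + 1 ≤ 2 * r) : 2 * m.choose r ≤ (m + 1).choose r := by
  have h1 := Nat.choose_mul_succ_eq m r
  have h2 : 2 * (m + 1 - r) ≤ m + 1 := by omega
  have h3 : (2 * m.choose r) * (m + 1) ≤ (m + 1).choose r * (m + 1) := by
    calc (2 * m.choose r) * (m + 1) = 2 * (m.choose r * (m + 1)) := by ring
      _ = 2 * ((m + 1).choose r * (m + 1 - r)) := by rw [h1]
      _ = (m + 1).choose r * (2 * (m + 1 - r)) := by ring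
      _ ≤ (m + 1).choose r * (m + 1) := Nat.mul_le_mul_left _ h2
  exact Nat.le_of_mul_le_mul_right h3 (Nat.succ_pos m)

theorem ub24_pow (r l : ℕ) (h : l ≤ r) : 2 ^ l * (2 * r - l).choose r ≤ (2 * r).choose r := by
  induction l with
  | zero => simp
  | succ l ih =>
    refine le_trans ?_ (ih (by omega))
    have h1 : 2 * r - l = (2 * r - (l + 1)) + 1 := by omega
    rw [pow_succ, mul_assoc]
    refine Nat.mul_le_mul_left _ ?_
    rw [h1]
    exact ub24_half r _ (by omega)

theorem ub24_col (n q : ℕ) (a : Fin n → Fin (q + 1) → ℕ) (hinj : Function.Injective (tbet a))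
    (hd : ∀ ρ, ∑ l, tbet a ρ l ≤ q + 1) (l : Fin (q + 1)) :
    ∑ ρ, tbet a ρ l ≤ (2 * (q + 1)).choose (q + 1) := by
  classical
  have h1 : ∑ ρ, tbet a ρ l = ∑ b ∈ Finset.univ.image (tbet a), b l := by
    rw [Finset.sum_image (fun x _ y _ h => hinj h)]
  rw [h1]
  have h2 : ∑ b ∈ Finset.univ.image (tbet a), b l ≤ ∑ b ∈ ub24_S (q + 1) (q + 1), b l := by
    refine Finset.sum_le_sum_of_subset ?_
    intro b hb
    rw [Finset.mem_image] at hb
    obtain ⟨ρ, _, rfl⟩ := hb
    rw [ub24_mem]
    exact hd ρ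
  refine le_trans h2 ?_
  have h3 := ub24_sum (q + 1) (q + 1) l
  have h4 := Nat.le_of_mul_le_mul_left h3 (Nat.succ_pos q)
  refine le_trans h4 ?_
  have h5 := ub24_card (q + 1) (q + 1) (ub24_S (q + 1) (q + 1))
    (fun b hb => (ub24_mem _ _ b).mp hb)
  rwa [← two_mul] at h5

theorem expo_le (δ : ℝ) (hδ : 0 < δ) (hδ1 : δ ≤ 1) : ∃ C : ℝ, ∀ (n q : ℕ)
    (a : Fin n → Fin (q + 1) → ℕ), 1 ≤ n → Tiles n q (q + 1) (sz n q (q + 1)) a →
    Nat.choose (2 * (q + 1)) (q + 1) ≤ 32 * (q + 1) * n →
    expo n q (sz n q (q + 1)) a ≤ (1 + δ) * ((q : ℝ) + 1) ^ 2 / 2 +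
      C * (q + 1) * (Real.log (q + 1) + 1) := by
  refine ⟨32 * (2 * Real.log (32 / δ) + 3), ?_⟩
  intro n q a hn hT hc
  have hn0 : (0 : ℝ) < n := by exact_mod_cast hn
  have hn1 : (1 : ℝ) ≤ n := by exact_mod_cast hn
  set r : ℝ := (q : ℝ) + 1 with hr
  have hr1 : 1 ≤ r := by
    rw [hr]
    have : (0 : ℝ) ≤ q := Nat.cast_nonneg q
    linarith
  have hr0 : 0 < r := by linarith
  set s := sz n q (q + 1) with hs
  let A : Fin (q + 1) → ℝ := fun l => ∑ ρ, (tbet a ρ l : ℝ)
  have hA0 : ∀ l, 0 ≤ A l := fun l => Finset.sum_nonneg (fun ρ _ => Nat.cast_nonneg _)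
  have hA1 : ∀ l, A l ≤ 32 * r * n := by
    intro l
    have h1 := ub24_col n q a hT.inj hT.deg l
    have h2 : ((∑ ρ, tbet a ρ l : ℕ) : ℝ) ≤ ((32 * (q + 1) * n : ℕ) : ℝ) := by
      exact_mod_cast le_trans h1 hc
    push_cast at h2
    exact h2
  have hAs : ∑ l, A l ≤ n * r * r := by
    have h1 : ∑ l, A l = ∑ ρ, ((∑ l, tbet a ρ l : ℕ) : ℝ) := by
      simp only [A]
      rw [Finset.sum_comm]
      push_cast
      rfl
    rw [h1]
    have h2 : ∀ ρ ∈ (Finset.univ : Finset (Fin n × Fin (q + 1))),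
        ((∑ l, tbet a ρ l : ℕ) : ℝ) ≤ r := by
      intro ρ _
      have := hT.deg ρ
      have h3 : ((∑ l, tbet a ρ l : ℕ) : ℝ) ≤ ((q + 1 : ℕ) : ℝ) := by exact_mod_cast this
      push_cast at h3 ⊢
      exact h3
    refine le_trans (Finset.sum_le_card_nsmul _ _ _ h2) ?_
    rw [nsmul_eq_mul]
    simp only [Finset.card_univ, Fintype.card_prod, Fintype.card_fin]
    push_cast
    exact le_refl _
  have hexp : expo n q s a = ∑ l, A l / (2 * n - s l) := by
    unfold expo
    rw [Finset.sum_comm]
    refine Finset.sum_congr rfl (fun l _ => ?_)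
    simp only [A]
    rw [Finset.sum_div]
  have hsn : ∀ l, (s l : ℝ) ≤ n := by
    intro l
    exact_mod_cast hT.le l
  classical
  let bad : Finset (Fin (q + 1)) := Finset.univ.filter (fun l => δ * n < (s l : ℝ))
  have hterm : ∀ l, A l / (2 * n - s l) ≤ (1 + δ) / (2 * n) * A l +
      (if l ∈ bad then 32 * r else 0) := by
    intro l
    by_cases hl : δ * n < (s l : ℝ)
    · have h1 : l ∈ bad := by
        simp only [bad, Finset.mem_filter, Finset.mem_univ, true_and]
        exact hl
      rw [if_pos h1]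
      have h2 : A l / (2 * n - s l) ≤ 32 * r := by
        have h3 : (n : ℝ) ≤ 2 * n - s l := by
          have := hsn l
          linarith
        rw [div_le_iff₀ (by linarith)]
        have h4 := hA1 l
        nlinarith
      have h5 : 0 ≤ (1 + δ) / (2 * n) * A l := by
        have := hA0 l
        positivity
      linarith
    · have h1 : l ∉ bad := by
        simp only [bad, Finset.mem_filter, Finset.mem_univ, true_and]
        exact hl
      rw [if_neg h1, add_zero]
      push Not at hl
      have h3 : 0 < 2 * (n : ℝ) - s l := by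
        have := hsn l
        linarith
      have h4 : 1 / (2 * (n : ℝ) - s l) ≤ (1 + δ) / (2 * n) := by
        rw [div_le_div_iff₀ h3 (by positivity)]
        have h5 : δ * (δ * n) ≤ δ * n := by
          have : 0 ≤ δ * n := by positivity
          nlinarith
        nlinarith
      calc A l / (2 * n - s l) = 1 / (2 * n - s l) * A l := by ring
        _ ≤ (1 + δ) / (2 * n) * A l := mul_le_mul_of_nonneg_right h4 (hA0 l)
  have hsum : expo n q s a ≤ (1 + δ) / (2 * n) * (n * r * r) + 32 * r * bad.card := by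
    rw [hexp]
    refine le_trans (Finset.sum_le_sum (fun l _ => hterm l)) ?_
    rw [Finset.sum_add_distrib, ← Finset.mul_sum]
    have h1 : (1 + δ) / (2 * n) * ∑ l, A l ≤ (1 + δ) / (2 * n) * (n * r * r) :=
      mul_le_mul_of_nonneg_left hAs (by positivity)
    have h2 : ∑ l, (if l ∈ bad then 32 * r else 0) = 32 * r * bad.card := by
      rw [Finset.sum_ite_mem, Finset.univ_inter, Finset.sum_const, nsmul_eq_mul]
      ring
    linarith
  -- the number of bad coordinates
  have hx1 : 1 ≤ 32 / δ := by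
    rw [le_div_iff₀ hδ]
    linarith
  have hx2 : 1 ≤ 32 / δ * r := by nlinarith
  have hL0 : 0 ≤ Real.log (32 / δ * r) / Real.log 2 :=
    div_nonneg (Real.log_nonneg hx2) (Real.log_nonneg (by norm_num))
  have hbad : (bad.card : ℝ) ≤ Real.log (32 / δ * r) / Real.log 2 + 1 := by
    set L := ⌊Real.log (32 / δ * r) / Real.log 2⌋₊ with hL
    have h1 : bad.card ≤ L + 1 := by
      have h2 : bad.card ≤ (Finset.range (L + 1)).card := by
        refine Finset.card_le_card_of_injOn (fun l => (l : ℕ)) ?_ ?_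
        · intro l hl
          simp only [Finset.mem_coe, bad, Finset.mem_filter, Finset.mem_univ, true_and] at hl
          rw [Finset.mem_coe, Finset.mem_range, Nat.lt_succ_iff]
          refine Nat.le_floor ?_
          rw [le_div_iff₀ (Real.log_pos (by norm_num)), ← Real.log_pow]
          refine Real.log_le_log (by positivity) ?_
          have h3 : s l ≤ (2 * (q + 1) - (l : ℕ)).choose (q + 1) := by
            rw [hs]
            unfold sz
            refine le_trans (min_le_right _ _) ?_
            rw [two_mul]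
          have h4 := ub24_pow (q + 1) l (by omega)
          have h5 : ((2 ^ (l : ℕ) * (2 * (q + 1) - (l : ℕ)).choose (q + 1) : ℕ) : ℝ) ≤
              ((32 * (q + 1) * n : ℕ) : ℝ) := by exact_mod_cast le_trans h4 hc
          have h6 : (s l : ℝ) ≤ (((2 * (q + 1) - (l : ℕ)).choose (q + 1) : ℕ) : ℝ) := by
            exact_mod_cast h3
          push_cast at h5
          rw [← hr] at h5
          have h7 : (2 : ℝ) ^ (l : ℕ) * (δ * n) ≤ 32 * r * n := by
            refine le_trans ?_ h5
            refine mul_le_mul_of_nonneg_left ?_ (by positivity)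
            exact le_trans hl.le h6
          have h8 : (2 : ℝ) ^ (l : ℕ) * δ ≤ 32 * r := by
            have h9 : (2 : ℝ) ^ (l : ℕ) * δ * n ≤ 32 * r * n := by
              rw [mul_assoc]
              exact h7
            exact le_of_mul_le_mul_right h9 hn0
          rw [div_mul_eq_mul_div, le_div_iff₀ hδ]
          exact h8
        · intro x _ y _ h
          exact Fin.ext h
      rwa [Finset.card_range] at h2
    have h2 : (L : ℝ) ≤ Real.log (32 / δ * r) / Real.log 2 := Nat.floor_le hL0
    have h3 : (bad.card : ℝ) ≤ (L : ℝ) + 1 := by exact_mod_cast h1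
    linarith
  have hlog2 : (1 / 2 : ℝ) ≤ Real.log 2 := by
    have := Real.log_two_gt_d9
    linarith
  have hlr : 0 ≤ Real.log r := Real.log_nonneg hr1
  have hld : 0 ≤ Real.log (32 / δ) := Real.log_nonneg hx1
  have hbad2 : (bad.card : ℝ) ≤ 2 * (Real.log (32 / δ) + Real.log r) + 1 := by
    refine le_trans hbad ?_
    rw [Real.log_mul (by positivity) (by positivity)]
    have h1 : (Real.log (32 / δ) + Real.log r) / Real.log 2 ≤
        2 * (Real.log (32 / δ) + Real.log r) := by
      rw [div_le_iff₀ (by linarith)]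
      nlinarith
    linarith
  have hfirst : (1 + δ) / (2 * n) * (n * r * r) = (1 + δ) * r ^ 2 / 2 := by
    field_simp
  rw [hfirst] at hsum
  refine le_trans hsum ?_
  have h9 : 32 * r * (bad.card : ℝ) ≤ 32 * r * (2 * (Real.log (32 / δ) + Real.log r) + 1) :=
    mul_le_mul_of_nonneg_left hbad2 (by positivity)
  have h10 : 2 * (Real.log (32 / δ) + Real.log r) + 1 ≤
      (2 * Real.log (32 / δ) + 3) * (Real.log r + 1) := by
    nlinarith [mul_nonneg hld hlr]
  have h11 : 32 * r * (2 * (Real.log (32 / δ) + Real.log r) + 1) ≤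
      32 * r * ((2 * Real.log (32 / δ) + 3) * (Real.log r + 1)) :=
    mul_le_mul_of_nonneg_left h10 (by positivity)
  nlinarith

end Pool.Agent.H52.UB
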