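import Pool.Agent.H52.UB.Choice
import Pool.Agent.H52.UB.ExistsR
import Pool.Agent.H52.UB.ExpoLe

/-!
# Project UB, row 25: asymptotics of the exponent
-/

set_option autoImplicit false

open NumberField Polynomial Module

namespace Pool.Agent.H52.UB

open Filter in
/-- `C (log x + 1) ≤ η x` for large `x` -/
theorem ub25_log (C η : ℝ) (hη : 0 < η) : ∃ R : ℝ, 0 < R ∧ ∀ x : ℝ, R ≤ x →
    C * (Real.log (x + 1) + 1) ≤ η * (x + 1) := by
  have h1 : Tendsto (fun x : ℝ => Real.log x / x) atTop (nhds 0) := by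
    have := Real.isLittleO_log_id_atTop.tendsto_div_nhds_zero
    simpa using this
  have h2 : Tendsto (fun x : ℝ => C * (Real.log x / x + x⁻¹)) atTop (nhds 0) := by
    have := (h1.add tendsto_inv_atTop_zero).const_mul C
    simpa using this
  have h3 := (h2.eventually (gt_mem_nhds hη)).and (eventually_ge_atTop (1 : ℝ))
  obtain ⟨R, hR⟩ := eventually_atTop.1 h3
  refine ⟨max R 1, lt_of_lt_of_le one_pos (le_max_right _ _), fun x hx => ?_⟩
  have hx1 : (1 : ℝ) ≤ x := le_trans (le_max_right _ _) hx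
  obtain ⟨h4, h5⟩ := hR (x + 1) (by linarith [le_max_left R 1])
  have h6 : (0 : ℝ) < x + 1 := by linarith
  have h7 : C * (Real.log (x + 1) / (x + 1) + (x + 1)⁻¹) * (x + 1) ≤ η * (x + 1) :=
    mul_le_mul_of_nonneg_right h4.le h6.le
  have h8 : C * (Real.log (x + 1) / (x + 1) + (x + 1)⁻¹) * (x + 1) =
      C * (Real.log (x + 1) + 1) := by
    field_simp
  linarith

theorem ub25_choose (c : ℝ) (hc : 1 / (8 * Real.log 2 ^ 2) < c) : ∃ δ : ℝ, 0 < δ ∧ δ ≤ 1 ∧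
    (1 + 3 * δ) * (1 + δ) ^ 2 * (1 / (8 * Real.log 2 ^ 2)) < c := by
  have hcont : Filter.Tendsto (fun δ : ℝ => (1 + 3 * δ) * (1 + δ) ^ 2 *
      (1 / (8 * Real.log 2 ^ 2))) (nhdsWithin 0 (Set.Ioi 0))
      (nhds ((1 + 3 * 0) * (1 + 0) ^ 2 * (1 / (8 * Real.log 2 ^ 2)))) := by
    apply Filter.Tendsto.mono_left _ nhdsWithin_le_nhds
    apply Continuous.tendsto
    fun_prop
  have h1 := hcont.eventually (gt_mem_nhds (by simpa using hc))
  have h2 : ∀ᶠ δ : ℝ in nhdsWithin 0 (Set.Ioi 0), δ ≤ 1 :=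
    nhdsWithin_le_nhds (Iic_mem_nhds one_pos)
  have h3 : ∀ᶠ δ : ℝ in nhdsWithin 0 (Set.Ioi 0), 0 < δ := self_mem_nhdsWithin
  obtain ⟨δ, ⟨h4, h5⟩, h6⟩ := ((h1.and h2).and h3).exists
  exact ⟨δ, h6, h5, h4⟩

theorem asym (c : ℝ) (hc : 1 / (8 * Real.log 2 ^ 2) < c) : ∃ n0 : ℕ, ∀ n : ℕ, n0 ≤ n →
    ∃ (q : ℕ) (a : Fin n → Fin (q + 1) → ℕ), Tiles n q (q + 1) (sz n q (q + 1)) a ∧
      expo n q (sz n q (q + 1)) a < c * Real.log n ^ 2 := by
  obtain ⟨δ, hδ, hδ1, hδc⟩ := ub25_choose c hc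
  obtain ⟨C, hC⟩ := expo_le δ hδ hδ1
  obtain ⟨R, hR, hlog⟩ := ub25_log C δ hδ
  obtain ⟨n0, hn0⟩ := exists_r (min δ (1 / R)) (lt_min hδ (by positivity))
  refine ⟨max n0 2, fun n hn => ?_⟩
  have hn2 : 2 ≤ n := le_trans (le_max_right _ _) hn
  obtain ⟨q, hq1, hq2, hq3, hq4, hq5⟩ := hn0 n (le_trans (le_max_left _ _) hn)
  obtain ⟨a, ha⟩ := exists_tiles n q (q + 1) (by omega) hq2
  refine ⟨q, a, ha, ?_⟩
  have hln : 0 < Real.log n := Real.log_pos (by exact_mod_cast (by omega : 1 < n))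
  have hqR : R ≤ q := by
    have h1 : R ≤ 1 / min δ (1 / R) := by
      rw [le_div_iff₀ (lt_min hδ (by positivity))]
      calc R * min δ (1 / R) ≤ R * (1 / R) := mul_le_mul_of_nonneg_left (min_le_right _ _) hR.le
        _ = 1 := by field_simp
    exact h1.trans hq4
  have he := hC n q a (by omega) ha hq3
  have h1 := hlog q hqR
  have hq0 : (0 : ℝ) ≤ q := Nat.cast_nonneg q
  have h2 : C * ((q : ℝ) + 1) * (Real.log (q + 1) + 1) ≤ δ * ((q : ℝ) + 1) ^ 2 := by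
    have := mul_le_mul_of_nonneg_left h1 (by linarith : (0 : ℝ) ≤ (q : ℝ) + 1)
    nlinarith
  have hl4 : Real.log 4 = 2 * Real.log 2 := by
    rw [show (4 : ℝ) = 2 ^ 2 by norm_num, Real.log_pow]; norm_num
  have hl2 : 0 < Real.log 2 := Real.log_pos (by norm_num)
  have h3 : ((q : ℝ) + 1) * (2 * Real.log 2) ≤ (1 + δ) * Real.log n := by
    rw [← hl4]
    refine hq5.trans (mul_le_mul_of_nonneg_right ?_ hln.le)
    linarith [min_le_left δ (1 / R)]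
  have h4 : ((q : ℝ) + 1) ≤ (1 + δ) * Real.log n / (2 * Real.log 2) := by
    rw [le_div_iff₀ (by positivity)]
    exact h3
  have h5 : ((q : ℝ) + 1) ^ 2 ≤ ((1 + δ) * Real.log n / (2 * Real.log 2)) ^ 2 := by
    apply pow_le_pow_left₀ (by linarith) h4
  have h6 : (1 + δ) * ((q : ℝ) + 1) ^ 2 / 2 + δ * ((q : ℝ) + 1) ^ 2 =
      (1 + 3 * δ) / 2 * ((q : ℝ) + 1) ^ 2 := by ring
  have h7 : (1 + 3 * δ) / 2 * ((q : ℝ) + 1) ^ 2 ≤
      (1 + 3 * δ) / 2 * ((1 + δ) * Real.log n / (2 * Real.log 2)) ^ 2 :=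
    mul_le_mul_of_nonneg_left h5 (by positivity)
  have h8 : (1 + 3 * δ) / 2 * ((1 + δ) * Real.log n / (2 * Real.log 2)) ^ 2 =
      (1 + 3 * δ) * (1 + δ) ^ 2 * (1 / (8 * Real.log 2 ^ 2)) * Real.log n ^ 2 := by
    field_simp
    ring
  have h9 : (1 + 3 * δ) * (1 + δ) ^ 2 * (1 / (8 * Real.log 2 ^ 2)) * Real.log n ^ 2 <
      c * Real.log n ^ 2 := mul_lt_mul_of_pos_right hδc (by positivity)
  linarith

end Pool.Agent.H52.UB
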