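import Pool.Agent.H52.UB.Defs2

/-!
# UB-40: the capacity of a block is small
-/

set_option autoImplicit false
set_option maxHeartbeats 400000

open NumberField Polynomial Module

namespace Pool.Agent.H52.UB

theorem ub40_half (N q : ℕ) (h : N + 1 ≤ 2 * q) : 2 * Nat.choose N q ≤ Nat.choose (N + 1) q := by
  have h1 := Nat.choose_mul_succ_eq N q
  have h2 : 2 * (N + 1 - q) ≤ N + 1 := by omega
  have h3 : 2 * Nat.choose N q * (N + 1) ≤ Nat.choose (N + 1) q * (N + 1) := by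
    calc 2 * Nat.choose N q * (N + 1) = Nat.choose (N + 1) q * (2 * (N + 1 - q)) := by
          rw [mul_assoc, h1]
          ring
      _ ≤ Nat.choose (N + 1) q * (N + 1) := Nat.mul_le_mul_left _ h2
  exact Nat.le_of_mul_le_mul_right h3 (Nat.succ_pos N)

theorem ub40_iter (q : ℕ) : ∀ j : ℕ, j ≤ 2 * q →
    2 ^ j * Nat.choose (2 * q - j) q ≤ Nat.choose (2 * q) q := by
  intro j
  induction j with
  | zero => intro _; simp
  | succ j ih =>
    intro hj
    have h1 := ub40_half (2 * q - (j + 1)) q (by omega)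
    have e1 : 2 * q - (j + 1) + 1 = 2 * q - j := by omega
    rw [e1] at h1
    calc 2 ^ (j + 1) * Nat.choose (2 * q - (j + 1)) q
        = 2 ^ j * (2 * Nat.choose (2 * q - (j + 1)) q) := by ring
      _ ≤ 2 ^ j * Nat.choose (2 * q - j) q := Nat.mul_le_mul_left _ h1
      _ ≤ Nat.choose (2 * q) q := ih (by omega)

theorem ub40_pow (L : ℕ) (hL : 5 ≤ L) : 4 * L + 5 ≤ 2 ^ L := by
  induction L, hL using Nat.le_induction with
  | base => norm_num
  | succ m hm ih =>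
    rw [pow_succ]
    omega

theorem ub40_hfull_le (q : ℕ) (hq : 31 ≤ q) : hfull q ≤ q := by
  have h1 : 5 ≤ Nat.log 2 (q + 1) := by
    have h2 : Nat.log 2 32 ≤ Nat.log 2 (q + 1) := Nat.log_mono_right (by omega)
    have h3 : Nat.log 2 32 = 5 := by
      rw [show (32 : ℕ) = 2 ^ 5 by norm_num, Nat.log_pow (by norm_num)]
    omega
  have h4 := ub40_pow _ h1
  have h5 : 2 ^ Nat.log 2 (q + 1) ≤ q + 1 := Nat.pow_log_le_self 2 (by omega)
  unfold hfull
  omega

theorem ub40_hfull_pow (q : ℕ) : (q + 1) ^ 4 ≤ 2 ^ hfull q := by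
  have h1 : q + 1 < 2 ^ (Nat.log 2 (q + 1) + 1) := Nat.lt_pow_succ_log_self (by norm_num) _
  unfold hfull
  rw [mul_comm 4, pow_mul]
  exact Nat.pow_le_pow_left h1.le 4

theorem cap_small (ε : ℝ) (hε : 0 < ε) : ∃ q0 : ℕ, ∀ n q T : ℕ, q0 ≤ q → 1 ≤ n →
    2 * hfull q * (q + 1) * n ≤ Nat.choose (2 * q) (q + 1) →
    Nat.choose (2 * (q + 1)) (q + 1) ≤ 160 * hfull q * (q + 1) * n →
    (T : ℝ) ≤ 1 / ε * Real.log n + 1 →
    hfull q ≤ q ∧ T * Nat.choose (q + (q + 1 - hfull q)) (q + 1 - hfull q) ≤ n := by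
  refine ⟨max 31 ⌈320 * (2 / ε + 1)⌉₊, ?_⟩
  intro n q T hq hn h1 h2 hT
  have hq31 : 31 ≤ q := (le_max_left _ _).trans hq
  have hqc : (320 * (2 / ε + 1) : ℝ) ≤ q := by
    have h3 : ⌈320 * (2 / ε + 1)⌉₊ ≤ q := (le_max_right _ _).trans hq
    exact (Nat.le_ceil _).trans (by exact_mod_cast h3)
  have hle := ub40_hfull_le q hq31
  have hpos : 4 ≤ hfull q := by
    unfold hfull
    omega
  refine ⟨hle, ?_⟩
  set h : ℕ := hfull q with hh
  have hpow : (q + 1) ^ 4 ≤ 2 ^ h := ub40_hfull_pow q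
  -- the binomial coefficient
  set c : ℕ := Nat.choose (q + (q + 1 - h)) (q + 1 - h) with hc
  have hc1 : c = Nat.choose (2 * q - (h - 1)) q := by
    rw [hc, ← Nat.choose_symm_add]
    congr 1
    omega
  have hc2 : 2 ^ (h - 1) * c ≤ Nat.choose (2 * q) q := by
    rw [hc1]
    exact ub40_iter q (h - 1) (by omega)
  have hc3 : Nat.choose (2 * q) q ≤ Nat.choose (2 * (q + 1)) (q + 1) :=
    calc Nat.choose (2 * q) q ≤ Nat.choose (2 * q + 1) (q + 1) :=
          by rw [Nat.choose_succ_succ']; exact Nat.le_add_right _ _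
      _ ≤ Nat.choose (2 * (q + 1)) (q + 1) := Nat.choose_le_choose _ (by omega)
  have hc4 : (q + 1) ^ 4 * c ≤ 320 * h * (q + 1) * n := by
    have e1 : 2 ^ h = 2 * 2 ^ (h - 1) := by
      rw [← pow_succ', Nat.sub_add_cancel (by omega)]
    calc (q + 1) ^ 4 * c ≤ 2 ^ h * c := Nat.mul_le_mul_right _ hpow
      _ = 2 * (2 ^ (h - 1) * c) := by rw [e1]; ring
      _ ≤ 2 * (160 * h * (q + 1) * n) := Nat.mul_le_mul_left _ ((hc2.trans hc3).trans h2)
      _ = 320 * h * (q + 1) * n := by ring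
  have hc5 : (q + 1) ^ 3 * c ≤ 320 * q * n := by
    have h3 : (q + 1) * ((q + 1) ^ 3 * c) ≤ (q + 1) * (320 * h * n) := by
      calc (q + 1) * ((q + 1) ^ 3 * c) = (q + 1) ^ 4 * c := by ring
        _ ≤ 320 * h * (q + 1) * n := hc4
        _ = (q + 1) * (320 * h * n) := by ring
    have h4 := Nat.le_of_mul_le_mul_left h3 (Nat.succ_pos q)
    refine h4.trans (Nat.mul_le_mul_right _ (Nat.mul_le_mul_left _ hle))
  -- the size of `n`
  have hn4 : n ≤ 4 ^ q := by
    have h3 : n ≤ 2 * h * (q + 1) * n := by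
      have h5 : 1 ≤ 2 * h * (q + 1) := Nat.mul_pos (by omega) (Nat.succ_pos q)
      calc n = 1 * n := (one_mul n).symm
        _ ≤ 2 * h * (q + 1) * n := Nat.mul_le_mul_right _ h5
    calc n ≤ Nat.choose (2 * q) (q + 1) := h3.trans h1
      _ ≤ 2 ^ (2 * q) := Nat.choose_le_two_pow _ _
      _ = 4 ^ q := by rw [pow_mul]; norm_num
  have hnpos : (0 : ℝ) < n := by exact_mod_cast hn
  have hlog : Real.log n ≤ 2 * q := by
    have h3 : Real.log n ≤ Real.log ((4 : ℝ) ^ q) :=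
      Real.log_le_log hnpos (by exact_mod_cast hn4)
    rw [Real.log_pow] at h3
    have h4 : Real.log 4 ≤ 2 := by
      have h5 : (4 : ℝ) = 2 ^ 2 := by norm_num
      rw [h5, Real.log_pow]
      have := Real.log_two_lt_d9
      push_cast
      linarith
    have h6 : (0 : ℝ) ≤ q := Nat.cast_nonneg q
    nlinarith
  have hq1 : (1 : ℝ) ≤ q := by
    have : 1 ≤ q := by omega
    exact_mod_cast this
  have hT2 : (T : ℝ) ≤ q * (2 / ε + 1) := by
    have h3 : 1 / ε * Real.log n ≤ 1 / ε * (2 * q) :=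
      mul_le_mul_of_nonneg_left hlog (by positivity)
    have e1 : 1 / ε * (2 * (q : ℝ)) = q * (2 / ε) := by ring
    rw [e1] at h3
    calc (T : ℝ) ≤ q * (2 / ε) + 1 := by linarith
      _ ≤ q * (2 / ε + 1) := by rw [mul_add, mul_one]; linarith
  -- conclusion
  have hT3 : (T : ℝ) * (320 * q) ≤ ((q : ℝ) + 1) ^ 3 := by
    have hq0 : (0 : ℝ) ≤ q := Nat.cast_nonneg q
    calc (T : ℝ) * (320 * q) ≤ q * (2 / ε + 1) * (320 * q) := by gcongr
      _ = q * q * (320 * (2 / ε + 1)) := by ring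
      _ ≤ q * q * q := by gcongr
      _ ≤ ((q : ℝ) + 1) ^ 3 := by nlinarith [mul_nonneg hq0 hq0]
  have hT4 : T * (320 * q) ≤ (q + 1) ^ 3 := by exact_mod_cast hT3
  have h7 : (q + 1) ^ 3 * (T * c) ≤ (q + 1) ^ 3 * n := by
    calc (q + 1) ^ 3 * (T * c) = T * ((q + 1) ^ 3 * c) := by ring
      _ ≤ T * (320 * q * n) := Nat.mul_le_mul_left _ hc5
      _ = T * (320 * q) * n := by ring
      _ ≤ (q + 1) ^ 3 * n := Nat.mul_le_mul_right _ hT4
  exact Nat.le_of_mul_le_mul_left h7 (by positivity)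

end Pool.Agent.H52.UB
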