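import Pool.Agent.H52.UB.Defs

/-!
# Project UB, row 8: tile systems by colouring and pigeonhole
-/

set_option autoImplicit false

namespace Pool.Agent.H52.UB

/-- the number of exponents of total degree at most `d` -/
theorem ub8_card (ι : Type*) [Fintype ι] (d : ℕ) :
    Nat.card {f : ι → ℕ // ∑ i, f i ≤ d} = Nat.choose (Fintype.card ι + d) d := by
  classical
  let e : {f : ι → ℕ // ∑ i, f i ≤ d} ≃ {P : Option ι → ℕ // ∑ i, P i = d} :=
    { toFun := fun f => ⟨fun o => o.elim (d - ∑ i, f.1 i) f.1, by
        rw [Fintype.sum_option]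
        exact Nat.sub_add_cancel f.2⟩
      invFun := fun P => ⟨fun i => P.1 (some i), by
        have := P.2
        rw [Fintype.sum_option] at this
        change ∑ i, P.1 (some i) ≤ d
        omega⟩
      left_inv := fun f => by
        ext i
        rfl
      right_inv := fun P => by
        ext o
        cases o with
        | none =>
          have := P.2
          rw [Fintype.sum_option] at this
          change d - ∑ i, P.1 (some i) = P.1 none
          omega
        | some i => rfl }
  rw [Nat.card_congr (e.trans (Sym.equivNatSumOfFintype (Option ι) d).symm),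
    Nat.card_eq_fintype_card, Sym.card_sym_eq_choose, Fintype.card_option]
  congr 1
  omega

theorem ub8_finite (ι : Type*) [Fintype ι] (d : ℕ) : Finite {f : ι → ℕ // ∑ i, f i ≤ d} := by
  apply Nat.finite_of_card_ne_zero
  rw [ub8_card]
  exact (Nat.choose_pos (Nat.le_add_left _ _)).ne'

theorem node_card {n q d : ℕ} {a : Fin n → Fin (q + 1) → ℕ} (hinj : Function.Injective (tbet a))
    (hd : ∀ ρ, ∑ l, tbet a ρ l ≤ d) (i : Fin (q + 1)) (c : Fin (q + 1) → ℕ) :
    Nat.card {j : Fin n // ∃ i', ∀ l < i, tbet a (j, i') l = c l} ≤ sz n q d i := by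
  classical
  refine le_min ?_ ?_
  · have h1 := Nat.card_le_card_of_injective
      (Subtype.val : {j : Fin n // ∃ i', ∀ l < i, tbet a (j, i') l = c l} → Fin n)
      Subtype.val_injective
    simpa using h1
  · let S := {j : Fin n // ∃ i', ∀ l < i, tbet a (j, i') l = c l}
    let w : S → Fin (q + 1) := fun j => j.2.choose
    have hw : ∀ (j : S) l, l < i → tbet a (j.1, w j) l = c l := fun j => j.2.choose_spec
    let g : S → {f : {l : Fin (q + 1) // i ≤ l} → ℕ // ∑ l, f l ≤ d} := fun j =>
      ⟨fun l => tbet a (j.1, w j) l.1, by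
        refine le_trans ?_ (hd (j.1, w j))
        have h1 : ∑ l : {l : Fin (q + 1) // i ≤ l}, tbet a (j.1, w j) l.1 =
            ∑ l ∈ Finset.univ.filter (fun l => i ≤ l), tbet a (j.1, w j) l :=
          (Finset.sum_subtype _ (by simp) _).symm
        rw [h1]
        exact Finset.sum_le_sum_of_subset (Finset.filter_subset _ _)⟩
    have hg : Function.Injective g := by
      intro j k hjk
      have h1 : tbet a (j.1, w j) = tbet a (k.1, w k) := by
        funext l
        rcases lt_or_ge l i with hl | hl
        · rw [hw j l hl, hw k l hl]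
        · have := congrFun (congrArg Subtype.val hjk) ⟨l, hl⟩
          exact this
      exact Subtype.ext (congrArg Prod.fst (hinj h1))
    have hfin := ub8_finite {l : Fin (q + 1) // i ≤ l} d
    have h2 := Nat.card_le_card_of_injective g hg
    rw [ub8_card] at h2
    have h3 : Fintype.card {l : Fin (q + 1) // i ≤ l} = q + 1 - i := by
      rw [Fintype.card_subtype]
      have : Finset.univ.filter (fun l : Fin (q + 1) => i ≤ l) = Finset.Ici i := by
        ext l
        simp
      rw [this, Fin.card_Ici]
    rw [h3] at h2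
    refine h2.trans (le_of_eq ?_)
    congr 1
    have := i.2
    omega

theorem exists_tiles (n q d : ℕ) (hd : 2 ≤ d)
    (h : (q + 1) * n ≤ Nat.choose (q + 1 + (d - 2)) (q + 1)) :
    ∃ a : Fin n → Fin (q + 1) → ℕ, Tiles n q d (sz n q d) a := by
  classical
  let S := {f : Fin (q + 1) → ℕ // ∑ l, f l ≤ d - 2}
  have hfin : Finite S := ub8_finite _ _
  let _ : Fintype S := Fintype.ofFinite S
  have hcard : Fintype.card S = Nat.choose (q + 1 + (d - 2)) (q + 1) := by
    rw [← Nat.card_eq_fintype_card, ub8_card, Fintype.card_fin]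
    exact (Nat.choose_symm_add).symm
  -- the colour
  let col : (Fin (q + 1) → ℕ) → ZMod (q + 1) := fun f =>
    ∑ l : Fin (q + 1), (((l : ℕ) * f l : ℕ) : ZMod (q + 1))
  have hcol : ∀ f g, col (f + g) = col f + col g := by
    intro f g
    simp only [col, Pi.add_apply, mul_add, Nat.cast_add, Finset.sum_add_distrib]
  have hcol1 : ∀ i : Fin (q + 1), col (Pi.single i 1) = ((i : ℕ) : ZMod (q + 1)) := by
    intro i
    simp only [col]
    rw [Finset.sum_eq_single i]
    · simp
    · intro l _ hl
      simp [Pi.single_eq_of_ne hl]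
    · intro hi
      exact absurd (Finset.mem_univ i) hi
  obtain ⟨κ, hκ⟩ := Fintype.exists_le_card_fiber_of_mul_le_card
    (fun f : S => col f.1) (n := n) (by rw [hcard, ZMod.card]; exact h)
  -- choose `n` elements of the colour class
  obtain ⟨T, hT1, hT2⟩ := Finset.exists_subset_card_eq hκ
  let e : Fin n ≃ T := (Finset.equivFinOfCardEq hT2).symm
  let a : Fin n → Fin (q + 1) → ℕ := fun j => (e j).1.1 + Pi.single 0 1
  have ha : Function.Injective a := by
    intro j k hjk
    have h1 : (e j).1.1 = (e k).1.1 := add_right_cancel hjk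
    exact e.injective (Subtype.ext (Subtype.ext h1))
  have hac : ∀ j, col (a j) = κ := by
    intro j
    have h1 := (Finset.mem_filter.mp (hT1 (e j).2)).2
    change col ((e j).1.1 + Pi.single 0 1) = κ
    rw [hcol, hcol1]
    simpa using h1
  have htc : ∀ j i, col (tbet a (j, i)) = κ + ((i : ℕ) : ZMod (q + 1)) := by
    intro j i
    simp only [tbet]
    split_ifs with hi
    · rw [hac, hi]
      simp
    · rw [hcol, hcol1, hac]
  have hinj : Function.Injective (tbet a) := by
    rintro ⟨j, i⟩ ⟨k, i'⟩ hjk
    have h1 : ((i : ℕ) : ZMod (q + 1)) = ((i' : ℕ) : ZMod (q + 1)) := by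
      have h2 := htc j i
      rw [hjk, htc k i'] at h2
      exact (add_left_cancel h2).symm
    have h3 : i = i' := by
      rw [ZMod.natCast_eq_natCast_iff', Nat.mod_eq_of_lt i.2, Nat.mod_eq_of_lt i'.2] at h1
      exact Fin.ext h1
    subst h3
    have h4 : a j = a k := by
      simp only [tbet] at hjk
      split_ifs at hjk with hi
      · exact hjk
      · exact add_right_cancel hjk
    rw [ha h4]
  have hdeg : ∀ ρ, ∑ l, tbet a ρ l ≤ d := by
    rintro ⟨j, i⟩
    have h1 : ∑ l, a j l ≤ d - 1 := by
      change ∑ l, ((e j).1.1 l + (Pi.single 0 1 : Fin (q + 1) → ℕ) l) ≤ d - 1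
      rw [Finset.sum_add_distrib, Finset.sum_pi_single']
      have := (e j).1.2
      simp only [Finset.mem_univ, if_true]
      omega
    simp only [tbet]
    split_ifs with hi
    · omega
    · simp only [Pi.add_apply]
      rw [Finset.sum_add_distrib, Finset.sum_pi_single']
      simp only [Finset.mem_univ, if_true]
      omega
  refine ⟨a, ⟨fun j => ?_, hinj, hdeg, fun i c => node_card hinj hdeg i c,
    fun i => min_le_left _ _⟩⟩
  change 1 ≤ (e j).1.1 0 + (Pi.single 0 1 : Fin (q + 1) → ℕ) 0
  rw [Pi.single_eq_same]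
  omega

end Pool.Agent.H52.UB
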