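import Pool.Agent.H52.UB.Defs2
import Pool.Agent.H52.UB.Choice

/-!
# Project UB, row 37: two colourings
-/

set_option autoImplicit false

namespace Pool.Agent.H52.UB

/-- the increment of the coordinate `i ≠ 0` -/
def ub37_ind {q : ℕ} (i l : Fin (q + 1)) : ℕ := if i ≠ 0 ∧ l = i then 1 else 0

/-- weighted sums before and after the increments -/
theorem ub37_sum {q : ℕ} (w : Fin (q + 1) → ℕ) (hw : w 0 = 0) (b : Fin (q + 1) → ℕ)
    (i : Fin (q + 1)) : ∑ l, w l * (b l + ub37_ind i l) = ∑ l, w l * b l + w i := by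
  simp only [mul_add, Finset.sum_add_distrib]
  congr 1
  by_cases hi : i = 0
  · subst hi
    rw [hw]
    simp [ub37_ind]
  · rw [Finset.sum_eq_single i]
    · simp [ub37_ind, hi]
    · intro l _ hl
      simp [ub37_ind, hl]
    · intro h
      exact absurd (Finset.mem_univ i) h

theorem ub37_eq {q m : ℕ} (w : Fin (q + 1) → ℕ) (hw : w 0 = 0) (hwm : ∀ l, w l < m)
    {b b' : Fin (q + 1) → ℕ} {i i' : Fin (q + 1)}
    (hc : ((∑ l, w l * b l : ℕ) : ZMod m) = ((∑ l, w l * b' l : ℕ) : ZMod m))
    (h : ∀ l, w l ≠ 0 → b l + ub37_ind i l = b' l + ub37_ind i' l) : w i = w i' := by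
  have h1 : ∑ l, w l * (b l + ub37_ind i l) = ∑ l, w l * (b' l + ub37_ind i' l) := by
    refine Finset.sum_congr rfl fun l _ => ?_
    by_cases hl : w l = 0
    · rw [hl, zero_mul, zero_mul]
    · rw [h l hl]
  rw [ub37_sum w hw, ub37_sum w hw] at h1
  have h2 := congrArg (Nat.cast : ℕ → ZMod m) h1
  rw [Nat.cast_add, Nat.cast_add, hc] at h2
  have h3 := add_left_cancel h2
  rw [ZMod.natCast_eq_natCast_iff', Nat.mod_eq_of_lt (hwm i), Nat.mod_eq_of_lt (hwm i')] at h3
  exact h3

/-- two colourings: coordinates `< h` modulo `h`, the other ones modulo `q + 2 - h` -/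
theorem exists_colour (q h d N : ℕ) (hh : 1 ≤ h) (hq : h ≤ q) (hd : 2 ≤ d)
    (hN : h * (q + 2 - h) * N ≤ Nat.choose (q + 1 + (d - 2)) (q + 1)) :
    ∃ S : Finset (Fin (q + 1) → ℕ), N ≤ S.card ∧ (∀ b ∈ S, 1 ≤ b 0 ∧ ∑ l, b l + 1 ≤ d) ∧
      ∀ b ∈ S, ∀ b' ∈ S, ∀ i i' : Fin (q + 1),
        (∀ l : Fin (q + 1), (l : ℕ) < h →
          (b l + if i ≠ 0 ∧ l = i then 1 else 0) = (b' l + if i' ≠ 0 ∧ l = i' then 1 else 0)) →
        (∀ l : Fin (q + 1), (l : ℕ) < h → b l = b' l) ∧
        ((∀ l : Fin (q + 1), (b l + if i ≠ 0 ∧ l = i then 1 else 0) =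
          (b' l + if i' ≠ 0 ∧ l = i' then 1 else 0)) → b = b' ∧ i = i') := by
  classical
  let T := {f : Fin (q + 1) → ℕ // ∑ l, f l ≤ d - 2}
  have hfin : Finite T := ub8_finite _ _
  let _ : Fintype T := Fintype.ofFinite T
  have hcard : Fintype.card T = Nat.choose (q + 1 + (d - 2)) (q + 1) := by
    rw [← Nat.card_eq_fintype_card, ub8_card, Fintype.card_fin]
    exact (Nat.choose_symm_add).symm
  have hne1 : NeZero h := ⟨by omega⟩
  have hne2 : NeZero (q + 2 - h) := ⟨by omega⟩
  let wA : Fin (q + 1) → ℕ := fun l => if (l : ℕ) < h then (l : ℕ) else 0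
  let wB : Fin (q + 1) → ℕ := fun l => if (l : ℕ) < h then 0 else (l : ℕ) - h + 1
  have hA0 : wA 0 = 0 := by simp [wA]
  have hB0 : wB 0 = 0 := by
    have : ((0 : Fin (q + 1)) : ℕ) < h := by simp; omega
    simp only [wB, this, if_true]
  have hAm : ∀ l, wA l < h := by
    intro l
    simp only [wA]
    split_ifs with hl
    · exact hl
    · omega
  have hBm : ∀ l, wB l < q + 2 - h := by
    intro l
    have := l.2
    simp only [wB]
    split_ifs with hl
    · omega
    · omega
  let sh : T → (Fin (q + 1) → ℕ) := fun f => f.1 + Pi.single 0 1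
  have hsh : Function.Injective sh := fun f g hfg => Subtype.ext (add_right_cancel hfg)
  let col : (Fin (q + 1) → ℕ) → ZMod h × ZMod (q + 2 - h) := fun b =>
    (((∑ l, wA l * b l : ℕ) : ZMod h), ((∑ l, wB l * b l : ℕ) : ZMod (q + 2 - h)))
  obtain ⟨κ, hκ⟩ := Fintype.exists_le_card_fiber_of_mul_le_card
    (fun f : T => col (sh f)) (n := N) (by
      rw [hcard, Fintype.card_prod, ZMod.card, ZMod.card]
      exact hN)
  refine ⟨(Finset.univ.filter fun f : T => col (sh f) = κ).image sh, ?_, ?_, ?_⟩
  · rw [Finset.card_image_of_injective _ hsh]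
    exact hκ
  · intro b hb
    obtain ⟨f, -, rfl⟩ := Finset.mem_image.mp hb
    have h1 := f.2
    refine ⟨?_, ?_⟩
    · change 1 ≤ f.1 0 + (Pi.single 0 1 : Fin (q + 1) → ℕ) 0
      rw [Pi.single_eq_same]
      omega
    · change ∑ l, (f.1 l + (Pi.single 0 1 : Fin (q + 1) → ℕ) l) + 1 ≤ d
      rw [Finset.sum_add_distrib, Finset.sum_pi_single']
      simp only [Finset.mem_univ, if_true]
      omega
  · intro b hb b' hb' i i' hlow
    have hcb : col b = col b' := by
      obtain ⟨f, hf, rfl⟩ := Finset.mem_image.mp hb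
      obtain ⟨f', hf', rfl⟩ := Finset.mem_image.mp hb'
      rw [(Finset.mem_filter.mp hf).2, (Finset.mem_filter.mp hf').2]
    have hcA := congrArg Prod.fst hcb
    have hcB := congrArg Prod.snd hcb
    have hAi : wA i = wA i' := ub37_eq wA hA0 hAm hcA (fun l hl => by
      have hl' : (l : ℕ) < h := by
        by_contra hc
        exact hl (by simp only [wA, hc, if_false])
      exact hlow l hl')
    -- the increments agree on the coordinates below `h`
    have hind : ∀ l : Fin (q + 1), (l : ℕ) < h → ub37_ind i l = ub37_ind i' l := by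
      intro l hl
      have key : (i ≠ 0 ∧ l = i) ↔ (i' ≠ 0 ∧ l = i') := by
        constructor
        · rintro ⟨h1, rfl⟩
          have h2 : wA l = (l : ℕ) := by simp only [wA, hl, if_true]
          have h3 : (l : ℕ) ≠ 0 := fun h0 => h1 (Fin.ext (by simpa using h0))
          have h4 : (i' : ℕ) < h ∧ (i' : ℕ) = l := by
            rw [h2] at hAi
            simp only [wA] at hAi
            split_ifs at hAi with h5
            · exact ⟨h5, hAi.symm⟩
            · exact absurd hAi h3
          have h6 : l = i' := Fin.ext h4.2.symm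
          exact ⟨by rw [← h6]; exact h1, h6⟩
        · rintro ⟨h1, rfl⟩
          have h2 : wA l = (l : ℕ) := by simp only [wA, hl, if_true]
          have h3 : (l : ℕ) ≠ 0 := fun h0 => h1 (Fin.ext (by simpa using h0))
          have h4 : (i : ℕ) < h ∧ (i : ℕ) = l := by
            rw [h2] at hAi
            simp only [wA] at hAi
            split_ifs at hAi with h5
            · exact ⟨h5, hAi⟩
            · exact absurd hAi.symm h3
          have h6 : l = i := Fin.ext h4.2.symm
          exact ⟨by rw [← h6]; exact h1, h6⟩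
      simp only [ub37_ind, key]
    refine ⟨fun l hl => ?_, fun hall => ?_⟩
    · have h1 := hlow l hl
      have h2 := hind l hl
      simp only [ub37_ind] at h2
      omega
    · have hBi : wB i = wB i' := ub37_eq wB hB0 hBm hcB (fun l _ => hall l)
      have hii : i = i' := by
        by_cases hi : (i : ℕ) < h
        · by_cases hi' : (i' : ℕ) < h
          · simp only [wA, hi, hi', if_true] at hAi
            exact Fin.ext hAi
          · simp only [wB, hi, hi', if_true, if_false] at hBi
            omega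
        · by_cases hi' : (i' : ℕ) < h
          · simp only [wB, hi, hi', if_true, if_false] at hBi
            omega
          · simp only [wB, hi, hi', if_false] at hBi
            exact Fin.ext (by omega)
      subst hii
      exact ⟨funext fun l => add_right_cancel (hall l), rfl⟩

end Pool.Agent.H52.UB
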