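import Mathlib

/-!
# Project UB part 2 (MP_a3214d), row UB-36: greedy filling
-/

set_option autoImplicit false

namespace Pool.Agent.H52.UB

private theorem ub36_sub {ι : Type*} [DecidableEq ι] (cap : ι → ℕ) (κ : ℕ) (S : Finset ι) :
    (∀ i ∈ S, cap i ≤ κ) → ∀ m : ℕ, m ≤ ∑ i ∈ S, cap i →
    ∃ S' ⊆ S, m ≤ ∑ i ∈ S', cap i ∧ ∑ i ∈ S', cap i ≤ m + κ := by
  induction S using Finset.induction_on with
  | empty =>
    intro _ m hm
    rw [Finset.sum_empty] at hm
    exact ⟨∅, Finset.Subset.refl _, by simpa using hm, by simp⟩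
  | insert a S ha ih =>
    intro hκ m hm
    by_cases h1 : m ≤ ∑ i ∈ S, cap i
    · obtain ⟨S', hS', h2, h3⟩ := ih (fun i hi => hκ i (Finset.mem_insert_of_mem hi)) m h1
      exact ⟨S', hS'.trans (Finset.subset_insert a S), h2, h3⟩
    · refine ⟨insert a S, Finset.Subset.refl _, hm, ?_⟩
      rw [Finset.sum_insert ha]
      have h2 := hκ a (Finset.mem_insert_self a S)
      omega

/-- greedy filling of `T` blocks with classes of capacity at most `κ` -/
theorem fill {ι : Type*} [DecidableEq ι] (S : Finset ι) (cap : ι → ℕ) (κ : ℕ)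
    (hκ : ∀ i ∈ S, cap i ≤ κ) (T : ℕ) (z : ℕ → ℕ)
    (h : ∑ t ∈ Finset.range T, (z t + κ) ≤ ∑ i ∈ S, cap i) :
    ∃ τ : ι → ℕ, ∀ t < T, z t ≤ ∑ i ∈ S.filter (fun i => τ i = t), cap i := by
  induction T generalizing S with
  | zero => exact ⟨fun _ => 0, fun t ht => absurd ht (Nat.not_lt_zero t)⟩
  | succ T ih =>
    rw [Finset.sum_range_succ] at h
    obtain ⟨S', hS', h2, h3⟩ := ub36_sub cap κ S hκ (z T) (by omega)
    have h4 : ∑ i ∈ S \ S', cap i + ∑ i ∈ S', cap i = ∑ i ∈ S, cap i :=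
      Finset.sum_sdiff hS'
    obtain ⟨τ', hτ'⟩ := ih (S \ S') (fun i hi => hκ i (Finset.mem_sdiff.1 hi).1) (by omega)
    refine ⟨fun i => if i ∈ S' then T else τ' i, ?_⟩
    intro t ht
    rcases Nat.lt_succ_iff_lt_or_eq.1 ht with ht | rfl
    · refine (hτ' t ht).trans (Finset.sum_le_sum_of_subset ?_)
      intro i hi
      rw [Finset.mem_filter, Finset.mem_sdiff] at hi
      rw [Finset.mem_filter]
      refine ⟨hi.1.1, ?_⟩
      show (if i ∈ S' then T else τ' i) = t
      rw [if_neg hi.1.2]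
      exact hi.2
    · refine h2.trans (Finset.sum_le_sum_of_subset ?_)
      intro i hi
      rw [Finset.mem_filter]
      exact ⟨hS' hi, if_pos hi⟩

end Pool.Agent.H52.UB
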