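import Pool.Agent.H52.UB.Defs2
import Pool.Agent.H52.UB.Choice
import Pool.Agent.H52.UB.Fill
import Pool.Agent.H52.UB.Colour

/-! # Project UB (MP_a3214d), UB-38: `exists_design` -/

set_option autoImplicit false

namespace Pool.Agent.H52.UB

/-- the first `h` coordinates -/
def ub38_pre (q h : ℕ) (b : Fin (q + 1) → ℕ) : Fin (q + 1) → ℕ :=
  fun l => if (l : ℕ) < h then b l else 0

theorem ub38_tbet {n q : ℕ} (a : Fin n → Fin (q + 1) → ℕ) (ρ : Fin n × Fin (q + 1))
    (l : Fin (q + 1)) :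
    tbet a ρ l = a ρ.1 l + if ρ.2 ≠ 0 ∧ l = ρ.2 then 1 else 0 := by
  unfold tbet
  by_cases h : ρ.2 = 0
  · simp [h]
  · by_cases h' : l = ρ.2
    · subst h'
      simp [h]
    · simp [h, h']

/-- at most `choose (d-1+(q+1-h)) (q+1-h)` exponents of degree `≤ d-1` with given first `h`
coordinates -/
theorem ub38_cap (q h d : ℕ) (hq : h ≤ q) (S : Finset (Fin (q + 1) → ℕ))
    (hS : ∀ b ∈ S, ∑ l, b l + 1 ≤ d) (c : Fin (q + 1) → ℕ) :
    (S.filter (fun b => ub38_pre q h b = c)).card ≤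
      Nat.choose (d - 1 + (q + 1 - h)) (q + 1 - h) := by
  classical
  have hfin : Finite {f : Fin (q + 1 - h) → ℕ // ∑ i, f i ≤ d - 1} := by
    apply Nat.finite_of_card_ne_zero
    rw [ub8_card]
    exact (Nat.choose_pos (Nat.le_add_left _ _)).ne'
  let g : {b // b ∈ S.filter (fun b => ub38_pre q h b = c)} →
      {f : Fin (q + 1 - h) → ℕ // ∑ i, f i ≤ d - 1} := fun b =>
    ⟨fun i => b.1 ⟨h + i, by omega⟩, by
      have hb := hS b.1 (Finset.mem_filter.1 b.2).1
      have hinj : Function.Injective (fun i : Fin (q + 1 - h) => (⟨h + i, by omega⟩ : Fin (q + 1))) := by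
        intro i j hij
        have := congrArg Fin.val hij
        simp only at this
        exact Fin.ext (by omega)
      have h1 : ∑ i : Fin (q + 1 - h), b.1 ⟨h + i, by omega⟩ ≤ ∑ l, b.1 l := by
        rw [← Finset.sum_image (s := Finset.univ) (f := b.1)
          (g := fun i : Fin (q + 1 - h) => (⟨h + i, by omega⟩ : Fin (q + 1))) (fun i _ j _ hij => hinj hij)]
        exact Finset.sum_le_sum_of_subset (Finset.subset_univ _)
      have h2 : ∑ l, b.1 l ≤ d - 1 := by omega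
      exact h1.trans h2⟩
  have hg : Function.Injective g := by
    intro b b' hbb
    have h1 : ∀ i : Fin (q + 1 - h), b.1 ⟨h + i, by omega⟩ = b'.1 ⟨h + i, by omega⟩ := fun i =>
      congrFun (congrArg Subtype.val hbb) i
    have hb := (Finset.mem_filter.1 b.2).2
    have hb' := (Finset.mem_filter.1 b'.2).2
    apply Subtype.ext
    funext l
    by_cases hl : (l : ℕ) < h
    · have h2 := congrFun (hb.trans hb'.symm) l
      simpa [ub38_pre, hl] using h2
    · have h2 := h1 ⟨l - h, by omega⟩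
      have h3 : (⟨h + ((⟨l - h, by omega⟩ : Fin (q + 1 - h)) : ℕ), by simp; omega⟩ : Fin (q + 1)) = l :=
        Fin.ext (by simp; omega)
      rw [h3] at h2
      exact h2
  have h1 := Nat.card_le_card_of_injective g hg
  rw [ub8_card, Nat.card_eq_fintype_card, Fintype.card_coe, Fintype.card_fin] at h1
  refine h1.trans (le_of_eq ?_)
  rw [Nat.add_comm (q + 1 - h) (d - 1)]
  exact (Nat.choose_symm_add)

theorem exists_design (n q d h T : ℕ) (blk : Fin n → ℕ) (hh : 1 ≤ h) (hq : h ≤ q) (hd : 2 ≤ d)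
    (hT : ∀ j, blk j < T)
    (hcap : h * (q + 2 - h) * (n + T * Nat.choose (d - 1 + (q + 1 - h)) (q + 1 - h)) ≤
      Nat.choose (q + 1 + (d - 2)) (q + 1)) :
    ∃ a : Fin n → Fin (q + 1) → ℕ, (∀ j, 1 ≤ a j 0) ∧ Function.Injective (tbet a) ∧
      (∀ ρ, ∑ l, tbet a ρ l ≤ d) ∧
      ∀ ρ ρ' : Fin n × Fin (q + 1),
        (∀ l : Fin (q + 1), (l : ℕ) < h → tbet a ρ l = tbet a ρ' l) → blk ρ.1 = blk ρ'.1 := by
  classical
  set κ := Nat.choose (d - 1 + (q + 1 - h)) (q + 1 - h) with hκ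
  obtain ⟨S, hSN, hS1, hS2⟩ := exists_colour q h d (n + T * κ) hh hq hd hcap
  set S' : Finset (Fin (q + 1) → ℕ) := S.image (ub38_pre q h) with hS'
  let cap : (Fin (q + 1) → ℕ) → ℕ := fun c => (S.filter (fun b => ub38_pre q h b = c)).card
  have hcapS : ∑ c ∈ S', cap c = S.card :=
    (Finset.card_eq_sum_card_image (ub38_pre q h) S).symm
  have hsumz : ∑ t ∈ Finset.range T, (Finset.univ.filter (fun j : Fin n => blk j = t)).card = n := by
    have h1 := Finset.card_eq_sum_card_fiberwise (f := blk) (s := (Finset.univ : Finset (Fin n)))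
      (t := Finset.range T) (fun j _ => Finset.mem_range.2 (hT j))
    rw [Finset.card_univ, Fintype.card_fin] at h1
    exact h1.symm
  obtain ⟨τ, hτ⟩ := fill S' cap κ (fun c _ => ub38_cap q h d hq S (fun b hb => (hS1 b hb).2) c) T
    (fun t => (Finset.univ.filter (fun j : Fin n => blk j = t)).card) (by
      rw [hcapS, Finset.sum_add_distrib, hsumz, Finset.sum_const, Finset.card_range,
        smul_eq_mul]
      exact hSN)
  have hcard : ∀ t < T, (Finset.univ.filter (fun j : Fin n => blk j = t)).card ≤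
      (S.filter (fun b => τ (ub38_pre q h b) = t)).card := by
    intro t ht
    refine (hτ t ht).trans (le_of_eq ?_)
    have h1 := Finset.card_eq_sum_card_fiberwise (f := ub38_pre q h)
      (s := S.filter (fun b => τ (ub38_pre q h b) = t)) (t := S'.filter (fun c => τ c = t)) (by
        intro b hb
        rw [Finset.mem_coe, Finset.mem_filter] at hb
        rw [Finset.mem_coe, Finset.mem_filter]
        exact ⟨Finset.mem_image_of_mem _ hb.1, hb.2⟩)
    rw [h1]
    refine Finset.sum_congr rfl fun c hc => ?_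
    rw [Finset.mem_filter] at hc
    change (S.filter (fun b => ub38_pre q h b = c)).card = _
    apply congrArg Finset.card
    ext b
    simp only [Finset.mem_filter]
    constructor
    · rintro ⟨hb, hbc⟩
      exact ⟨⟨hb, by rw [hbc]; exact hc.2⟩, hbc⟩
    · rintro ⟨⟨hb, _⟩, hbc⟩
      exact ⟨hb, hbc⟩
  have hemb : ∀ t < T, Nonempty ({j : Fin n // blk j = t} ↪
      {b : Fin (q + 1) → ℕ // b ∈ S.filter (fun b => τ (ub38_pre q h b) = t)}) := by
    intro t ht
    apply Function.Embedding.nonempty_of_card_le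
    rw [Fintype.card_coe, Fintype.card_subtype]
    exact hcard t ht
  have hemb' : ∀ t : Fin T, Nonempty ({j : Fin n // blk j = t} ↪
      {b : Fin (q + 1) → ℕ // b ∈ S.filter (fun b => τ (ub38_pre q h b) = (t : ℕ))}) :=
    fun t => hemb t t.2
  let f := fun t : Fin T => (hemb' t).some
  let a : Fin n → Fin (q + 1) → ℕ := fun j => (f ⟨blk j, hT j⟩ ⟨j, rfl⟩).1
  have haS : ∀ j, a j ∈ S ∧ τ (ub38_pre q h (a j)) = blk j := fun j =>
    Finset.mem_filter.1 (f ⟨blk j, hT j⟩ ⟨j, rfl⟩).2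
  have hainj : Function.Injective a := by
    intro j j' hjj
    have hb : blk j = blk j' := by
      rw [← (haS j).2, ← (haS j').2, hjj]
    have key : ∀ (t t' : Fin T) (ht : blk j = t) (ht' : blk j' = t'), t = t' →
        (f t ⟨j, ht⟩).1 = (f t' ⟨j', ht'⟩).1 → j = j' := by
      rintro t t' ht ht' rfl h1
      have h2 := (f t).injective (Subtype.ext h1)
      exact congrArg Subtype.val h2
    exact key ⟨blk j, hT j⟩ ⟨blk j', hT j'⟩ rfl rfl (Fin.ext hb) hjj
  refine ⟨a, fun j => (hS1 _ (haS j).1).1, ?_, ?_, ?_⟩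
  · intro ρ ρ' hρ
    have h1 : ∀ l : Fin (q + 1), (a ρ.1 l + if ρ.2 ≠ 0 ∧ l = ρ.2 then 1 else 0) =
        (a ρ'.1 l + if ρ'.2 ≠ 0 ∧ l = ρ'.2 then 1 else 0) := by
      intro l
      rw [← ub38_tbet, ← ub38_tbet, hρ]
    obtain ⟨h2, h3⟩ := (hS2 _ (haS ρ.1).1 _ (haS ρ'.1).1 ρ.2 ρ'.2 (fun l _ => h1 l)).2 h1
    exact Prod.ext (hainj h2) h3
  · intro ρ
    have h1 := (hS1 _ (haS ρ.1).1).2
    have h2 : ∑ l, tbet a ρ l = ∑ l, a ρ.1 l + ∑ l, (if ρ.2 ≠ 0 ∧ l = ρ.2 then 1 else 0) := by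
      rw [← Finset.sum_add_distrib]
      exact Finset.sum_congr rfl fun l _ => ub38_tbet a ρ l
    have h3 : ∑ l : Fin (q + 1), (if ρ.2 ≠ 0 ∧ l = ρ.2 then 1 else 0) ≤ 1 := by
      by_cases h0 : ρ.2 = 0
      · simp [h0]
      · simp [h0]
    omega
  · intro ρ ρ' hρ
    have h1 := (hS2 _ (haS ρ.1).1 _ (haS ρ'.1).1 ρ.2 ρ'.2 (fun l hl => by
      rw [← ub38_tbet, ← ub38_tbet]
      exact hρ l hl)).1
    rw [← (haS ρ.1).2, ← (haS ρ'.1).2]
    congr 1
    funext l
    unfold ub38_pre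
    by_cases hl : (l : ℕ) < h
    · rw [if_pos hl, if_pos hl]
      exact h1 l hl
    · rw [if_neg hl, if_neg hl]

end Pool.Agent.H52.UB
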