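import Pool.Agent.H52.UB.Defs2

/-!
# Project UB, row UB-39: central binomial coefficients and the choice of `q` (second part)
-/

set_option autoImplicit false

namespace Pool.Agent.H52.UB

private theorem ub39_ge (k : ℕ) (hk : 0 < k) :
    4 ^ k ≤ 2 * ((k + 1) * Nat.choose (2 * k) (k + 1)) := by
  have h1 := Nat.four_pow_le_two_mul_self_mul_centralBinom k hk
  have h2 := Nat.choose_succ_right_eq (2 * k) k
  have h3 : 2 * k - k = k := by omega
  rw [h3] at h2
  have h4 : Nat.centralBinom k = Nat.choose (2 * k) k := rfl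
  rw [h4] at h1
  calc 4 ^ k ≤ 2 * k * Nat.choose (2 * k) k := h1
    _ = 2 * (Nat.choose (2 * k) k * k) := by ring
    _ = 2 * (Nat.choose (2 * k) (k + 1) * (k + 1)) := by rw [h2]
    _ = _ := by ring

private theorem ub39_cube (q : ℕ) (hq : 12 ≤ q) : (q + 1) ^ 3 ≤ 2 ^ q := by
  induction q, hq using Nat.le_induction with
  | base => norm_num
  | succ q hq ih =>
    rw [pow_succ 2 q]
    nlinarith [Nat.zero_le (q ^ 3), Nat.zero_le (q ^ 2), mul_le_mul hq hq (Nat.zero_le _)
      (Nat.zero_le _)]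

private theorem ub39_hfull_pos (q : ℕ) : 4 ≤ hfull q := by
  unfold hfull
  omega

private theorem ub39_hfull_le (q : ℕ) : hfull q ≤ 4 * (q + 1) := by
  unfold hfull
  have h : Nat.log 2 (q + 1) ≤ q := by
    have h1 : q + 1 < 2 ^ (q + 1) := Nat.lt_two_pow_self
    have h2 := (Nat.log_lt_iff_lt_pow (by norm_num) (by omega)).2 h1
    omega
  omega

private theorem ub39_hfull_mono (q : ℕ) : hfull (q - 1) ≤ hfull q := by
  unfold hfull
  have h : Nat.log 2 (q - 1 + 1) ≤ Nat.log 2 (q + 1) := Nat.log_mono_right (by omega)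
  omega

private theorem ub39_exists (n : ℕ) : ∃ q : ℕ, 1 ≤ q ∧
    2 * hfull q * (q + 1) * n ≤ Nat.choose (2 * q) (q + 1) := by
  refine ⟨n + 12, by omega, ?_⟩
  set q := n + 12 with hq
  have h1 := ub39_ge q (by omega)
  have h2 := ub39_cube q (by omega)
  have h3 : 16 * n ≤ 2 ^ q := by
    have h4 : n < 2 ^ n := Nat.lt_two_pow_self
    have h5 : 2 ^ (n + 12) = 2 ^ n * 4096 := by rw [pow_add]; norm_num
    rw [hq, h5]
    omega
  have h4 : (4 : ℕ) ^ q = 2 ^ q * 2 ^ q := by
    rw [← mul_pow]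
    norm_num
  have h5 : 2 * ((q + 1) * (2 * hfull q * (q + 1) * n)) ≤
      2 * ((q + 1) * Nat.choose (2 * q) (q + 1)) := by
    calc 2 * ((q + 1) * (2 * hfull q * (q + 1) * n))
        ≤ 2 * ((q + 1) * (2 * (4 * (q + 1)) * (q + 1) * n)) := by
          have := ub39_hfull_le q
          gcongr
      _ = (q + 1) ^ 3 * (16 * n) := by ring
      _ ≤ 2 ^ q * 2 ^ q := Nat.mul_le_mul h2 h3
      _ = 4 ^ q := h4.symm
      _ ≤ _ := h1
  have h6 := Nat.le_of_mul_le_mul_left h5 (by norm_num)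
  exact Nat.le_of_mul_le_mul_left h6 (by omega)

/-- the minimal choice -/
private theorem ub39_min (n : ℕ) (hn : 2 ≤ n) : ∃ q : ℕ, 2 ≤ q ∧
    2 * hfull q * (q + 1) * n ≤ Nat.choose (2 * q) (q + 1) ∧
    Nat.choose (2 * (q - 1)) q < q * (2 * hfull q * n) := by
  classical
  have hex := ub39_exists n
  set q := Nat.find hex with hq
  obtain ⟨h1, h2⟩ := Nat.find_spec hex
  rw [← hq] at h1 h2
  have hq2 : 2 ≤ q := by
    by_contra hlt
    have h3 : q = 1 := by omega
    have h4 := ub39_hfull_pos q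
    have h5 : 2 * 4 * (q + 1) * n ≤ 2 * hfull q * (q + 1) * n := by gcongr
    have h6 := h5.trans h2
    rw [h3] at h6
    norm_num at h6
    omega
  refine ⟨q, hq2, h2, ?_⟩
  have h4 := Nat.find_min hex (m := q - 1) (by omega)
  by_contra h5
  apply h4
  refine ⟨by omega, ?_⟩
  have h6 : q - 1 + 1 = q := by omega
  rw [h6]
  push Not at h5
  refine le_trans ?_ h5
  calc 2 * hfull (q - 1) * q * n ≤ 2 * hfull q * q * n := by
        have := ub39_hfull_mono q
        gcongr
    _ = q * (2 * hfull q * n) := by ring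

private theorem ub39_up (n q : ℕ) (hq : 2 ≤ q) (h : Nat.choose (2 * (q - 1)) q < q * n) :
    Nat.choose (2 * (q + 1)) (q + 1) ≤ 32 * (q + 1) * n := by
  obtain ⟨k, rfl⟩ : ∃ k, q = k + 1 := ⟨q - 1, by omega⟩
  have hk : 1 ≤ k := by omega
  rw [Nat.add_sub_cancel] at h
  have e1 := Nat.succ_mul_centralBinom_succ (k + 1)
  have e2 := Nat.succ_mul_centralBinom_succ k
  have e3 := Nat.choose_succ_right_eq (2 * k) k
  have e4 : 2 * k - k = k := by omega
  rw [e4] at e3
  have e5 : Nat.centralBinom k = Nat.choose (2 * k) k := rfl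
  have e6 : Nat.centralBinom (k + 1 + 1) = Nat.choose (2 * (k + 1 + 1)) (k + 1 + 1) := rfl
  rw [← e6]
  rw [← e5] at e3
  have h1 : Nat.centralBinom k * k ≤ (k + 1) * n * (k + 1) := by
    rw [← e3]
    exact Nat.mul_le_mul_right _ h.le
  have h2 : k * (k + 1) * (k + 2) * Nat.centralBinom (k + 1 + 1) =
      4 * (2 * k + 3) * (2 * k + 1) * (Nat.centralBinom k * k) := by
    calc k * (k + 1) * (k + 2) * Nat.centralBinom (k + 1 + 1)
        = k * (k + 1) * ((k + 1 + 1) * Nat.centralBinom (k + 1 + 1)) := by ring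
      _ = k * (k + 1) * (2 * (2 * (k + 1) + 1) * Nat.centralBinom (k + 1)) := by rw [e1]
      _ = k * (2 * (2 * k + 3)) * ((k + 1) * Nat.centralBinom (k + 1)) := by ring
      _ = k * (2 * (2 * k + 3)) * (2 * (2 * k + 1) * Nat.centralBinom k) := by rw [e2]
      _ = _ := by ring
  have h3 : 4 * (2 * k + 3) * (2 * k + 1) * (k + 1) ≤ 32 * (k + 2) * (k * (k + 2)) := by
    nlinarith [Nat.zero_le (k ^ 3), Nat.zero_le (k ^ 2), hk]
  have h4 : k * (k + 1) * (k + 2) * Nat.centralBinom (k + 1 + 1) ≤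
      k * (k + 1) * (k + 2) * (32 * (k + 1 + 1) * n) := by
    rw [h2]
    calc 4 * (2 * k + 3) * (2 * k + 1) * (Nat.centralBinom k * k)
        ≤ 4 * (2 * k + 3) * (2 * k + 1) * ((k + 1) * n * (k + 1)) := Nat.mul_le_mul_left _ h1
      _ = (4 * (2 * k + 3) * (2 * k + 1) * (k + 1)) * ((k + 1) * n) := by ring
      _ ≤ (32 * (k + 2) * (k * (k + 2))) * ((k + 1) * n) := Nat.mul_le_mul_right _ h3
      _ = _ := by ring
  exact Nat.le_of_mul_le_mul_left h4 (by positivity)

theorem exists_r2 : ∀ δ : ℝ, 0 < δ → ∃ n0 : ℕ, ∀ n : ℕ, n0 ≤ n → ∃ q : ℕ,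
    2 * hfull q * (q + 1) * n ≤ Nat.choose (2 * q) (q + 1) ∧
    Nat.choose (2 * (q + 1)) (q + 1) ≤ 160 * hfull q * (q + 1) * n ∧ 1 / δ ≤ q ∧
    ((q : ℝ) + 1) * Real.log 4 ≤ (1 + δ) * Real.log n := by
  intro δ hδ
  have hl4 : 0 < Real.log 4 := Real.log_pos (by norm_num)
  set ε : ℝ := δ / (2 * (1 + δ)) with hε
  have hε0 : 0 < ε := by positivity
  have hεe : (1 - ε) * (1 + δ) = 1 + δ / 2 := by
    rw [hε]
    field_simp
    ring
  set a : ℝ := 3 / (ε * Real.log 4) with ha
  have ha0 : 0 < a := by positivity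
  set c1 : ℝ := 2 * Real.log 4 + Real.log 32 + 3 * Real.log a with hc1
  obtain ⟨n1, hn1⟩ : ∃ n1 : ℕ, ∀ n : ℕ, n1 ≤ n →
      Real.log 4 / δ ≤ Real.log n ∧ 2 * c1 / δ ≤ Real.log n := by
    have h1 := Real.tendsto_log_atTop.comp tendsto_natCast_atTop_atTop
    have h2 := (h1.eventually_ge_atTop (Real.log 4 / δ)).and
      (h1.eventually_ge_atTop (2 * c1 / δ))
    obtain ⟨n1, hn1⟩ := Filter.eventually_atTop.1 h2
    exact ⟨n1, fun n hn => hn1 n hn⟩
  refine ⟨max n1 2, fun n hn => ?_⟩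
  have hn2 : 2 ≤ n := (le_max_right _ _).trans hn
  obtain ⟨hL1, hL2⟩ := hn1 n ((le_max_left _ _).trans hn)
  obtain ⟨q, hq2, hq, hqm⟩ := ub39_min n hn2
  have hnpos : (0 : ℝ) < n := by exact_mod_cast (by omega : 0 < n)
  have hqpos : (0 : ℝ) < q := by exact_mod_cast (by omega : 0 < q)
  have hh4 := ub39_hfull_pos q
  refine ⟨q, hq, ?_, ?_, ?_⟩
  · refine (ub39_up (2 * hfull q * n) q hq2 hqm).trans ?_
    calc 32 * (q + 1) * (2 * hfull q * n) = 64 * (hfull q * (q + 1) * n) := by ring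
      _ ≤ 160 * (hfull q * (q + 1) * n) := Nat.mul_le_mul_right _ (by norm_num)
      _ = _ := by ring
  · -- `n ≤ 4^q`
    have h1 : n ≤ 4 ^ q := by
      have h2 : n ≤ 2 * hfull q * (q + 1) * n :=
        Nat.le_mul_of_pos_left n (by positivity)
      have h3 := Nat.choose_le_two_pow (2 * q) (q + 1)
      have h4 : (2 : ℕ) ^ (2 * q) = 4 ^ q := by rw [pow_mul]; norm_num
      rw [h4] at h3
      exact h2.trans (hq.trans h3)
    have h2 : Real.log n ≤ q * Real.log 4 := by
      rw [← Real.log_pow]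
      refine Real.log_le_log hnpos ?_
      exact_mod_cast h1
    have h3 : Real.log 4 / δ ≤ q * Real.log 4 := hL1.trans h2
    rw [div_le_iff₀ hδ] at h3
    rw [div_le_iff₀ hδ]
    have h4 : 1 * Real.log 4 ≤ (q * δ) * Real.log 4 := by linarith
    exact le_of_mul_le_mul_right h4 hl4
  · -- the upper bound for `q`
    have h1 : 4 ^ (q - 1) ≤ 32 * (q ^ 3 * n) := by
      have h2 := ub39_ge (q - 1) (by omega)
      have h3 : q - 1 + 1 = q := by omega
      rw [h3] at h2
      refine h2.trans ?_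
      have h4 : hfull q ≤ 8 * q := (ub39_hfull_le q).trans (by omega)
      calc 2 * (q * Nat.choose (2 * (q - 1)) q) ≤ 2 * (q * (q * (2 * hfull q * n))) :=
            Nat.mul_le_mul_left _ (Nat.mul_le_mul_left _ hqm.le)
        _ ≤ 2 * (q * (q * (2 * (8 * q) * n))) := by gcongr
        _ = 32 * (q ^ 3 * n) := by ring
    have h2 : ((q : ℝ) - 1) * Real.log 4 ≤ Real.log 32 + 3 * Real.log q + Real.log n := by
      have h3 : ((q - 1 : ℕ) : ℝ) * Real.log 4 ≤ Real.log (32 * ((q : ℝ) ^ 3 * n)) := by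
        rw [← Real.log_pow]
        refine Real.log_le_log (by positivity) ?_
        exact_mod_cast h1
      rw [Nat.cast_sub (by omega), Nat.cast_one] at h3
      have h4 : Real.log (32 * ((q : ℝ) ^ 3 * n)) =
          Real.log 32 + 3 * Real.log q + Real.log n := by
        rw [Real.log_mul (by norm_num) (by positivity), Real.log_mul (by positivity) hnpos.ne',
          Real.log_pow]
        push_cast
        ring
      rw [h4] at h3
      exact h3
    have h3 : Real.log q ≤ q / a + Real.log a := by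
      have h4 : Real.log (q / a) ≤ q / a - 1 := Real.log_le_sub_one_of_pos (by positivity)
      rw [Real.log_div hqpos.ne' ha0.ne'] at h4
      linarith
    have h4 : 3 * ((q : ℝ) / a) = ε * (q * Real.log 4) := by
      rw [ha]
      field_simp
    have h5 : (1 - ε) * (((q : ℝ) + 1) * Real.log 4) ≤ c1 + Real.log n := by
      have h6 : 0 ≤ ε * Real.log 4 := by positivity
      rw [hc1]
      nlinarith
    have h6 : c1 ≤ δ / 2 * Real.log n := by
      rw [div_le_iff₀ hδ] at hL2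
      linarith
    have h7 : (1 - ε) * (((q : ℝ) + 1) * Real.log 4) ≤ (1 - ε) * ((1 + δ) * Real.log n) := by
      rw [← mul_assoc (1 - ε) (1 + δ), hεe]
      linarith
    have h8 : 0 < 1 - ε := by
      have h9 : 0 < (1 - ε) * (1 + δ) := by rw [hεe]; positivity
      exact (mul_pos_iff_of_pos_right (by positivity : (0 : ℝ) < 1 + δ)).1 h9
    exact le_of_mul_le_mul_left h7 h8

end Pool.Agent.H52.UB
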