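import Mathlib
import Pool.Agent.H52.UB.Defs2
import Pool.Agent.H52.UB.ExpoLe

/-!
# Project UB, part 2: the bound of the exponent for all extensions (row UB-41)
-/

set_option autoImplicit false

open Finset

namespace Pool.Agent.H52.UB

theorem expo2_le (ε : ℝ) (hε : 0 < ε) (hε1 : ε < 1) (n q h s : ℕ) (blk : Fin n → ℕ)
    (a : Fin n → Fin (q + 1) → ℕ) (hn : 1 ≤ n) (hT : BTiles n q (q + 1) h s blk a)
    (hs : (s : ℝ) ≤ ε * n + 1)
    (hc : Nat.choose (2 * (q + 1)) (q + 1) ≤ 160 * h * (q + 1) * n) :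
    expo2 n q h s a ≤ ((q : ℝ) + 1) ^ 2 / (2 * (1 - ε)) + 160 * (h : ℝ) ^ 2 * (q + 1) := by
  classical
  have hn0 : (0 : ℝ) < n := by exact_mod_cast hn
  set r : ℝ := (q : ℝ) + 1 with hr
  have hr0 : 0 < r := by
    rw [hr]
    have : (0 : ℝ) ≤ q := Nat.cast_nonneg q
    linarith
  let A : Fin (q + 1) → ℝ := fun l => ∑ ρ, (tbet a ρ l : ℝ)
  have hA0 : ∀ l, 0 ≤ A l := fun l => Finset.sum_nonneg (fun ρ _ => Nat.cast_nonneg _)
  have hA1 : ∀ l, A l ≤ 160 * h * r * n := by
    intro l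
    have h1 := ub24_col n q a hT.inj hT.deg l
    have h2 : ((∑ ρ, tbet a ρ l : ℕ) : ℝ) ≤ ((160 * h * (q + 1) * n : ℕ) : ℝ) := by
      exact_mod_cast le_trans h1 hc
    push_cast at h2
    exact h2
  have hAs : ∑ l, A l ≤ n * r * r := by
    have h1 : ∑ l, A l = ∑ ρ, ((∑ l, tbet a ρ l : ℕ) : ℝ) := by
      simp only [A]
      rw [Finset.sum_comm]
      push_cast
      rfl
    rw [h1]
    have h2 : ∀ ρ ∈ (Finset.univ : Finset (Fin n × Fin (q + 1))),
        ((∑ l, tbet a ρ l : ℕ) : ℝ) ≤ r := by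
      intro ρ _
      have := hT.deg ρ
      have h3 : ((∑ l, tbet a ρ l : ℕ) : ℝ) ≤ ((q + 1 : ℕ) : ℝ) := by exact_mod_cast this
      push_cast at h3 ⊢
      exact h3
    refine le_trans (Finset.sum_le_card_nsmul _ _ _ h2) ?_
    rw [nsmul_eq_mul]
    simp only [Finset.card_univ, Fintype.card_prod, Fintype.card_fin]
    push_cast
    exact le_refl _
  have hexp : expo2 n q h s a = ∑ l, A l * ex2 n q h s l := by
    unfold expo2
    rw [Finset.sum_comm]
    refine Finset.sum_congr rfl (fun l _ => ?_)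
    simp only [A]
    rw [Finset.sum_mul]
  have hpos : 0 < (n : ℝ) * (1 - ε) := mul_pos hn0 (by linarith)
  have hns : (n : ℝ) * (1 - ε) ≤ n - s + 1 := by
    linarith
  have hterm : ∀ l : Fin (q + 1), A l * ex2 n q h s l ≤ 1 / (2 * (n * (1 - ε))) * A l +
      (if l ∈ Finset.univ.filter (fun l : Fin (q + 1) => (l : ℕ) < h) then 160 * h * r else 0) := by
    intro l
    unfold ex2
    by_cases hl : (l : ℕ) < h
    · rw [if_pos hl, if_pos (by simp [hl])]
      have h1 : A l * (1 / (n : ℝ)) ≤ 160 * h * r := by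
        rw [mul_one_div, div_le_iff₀ hn0]
        exact hA1 l
      have h2 : 0 ≤ 1 / (2 * (n * (1 - ε))) * A l := by
        have := hA0 l
        positivity
      linarith
    · rw [if_neg hl, if_neg (by simp [hl]), add_zero, mul_comm]
      refine mul_le_mul_of_nonneg_right ?_ (hA0 l)
      exact one_div_le_one_div_of_le (by positivity) (by linarith)
  rw [hexp]
  refine le_trans (Finset.sum_le_sum (fun l _ => hterm l)) ?_
  rw [Finset.sum_add_distrib, ← Finset.mul_sum]
  have h1 : 1 / (2 * (n * (1 - ε))) * ∑ l, A l ≤ 1 / (2 * (n * (1 - ε))) * (n * r * r) :=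
    mul_le_mul_of_nonneg_left hAs (by positivity)
  have h2 : 1 / (2 * (n * (1 - ε))) * (n * r * r) = r ^ 2 / (2 * (1 - ε)) := by
    have h3 : (1 - ε) ≠ 0 := by linarith
    field_simp
  have h4 : ((Finset.univ.filter (fun l : Fin (q + 1) => (l : ℕ) < h)).card : ℝ) ≤ h := by
    have h5 : (Finset.univ.filter (fun l : Fin (q + 1) => (l : ℕ) < h)).card ≤
        (Finset.range h).card := by
      refine Finset.card_le_card_of_injOn (fun l => (l : ℕ)) ?_ ?_
      · intro l hl
        simp only [Finset.mem_coe, Finset.mem_filter, Finset.mem_univ, true_and] at hl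
        rw [Finset.mem_coe, Finset.mem_range]
        exact hl
      · intro x _ y _ hxy
        exact Fin.ext hxy
    rw [Finset.card_range] at h5
    exact_mod_cast h5
  have h6 : ∑ l, (if l ∈ Finset.univ.filter (fun l : Fin (q + 1) => (l : ℕ) < h)
      then 160 * (h : ℝ) * r else 0) ≤ 160 * (h : ℝ) ^ 2 * r := by
    rw [Finset.sum_ite_mem, Finset.univ_inter, Finset.sum_const, nsmul_eq_mul]
    have h7 : (0 : ℝ) ≤ 160 * h * r := by positivity
    calc ((Finset.univ.filter (fun l : Fin (q + 1) => (l : ℕ) < h)).card : ℝ) * (160 * h * r)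
        ≤ h * (160 * h * r) := mul_le_mul_of_nonneg_right h4 h7
      _ = 160 * (h : ℝ) ^ 2 * r := by ring
  rw [h2] at h1
  linarith

end Pool.Agent.H52.UB
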