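import Pool.Agent.H52.UB.Blocks
import Pool.Agent.H52.UB.Cap
import Pool.Agent.H52.UB.Design
import Pool.Agent.H52.UB.ExistsR2
import Pool.Agent.H52.UB.Expo2Le

/-! Project UB, row UB-42: the asymptotic form of the exponent for all extensions. -/

set_option autoImplicit false

open NumberField Polynomial Module

namespace Pool.Agent.H52.UB

private theorem ub42_small (K : ℝ) (hK : 0 < K) : ∃ q1 : ℕ, ∀ q : ℕ, q1 ≤ q →
    (hfull q : ℝ) ^ 2 ≤ K * ((q : ℝ) + 1) := by
  have hlog2 : 0 < Real.log 2 := Real.log_pos one_lt_two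
  -- `log x ^ 2 ≤ c x` eventually
  have h1 := (Real.isLittleO_pow_log_id_atTop (n := 2)).bound
    (show 0 < K * Real.log 2 ^ 2 / 64 by positivity)
  have h2 : ∀ᶠ x : ℝ in Filter.atTop, 64 / K ≤ x := Filter.eventually_ge_atTop _
  have h3 : ∀ᶠ x : ℝ in Filter.atTop, (4 * (Real.log x / Real.log 2 + 1)) ^ 2 ≤ K * x := by
    filter_upwards [h1, h2, Filter.eventually_ge_atTop (1 : ℝ)] with x hx1 hx2 hx3
    rw [Real.norm_eq_abs, Real.norm_eq_abs, id, abs_of_nonneg (by positivity),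
      abs_of_nonneg (by linarith)] at hx1
    have h4 : (Real.log x / Real.log 2) ^ 2 ≤ K * x / 64 := by
      rw [div_pow, div_le_iff₀ (by positivity)]
      calc Real.log x ^ 2 ≤ K * Real.log 2 ^ 2 / 64 * x := hx1
        _ = _ := by ring
    have h5 : 64 ≤ K * x := by
      rw [div_le_iff₀ hK] at hx2
      linarith
    nlinarith [sq_nonneg (Real.log x / Real.log 2 - 1)]
  obtain ⟨x0, hx0⟩ := Filter.eventually_atTop.1 h3
  obtain ⟨q1, hq1⟩ := exists_nat_ge x0
  refine ⟨q1, fun q hq => ?_⟩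
  have hq' : x0 ≤ (q : ℝ) + 1 := by
    have : (q1 : ℝ) ≤ q := by exact_mod_cast hq
    linarith
  refine le_trans ?_ (hx0 _ hq')
  have h6 : (Nat.log 2 (q + 1) : ℝ) ≤ Real.log ((q : ℝ) + 1) / Real.log 2 := by
    rw [le_div_iff₀ hlog2, ← Real.log_pow]
    refine Real.log_le_log (by positivity) ?_
    have := Nat.pow_log_le_self 2 (x := q + 1) (by omega)
    exact_mod_cast this
  have h7 : (hfull q : ℝ) ≤ 4 * (Real.log ((q : ℝ) + 1) / Real.log 2 + 1) := by
    rw [hfull]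
    push_cast
    linarith
  exact pow_le_pow_left₀ (by positivity) h7 2

theorem asym2 (c : ℝ) (hc : 1 / (8 * Real.log 2 ^ 2) < c) : ∃ n0 : ℕ, ∀ n : ℕ, n0 ≤ n →
    ∃ (q h s : ℕ) (blk : Fin n → ℕ) (a : Fin n → Fin (q + 1) → ℕ), 1 ≤ s ∧ s ≤ n ∧
      BTiles n q (q + 1) h s blk a ∧ expo2 n q h s a < c * Real.log n ^ 2 := by
  have hlog2 : 0 < Real.log 2 := Real.log_pos one_lt_two
  set c0 : ℝ := 1 / (8 * Real.log 2 ^ 2) with hc0
  have hc0pos : 0 < c0 := by positivity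
  -- the small parameter
  set t : ℝ := min (1 / 4) ((c - c0) / (32 * c0)) with ht
  have htpos : 0 < t := lt_min (by norm_num) (div_pos (by linarith) (by positivity))
  have ht4 : t ≤ 1 / 4 := min_le_left _ _
  have htc : t * (32 * c0) ≤ c - c0 := by
    rw [← le_div_iff₀ (by positivity)]
    exact min_le_right _ _
  obtain ⟨q0, hq0⟩ := cap_small t htpos
  obtain ⟨q1, hq1⟩ := ub42_small ((c - c0) / 2560) (div_pos (by linarith) (by norm_num))
  -- the parameter for `exists_r2`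
  set δ : ℝ := min t (1 / ((q0 : ℝ) + q1 + 2)) with hδ
  have hδpos : 0 < δ := lt_min htpos (by positivity)
  obtain ⟨n0, hn0⟩ := exists_r2 δ hδpos
  refine ⟨max n0 2, fun n hn => ?_⟩
  have hn2 : 2 ≤ n := le_trans (le_max_right _ _) hn
  have hn1 : (1 : ℝ) ≤ n := by exact_mod_cast (by omega : 1 ≤ n)
  have hlogn : 0 < Real.log n := Real.log_pos (by exact_mod_cast (by omega : 1 < n))
  obtain ⟨q, hA, hB, hC, hD⟩ := hn0 n (le_trans (le_max_left _ _) hn)
  have hqge : (q0 : ℝ) + q1 + 2 ≤ q := by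
    refine le_trans ?_ hC
    rw [le_div_iff₀ hδpos]
    have h1 : δ ≤ 1 / ((q0 : ℝ) + q1 + 2) := min_le_right _ _
    rwa [le_div_iff₀ (by positivity), mul_comm] at h1
  have hqge' : q0 + q1 + 2 ≤ q := by exact_mod_cast hqge
  set s : ℕ := ⌈t * n⌉₊ with hs
  have hs1 : 1 ≤ s := by
    rw [hs, Nat.one_le_ceil_iff]
    positivity
  have hsn : s ≤ n := by
    rw [hs, Nat.ceil_le]
    nlinarith
  have hsle : (s : ℝ) ≤ t * n + 1 := (Nat.ceil_lt_add_one (by positivity)).le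
  have hsge : t * n ≤ s := Nat.le_ceil _
  obtain ⟨T, blk, hok, hblk, hTle⟩ := exists_blocks n s hs1 hsn
  have hTle2 : (T : ℝ) ≤ 1 / t * Real.log n + 1 := by
    refine hTle.trans ?_
    have h1 : (n : ℝ) / s ≤ 1 / t := by
      rw [div_le_div_iff₀ (by positivity) htpos]
      linarith
    have := mul_le_mul_of_nonneg_right h1 hlogn.le
    linarith
  obtain ⟨hhq, hcap⟩ := hq0 n q T (by omega) (by omega) hA hB hTle2
  have hh1 : 1 ≤ hfull q := by
    rw [hfull]
    omega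
  obtain ⟨a, ha1, ha2, ha3, ha4⟩ := exists_design n q (q + 1) (hfull q) T blk hh1 hhq (by omega)
    hblk (by
      have e1 : q + 1 + (q + 1 - 2) = 2 * q := by omega
      have e2 : q + 1 - 1 + (q + 1 - hfull q) = q + (q + 1 - hfull q) := by omega
      rw [e1, e2]
      refine le_trans ?_ hA
      have h1 : q + 2 - hfull q ≤ q + 1 := by omega
      calc hfull q * (q + 2 - hfull q) *
            (n + T * Nat.choose (q + (q + 1 - hfull q)) (q + 1 - hfull q))
          ≤ hfull q * (q + 1) * (n + n) :=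
            Nat.mul_le_mul (Nat.mul_le_mul_left _ h1) (Nat.add_le_add_left hcap _)
        _ = 2 * hfull q * (q + 1) * n := by ring)
  have hBT : BTiles n q (q + 1) (hfull q) s blk a := ⟨ha1, ha2, ha3, hok, ha4⟩
  refine ⟨q, hfull q, s, blk, a, hs1, hsn, hBT, ?_⟩
  have hex := expo2_le t htpos (by linarith) n q (hfull q) s blk a (by omega) hBT hsle hB
  refine lt_of_le_of_lt hex ?_
  -- the numbers
  have hδt : δ ≤ t := min_le_left _ _
  have hlog4 : Real.log 4 = 2 * Real.log 2 := by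
    rw [show (4 : ℝ) = 2 ^ 2 by norm_num, Real.log_pow]
    norm_num
  have hD2 : ((q : ℝ) + 1) * (2 * Real.log 2) ≤ (1 + t) * Real.log n := by
    rw [← hlog4]
    refine hD.trans ?_
    exact mul_le_mul_of_nonneg_right (by linarith) hlogn.le
  have hsq : (((q : ℝ) + 1) * (2 * Real.log 2)) ^ 2 ≤ ((1 + t) * Real.log n) ^ 2 :=
    pow_le_pow_left₀ (by positivity) hD2 2
  have hmain : ((q : ℝ) + 1) ^ 2 ≤ 2 * c0 * (1 + t) ^ 2 * Real.log n ^ 2 := by
    have h1 : ((q : ℝ) + 1) ^ 2 = (((q : ℝ) + 1) * (2 * Real.log 2)) ^ 2 * (2 * c0) := by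
      rw [hc0]
      field_simp
      ring
    rw [h1]
    calc (((q : ℝ) + 1) * (2 * Real.log 2)) ^ 2 * (2 * c0)
        ≤ ((1 + t) * Real.log n) ^ 2 * (2 * c0) :=
          mul_le_mul_of_nonneg_right hsq (by positivity)
      _ = _ := by ring
  have h1t : 0 < 1 - t := by linarith
  have hT1 : ((q : ℝ) + 1) ^ 2 / (2 * (1 - t)) ≤ (c0 + (c - c0) / 4) * Real.log n ^ 2 := by
    rw [div_le_iff₀ (by positivity)]
    refine hmain.trans ?_
    have h2 : (1 + t) ^ 2 ≤ (1 + 8 * t) * (1 - t) := by nlinarith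
    have h3 : c0 * (1 + 8 * t) ≤ c0 + (c - c0) / 4 := by nlinarith
    have h4 : 0 ≤ Real.log n ^ 2 := by positivity
    have h5 : c0 * (1 + t) ^ 2 ≤ (c0 + (c - c0) / 4) * (1 - t) := by
      calc c0 * (1 + t) ^ 2 ≤ c0 * ((1 + 8 * t) * (1 - t)) :=
            mul_le_mul_of_nonneg_left h2 hc0pos.le
        _ = c0 * (1 + 8 * t) * (1 - t) := by ring
        _ ≤ _ := mul_le_mul_of_nonneg_right h3 h1t.le
    nlinarith [mul_le_mul_of_nonneg_right h5 h4]
  have hsm := hq1 q (by omega)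
  have hlog2half : (1 : ℝ) / 2 ≤ Real.log 2 := by
    have := Real.log_two_gt_d9
    linarith
  have hqlog : ((q : ℝ) + 1) ≤ 2 * Real.log n := by
    have h2 : ((q : ℝ) + 1) * 1 ≤ ((q : ℝ) + 1) * (2 * Real.log 2) :=
      mul_le_mul_of_nonneg_left (by linarith) (by positivity)
    have h3 : (1 + t) * Real.log n ≤ 2 * Real.log n :=
      mul_le_mul_of_nonneg_right (by linarith) hlogn.le
    linarith
  have hT2 : 160 * (hfull q : ℝ) ^ 2 * ((q : ℝ) + 1) ≤ (c - c0) / 4 * Real.log n ^ 2 := by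
    have h2 : ((q : ℝ) + 1) ^ 2 ≤ 4 * Real.log n ^ 2 := by nlinarith
    have h3 : 0 ≤ (q : ℝ) + 1 := by positivity
    calc 160 * (hfull q : ℝ) ^ 2 * ((q : ℝ) + 1)
        ≤ 160 * ((c - c0) / 2560 * ((q : ℝ) + 1)) * ((q : ℝ) + 1) := by gcongr
      _ = (c - c0) / 16 * ((q : ℝ) + 1) ^ 2 := by ring
      _ ≤ (c - c0) / 16 * (4 * Real.log n ^ 2) :=
          mul_le_mul_of_nonneg_left h2 (by linarith)
      _ = _ := by ring
  have h6 : 0 < (c - c0) / 2 * Real.log n ^ 2 := by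
    have : 0 < (c - c0) / 2 := by linarith
    positivity
  calc ((q : ℝ) + 1) ^ 2 / (2 * (1 - t)) + 160 * (hfull q : ℝ) ^ 2 * ((q : ℝ) + 1)
      ≤ (c0 + (c - c0) / 4) * Real.log n ^ 2 + (c - c0) / 4 * Real.log n ^ 2 :=
        add_le_add hT1 hT2
    _ < c * Real.log n ^ 2 := by nlinarith

end Pool.Agent.H52.UB
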