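import Pool.Agent.H52.UB.Defs2

/-!
# Project UB (MP_a3214d), row UB-35: blocks
-/

set_option autoImplicit false

namespace Pool.Agent.H52.UB

/-- the number of the places in the blocks `≥ t` -/
def ub35_N (n s : ℕ) : ℕ → ℕ
  | 0 => n
  | t + 1 => ub35_N n s t - (s * ub35_N n s t + n - 1) / n

theorem ub35_succ (n s t : ℕ) :
    ub35_N n s (t + 1) = ub35_N n s t - (s * ub35_N n s t + n - 1) / n := rfl

theorem ub35_anti (n s : ℕ) : Antitone (ub35_N n s) :=
  antitone_nat_of_succ_le fun t => by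
    rw [ub35_succ]
    exact Nat.sub_le _ _

theorem ub35_le (n s : ℕ) (hs : 1 ≤ s) (hn : 1 ≤ n) (t : ℕ) : ub35_N n s t ≤ n - t := by
  induction t with
  | zero => exact le_refl n
  | succ t ih =>
    rw [ub35_succ]
    rcases Nat.eq_zero_or_pos (ub35_N n s t) with h | h
    · rw [h, Nat.zero_sub]
      exact Nat.zero_le _
    · have h1 : 1 ≤ (s * ub35_N n s t + n - 1) / n := by
        rw [Nat.one_le_div_iff (by omega)]
        have h2 : 1 ≤ s * ub35_N n s t := Nat.mul_pos (by omega) h
        omega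
      omega

theorem ub35_q (n s N : ℕ) (hn : 1 ≤ n) :
    s * N ≤ n * ((s * N + n - 1) / n) ∧ n * ((s * N + n - 1) / n) < s * N + n := by
  have h1 := Nat.div_add_mod (s * N + n - 1) n
  have h2 := Nat.mod_lt (s * N + n - 1) (by omega : 0 < n)
  omega

theorem ub35_q_le (n s N : ℕ) (hn : 1 ≤ n) (hsn : s ≤ n) : (s * N + n - 1) / n ≤ N := by
  have h1 : s * N ≤ n * N := Nat.mul_le_mul_right N hsn
  have h2 : s * N + n - 1 < (N + 1) * n := by
    have h3 : (N + 1) * n = n * N + n := by ring
    omega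
  refine Nat.lt_succ_iff.1 (Nat.div_lt_of_lt_mul (lt_of_lt_of_eq h2 ?_))
  rw [mul_comm]

theorem ub35_real (n s : ℕ) (hn : 1 ≤ n) (hsn : s ≤ n) (t : ℕ) :
    (ub35_N n s (t + 1) : ℝ) ≤ ub35_N n s t * (1 - s / n) := by
  set N := ub35_N n s t with hN
  have h1 : ub35_N n s (t + 1) = N - (s * N + n - 1) / n := ub35_succ n s t
  have h2 := ub35_q_le n s N hn hsn
  have h3 := (ub35_q n s N hn).1
  have hn0 : (0 : ℝ) < n := by exact_mod_cast hn
  rw [h1, Nat.cast_sub h2]
  have h4 : (s : ℝ) * N ≤ n * (((s * N + n - 1) / n : ℕ) : ℝ) := by exact_mod_cast h3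
  have h5 : (s : ℝ) / n * N ≤ (((s * N + n - 1) / n : ℕ) : ℝ) := by
    rw [div_mul_eq_mul_div, div_le_iff₀ hn0]
    linarith
  linarith

theorem ub35_log (n s : ℕ) (hn : 1 ≤ n) (hsn : s ≤ n) (t : ℕ) (h : 1 ≤ ub35_N n s t) :
    (t : ℝ) * (s / n) + Real.log (ub35_N n s t) ≤ Real.log n := by
  induction t with
  | zero => simp [ub35_N]
  | succ t ih =>
    have h1 : 1 ≤ ub35_N n s t := h.trans (ub35_anti n s (Nat.le_succ t))
    have h2 := ih h1
    have h3 := ub35_real n s hn hsn t
    have h4 : (1 : ℝ) ≤ ub35_N n s (t + 1) := by exact_mod_cast h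
    have h5 : (1 : ℝ) ≤ ub35_N n s t := by exact_mod_cast h1
    have h6 : 0 < 1 - (s : ℝ) / n := by
      by_contra hneg
      push Not at hneg
      have : (ub35_N n s t : ℝ) * (1 - s / n) ≤ 0 :=
        mul_nonpos_of_nonneg_of_nonpos (by linarith) hneg
      linarith
    have h7 : Real.log (ub35_N n s (t + 1)) ≤ Real.log (ub35_N n s t) + Real.log (1 - s / n) := by
      rw [← Real.log_mul (by linarith) h6.ne']
      exact Real.log_le_log (by linarith) h3
    have h8 : Real.log (1 - (s : ℝ) / n) ≤ (1 - s / n) - 1 := Real.log_le_sub_one_of_pos h6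
    push_cast
    linarith

theorem exists_blocks (n s : ℕ) (hs : 1 ≤ s) (hsn : s ≤ n) : ∃ (T : ℕ) (blk : Fin n → ℕ),
    BlockOK n s blk ∧ (∀ j, blk j < T) ∧ (T : ℝ) ≤ n / s * Real.log n + 1 := by
  classical
  have hn : 1 ≤ n := hs.trans hsn
  have hzero : ub35_N n s n = 0 := by
    have := ub35_le n s hs hn n
    omega
  set blk : Fin n → ℕ := fun j => Nat.findGreatest (fun t => (j : ℕ) < ub35_N n s t) n with hblk
  have hiff : ∀ (j : Fin n) (t : ℕ), t ≤ blk j ↔ (j : ℕ) < ub35_N n s t := by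
    intro j t
    have h0 : (j : ℕ) < ub35_N n s 0 := j.2
    constructor
    · intro h
      have h1 : (j : ℕ) < ub35_N n s (blk j) :=
        Nat.findGreatest_spec (P := fun t => (j : ℕ) < ub35_N n s t) (Nat.zero_le n) h0
      exact lt_of_lt_of_le h1 (ub35_anti n s h)
    · intro h
      have h1 : t ≤ n := by
        by_contra hc
        have h2 := ub35_anti n s (le_of_lt (not_le.1 hc))
        omega
      exact Nat.le_findGreatest h1 h
  have hcard : ∀ t, Nat.card {j : Fin n // t ≤ blk j} = ub35_N n s t := by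
    intro t
    have h1 : ub35_N n s t ≤ n := (ub35_le n s hs hn t).trans (Nat.sub_le _ _)
    have h2 : ∀ j : Fin n, t ≤ blk j ↔ j ∈ Finset.univ.filter (fun j : Fin n => (j : ℕ) < ub35_N n s t) := by
      intro j
      rw [hiff]
      simp
    rw [Nat.card_congr (Equiv.subtypeEquivRight h2), Nat.card_eq_fintype_card, Fintype.card_coe,
      Fin.card_filter_val_lt, min_eq_right h1]
  have hcard2 : ∀ t, Nat.card {j : Fin n // blk j = t} + ub35_N n s (t + 1) = ub35_N n s t := by
    intro t
    rw [← hcard (t + 1), ← hcard t, Nat.card_eq_fintype_card, Nat.card_eq_fintype_card,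
      Nat.card_eq_fintype_card, Fintype.card_subtype, Fintype.card_subtype, Fintype.card_subtype,
      ← Finset.card_union_of_disjoint]
    · congr 1
      ext j
      simp only [Finset.mem_union, Finset.mem_filter, Finset.mem_univ, true_and]
      omega
    · rw [Finset.disjoint_filter]
      intro j _ h1
      omega
  have hT : ∃ T, ub35_N n s T = 0 := ⟨n, hzero⟩
  refine ⟨Nat.find hT, blk, ?_, ?_, ?_⟩
  · intro t
    rw [hcard t]
    have h1 := hcard2 t
    have h2 := ub35_q_le n s (ub35_N n s t) hn hsn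
    have h3 := (ub35_q n s (ub35_N n s t) hn).2
    have h4 := ub35_succ n s t
    have h5 : Nat.card {j : Fin n // blk j = t} = (s * ub35_N n s t + n - 1) / n := by omega
    rw [h5]
    exact h3
  · intro j
    by_contra hc
    have h1 := (hiff j (Nat.find hT)).1 (not_lt.1 hc)
    rw [Nat.find_spec hT] at h1
    exact Nat.not_lt_zero _ h1
  · have hs0 : (0 : ℝ) < s := by exact_mod_cast hs
    have hn0 : (0 : ℝ) < n := by exact_mod_cast hn
    have hTpos : Nat.find hT ≠ 0 := by
      intro h0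
      have h1 := Nat.find_spec hT
      rw [h0] at h1
      have h2 : n = 0 := h1
      omega
    obtain ⟨T', hT'⟩ := Nat.exists_eq_succ_of_ne_zero hTpos
    have h1 : 1 ≤ ub35_N n s T' := by
      have h2 := Nat.find_min hT (m := T') (by omega)
      omega
    have h3 := ub35_log n s hn hsn T' h1
    have h4 : 0 ≤ Real.log (ub35_N n s T') := Real.log_nonneg (by exact_mod_cast h1)
    have h5 : (T' : ℝ) * (s / n) ≤ Real.log n := by linarith
    have h6 : (T' : ℝ) ≤ n / s * Real.log n := by
      have h7 := mul_le_mul_of_nonneg_left h5 (by positivity : (0 : ℝ) ≤ (n : ℝ) / s)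
      have h8 : (n : ℝ) / s * (T' * (s / n)) = T' := by
        field_simp
      rwa [h8] at h7
    rw [hT']
    push_cast
    linarith

end Pool.Agent.H52.UB
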