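import Pool.Agent.H52.UB.Defs

/-!
# Project UB (MP_a3214d), UB-2: the limit step of the tile lemma

`z_p = t^(4e+1)` for a double point and `z_p = t^(4e)` for a simple point, `e` the first exponent of
the point.  After a unimodular row operation and scalings the matrix of the node is polynomial in
`1 / t`, and block diagonal at `t = ∞`, with the matrices of the slices as blocks.
-/

set_option autoImplicit false

open Polynomial

namespace Pool.Agent.H52.UB

section Limit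

variable {F : Type*} [Field F] {q : ℕ} {D V : Type}

theorem ub2_mon_cons (z : F) (x : Fin q → F) (b : Fin (q + 1) → ℕ) :
    mon (Fin.cons z x : Fin (q + 1) → F) b = z ^ b 0 * mon x (Fin.tail b) := by
  simp [mon, Fin.prod_univ_succ, Fin.tail]

/-- the coefficient of the new rows -/
def ub2_c (a : D ⊕ V → Fin (q + 1) → ℕ) : Ix (q + 1) D V → (Fin (q + 1) → ℕ) → ℤ
  | .inl (j, none), b => 1 - ((b 0 : ℤ) - a (.inl j) 0)
  | .inl (j, some i), b => if i = 0 then (b 0 : ℤ) - a (.inl j) 0 else b i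
  | .inr _, _ => 1

/-- the exponent of `u = 1 / t` -/
def ub2_n (a : D ⊕ V → Fin (q + 1) → ℕ) : Ix (q + 1) D V → (Fin (q + 1) → ℕ) → ℤ
  | .inl (j, none), b => 2 * ((b 0 : ℤ) - a (.inl j) 0) ^ 2 - ((b 0 : ℤ) - a (.inl j) 0)
  | .inl (j, some i), b =>
    if i = 0 then 2 * ((b 0 : ℤ) - a (.inl j) 0) ^ 2 - ((b 0 : ℤ) - a (.inl j) 0) - 1
    else 2 * ((b 0 : ℤ) - a (.inl j) 0) ^ 2 - ((b 0 : ℤ) - a (.inl j) 0)
  | .inr v, b => 2 * ((b 0 : ℤ) - a (.inr v) 0) ^ 2

/-- the matrix over `F[u]` -/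
noncomputable def ub2_P (a : D ⊕ V → Fin (q + 1) → ℕ) (x' : D ⊕ V → Fin q → F) :
    Matrix (Ix (q + 1) D V) (Ix (q + 1) D V) F[X] :=
  fun ρ ρ' => C ((ub2_c a ρ (bet a ρ') : ℤ) : F) * X ^ (ub2_n a ρ (bet a ρ')).toNat *
    C (mon (x' (pt ρ)) (Fin.tail (bet a ρ')))

/-- the weight of the rows at infinity -/
def ub2_w : Ix (q + 1) D V → (Fin (q + 1) → ℕ) → ℕ
  | .inl (_, none), _ => 1
  | .inl (_, some i), b => if i = 0 then 1 else b i
  | .inr _, _ => 1

theorem ub2_sq (h : ℤ) : 0 ≤ 2 * h ^ 2 - h := by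
  rcases le_or_gt h 0 with h0 | h0
  · nlinarith
  · nlinarith

theorem ub2_sq_le {h : ℤ} (hh : 2 * h ^ 2 - h ≤ 0) : h = 0 := by
  have h1 : h ≤ 0 := by nlinarith
  have h2 : 0 ≤ h := by nlinarith
  omega

theorem ub2_sq1_le {h : ℤ} (hh : 2 * h ^ 2 - h - 1 ≤ 0) : h = 0 ∨ h = 1 := by
  have h1 : h ≤ 1 := by nlinarith
  have h2 : 0 ≤ h := by nlinarith
  omega

theorem ub2_sq1 {h : ℤ} (hh : h ≠ 0) : 0 ≤ 2 * h ^ 2 - h - 1 := by
  rcases lt_or_gt_of_ne hh with h0 | h0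
  · nlinarith
  · nlinarith

theorem ub2_eval0 [Fintype D] [Fintype V] [DecidableEq D] [DecidableEq V] (a : D ⊕ V → Fin (q + 1) → ℕ) (x' : D ⊕ V → Fin q → F)
    (ρ ρ' : Ix (q + 1) D V) :
    (evalRingHom (0 : F)).mapMatrix (ub2_P a x') ρ ρ' =
      if bet a ρ' 0 = bet a ρ 0 then
        (ub2_w ρ (bet a ρ') : F) * mon (x' (pt ρ)) (Fin.tail (bet a ρ')) else 0 := by
  have key : (evalRingHom (0 : F)).mapMatrix (ub2_P a x') ρ ρ' =
      ((ub2_c a ρ (bet a ρ') : ℤ) : F) * (if (ub2_n a ρ (bet a ρ')) ≤ 0 then 1 else 0) *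
        mon (x' (pt ρ)) (Fin.tail (bet a ρ')) := by
    simp only [RingHom.mapMatrix_apply, Matrix.map_apply, ub2_P, coe_evalRingHom, eval_mul,
      eval_C, eval_pow, eval_X]
    congr 2
    by_cases h : ub2_n a ρ (bet a ρ') ≤ 0
    · rw [if_pos h, Int.toNat_of_nonpos h, pow_zero]
    · rw [if_neg h, zero_pow]
      omega
  rw [key]
  set b := bet a ρ' with hb
  rcases ρ with ⟨j, _ | i⟩ | v
  · simp only [ub2_c, ub2_n, ub2_w, bet]
    by_cases h : b 0 = a (.inl j) 0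
    · simp [h]
    · rw [if_neg h, if_neg]
      · simp
      · intro h1
        have := ub2_sq_le h1
        omega
  · by_cases hi : i = 0
    · subst hi
      simp only [ub2_c, ub2_n, ub2_w, bet, if_true, Pi.add_apply, Pi.single_eq_same]
      by_cases h : b 0 = a (.inl j) 0 + 1
      · simp [h]
      · rw [if_neg h]
        by_cases h2 : b 0 = a (.inl j) 0
        · simp [h2]
        · rw [if_neg]
          · simp
          · intro h1
            have := ub2_sq1_le h1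
            omega
    · simp only [ub2_c, ub2_n, ub2_w, bet, if_neg hi, Pi.add_apply]
      rw [Pi.single_eq_of_ne (Ne.symm hi), add_zero]
      by_cases h : b 0 = a (.inl j) 0
      · simp [h]
      · rw [if_neg h, if_neg]
        · simp
        · intro h1
          have := ub2_sq_le h1
          omega
  · simp only [ub2_c, ub2_n, ub2_w, bet]
    by_cases h : b 0 = a (.inr v) 0
    · simp [h]
    · rw [if_neg h, if_neg]
      · simp
      · intro h1
        have h2 : ((b 0 : ℤ) - a (.inr v) 0) ^ 2 ≤ 0 := by linarith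
        have h3 : ((b 0 : ℤ) - a (.inr v) 0) = 0 := by nlinarith
        omega

/-- the rows of the slice `e` as rows of the node -/
def ub2_f (a : D ⊕ V → Fin (q + 1) → ℕ) (e : ℕ) :
    Ix q (SD a e) (SV a e) → Ix (q + 1) D V
  | .inl (j, none) => .inl (j.1, none)
  | .inl (j, some i) => .inl (j.1, some i.succ)
  | .inr (.inl j) => .inl (j.1, some 0)
  | .inr (.inr v) => .inr v.1

theorem ub2_f_zero (a : D ⊕ V → Fin (q + 1) → ℕ) (e : ℕ) (ρ : Ix q (SD a e) (SV a e)) :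
    bet a (ub2_f a e ρ) 0 = e := by
  rcases ρ with ⟨⟨j, hj⟩, _ | i⟩ | ⟨j, hj⟩ | ⟨v, hv⟩
  · exact hj
  · simp only [ub2_f, bet, Pi.add_apply]
    rw [Pi.single_eq_of_ne (Fin.succ_ne_zero i).symm, add_zero]
    exact hj
  · simp only [ub2_f, bet, Pi.add_apply, Pi.single_eq_same]
    exact hj
  · exact hv

theorem ub2_f_tail (a : D ⊕ V → Fin (q + 1) → ℕ) (e : ℕ) (ρ : Ix q (SD a e) (SV a e)) :
    Fin.tail (bet a (ub2_f a e ρ)) = bet (sa a e) ρ := by
  rcases ρ with ⟨⟨j, hj⟩, _ | i⟩ | ⟨j, hj⟩ | ⟨v, hv⟩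
  · rfl
  · funext l
    simp only [ub2_f, bet, Fin.tail, Pi.add_apply, sa, sp]
    congr 1
    by_cases h : l = i
    · subst h
      simp
    · rw [Pi.single_eq_of_ne h, Pi.single_eq_of_ne]
      exact fun h' => h (Fin.succ_injective _ h')
  · funext l
    simp only [ub2_f, bet, Fin.tail, Pi.add_apply, sa, sp]
    rw [Pi.single_eq_of_ne (Fin.succ_ne_zero l), add_zero]
  · rfl

theorem ub2_f_pt (a : D ⊕ V → Fin (q + 1) → ℕ) (e : ℕ) (ρ : Ix q (SD a e) (SV a e)) :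
    pt (ub2_f a e ρ) = sp a e (pt ρ) := by
  rcases ρ with ⟨⟨j, hj⟩, _ | i⟩ | ⟨j, hj⟩ | ⟨v, hv⟩ <;> rfl

theorem ub2_f_w (a : D ⊕ V → Fin (q + 1) → ℕ) (e : ℕ) (ρ : Ix q (SD a e) (SV a e))
    (b : Fin (q + 1) → ℕ) : ub2_w (ub2_f a e ρ) b = wt ρ (Fin.tail b) := by
  rcases ρ with ⟨⟨j, hj⟩, _ | i⟩ | ⟨j, hj⟩ | ⟨v, hv⟩
  · rfl
  · simp [ub2_f, ub2_w, wt, Fin.tail, Fin.succ_ne_zero]
  · simp [ub2_f, ub2_w, wt]
  · rfl

theorem ub2_f_inj (a : D ⊕ V → Fin (q + 1) → ℕ) (e : ℕ) : Function.Injective (ub2_f a e) := by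
  intro ρ ρ' h
  rcases ρ with ⟨⟨j, hj⟩, _ | i⟩ | ⟨j, hj⟩ | ⟨v, hv⟩ <;>
  rcases ρ' with ⟨⟨j', hj'⟩, _ | i'⟩ | ⟨j', hj'⟩ | ⟨v', hv'⟩ <;>
  simp_all [ub2_f, Fin.succ_ne_zero, (Fin.succ_ne_zero _).symm]

theorem ub2_f_surj (a : D ⊕ V → Fin (q + 1) → ℕ) (e : ℕ) (ρ : Ix (q + 1) D V)
    (h : bet a ρ 0 = e) : ∃ ρ', ub2_f a e ρ' = ρ := by
  rcases ρ with ⟨j, _ | i⟩ | v
  · exact ⟨.inl (⟨j, h⟩, none), rfl⟩
  · rcases Fin.eq_zero_or_eq_succ i with rfl | ⟨i', rfl⟩
    · refine ⟨.inr (.inl ⟨j, ?_⟩), rfl⟩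
      simpa [bet] using h
    · refine ⟨.inl (⟨j, ?_⟩, some i'), rfl⟩
      simpa [bet, Pi.single_eq_of_ne (Fin.succ_ne_zero i').symm] using h
  · exact ⟨.inr (.inr ⟨v, h⟩), rfl⟩

theorem ub2_det0 [Fintype D] [Fintype V] [DecidableEq D] [DecidableEq V]
    (a : D ⊕ V → Fin (q + 1) → ℕ) (x' : D ⊕ V → Fin q → F)
    (h : ∀ e : ℕ, (nodeMat (sa a e) (fun p => x' (sp a e p))).det ≠ 0) :
    ((evalRingHom (0 : F)).mapMatrix (ub2_P a x')).det ≠ 0 := by
  set M := (evalRingHom (0 : F)).mapMatrix (ub2_P a x') with hM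
  have hbt : M.BlockTriangular (fun ρ => bet a ρ 0) := by
    intro ρ ρ' hlt
    rw [hM, ub2_eval0, if_neg]
    exact hlt.ne
  rw [hbt.det, Finset.prod_ne_zero_iff]
  intro e _
  let φ : Ix q (SD a e) (SV a e) ≃ {ρ : Ix (q + 1) D V // bet a ρ 0 = e} :=
    Equiv.ofBijective (fun ρ => ⟨ub2_f a e ρ, ub2_f_zero a e ρ⟩) ⟨by
      intro ρ ρ' hh
      exact ub2_f_inj a e (congrArg Subtype.val hh), by
      rintro ⟨ρ, hρ⟩
      obtain ⟨ρ', h'⟩ := ub2_f_surj a e ρ hρ
      exact ⟨ρ', Subtype.ext h'⟩⟩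
  have h1 : (M.toSquareBlock (fun ρ => bet a ρ 0) e).submatrix φ φ =
      nodeMat (sa a e) (fun p => x' (sp a e p)) := by
    funext ρ ρ'
    simp only [Matrix.submatrix_apply, Matrix.toSquareBlock_def, Matrix.of_apply]
    have h2 : ((φ ρ : {ρ : Ix (q + 1) D V // bet a ρ 0 = e}) : Ix (q + 1) D V) = ub2_f a e ρ := rfl
    have h3 : ((φ ρ' : {ρ : Ix (q + 1) D V // bet a ρ 0 = e}) : Ix (q + 1) D V) =
      ub2_f a e ρ' := rfl
    rw [h2, h3, hM, ub2_eval0, if_pos (by rw [ub2_f_zero, ub2_f_zero]), ub2_f_w, ub2_f_tail,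
      ub2_f_pt]
    rfl
  rw [← Matrix.det_submatrix_equiv_self φ, h1]
  exact h e

theorem ub2_inv_pow {t : F} (ht : t ≠ 0) {k m k' m' : ℕ} (h : m + k' = m' + k) :
    t⁻¹ ^ k * t ^ m = t⁻¹ ^ k' * t ^ m' := by
  rw [inv_pow, inv_pow, inv_mul_eq_div, inv_mul_eq_div, div_eq_div_iff (pow_ne_zero _ ht)
    (pow_ne_zero _ ht), ← pow_add, ← pow_add, h]

/-- the point at `t` -/
def ub2_z (a : D ⊕ V → Fin (q + 1) → ℕ) (t : F) : D ⊕ V → F
  | .inl j => t ^ (4 * a (.inl j) 0 + 1)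
  | .inr v => t ^ (4 * a (.inr v) 0)

theorem ub2_row [Fintype D] [Fintype V] [DecidableEq D] [DecidableEq V]
    (a : D ⊕ V → Fin (q + 1) → ℕ) (x' : D ⊕ V → Fin q → F) {t : F} (ht : t ≠ 0)
    (v : Ix (q + 1) D V → F)
    (hv : (nodeMat a (fun p => Fin.cons (ub2_z a t p) (x' p) :
      D ⊕ V → Fin (q + 1) → F)).mulVec v = 0) :
    ((evalRingHom (t⁻¹ : F)).mapMatrix (ub2_P a x')).mulVec
      (fun ρ' => v ρ' * t ^ (2 * (bet a ρ' 0) ^ 2)) = 0 := by
  set N := nodeMat a (fun p => Fin.cons (ub2_z a t p) (x' p) : D ⊕ V → Fin (q + 1) → F) with hN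
  have hvr : ∀ ρ, ∑ ρ', N ρ ρ' * v ρ' = 0 := fun ρ => congrFun hv ρ
  have hE : ∀ ρ ρ', (evalRingHom (t⁻¹ : F)).mapMatrix (ub2_P a x') ρ ρ' =
      ((ub2_c a ρ (bet a ρ') : ℤ) : F) * t⁻¹ ^ (ub2_n a ρ (bet a ρ')).toNat *
        mon (x' (pt ρ)) (Fin.tail (bet a ρ')) := by
    intro ρ ρ'
    simp only [RingHom.mapMatrix_apply, Matrix.map_apply, ub2_P, coe_evalRingHom, eval_mul,
      eval_C, eval_pow, eval_X]
  funext ρ
  rw [Pi.zero_apply]
  change ∑ ρ', (evalRingHom (t⁻¹ : F)).mapMatrix (ub2_P a x') ρ ρ' *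
    (v ρ' * t ^ (2 * (bet a ρ' 0) ^ 2)) = 0
  simp only [hE]
  rcases ρ with ⟨j, _ | i⟩ | w
  · set e := a (.inl j) 0 with he
    have h1 : ∀ ρ', ((ub2_c a (.inl (j, none)) (bet a ρ') : ℤ) : F) *
        t⁻¹ ^ (ub2_n a (.inl (j, none)) (bet a ρ')).toNat *
        mon (x' (pt (.inl (j, none) : Ix (q + 1) D V))) (Fin.tail (bet a ρ')) *
        (v ρ' * t ^ (2 * (bet a ρ' 0) ^ 2)) =
        t⁻¹ ^ (2 * e ^ 2 + e) * (((e : F) + 1) * (N (.inl (j, none)) ρ' * v ρ') -
          N (.inl (j, some 0)) ρ' * v ρ') := by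
      intro ρ'
      set b := bet a ρ' with hb
      have h2 : t⁻¹ ^ (ub2_n a (.inl (j, none)) b).toNat * t ^ (2 * (b 0) ^ 2) =
          t⁻¹ ^ (2 * e ^ 2 + e) * t ^ ((4 * e + 1) * b 0) := by
        apply ub2_inv_pow ht
        have h3 : ((ub2_n a (.inl (j, none)) b).toNat : ℤ) =
            2 * ((b 0 : ℤ) - e) ^ 2 - ((b 0 : ℤ) - e) := Int.toNat_of_nonneg (ub2_sq _)
        zify
        rw [h3]
        ring
      have h4 : N (.inl (j, none)) ρ' = t ^ ((4 * e + 1) * b 0) *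
          mon (x' (.inl j)) (Fin.tail b) := by
        rw [hN]
        simp only [nodeMat, pt, wt, ← hb, Nat.cast_one, one_mul, ub2_mon_cons, ub2_z, ← he,
          pow_mul]
      have h5 : N (.inl (j, some 0)) ρ' = (b 0 : F) * (t ^ ((4 * e + 1) * b 0) *
          mon (x' (.inl j)) (Fin.tail b)) := by
        rw [hN]
        simp only [nodeMat, pt, wt, ← hb, ub2_mon_cons, ub2_z, ← he, pow_mul]
      rw [h4, h5]
      have h6 : ((ub2_c a (.inl (j, none)) b : ℤ) : F) = (e : F) + 1 - (b 0 : F) := by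
        simp only [ub2_c, ← he]
        push_cast
        ring
      rw [h6]
      change _ * _ * mon (x' (Sum.inl j)) (Fin.tail b) * _ = _
      linear_combination ((e : F) + 1 - (b 0 : F)) * mon (x' (.inl j)) (Fin.tail b) * v ρ' * h2
    simp only [h1]
    rw [← Finset.mul_sum, Finset.sum_sub_distrib, ← Finset.mul_sum, hvr, hvr]
    simp
  · rcases Fin.eq_zero_or_eq_succ i with rfl | ⟨i', rfl⟩
    · set e := a (.inl j) 0 with he
      have h1 : ∀ ρ', ((ub2_c a (.inl (j, some 0)) (bet a ρ') : ℤ) : F) *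
          t⁻¹ ^ (ub2_n a (.inl (j, some 0)) (bet a ρ')).toNat *
          mon (x' (pt (.inl (j, some 0) : Ix (q + 1) D V))) (Fin.tail (bet a ρ')) *
          (v ρ' * t ^ (2 * (bet a ρ' 0) ^ 2)) =
          t⁻¹ ^ (2 * e ^ 2 + e) * t * (N (.inl (j, some 0)) ρ' * v ρ' -
            (e : F) * (N (.inl (j, none)) ρ' * v ρ')) := by
        intro ρ'
        set b := bet a ρ' with hb
        have h4 : N (.inl (j, none)) ρ' = t ^ ((4 * e + 1) * b 0) *
            mon (x' (.inl j)) (Fin.tail b) := by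
          rw [hN]
          simp only [nodeMat, pt, wt, ← hb, Nat.cast_one, one_mul, ub2_mon_cons, ub2_z, ← he,
            pow_mul]
        have h5 : N (.inl (j, some 0)) ρ' = (b 0 : F) * (t ^ ((4 * e + 1) * b 0) *
            mon (x' (.inl j)) (Fin.tail b)) := by
          rw [hN]
          simp only [nodeMat, pt, wt, ← hb, ub2_mon_cons, ub2_z, ← he, pow_mul]
        have h6 : ((ub2_c a (.inl (j, some 0)) b : ℤ) : F) = (b 0 : F) - (e : F) := by
          simp only [ub2_c, ← he, if_true]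
          push_cast
          ring
        rw [h4, h5, h6]
        by_cases hbe : b 0 = e
        · rw [hbe]
          ring
        · have h2 : t⁻¹ ^ (ub2_n a (.inl (j, some 0)) b).toNat * t ^ (2 * (b 0) ^ 2) =
              t⁻¹ ^ (2 * e ^ 2 + e) * t ^ ((4 * e + 1) * b 0 + 1) := by
            apply ub2_inv_pow ht
            have h7 : ((b 0 : ℤ) - e) ≠ 0 := by omega
            have h3 : ((ub2_n a (.inl (j, some 0)) b).toNat : ℤ) =
                2 * ((b 0 : ℤ) - e) ^ 2 - ((b 0 : ℤ) - e) - 1 := by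
              have h8 : ub2_n a (.inl (j, some 0)) b =
                  2 * ((b 0 : ℤ) - e) ^ 2 - ((b 0 : ℤ) - e) - 1 := by
                simp only [ub2_n, if_true, ← he]
              rw [h8]
              exact Int.toNat_of_nonneg (ub2_sq1 h7)
            zify
            rw [h3]
            ring
          rw [pow_succ t ((4 * e + 1) * b 0)] at h2
          change _ * _ * mon (x' (Sum.inl j)) (Fin.tail b) * _ = _
          linear_combination ((b 0 : F) - (e : F)) * mon (x' (.inl j)) (Fin.tail b) * v ρ' * h2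
      simp only [h1]
      rw [← Finset.mul_sum, Finset.sum_sub_distrib, ← Finset.mul_sum, hvr, hvr]
      simp
    · set e := a (.inl j) 0 with he
      have h1 : ∀ ρ', ((ub2_c a (.inl (j, some i'.succ)) (bet a ρ') : ℤ) : F) *
          t⁻¹ ^ (ub2_n a (.inl (j, some i'.succ)) (bet a ρ')).toNat *
          mon (x' (pt (.inl (j, some i'.succ) : Ix (q + 1) D V))) (Fin.tail (bet a ρ')) *
          (v ρ' * t ^ (2 * (bet a ρ' 0) ^ 2)) =
          t⁻¹ ^ (2 * e ^ 2 + e) * (N (.inl (j, some i'.succ)) ρ' * v ρ') := by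
        intro ρ'
        set b := bet a ρ' with hb
        have h2 : t⁻¹ ^ (ub2_n a (.inl (j, some i'.succ)) b).toNat * t ^ (2 * (b 0) ^ 2) =
            t⁻¹ ^ (2 * e ^ 2 + e) * t ^ ((4 * e + 1) * b 0) := by
          apply ub2_inv_pow ht
          have h3 : ((ub2_n a (.inl (j, some i'.succ)) b).toNat : ℤ) =
              2 * ((b 0 : ℤ) - e) ^ 2 - ((b 0 : ℤ) - e) := by
            have h8 : ub2_n a (.inl (j, some i'.succ)) b =
                2 * ((b 0 : ℤ) - e) ^ 2 - ((b 0 : ℤ) - e) := by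
              simp only [ub2_n, if_neg (Fin.succ_ne_zero i'), ← he]
            rw [h8]
            exact Int.toNat_of_nonneg (ub2_sq _)
          zify
          rw [h3]
          ring
        have h4 : N (.inl (j, some i'.succ)) ρ' = (b i'.succ : F) * (t ^ ((4 * e + 1) * b 0) *
            mon (x' (.inl j)) (Fin.tail b)) := by
          rw [hN]
          simp only [nodeMat, pt, wt, ← hb, ub2_mon_cons, ub2_z, ← he, pow_mul]
        have h6 : ((ub2_c a (.inl (j, some i'.succ)) b : ℤ) : F) = (b i'.succ : F) := by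
          simp only [ub2_c, if_neg (Fin.succ_ne_zero i')]
          push_cast
          rfl
        rw [h4, h6]
        change _ * _ * mon (x' (Sum.inl j)) (Fin.tail b) * _ = _
        linear_combination (b i'.succ : F) * mon (x' (.inl j)) (Fin.tail b) * v ρ' * h2
      simp only [h1]
      rw [← Finset.mul_sum, hvr]
      simp
  · set e := a (.inr w) 0 with he
    have h1 : ∀ ρ', ((ub2_c a (.inr w) (bet a ρ') : ℤ) : F) *
        t⁻¹ ^ (ub2_n a (.inr w) (bet a ρ')).toNat *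
        mon (x' (pt (.inr w : Ix (q + 1) D V))) (Fin.tail (bet a ρ')) *
        (v ρ' * t ^ (2 * (bet a ρ' 0) ^ 2)) =
        t⁻¹ ^ (2 * e ^ 2) * (N (.inr w) ρ' * v ρ') := by
      intro ρ'
      set b := bet a ρ' with hb
      have h2 : t⁻¹ ^ (ub2_n a (.inr w) b).toNat * t ^ (2 * (b 0) ^ 2) =
          t⁻¹ ^ (2 * e ^ 2) * t ^ (4 * e * b 0) := by
        apply ub2_inv_pow ht
        have h3 : ((ub2_n a (.inr w) b).toNat : ℤ) = 2 * ((b 0 : ℤ) - e) ^ 2 := by
          have h8 : ub2_n a (.inr w) b = 2 * ((b 0 : ℤ) - e) ^ 2 := rfl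
          rw [h8]
          exact Int.toNat_of_nonneg (by positivity)
        zify
        rw [h3]
        ring
      have h4 : N (.inr w) ρ' = t ^ (4 * e * b 0) * mon (x' (.inr w)) (Fin.tail b) := by
        rw [hN]
        simp only [nodeMat, pt, wt, ← hb, Nat.cast_one, one_mul, ub2_mon_cons, ub2_z, ← he,
          pow_mul]
      have h6 : ((ub2_c a (.inr w) b : ℤ) : F) = 1 := by
        simp [ub2_c]
      rw [h4, h6]
      change _ * _ * mon (x' (Sum.inr w)) (Fin.tail b) * _ = _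
      linear_combination mon (x' (.inr w)) (Fin.tail b) * v ρ' * h2
    simp only [h1]
    rw [← Finset.mul_sum, hvr]
    simp

end Limit

/-- If all slices of a node are invertible at `x'` then the node is invertible at `(z, x')` for
some `z`. -/
theorem limit {F : Type*} [Field F] [Infinite F] {q : ℕ} {D V : Type} [Fintype D] [Fintype V]
    [DecidableEq D] [DecidableEq V] (a : D ⊕ V → Fin (q + 1) → ℕ) (x' : D ⊕ V → Fin q → F)
    (h : ∀ e : ℕ, (nodeMat (sa a e) (fun p => x' (sp a e p))).det ≠ 0) :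
    ∃ z : D ⊕ V → F, (nodeMat a (fun p => Fin.cons (z p) (x' p) : D ⊕ V → Fin (q + 1) → F)).det
      ≠ 0 := by
  classical
  have h0 := ub2_det0 a x' h
  rw [← RingHom.map_det] at h0
  have hP : (ub2_P a x').det ≠ 0 := by
    intro hh
    rw [hh, map_zero] at h0
    exact h0 rfl
  obtain ⟨u, hu⟩ := Infinite.exists_notMem_finset (((ub2_P a x').det * X).roots.toFinset)
  have hu1 : eval u ((ub2_P a x').det * X) ≠ 0 := by
    intro hh
    apply hu
    rw [Multiset.mem_toFinset, mem_roots (mul_ne_zero hP X_ne_zero)]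
    exact hh
  rw [eval_mul, eval_X] at hu1
  have hu0 : u ≠ 0 := right_ne_zero_of_mul hu1
  have hu2 : eval u (ub2_P a x').det ≠ 0 := left_ne_zero_of_mul hu1
  have ht : u⁻¹ ≠ 0 := inv_ne_zero hu0
  refine ⟨ub2_z a u⁻¹, fun hdet => ?_⟩
  obtain ⟨v, hv0, hv⟩ := Matrix.exists_mulVec_eq_zero_iff.mpr hdet
  have h1 := ub2_row a x' ht v hv
  rw [inv_inv] at h1
  apply hu2
  have h2 : ((evalRingHom u).mapMatrix (ub2_P a x')).det = 0 := by
    apply Matrix.exists_mulVec_eq_zero_iff.mp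
    refine ⟨_, ?_, h1⟩
    intro hz
    apply hv0
    funext ρ
    have h3 := congrFun hz ρ
    simp only [Pi.zero_apply, mul_eq_zero] at h3
    rcases h3 with h3 | h3
    · exact h3
    · exact absurd h3 (pow_ne_zero _ ht)
  rw [← RingHom.map_det] at h2
  exact h2

end Pool.Agent.H52.UB
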