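import Pool.Agent.H52.UB.Defs

/-!
# Project UB, row UB-3: combinatorics of slices
-/

set_option autoImplicit false

open NumberField Polynomial Module

namespace Pool.Agent.H52.UB

/-- the rows of a slice as rows of the node -/
def ub3_emb {q : ℕ} {D V : Type} (a : D ⊕ V → Fin (q + 1) → ℕ) (e : ℕ) :
    Ix q (SD a e) (SV a e) → Ix (q + 1) D V
  | .inl (j, none) => .inl (j.1, none)
  | .inl (j, some i) => .inl (j.1, some i.succ)
  | .inr (.inl j) => .inl (j.1, some 0)
  | .inr (.inr v) => .inr v.1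

theorem ub3_bet {q : ℕ} {D V : Type} (a : D ⊕ V → Fin (q + 1) → ℕ) (e : ℕ)
    (ρ : Ix q (SD a e) (SV a e)) :
    bet a (ub3_emb a e ρ) = (Fin.cons e (bet (sa a e) ρ) : Fin (q + 1) → ℕ) := by
  funext l
  rcases ρ with ⟨j, _ | i⟩ | j | v
  · refine Fin.cases ?_ (fun l => ?_) l
    · exact j.2
    · rfl
  · refine Fin.cases ?_ (fun l => ?_) l
    · show a (.inl j.1) 0 + (Pi.single i.succ 1 : Fin (q + 1) → ℕ) 0 = e
      rw [Pi.single_eq_of_ne (Fin.succ_ne_zero i).symm, add_zero]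
      exact j.2
    · show a (.inl j.1) l.succ + (Pi.single i.succ 1 : Fin (q + 1) → ℕ) l.succ =
        a (.inl j.1) l.succ + (Pi.single i 1 : Fin q → ℕ) l
      congr 1
      by_cases h : l = i
      · subst h
        rw [Pi.single_eq_same, Pi.single_eq_same]
      · rw [Pi.single_eq_of_ne h, Pi.single_eq_of_ne]
        intro h'
        exact h (Fin.succ_injective _ h')
  · refine Fin.cases ?_ (fun l => ?_) l
    · show a (.inl j.1) 0 + (Pi.single 0 1 : Fin (q + 1) → ℕ) 0 = e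
      rw [Pi.single_eq_same]
      exact j.2
    · show a (.inl j.1) l.succ + (Pi.single 0 1 : Fin (q + 1) → ℕ) l.succ = a (.inl j.1) l.succ
      rw [Pi.single_eq_of_ne (Fin.succ_ne_zero l), add_zero]
  · refine Fin.cases ?_ (fun l => ?_) l
    · exact v.2
    · rfl

theorem ub3_pt {q : ℕ} {D V : Type} (a : D ⊕ V → Fin (q + 1) → ℕ) (e : ℕ)
    (ρ : Ix q (SD a e) (SV a e)) : pt (ub3_emb a e ρ) = sp a e (pt ρ) := by
  rcases ρ with ⟨j, _ | i⟩ | j | v <;> rfl

theorem ub3_emb_inj {q : ℕ} {D V : Type} (a : D ⊕ V → Fin (q + 1) → ℕ) (e : ℕ) :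
    Function.Injective (ub3_emb a e) := by
  rintro (⟨j, _ | i⟩ | j | v) (⟨j', _ | i'⟩ | j' | v') h
  · have h1 : j.1 = j'.1 := by
      have := Sum.inl.inj h
      exact (Prod.mk.inj this).1
    rw [Subtype.ext h1]
  · have h2 := (Prod.mk.inj (Sum.inl.inj h)).2
    exact absurd h2 (by simp)
  · have h2 := (Prod.mk.inj (Sum.inl.inj h)).2
    exact absurd h2 (by simp)
  · exact absurd h (by intro h'; cases h')
  · have h2 := (Prod.mk.inj (Sum.inl.inj h)).2
    exact absurd h2 (by simp)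
  · have h2 := (Prod.mk.inj (Sum.inl.inj h)).2
    have h1 := (Prod.mk.inj (Sum.inl.inj h)).1
    have h3 : i = i' := Fin.succ_injective _ (Option.some.inj h2)
    rw [Subtype.ext h1, h3]
  · have h2 := (Prod.mk.inj (Sum.inl.inj h)).2
    exact absurd (Option.some.inj h2) (Fin.succ_ne_zero i)
  · exact absurd h (by intro h'; cases h')
  · have h2 := (Prod.mk.inj (Sum.inl.inj h)).2
    exact absurd h2 (by simp)
  · have h2 := (Prod.mk.inj (Sum.inl.inj h)).2
    exact absurd (Option.some.inj h2).symm (Fin.succ_ne_zero i')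
  · have h1 := (Prod.mk.inj (Sum.inl.inj h)).1
    rw [Subtype.ext h1]
  · exact absurd h (by intro h'; cases h')
  · exact absurd h (by intro h'; cases h')
  · exact absurd h (by intro h'; cases h')
  · exact absurd h (by intro h'; cases h')
  · have h1 := Sum.inr.inj h
    rw [Subtype.ext h1]

/-! ### UB-3 SliceInj.lean : the combinatorics of slices -/

theorem slice_inj {q : ℕ} {D V : Type} (a : D ⊕ V → Fin (q + 1) → ℕ)
    (h : Function.Injective (bet a)) (e : ℕ) : Function.Injective (bet (sa a e)) := by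
  intro ρ ρ' hρ
  apply ub3_emb_inj a e
  apply h
  rw [ub3_bet, ub3_bet, hρ]

theorem sp_inj {q : ℕ} {D V : Type} (a : D ⊕ V → Fin (q + 1) → ℕ) (e : ℕ) :
    Function.Injective (sp a e) := by
  rintro (j | j | v) (j' | j' | v') h
  · rw [Subtype.ext (Sum.inl.inj h)]
  · have h1 : j.1 = j'.1 := Sum.inl.inj h
    have h2 := j.2
    have h3 := j'.2
    rw [h1] at h2
    omega
  · exact absurd h (by intro h'; cases h')
  · have h1 : j.1 = j'.1 := Sum.inl.inj h
    have h2 := j.2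
    have h3 := j'.2
    rw [h1] at h2
    omega
  · rw [Subtype.ext (Sum.inl.inj h)]
  · exact absurd h (by intro h'; cases h')
  · exact absurd h (by intro h'; cases h')
  · exact absurd h (by intro h'; cases h')
  · rw [Subtype.ext (Sum.inr.inj h)]

theorem slice_card {q : ℕ} {D V : Type} [Finite D] [Finite V] (a : D ⊕ V → Fin (q + 1) → ℕ)
    (s : Fin (q + 1) → ℕ)
    (hs : ∀ (i : Fin (q + 1)) (c : Fin (q + 1) → ℕ),
      Nat.card {p : D ⊕ V // ∃ ρ : Ix (q + 1) D V, pt ρ = p ∧ ∀ l < i, bet a ρ l = c l} ≤ s i)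
    (e : ℕ) (i : Fin q) (c : Fin q → ℕ) :
    Nat.card {p : SD a e ⊕ SV a e //
      ∃ ρ : Ix q (SD a e) (SV a e), pt ρ = p ∧ ∀ l < i, bet (sa a e) ρ l = c l} ≤ s i.succ := by
  refine le_trans ?_ (hs i.succ (Fin.cons e c))
  let F : {p : SD a e ⊕ SV a e //
      ∃ ρ : Ix q (SD a e) (SV a e), pt ρ = p ∧ ∀ l < i, bet (sa a e) ρ l = c l} →
      {p : D ⊕ V // ∃ ρ : Ix (q + 1) D V, pt ρ = p ∧
        ∀ l < i.succ, bet a ρ l = (Fin.cons e c : Fin (q + 1) → ℕ) l} := fun p =>
    ⟨sp a e p.1, by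
      obtain ⟨ρ, h1, h2⟩ := p.2
      refine ⟨ub3_emb a e ρ, ?_, fun l => ?_⟩
      · rw [ub3_pt, h1]
      · rw [ub3_bet]
        refine Fin.cases ?_ (fun l => ?_) l
        · intro _
          rfl
        · intro hl
          exact h2 l (Fin.succ_lt_succ_iff.mp hl)⟩
  refine Nat.card_le_card_of_injective F (fun p p' h => ?_)
  have h1 := congrArg Subtype.val h
  exact Subtype.ext (sp_inj a e h1)

/-- only finitely many slices are not empty -/
theorem slice_empty {q : ℕ} {D V : Type} [Finite D] [Finite V] (a : D ⊕ V → Fin (q + 1) → ℕ) :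
    ∃ E : ℕ, ∀ e : ℕ, E ≤ e → IsEmpty (Ix q (SD a e) (SV a e)) := by
  obtain ⟨M, hM⟩ := (Set.finite_range (fun p : D ⊕ V => a p 0)).bddAbove
  have hM' : ∀ p, a p 0 ≤ M := fun p => hM ⟨p, rfl⟩
  refine ⟨M + 2, fun e he => ⟨?_⟩⟩
  rintro (⟨j, _⟩ | j | v)
  · have h1 := j.2
    have h2 := hM' (.inl j.1)
    omega
  · have h1 := j.2
    have h2 := hM' (.inl j.1)
    omega
  · have h1 := v.2
    have h2 := hM' (.inr v.1)
    omega

end Pool.Agent.H52.UB
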