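import Pool.Agent.H52.UB.LinePoly
import Pool.Agent.H52.UB.Limit
import Pool.Agent.H52.UB.SliceInj

/-!
# Project UB (MP_a3214d), row UB-4: the tile lemma

By induction on the number of coordinates: all slices are invertible at a common point of the
last coordinates (`lp_common`), the limit step gives the first coordinate.
-/

set_option autoImplicit false

open NumberField Polynomial Module

namespace Pool.Agent.H52.UB

/-- The linear map `x ↦ (z ↦ x z i)`. -/
private def ub4_coord (F Z : Type*) [Field F] (q : ℕ) (i : Fin q) :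
    (Z → Fin q → F) →ₗ[F] (Z → F) where
  toFun x := fun z => x z i
  map_add' _ _ := rfl
  map_smul' _ _ := rfl

/-- The linear map `x ↦ x z i`. -/
private def ub4_ev (F Z : Type*) [Field F] (q : ℕ) (z : Z) (i : Fin q) :
    (Z → Fin q → F) →ₗ[F] F where
  toFun x := x z i
  map_add' _ _ := rfl
  map_smul' _ _ := rfl

/-- The determinant of a node is a polynomial function on lines. -/
private theorem ub4_lp {F : Type*} [Field F] {Z : Type} {q : ℕ} {D V : Type} [Fintype D]
    [Fintype V] [DecidableEq D] [DecidableEq V] (a : D ⊕ V → Fin q → ℕ) (ι : D ⊕ V → Z) :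
    ∃ d : ℕ, LP d (fun x : Z → Fin q → F => (nodeMat a (fun p => x (ι p))).det) := by
  refine ⟨_, lp_det (ι := Ix q D V) q (∑ j : Ix q D V, ∑ l, bet a j l)
    (fun ρ l => ub4_ev F Z q (ι (pt ρ)) l) (fun ρ ρ' => (wt ρ (bet a ρ') : F)) (bet a) ?_⟩
  intro j
  exact Finset.single_le_sum (f := fun j : Ix q D V => ∑ l, bet a j l)
    (fun _ _ => Nat.zero_le _) (Finset.mem_univ j)

/-- The node with no coordinates. -/
private theorem ub4_zero {F : Type*} [Field F] {D V : Type} [Fintype D]
    [Fintype V] [DecidableEq D] [DecidableEq V] (a : D ⊕ V → Fin 0 → ℕ)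
    (h : Function.Injective (bet a)) (x : D ⊕ V → Fin 0 → F) : (nodeMat a x).det ≠ 0 := by
  have h1 : nodeMat a x = 1 := by
    ext ρ ρ'
    have h2 : ρ = ρ' := h (Subsingleton.elim _ _)
    subst h2
    rw [Matrix.one_apply_eq]
    rcases ρ with ⟨j, _ | i⟩ | v
    · simp [nodeMat, wt, mon]
    · exact i.elim0
    · simp [nodeMat, wt, mon]
  rw [h1, Matrix.det_one]
  exact one_ne_zero

theorem tile {F : Type*} [Field F] [Infinite F] {Z : Type} [Fintype Z] [DecidableEq Z] :
    ∀ (q : ℕ) (D V : Type) [Fintype D] [Fintype V] [DecidableEq D] [DecidableEq V]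
      (a : D ⊕ V → Fin q → ℕ), Function.Injective (bet a) → ∀ (ι : D ⊕ V → Z),
      Function.Injective ι → ∀ (W : Fin q → Submodule F (Z → F)) (s : Fin q → ℕ),
      (∀ i, Onto (W i) (s i)) →
      (∀ (i : Fin q) (c : Fin q → ℕ),
        Nat.card {p : D ⊕ V // ∃ ρ : Ix q D V, pt ρ = p ∧ ∀ l < i, bet a ρ l = c l} ≤ s i) →
      ∃ x : Z → Fin q → F, (∀ i, (fun z => x z i) ∈ W i) ∧
        (nodeMat a (fun p => x (ι p))).det ≠ 0 := by
  intro q
  induction q with
  | zero =>
    intro D V _ _ _ _ a ha ι _ W s _ _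
    exact ⟨fun _ i => i.elim0, fun i => i.elim0, ub4_zero a ha _⟩
  | succ q ih =>
    intro D V _ _ _ _ a ha ι hι W s hW hs
    -- the slices
    have hslice : ∀ e : ℕ, ∃ x : Z → Fin q → F, (∀ i, (fun z => x z i) ∈ W i.succ) ∧
        (nodeMat (sa a e) (fun p => x (ι (sp a e p)))).det ≠ 0 := by
      intro e
      exact ih (SD a e) (SV a e) (sa a e) (slice_inj a ha e) (ι ∘ sp a e)
        (hι.comp (sp_inj a e)) (fun i => W i.succ) (fun i => s i.succ) (fun i => hW i.succ)
        (slice_card a s hs e)
    -- the subspace of the last coordinates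
    let U : Submodule F (Z → Fin q → F) := ⨅ i, (W i.succ).comap (ub4_coord F Z q i)
    have hU : ∀ x : Z → Fin q → F, x ∈ U ↔ ∀ i, (fun z => x z i) ∈ W i.succ := by
      intro x
      rw [Submodule.mem_iInf]
      rfl
    obtain ⟨E, hE⟩ := slice_empty a
    choose d hd using fun e : ℕ => ub4_lp (F := F) (Z := Z) (sa a e) (ι ∘ sp a e)
    obtain ⟨x', hx'U, hx'⟩ := lp_common U (Finset.range E) d
      (fun e => fun x : Z → Fin q → F => (nodeMat (sa a e) (fun p => x (ι (sp a e p)))).det)
      (fun e _ => hd e) (fun e _ => by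
        obtain ⟨x, hx1, hx2⟩ := hslice e
        exact ⟨x, (hU x).mpr hx1, hx2⟩)
    have hall : ∀ e : ℕ, (nodeMat (sa a e) (fun p => x' (ι (sp a e p)))).det ≠ 0 := by
      intro e
      by_cases he : e < E
      · exact hx' e (Finset.mem_range.mpr he)
      · have := hE e (not_lt.mp he)
        rw [Matrix.det_isEmpty]
        exact one_ne_zero
    obtain ⟨z, hz⟩ := limit a (fun p => x' (ι p)) hall
    -- the first coordinate
    have hcard : (Finset.univ.image ι).card ≤ s 0 := by
      rw [Finset.card_image_of_injective _ hι, Finset.card_univ, ← Nat.card_eq_fintype_card]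
      refine le_trans (le_of_eq ?_) (hs 0 (fun _ => 0))
      refine Nat.card_congr (Equiv.subtypeUnivEquiv ?_).symm
      rintro (j | v)
      · exact ⟨Sum.inl (j, none), rfl, fun l hl => absurd hl (by simp)⟩
      · exact ⟨Sum.inr v, rfl, fun l hl => absurd hl (by simp)⟩
    obtain ⟨w, hwW, hw⟩ := hW 0 (Finset.univ.image ι) hcard (Function.extend ι z 0)
    refine ⟨fun y => Fin.cons (w y) (x' y), ?_, ?_⟩
    · intro i
      refine Fin.cases ?_ (fun i => ?_) i
      · simpa using hwW
      · simpa using (hU x').mp hx'U i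
    · have h1 : (fun p => (Fin.cons (w (ι p)) (x' (ι p)) : Fin (q + 1) → F)) =
          fun p => Fin.cons (z p) (x' (ι p)) := by
        funext p
        rw [hw (ι p) (Finset.mem_image_of_mem ι (Finset.mem_univ p)), hι.extend_apply]
      rw [h1]
      exact hz

end Pool.Agent.H52.UB
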