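import Pool.Agent.H52.UB.Defs

/-!
# Project UB (MP_a3214d), row UB-5: the limit step at the top level
-/

set_option autoImplicit false

open Polynomial

namespace Pool.Agent.H52.UB

/-- the exponent `2 (e - b)^2` -/
def ub5_k (e b : ℕ) : ℕ := 2 * ((e : ℤ) - b).natAbs ^ 2

theorem ub5_k_add (e b : ℕ) : ub5_k e b + 4 * e * b = 2 * b ^ 2 + 2 * e ^ 2 := by
  unfold ub5_k
  zify
  rw [sq_abs]
  ring

theorem ub5_k_self (e : ℕ) : ub5_k e e = 0 := by simp [ub5_k]

theorem ub5_k_ne {e b : ℕ} (h : e ≠ b) : ub5_k e b ≠ 0 := by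
  unfold ub5_k
  have h1 : ((e : ℤ) - b).natAbs ≠ 0 := by omega
  positivity

variable {F : Type*} [Field F] {n q : ℕ}

theorem ub5_tbet_zero (a : Fin n → Fin (q + 1) → ℕ) (ρ : Fin n × Fin (q + 1)) :
    tbet a ρ 0 = a ρ.1 0 := by
  unfold tbet
  split_ifs with h
  · rfl
  · simp [Ne.symm h]

theorem ub5_mon_cons (z : F) (y : Fin q → F) (b : Fin (q + 1) → ℕ) :
    mon (Fin.cons z y : Fin (q + 1) → F) b = z ^ b 0 * mon y (Fin.tail b) := by
  unfold mon
  rw [Fin.prod_univ_succ]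
  simp [Fin.tail]

/-- the coefficients -/
def ub5_N (a : Fin n → Fin (q + 1) → ℕ) (x' : Fin n → Fin q → F) :
    Matrix (Fin n × Fin (q + 1)) (Fin n × Fin (q + 1)) F :=
  fun ρ ρ' => ((tbet a ρ' ρ.2 : ℕ) : F) * mon (x' ρ.1) (Fin.tail (tbet a ρ'))

/-- the matrix of polynomials -/
noncomputable def ub5_M (a : Fin n → Fin (q + 1) → ℕ) (x' : Fin n → Fin q → F) :
    Matrix (Fin n × Fin (q + 1)) (Fin n × Fin (q + 1)) F[X] :=
  fun ρ ρ' => C (ub5_N a x' ρ ρ') * X ^ ub5_k (a ρ.1 0) (a ρ'.1 0)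

theorem ub5_eval (a : Fin n → Fin (q + 1) → ℕ) (x' : Fin n → Fin q → F) (u : F) :
    (ub5_M a x').det.eval u =
      (Matrix.of fun ρ ρ' => ub5_N a x' ρ ρ' * u ^ ub5_k (a ρ.1 0) (a ρ'.1 0)).det := by
  have h := RingHom.map_det (evalRingHom u) (ub5_M a x')
  rw [coe_evalRingHom] at h
  rw [h]
  congr 1
  ext ρ ρ'
  simp [ub5_M]

/-- the rows and columns of the slice -/
def ub5_eq (a : Fin n → Fin (q + 1) → ℕ) (e : ℕ) :
    {ρ : Fin n × Fin (q + 1) // a ρ.1 0 = e} ≃ Ix q {j : Fin n // a j 0 = e} Empty where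
  toFun ρ := .inl (⟨ρ.1.1, ρ.2⟩, finSuccEquiv q ρ.1.2)
  invFun p := match p with
    | .inl jo => ⟨(jo.1.1, (finSuccEquiv q).symm jo.2), jo.1.2⟩
    | .inr v => v.elim
  left_inv ρ := by
    obtain ⟨⟨j, i⟩, h⟩ := ρ
    simp
  right_inv p := by
    rcases p with ⟨j, o⟩ | v
    · simp
    · exact v.elim

theorem ub5_block (a : Fin n → Fin (q + 1) → ℕ) (x' : Fin n → Fin q → F) (e : ℕ)
    (ρ ρ' : {ρ : Fin n × Fin (q + 1) // a ρ.1 0 = e}) :
    ub5_N a x' ρ.1 ρ'.1 = (if ρ.1.2 = 0 then (e : F) else 1) *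
      nodeMat (D := {j : Fin n // a j 0 = e}) (V := Empty)
      (fun p => match p with
        | .inl j => Fin.tail (a j.1)
        | .inr v => v.elim)
      (fun p => match p with
        | .inl j => x' j.1
        | .inr v => v.elim) (ub5_eq a e ρ) (ub5_eq a e ρ') := by
  obtain ⟨⟨j, i⟩, h⟩ := ρ
  obtain ⟨⟨j', i'⟩, h'⟩ := ρ'
  have hb : bet (D := {j : Fin n // a j 0 = e}) (V := Empty)
      (fun p => match p with
        | .inl j => Fin.tail (a j.1)
        | .inr v => v.elim) (ub5_eq a e ⟨(j', i'), h'⟩) = Fin.tail (tbet a (j', i')) := by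
    induction i' using Fin.cases with
    | zero => simp [ub5_eq, bet, tbet]
    | succ i' =>
      simp only [ub5_eq, bet, tbet, Equiv.coe_fn_mk, finSuccEquiv_succ, Fin.succ_ne_zero, if_false]
      funext l
      simp [Fin.tail, Pi.single_apply, Fin.succ_inj]
  have hN : nodeMat (R := F) (D := {j : Fin n // a j 0 = e}) (V := Empty)
      (fun p => match p with
        | .inl j => Fin.tail (a j.1)
        | .inr v => v.elim)
      (fun p => match p with
        | .inl j => x' j.1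
        | .inr v => v.elim) (ub5_eq a e ⟨(j, i), h⟩) (ub5_eq a e ⟨(j', i'), h'⟩) =
      ((wt (ub5_eq a e ⟨(j, i), h⟩) (Fin.tail (tbet a (j', i'))) : ℕ) : F) *
        mon (x' j) (Fin.tail (tbet a (j', i'))) := by
    rw [← hb]
    rfl
  rw [hN]
  unfold ub5_N
  simp only
  rw [← mul_assoc]
  congr 1
  induction i using Fin.cases with
  | zero =>
    rw [ub5_tbet_zero]
    simp only at h' ⊢
    simp [ub5_eq, wt, h']
  | succ i => simp [ub5_eq, wt, Fin.tail, Fin.succ_ne_zero]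

/-- limit step at the top level: the slices are `{j // a j 0 = e}`, all double -/
theorem top_limit {F : Type*} [Field F] [CharZero F] {n q : ℕ} (a : Fin n → Fin (q + 1) → ℕ)
    (ha : ∀ j, 1 ≤ a j 0) (x' : Fin n → Fin q → F)
    (h : ∀ e : ℕ, (nodeMat (D := {j : Fin n // a j 0 = e}) (V := Empty)
      (fun p => match p with
        | .inl j => Fin.tail (a j.1)
        | .inr v => v.elim)
      (fun p => match p with
        | .inl j => x' j.1
        | .inr v => v.elim)).det ≠ 0) :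
    ∃ z : Fin n → F, (topMat a (fun j => Fin.cons (z j) (x' j) : Fin n → Fin (q + 1) → F)).det
      ≠ 0 := by
  -- the determinant at `0`
  have h0 : (ub5_M a x').det.eval 0 ≠ 0 := by
    rw [ub5_eval]
    set A : Matrix (Fin n × Fin (q + 1)) (Fin n × Fin (q + 1)) F :=
      Matrix.of fun ρ ρ' => ub5_N a x' ρ ρ' * (0 : F) ^ ub5_k (a ρ.1 0) (a ρ'.1 0) with hA
    have hbt : A.BlockTriangular (fun ρ => a ρ.1 0) := by
      intro ρ ρ' hlt
      simp only [hA, Matrix.of_apply]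
      rw [zero_pow (ub5_k_ne (ne_of_gt hlt)), mul_zero]
    rw [hbt.det, Finset.prod_ne_zero_iff]
    intro e he
    have he1 : 1 ≤ e := by
      obtain ⟨ρ, -, hρ⟩ := Finset.mem_image.mp he
      rw [← hρ]
      exact ha ρ.1
    have hblk : A.toSquareBlock (fun ρ => a ρ.1 0) e =
        Matrix.diagonal (fun ρ : {ρ : Fin n × Fin (q + 1) // a ρ.1 0 = e} =>
          if ρ.1.2 = 0 then (e : F) else 1) *
        (nodeMat (D := {j : Fin n // a j 0 = e}) (V := Empty)
          (fun p => match p with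
            | .inl j => Fin.tail (a j.1)
            | .inr v => v.elim)
          (fun p => match p with
            | .inl j => x' j.1
            | .inr v => v.elim)).submatrix (ub5_eq a e) (ub5_eq a e) := by
      ext ρ ρ'
      rw [Matrix.diagonal_mul, Matrix.submatrix_apply, ← ub5_block]
      simp only [Matrix.toSquareBlock_def, hA, Matrix.of_apply]
      rw [ρ.2, ρ'.2, ub5_k_self, pow_zero, mul_one]
    rw [hblk, Matrix.det_mul, Matrix.det_diagonal, Matrix.det_submatrix_equiv_self]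
    refine mul_ne_zero ?_ (h e)
    rw [Finset.prod_ne_zero_iff]
    intro ρ _
    split_ifs
    · exact_mod_cast (by omega : e ≠ 0)
    · exact one_ne_zero
  -- a good value
  obtain ⟨u, hu0, hu⟩ : ∃ u : F, u ≠ 0 ∧ (ub5_M a x').det.eval u ≠ 0 := by
    by_contra hcon
    push Not at hcon
    have hz : (ub5_M a x').det * X = 0 := by
      apply Polynomial.funext
      intro u
      rw [eval_mul, eval_X, eval_zero]
      by_cases hu : u = 0
      · rw [hu, mul_zero]
      · rw [hcon u hu, zero_mul]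
    rcases mul_eq_zero.mp hz with h1 | h1
    · rw [h1, eval_zero] at h0
      exact h0 rfl
    · exact X_ne_zero h1
  refine ⟨fun j => (u⁻¹) ^ (4 * a j 0), fun hdet => hu ?_⟩
  rw [ub5_eval]
  have hfac : (Matrix.of fun ρ ρ' : Fin n × Fin (q + 1) =>
      ub5_N a x' ρ ρ' * u ^ ub5_k (a ρ.1 0) (a ρ'.1 0)) =
      Matrix.diagonal (fun ρ : Fin n × Fin (q + 1) => u ^ (2 * a ρ.1 0 ^ 2)) *
        topMat a (fun j => Fin.cons ((u⁻¹) ^ (4 * a j 0)) (x' j) : Fin n → Fin (q + 1) → F) *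
        Matrix.diagonal (fun ρ : Fin n × Fin (q + 1) => u ^ (2 * a ρ.1 0 ^ 2)) := by
    ext ρ ρ'
    rw [Matrix.mul_diagonal, Matrix.diagonal_mul, Matrix.of_apply]
    unfold topMat ub5_N
    rw [ub5_mon_cons, ub5_tbet_zero, ← pow_mul]
    have hk := ub5_k_add (a ρ.1 0) (a ρ'.1 0)
    have e1 : u ^ (2 * a ρ.1 0 ^ 2) * u ^ (2 * a ρ'.1 0 ^ 2) * u⁻¹ ^ (4 * a ρ.1 0 * a ρ'.1 0) =
        u ^ ub5_k (a ρ.1 0) (a ρ'.1 0) := by
      rw [← pow_add, add_comm (2 * a ρ.1 0 ^ 2), ← hk, pow_add, mul_assoc, ← mul_pow,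
        mul_inv_cancel₀ hu0, one_pow, mul_one]
    rw [← e1]
    ring
  rw [hfac, Matrix.det_mul, Matrix.det_mul, hdet]
  ring

end Pool.Agent.H52.UB
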