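import Pool.Agent.H52.UB.LinePoly
import Pool.Agent.H52.UB.Tile
import Pool.Agent.H52.UB.TopLimit

/-!
# Project UB (MP_a3214d), row UB-6: the top level of the tile lemma
-/

set_option autoImplicit false

open NumberField Polynomial Module

namespace Pool.Agent.H52.UB

/-- the points of the slice `e` of the top level (all double) -/
abbrev ub6_D {n q : ℕ} (a : Fin n → Fin (q + 1) → ℕ) (e : ℕ) : Type := {j : Fin n // a j 0 = e}

/-- the exponents of the slice `e` of the top level -/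
def ub6_a {n q : ℕ} (a : Fin n → Fin (q + 1) → ℕ) (e : ℕ) : ub6_D a e ⊕ Empty → Fin q → ℕ :=
  fun p => match p with
    | .inl j => Fin.tail (a j.1)
    | .inr v => v.elim

/-- the points of the slice `e` as points of the top level -/
def ub6_i {n q : ℕ} (a : Fin n → Fin (q + 1) → ℕ) (e : ℕ) : ub6_D a e ⊕ Empty → Fin n :=
  fun p => match p with
    | .inl j => j.1
    | .inr v => v.elim

/-- the rows of the slice `e` as rows of the top level -/
def ub6_x {n q : ℕ} (a : Fin n → Fin (q + 1) → ℕ) (e : ℕ) :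
    Ix q (ub6_D a e) Empty → Fin n × Fin (q + 1)
  | .inl (j, none) => (j.1, 0)
  | .inl (j, some i) => (j.1, i.succ)
  | .inr v => v.elim

theorem ub6_i_inj {n q : ℕ} (a : Fin n → Fin (q + 1) → ℕ) (e : ℕ) :
    Function.Injective (ub6_i a e) := by
  rintro (j | v) (j' | v') h
  · exact congrArg Sum.inl (Subtype.ext h)
  · exact v'.elim
  · exact v.elim
  · exact v.elim

theorem ub6_x_inj {n q : ℕ} (a : Fin n → Fin (q + 1) → ℕ) (e : ℕ) :
    Function.Injective (ub6_x a e) := by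
  rintro (⟨j, (_ | i)⟩ | v) (⟨j', (_ | i')⟩ | v') h
  · have h1 : j.1 = j'.1 := congrArg Prod.fst h
    rw [Subtype.ext h1]
  · exact absurd (congrArg Prod.snd h) (Fin.succ_ne_zero i').symm
  · exact v'.elim
  · exact absurd (congrArg Prod.snd h) (Fin.succ_ne_zero i)
  · have h1 : j.1 = j'.1 := congrArg Prod.fst h
    have h2 : i.succ = i'.succ := congrArg Prod.snd h
    rw [Subtype.ext h1, Fin.succ_injective _ h2]
  · exact v'.elim
  · exact v.elim
  · exact v.elim
  · exact v.elim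

theorem ub6_pt {n q : ℕ} (a : Fin n → Fin (q + 1) → ℕ) (e : ℕ)
    (ρ : Ix q (ub6_D a e) Empty) : (ub6_x a e ρ).1 = ub6_i a e (pt ρ) := by
  rcases ρ with ⟨j, (_ | i)⟩ | v
  · rfl
  · rfl
  · exact v.elim

theorem ub6_tbet {n q : ℕ} (a : Fin n → Fin (q + 1) → ℕ) (e : ℕ)
    (ρ : Ix q (ub6_D a e) Empty) :
    tbet a (ub6_x a e ρ) = (Fin.cons e (bet (ub6_a a e) ρ) : Fin (q + 1) → ℕ) := by
  rcases ρ with ⟨j, (_ | i)⟩ | v
  · have h1 : tbet a (ub6_x a e (.inl (j, none))) = a j.1 := by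
      simp [tbet, ub6_x]
    have h2 : bet (ub6_a a e) (.inl (j, none)) = Fin.tail (a j.1) := rfl
    rw [h1, h2]
    conv_lhs => rw [← Fin.cons_self_tail (a j.1)]
    rw [j.2]
  · have h1 : tbet a (ub6_x a e (.inl (j, some i))) = a j.1 + Pi.single i.succ 1 := by
      simp [tbet, ub6_x]
    have h2 : bet (ub6_a a e) (.inl (j, some i)) = Fin.tail (a j.1) + Pi.single i 1 := rfl
    rw [h1, h2]
    funext l
    refine Fin.cases ?_ (fun l => ?_) l
    · rw [Fin.cons_zero, Pi.add_apply, Pi.single_eq_of_ne (Fin.succ_ne_zero i).symm, add_zero]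
      exact j.2
    · rw [Fin.cons_succ, Pi.add_apply, Pi.add_apply]
      by_cases h : l = i
      · subst h
        rw [Pi.single_eq_same, Pi.single_eq_same]
        rfl
      · rw [Pi.single_eq_of_ne h, Pi.single_eq_of_ne (fun h' => h (Fin.succ_injective _ h'))]
        rfl
  · exact v.elim

theorem ub6_bet_inj {n q : ℕ} (a : Fin n → Fin (q + 1) → ℕ) (e : ℕ)
    (hinj : Function.Injective (tbet a)) : Function.Injective (bet (ub6_a a e)) := by
  intro ρ ρ' h
  refine ub6_x_inj a e (hinj ?_)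
  rw [ub6_tbet, ub6_tbet, h]

theorem ub6_card {n q : ℕ} (a : Fin n → Fin (q + 1) → ℕ) (e : ℕ) (s : Fin (q + 1) → ℕ)
    (hs : ∀ (i : Fin (q + 1)) (c : Fin (q + 1) → ℕ),
      Nat.card {j : Fin n // ∃ i', ∀ l < i, tbet a (j, i') l = c l} ≤ s i)
    (i : Fin q) (c : Fin q → ℕ) :
    Nat.card {p : ub6_D a e ⊕ Empty // ∃ ρ : Ix q (ub6_D a e) Empty, pt ρ = p ∧
      ∀ l < i, bet (ub6_a a e) ρ l = c l} ≤ s i.succ := by
  refine le_trans ?_ (hs i.succ (Fin.cons e c))
  let F : {p : ub6_D a e ⊕ Empty // ∃ ρ : Ix q (ub6_D a e) Empty, pt ρ = p ∧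
      ∀ l < i, bet (ub6_a a e) ρ l = c l} →
      {j : Fin n // ∃ i', ∀ l < i.succ, tbet a (j, i') l = (Fin.cons e c : Fin (q + 1) → ℕ) l} :=
    fun p => ⟨ub6_i a e p.1, by
      obtain ⟨p, ρ, hp, hρ⟩ := p
      refine ⟨(ub6_x a e ρ).2, fun l hl => ?_⟩
      have h1 : ((ub6_i a e p, (ub6_x a e ρ).2) : Fin n × Fin (q + 1)) = ub6_x a e ρ := by
        rw [← hp, ← ub6_pt]
      show tbet a (ub6_i a e p, (ub6_x a e ρ).2) l = _
      rw [h1, ub6_tbet]
      revert hl
      refine Fin.cases (fun _ => ?_) (fun l hl => ?_) l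
      · rw [Fin.cons_zero, Fin.cons_zero]
      · rw [Fin.cons_succ, Fin.cons_succ]
        exact hρ l (Fin.succ_lt_succ_iff.mp hl)⟩
  refine Nat.card_le_card_of_injective F ?_
  intro p p' h
  exact Subtype.ext (ub6_i_inj a e (congrArg Subtype.val h))

/-- the determinant of the slice `e` is a polynomial function on lines -/
theorem ub6_lp {F : Type*} [Field F] {n q : ℕ} (a : Fin n → Fin (q + 1) → ℕ) (e : ℕ) :
    LP (Fintype.card (Ix q (ub6_D a e) Empty) * ∑ ρ, ∑ l, bet (ub6_a a e) ρ l)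
      (fun x : Fin n → Fin q → F => (nodeMat (ub6_a a e) (fun p => x (ub6_i a e p))).det) :=
  lp_det q (∑ ρ, ∑ l, bet (ub6_a a e) ρ l)
    (fun ρ l => (LinearMap.proj l : (Fin q → F) →ₗ[F] F).comp
      (LinearMap.proj (ub6_i a e (pt ρ)) : (Fin n → Fin q → F) →ₗ[F] (Fin q → F)))
    (fun ρ ρ' => ((wt ρ (bet (ub6_a a e) ρ') : ℕ) : F)) (bet (ub6_a a e))
    (fun ρ => Finset.single_le_sum (f := fun ρ => ∑ l, bet (ub6_a a e) ρ l)
      (fun _ _ => Nat.zero_le _) (Finset.mem_univ ρ))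

/-- the points all of whose coordinates `1, …, q` lie in the given spaces -/
def ub6_W {F : Type*} [Field F] {n q : ℕ} (W : Fin (q + 1) → Submodule F (Fin n → F)) :
    Submodule F (Fin n → Fin q → F) where
  carrier := {x | ∀ i : Fin q, (fun z => x z i) ∈ W i.succ}
  add_mem' := fun hx hy i => (W i.succ).add_mem (hx i) (hy i)
  zero_mem' := fun i => (W i.succ).zero_mem
  smul_mem' := fun c _ hx i => (W i.succ).smul_mem c (hx i)

theorem top {F : Type*} [Field F] [CharZero F] {n q : ℕ} (a : Fin n → Fin (q + 1) → ℕ)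
    (ha : ∀ j, 1 ≤ a j 0) (hinj : Function.Injective (tbet a))
    (W : Fin (q + 1) → Submodule F (Fin n → F)) (s : Fin (q + 1) → ℕ) (hW : ∀ i, Onto (W i) (s i))
    (hs : ∀ (i : Fin (q + 1)) (c : Fin (q + 1) → ℕ),
      Nat.card {j : Fin n // ∃ i', ∀ l < i, tbet a (j, i') l = c l} ≤ s i) :
    ∃ x : Fin n → Fin (q + 1) → F, (∀ i, (fun z => x z i) ∈ W i) ∧ (topMat a x).det ≠ 0 := by
  have : Infinite F := CharZero.infinite F
  -- a common point for all slices
  obtain ⟨x', hx', hdet⟩ : ∃ x' ∈ ub6_W W, ∀ e ∈ Finset.univ.image (fun j => a j 0),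
      (nodeMat (ub6_a a e) (fun p => x' (ub6_i a e p))).det ≠ 0 := by
    refine lp_common (ub6_W W) (Finset.univ.image fun j => a j 0)
      (fun e => Fintype.card (Ix q (ub6_D a e) Empty) * ∑ ρ, ∑ l, bet (ub6_a a e) ρ l)
      (fun e x => (nodeMat (ub6_a a e) (fun p => x (ub6_i a e p))).det)
      (fun e _ => ub6_lp a e) fun e _ => ?_
    obtain ⟨x, hx1, hx2⟩ := tile (F := F) (Z := Fin n) q (ub6_D a e) Empty (ub6_a a e)
      (ub6_bet_inj a e hinj) (ub6_i a e) (ub6_i_inj a e) (fun i => W i.succ) (fun i => s i.succ)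
      (fun i => hW i.succ) (ub6_card a e s hs)
    exact ⟨x, hx1, hx2⟩
  have hall : ∀ e : ℕ, (nodeMat (ub6_a a e) (fun p => x' (ub6_i a e p))).det ≠ 0 := by
    intro e
    by_cases he : e ∈ Finset.univ.image (fun j => a j 0)
    · exact hdet e he
    · have : IsEmpty (ub6_D a e) := ⟨fun j => he (Finset.mem_image.mpr ⟨j.1, Finset.mem_univ _, j.2⟩)⟩
      rw [Matrix.det_isEmpty]
      exact one_ne_zero
  obtain ⟨z, hz⟩ := top_limit a ha x' (by
    intro e
    have h := hall e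
    convert h using 3
    · funext p
      rcases p with j | v
      · rfl
      · exact v.elim
    · funext p
      rcases p with j | v
      · rfl
      · exact v.elim)
  refine ⟨fun j => Fin.cons (z j) (x' j), fun i => ?_, hz⟩
  refine Fin.cases ?_ (fun i => ?_) i
  · have hn : n ≤ s 0 := by
      refine le_trans ?_ (hs 0 0)
      have h1 : Nat.card {j : Fin n // ∃ i', ∀ l < (0 : Fin (q + 1)),
          tbet a (j, i') l = (0 : Fin (q + 1) → ℕ) l} = n := by
        rw [Nat.card_congr (Equiv.subtypeUnivEquiv fun j =>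
          ⟨0, fun l hl => absurd hl (Fin.not_lt_zero l)⟩), Nat.card_eq_fintype_card,
          Fintype.card_fin]
      exact h1.ge
    obtain ⟨w, hw1, hw2⟩ := hW 0 Finset.univ (by rw [Finset.card_univ, Fintype.card_fin]; exact hn) z
    have h2 : (fun j : Fin n => (Fin.cons (z j) (x' j) : Fin (q + 1) → F) 0) = w := by
      funext j
      rw [Fin.cons_zero]
      exact (hw2 j (Finset.mem_univ j)).symm
    rw [h2]
    exact hw1
  · exact hx' i

end Pool.Agent.H52.UB
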