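import Mathlib

/-!
# Project UB (MP_a3214d), row UB-14: a real inequality
-/

set_option autoImplicit false

namespace Pool.Agent.H52.UB

/-- The product over all indices, squared, in pairs `i, l - i` for `i ≤ l`. -/
private theorem ub14_aux {n : ℕ} (lam : Fin n → ℝ) (hmono : Monotone lam) (h1 : ∀ i, 1 ≤ lam i)
    (hsub : ∀ i j l : Fin n, (i : ℕ) + j = l → lam l ≤ lam i * lam j) (l : Fin n) :
    lam l ^ (2 * n - (l + 1)) ≤ (∏ i, lam i) ^ 2 := by
  classical
  have hf : ∀ i : Fin n, ((l : ℕ) - i) < n := fun i => lt_of_le_of_lt (Nat.sub_le _ _) l.2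
  let f : Fin n → Fin n := fun i => if i ≤ l then ⟨(l : ℕ) - i, hf i⟩ else i
  have hinv : Function.Involutive f := by
    intro i
    by_cases h : i ≤ l
    · have h2 : (⟨(l : ℕ) - i, hf i⟩ : Fin n) ≤ l := by
        rw [Fin.le_def]
        exact Nat.sub_le _ _
      have h3 : (i : ℕ) ≤ l := h
      simp only [f, if_pos h, if_pos h2]
      apply Fin.ext
      simp only
      omega
    · simp only [f, if_neg h]
  have hperm : ∏ i, lam (f i) = ∏ i, lam i := Equiv.prod_comp (hinv.toPerm f) lam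
  have h0 : ∀ i, 0 ≤ lam i := fun i => zero_le_one.trans (h1 i)
  have hterm : ∀ i, (if i ≤ l then lam l else lam l ^ 2) ≤ lam i * lam (f i) := by
    intro i
    by_cases h : i ≤ l
    · have h3 : (i : ℕ) ≤ l := h
      simp only [f, if_pos h]
      refine hsub i _ l ?_
      simp only
      omega
    · simp only [f, if_neg h]
      rw [sq]
      have h4 : lam l ≤ lam i := hmono (not_le.mp h).le
      exact mul_le_mul h4 h4 (h0 l) (h0 i)
  have hprod : ∏ i : Fin n, (if i ≤ l then lam l else lam l ^ 2) ≤ ∏ i, lam i * lam (f i) := by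
    refine Finset.prod_le_prod (fun i _ => ?_) (fun i _ => hterm i)
    split_ifs
    · exact h0 l
    · exact sq_nonneg _
  rw [Finset.prod_mul_distrib, hperm, ← sq, Finset.prod_ite, Finset.prod_const,
    Finset.prod_const] at hprod
  have hc1 : (Finset.univ.filter fun i : Fin n => i ≤ l).card = l + 1 := by
    have : (Finset.univ.filter fun i : Fin n => i ≤ l) = Finset.Iic l := by
      ext i
      simp
    rw [this, Fin.card_Iic]
  have hc2 : (Finset.univ.filter fun i : Fin n => ¬ i ≤ l).card = n - 1 - l := by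
    have : (Finset.univ.filter fun i : Fin n => ¬ i ≤ l) = Finset.Ioi l := by
      ext i
      simp
    rw [this, Fin.card_Ioi]
  rw [hc1, hc2, ← pow_mul, ← pow_add] at hprod
  have hl := l.2
  have he : (l : ℕ) + 1 + 2 * (n - 1 - l) = 2 * n - (l + 1) := by omega
  rw [he] at hprod
  exact hprod

theorem lam_bound {n m : ℕ} (lam : Fin n → ℝ) (hmono : Monotone lam) (h1 : ∀ i, 1 ≤ lam i)
    (hsub : ∀ i j l : Fin n, (i : ℕ) + j = l → lam l ≤ lam i * lam j) (P : ℝ)
    (hP : (∏ i, lam i) ^ m ≤ P) (l : Fin n) :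
    lam l ^ (m * (2 * n - (l + 1))) ≤ P ^ 2 := by
  have h0 : ∀ i, 0 ≤ lam i := fun i => zero_le_one.trans (h1 i)
  have hpos : 0 ≤ ∏ i, lam i := Finset.prod_nonneg fun i _ => h0 i
  calc lam l ^ (m * (2 * n - (l + 1))) = (lam l ^ (2 * n - (l + 1))) ^ m := by
        rw [← pow_mul, mul_comm]
    _ ≤ ((∏ i, lam i) ^ 2) ^ m :=
        pow_le_pow_left₀ (pow_nonneg (h0 l) _) (ub14_aux lam hmono h1 hsub l) m
    _ = ((∏ i, lam i) ^ m) ^ 2 := by rw [← pow_mul, ← pow_mul, mul_comm]
    _ ≤ P ^ 2 := pow_le_pow_left₀ (pow_nonneg hpos _) hP 2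

end Pool.Agent.H52.UB
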