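import Pool.Agent.H52.UB.Defs

/-!
# Project UB (MP_a3214d): submultiplicativity of the minima
-/

set_option autoImplicit false

open NumberField Polynomial Module

namespace Pool.Agent.H52.UB

/-- the number of indices below `t` -/
theorem ub13_card {n t : ℕ} (ht : t ≤ n) :
    (Finset.univ.filter fun l : Fin n => (l : ℕ) < t).card = t := by
  have h : (Finset.univ.filter fun l : Fin n => (l : ℕ) < t) =
      (Finset.univ : Finset (Fin t)).map (Fin.castLEEmb ht) := by
    ext l
    simp only [Finset.mem_filter, Finset.mem_univ, true_and, Finset.mem_map, Fin.castLEEmb_apply]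
    constructor
    · intro hl
      exact ⟨⟨l, hl⟩, rfl⟩
    · rintro ⟨a, rfl⟩
      exact a.2
  rw [h, Finset.card_map, Finset.card_univ, Fintype.card_fin]

theorem unif_inj {F : Type*} [Field F] {n : ℕ} {w : Fin n → Fin n → F} (hw : Unif w) (t : ℕ)
    (A : Finset (Fin n)) (hA : t ≤ A.card) (c : Fin n → F) (hc : ∀ l : Fin n, t ≤ (l : ℕ) → c l = 0)
    (h : ∀ j ∈ A, ∑ l, c l * w l j = 0) : c = 0 := by
  classical
  have htn : t ≤ n := hA.trans (by simpa using Finset.card_le_univ A)
  obtain ⟨B, hBA, hBt⟩ := Finset.exists_subset_card_eq hA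
  let ι : Type := {l : Fin n // (l : ℕ) < t}
  let b : ι → (B → F) := fun l j => w l.1 j
  have hsum : ∀ (e : Fin n → F) (_ : ∀ l : Fin n, t ≤ (l : ℕ) → e l = 0) (j : Fin n),
      ∑ l, e l * w l j = ∑ l : ι, e l.1 * w l.1 j := by
    intro e he j
    rw [← Finset.sum_subtype (Finset.univ.filter fun l : Fin n => (l : ℕ) < t) (by simp)
      (fun l => e l * w l j), Finset.sum_filter_of_ne]
    intro l _ hne
    by_contra hl
    exact hne (by rw [he l (not_lt.1 hl), zero_mul])
  have hspan : ⊤ ≤ Submodule.span F (Set.range b) := by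
    intro f _
    obtain ⟨e, he, hef⟩ := hw t htn B hBt.le (fun j => if hj : j ∈ B then f ⟨j, hj⟩ else 0)
    rw [Submodule.mem_span_range_iff_exists_fun]
    refine ⟨fun l => e l.1, ?_⟩
    funext j
    have h1 := hef j.1 j.2
    rw [hsum e he, dif_pos j.2] at h1
    simpa [b, Finset.sum_apply] using h1
  have hcard : Fintype.card ι = Module.finrank F (B → F) := by
    rw [Module.finrank_fintype_fun_eq_card, Fintype.card_coe, hBt, Fintype.card_subtype,
      ub13_card htn]
  have hli := linearIndependent_of_top_le_span_of_card_eq_finrank hspan hcard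
  have h0 := (Fintype.linearIndependent_iff.1 hli) (fun l => c l.1) (by
    funext j
    have h1 := h j.1 (hBA j.2)
    rw [hsum c hc] at h1
    simpa [b, Finset.sum_apply] using h1)
  funext l
  rcases lt_or_ge (l : ℕ) t with hl | hl
  · exact h0 ⟨l, hl⟩
  · exact hc l hl

/-- the combinations of the first `t` vectors -/
def ub13Q {F : Type*} [Field F] {n : ℕ} (w : Fin n → Fin n → F) (t : ℕ) :
    Submodule F (Fin n → F) where
  carrier := {v | ∃ E : Fin n → F, (∀ c : Fin n, t ≤ (c : ℕ) → E c = 0) ∧
    ∀ x, ∑ c, E c * w c x = v x}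
  zero_mem' := ⟨0, fun _ _ => rfl, fun x => by simp⟩
  add_mem' := by
    rintro u v ⟨E, hE, hu⟩ ⟨E', hE', hv⟩
    refine ⟨E + E', fun c hc => by simp [hE c hc, hE' c hc], fun x => ?_⟩
    simp only [Pi.add_apply, add_mul, Finset.sum_add_distrib]
    rw [hu, hv]
  smul_mem' := by
    rintro r v ⟨E, hE, hv⟩
    refine ⟨r • E, fun c hc => by simp [hE c hc], fun x => ?_⟩
    simp only [Pi.smul_apply, smul_eq_mul, mul_assoc]
    rw [← Finset.mul_sum, hv]

/-- the vector of conjugates of an element of the span -/
theorem ub13_mem {k : Type} [Field k] {n : ℕ} {M : IntermediateField k (AlgebraicClosure k)}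
    (e : (M →ₐ[k] AlgebraicClosure k) ≃ Fin n) (θ : Fin n → M) (l : Fin n) (m : M)
    (hm : m ∈ Submodule.span k (θ '' {c | c < l})) :
    (fun x => e.symm x m) ∈ ub13Q (fun c x => e.symm x (θ c)) (l : ℕ) := by
  induction hm using Submodule.span_induction with
  | mem m hm =>
    obtain ⟨c, hc, rfl⟩ := hm
    refine ⟨Pi.single c 1, fun c' hc' => ?_, fun x => ?_⟩
    · have hne : c' ≠ c := by
        rintro rfl
        exact absurd hc (not_lt.2 hc')
      exact Pi.single_eq_of_ne hne _
    · rw [Finset.sum_eq_single c]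
      · simp
      · intro c' _ hne
        simp [Pi.single_eq_of_ne hne]
      · simp
  | zero =>
    have : (fun x => e.symm x (0 : M)) = 0 := by
      funext x
      simp
    rw [this]
    exact Submodule.zero_mem _
  | add a b _ _ ha hb =>
    have : (fun x => e.symm x (a + b)) = (fun x => e.symm x a) + fun x => e.symm x b := by
      funext x
      simp
    rw [this]
    exact Submodule.add_mem _ ha hb
  | smul r a _ ha =>
    have : (fun x => e.symm x (r • a)) =
        (algebraMap k (AlgebraicClosure k) r) • fun x => e.symm x a := by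
      funext x
      simp [Algebra.smul_def]
    rw [this]
    exact Submodule.smul_mem _ _ ha

theorem submul {k : Type} [Field k] [NumberField k] {n : ℕ}
    {M : IntermediateField k (AlgebraicClosure k)} [NumberField M]
    (e : (M →ₐ[k] AlgebraicClosure k) ≃ Fin n) (θ : Fin n → 𝓞 M) (lam : Fin n → ℝ)
    (h : MinSys k M n θ lam) (hu : Unif (fun l j => e.symm j (θ l : M))) (i j l : Fin n)
    (hl : (i : ℕ) + j = l) : lam l ≤ lam i * lam j := by
  classical
  by_contra hcon
  rw [not_le] at hcon
  set w : Fin n → Fin n → AlgebraicClosure k := fun l j => e.symm j (θ l : M) with hw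
  -- products of basis elements
  have hprod : ∀ a b : Fin n, a ≤ i → b ≤ j → (fun x => w a x * w b x) ∈ ub13Q w (l : ℕ) := by
    intro a b ha hb
    have h1 : house ((θ a * θ b : 𝓞 M) : M) < lam l := by
      have h2 : house ((θ a * θ b : 𝓞 M) : M) ≤ house (θ a : M) * house (θ b : M) := by
        have := house_mul_le (θ a : M) (θ b : M)
        simpa using this
      have h3 : house (θ a : M) ≤ lam i := (h.le a).trans (h.mono ha)
      have h4 : house (θ b : M) ≤ lam j := (h.le b).trans (h.mono hb)
      have h5 : house (θ a : M) * house (θ b : M) ≤ lam i * lam j :=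
        mul_le_mul h3 h4 (house_nonneg _) (le_trans zero_le_one (h.one_le i))
      linarith
    have h6 := ub13_mem e (fun c => (θ c : M)) l _ (h.min l _ h1)
    have h7 : (fun x => w a x * w b x) = fun x => e.symm x ((θ a * θ b : 𝓞 M) : M) := by
      funext x
      simp [hw]
    rw [h7]
    exact h6
  -- the functions vanishing on the two blocks
  have hin : (i : ℕ) + 1 ≤ n := i.2
  have hjn : (j : ℕ) + 1 ≤ n := j.2
  let A1 : Finset (Fin n) := Finset.univ.filter fun x : Fin n => (x : ℕ) < i
  let A2 : Finset (Fin n) := Finset.univ.filter fun x : Fin n => (i : ℕ) ≤ x ∧ (x : ℕ) < l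
  have hA1 : A1.card = i := ub13_card i.2.le
  have hA12 : A1.card + A2.card = l := by
    rw [← Finset.card_union_of_disjoint]
    · rw [← ub13_card (n := n) (t := (l : ℕ)) l.2.le]
      congr 1
      ext x
      simp only [A1, A2, Finset.mem_union, Finset.mem_filter, Finset.mem_univ, true_and]
      omega
    · rw [Finset.disjoint_left]
      intro x hx hx'
      simp only [A1, A2, Finset.mem_filter, Finset.mem_univ, true_and] at hx hx'
      omega
  have hA2 : A2.card = j := by omega
  obtain ⟨c, hc0, hc⟩ := hu ((i : ℕ) + 1) hin (insert l A1)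
    ((Finset.card_insert_le _ _).trans (by rw [hA1])) (fun x => if x = l then 1 else 0)
  obtain ⟨d, hd0, hd⟩ := hu ((j : ℕ) + 1) hjn (insert l A2)
    ((Finset.card_insert_le _ _).trans (by rw [hA2])) (fun x => if x = l then 1 else 0)
  let P : Fin n → AlgebraicClosure k := fun x => (∑ a, c a * w a x) * ∑ b, d b * w b x
  have hPQ : P ∈ ub13Q w (l : ℕ) := by
    have h1 : P = ∑ a, ∑ b, (c a * d b) • fun x => w a x * w b x := by
      funext x
      simp only [P, Finset.sum_apply, Pi.smul_apply, smul_eq_mul, Finset.sum_mul_sum]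
      refine Finset.sum_congr rfl fun a _ => Finset.sum_congr rfl fun b _ => ?_
      ring
    rw [h1]
    refine Submodule.sum_mem _ fun a _ => Submodule.sum_mem _ fun b _ => ?_
    rcases lt_or_ge (a : ℕ) ((i : ℕ) + 1) with ha | ha
    · rcases lt_or_ge (b : ℕ) ((j : ℕ) + 1) with hb | hb
      · exact Submodule.smul_mem _ _ (hprod a b (Fin.le_def.2 (by omega)) (Fin.le_def.2 (by omega)))
      · rw [hd0 b hb, mul_zero, zero_smul]
        exact Submodule.zero_mem _
    · rw [hc0 a ha, zero_mul, zero_smul]
      exact Submodule.zero_mem _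
  obtain ⟨E, hE0, hE⟩ := hPQ
  have hE' : E = 0 := by
    refine unif_inj hu (l : ℕ) (A1 ∪ A2) ?_ E hE0 ?_
    · rw [Finset.card_union_of_disjoint, hA12]
      rw [Finset.disjoint_left]
      intro x hx hx'
      simp only [A1, A2, Finset.mem_filter, Finset.mem_univ, true_and] at hx hx'
      omega
    · intro x hx
      have hxl : x ≠ l := by
        rintro rfl
        simp only [A1, A2, Finset.mem_union, Finset.mem_filter, Finset.mem_univ, true_and] at hx
        omega
      have h1 : ∑ l, E l * w l x = P x := hE x
      show ∑ l, E l * w l x = 0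
      rw [h1]
      rcases Finset.mem_union.1 hx with h2 | h2
      · have h3 := hc x (Finset.mem_insert_of_mem h2)
        rw [if_neg hxl] at h3
        show (∑ a, c a * w a x) * _ = 0
        rw [h3, zero_mul]
      · have h3 := hd x (Finset.mem_insert_of_mem h2)
        rw [if_neg hxl] at h3
        show _ * (∑ b, d b * w b x) = 0
        rw [h3, mul_zero]
  have h1 := hE l
  rw [hE'] at h1
  have h2 : P l = 1 := by
    have h3 := hc l (Finset.mem_insert_self _ _)
    have h4 := hd l (Finset.mem_insert_self _ _)
    rw [if_pos rfl] at h3 h4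
    show (∑ a, c a * w a l) * (∑ b, d b * w b l) = 1
    rw [h3, h4, one_mul]
  rw [h2] at h1
  simp at h1

end Pool.Agent.H52.UB
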