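import Pool.Agent.H52.UB.Defs
import Pool.Agent.H52.UB.AltTrans

/-!
# Project UB (MP_a3214d), row 12: uniformity from the Galois group
-/

set_option autoImplicit false

open NumberField Polynomial Module

namespace Pool.Agent.H52.UB

/-- A sum over `Fin n` of terms vanishing from `t` on. -/
theorem ub12_sum {F : Type*} [AddCommMonoid F] {n t : ℕ} (ht : t ≤ n) (g : Fin n → F)
    (hg : ∀ l : Fin n, t ≤ (l : ℕ) → g l = 0) : ∑ l, g l = ∑ l : Fin t, g (Fin.castLE ht l) := by
  symm
  refine Finset.sum_of_injOn (Fin.castLE ht) (fun _ _ _ _ h => Fin.castLE_injective ht h)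
    (fun _ _ => Finset.mem_coe.mpr (Finset.mem_univ _)) (fun l _ hl => ?_) (fun _ _ => rfl)
  refine hg l ?_
  by_contra hlt
  push Not at hlt
  exact hl ⟨⟨l, hlt⟩, Finset.mem_coe.mpr (Finset.mem_univ _), rfl⟩

/-- If the rows are independent then the first `t` rows are onto at some `t` places. -/
theorem ub12_exists_set {F : Type*} [Field F] {n : ℕ} (w : Fin n → Fin n → F)
    (hw : LinearIndependent F w) (t : ℕ) (ht : t ≤ n) :
    ∃ A : Finset (Fin n), A.card = t ∧ ∀ f : Fin n → F,
      ∃ c : Fin n → F, (∀ l : Fin n, t ≤ (l : ℕ) → c l = 0) ∧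
        ∀ j ∈ A, ∑ l, c l * w l j = f j := by
  classical
  set v : Fin n → (Fin t → F) := fun j l => w (Fin.castLE ht l) j with hv
  have hspan : Submodule.span F (Set.range v) = ⊤ := by
    by_contra hne
    obtain ⟨f, hf0, hf⟩ := Submodule.exists_le_ker_of_lt_top _ (lt_top_iff_ne_top.mpr hne)
    apply hf0
    have h1 : ∀ x : Fin t → F, f x = ∑ l, x l * f (Pi.single l 1) := by
      intro x
      conv_lhs => rw [← Finset.univ_sum_single x]
      rw [map_sum]
      refine Finset.sum_congr rfl fun l _ => ?_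
      have : (Pi.single l (x l) : Fin t → F) = x l • Pi.single l 1 := by
        rw [← Pi.single_smul]; simp
      rw [this, map_smul, smul_eq_mul]
    have h2 : ∑ l : Fin t, f (Pi.single l 1) • w (Fin.castLE ht l) = 0 := by
      ext j
      have h3 : f (v j) = 0 := hf (Submodule.subset_span ⟨j, rfl⟩)
      rw [h1] at h3
      rw [Finset.sum_apply, Pi.zero_apply, ← h3]
      refine Finset.sum_congr rfl fun l _ => ?_
      rw [Pi.smul_apply, smul_eq_mul, mul_comm]
    have h4 := Fintype.linearIndependent_iff.mp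
      (hw.comp (Fin.castLE ht) (Fin.castLE_injective ht)) (fun l => f (Pi.single l 1)) h2
    ext l
    simpa using h4 l
  obtain ⟨κ, a, ha, hsp, hli⟩ := exists_linearIndependent' F v
  have hfin : Finite κ := Finite.of_injective a ha
  cases nonempty_fintype κ
  let b : Basis κ F (Fin t → F) := Basis.mk hli (by rw [hsp, hspan])
  have hcard : Fintype.card κ = t := by
    have := Module.finrank_eq_card_basis b
    rw [Module.finrank_fin_fun] at this
    exact this.symm
  refine ⟨Finset.univ.map ⟨a, ha⟩, by rw [Finset.card_map, Finset.card_univ, hcard], fun f => ?_⟩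
  set φ : (Fin t → F) →ₗ[F] F := b.constr F (fun x => f (a x)) with hφ
  have hφv : ∀ x, φ (v (a x)) = f (a x) := by
    intro x
    have h1 : b x = v (a x) := by
      simp [b]
    rw [← h1, hφ, Basis.constr_basis]
  obtain ⟨c, hcd⟩ : ∃ c : Fin n → F, ∀ l : Fin n,
      c l = if h : (l : ℕ) < t then φ (Pi.single ⟨l, h⟩ 1) else 0 := ⟨_, fun _ => rfl⟩
  have hc1 : ∀ l : Fin n, t ≤ (l : ℕ) → c l = 0 := fun l hl => by
    rw [hcd, dif_neg (not_lt.mpr hl)]
  have hc2 : ∀ l : Fin t, c (Fin.castLE ht l) = φ (Pi.single l 1) := fun l => by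
    rw [hcd, dif_pos (show ((Fin.castLE ht l : Fin n) : ℕ) < t from l.2)]
    rfl
  refine ⟨c, hc1, fun j hj => ?_⟩
  · obtain ⟨x, -, rfl⟩ := Finset.mem_map.mp hj
    change ∑ l, c l * w l (a x) = f (a x)
    rw [← hφv x, ub12_sum ht _ (fun l hl => by rw [hc1 l hl, zero_mul])]
    have h2 : φ (v (a x)) = ∑ l, v (a x) l * φ (Pi.single l 1) := by
      conv_lhs => rw [← Finset.univ_sum_single (v (a x))]
      rw [map_sum]
      refine Finset.sum_congr rfl fun l _ => ?_
      have : (Pi.single l (v (a x) l) : Fin t → F) = v (a x) l • Pi.single l 1 := by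
        rw [← Pi.single_smul]; simp
      rw [this, map_smul, smul_eq_mul]
    rw [h2]
    refine Finset.sum_congr rfl fun l _ => ?_
    rw [hc2, mul_comm]

/-- The conjugates of a basis form an invertible matrix. -/
theorem ub12_indep {k : Type} [Field k] [NumberField k] {n : ℕ} (hn : 0 < n)
    {M : IntermediateField k (AlgebraicClosure k)} (hd : finrank k M = n)
    (e : (M →ₐ[k] AlgebraicClosure k) ≃ Fin n) (θ : Fin n → M)
    (hθ : LinearIndependent k θ) :
    LinearIndependent (AlgebraicClosure k) (fun l j => e.symm j (θ l)) := by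
  have hfd : FiniteDimensional k M := FiniteDimensional.of_finrank_pos (by rw [hd]; exact hn)
  have hspan : Submodule.span k (Set.range θ) = ⊤ := by
    apply hθ.span_eq_top_of_card_eq_finrank'
    rw [hd, Fintype.card_fin]
  set N : Matrix (Fin n) (Fin n) (AlgebraicClosure k) := Matrix.of fun l j => e.symm j (θ l)
    with hN
  have hcol : LinearIndependent (AlgebraicClosure k) N.col := by
    rw [Fintype.linearIndependent_iff]
    intro g hg
    have h1 : ∀ x : M, ∑ j, g j * e.symm j x = 0 := by
      intro x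
      have hx : x ∈ Submodule.span k (Set.range θ) := by rw [hspan]; exact Submodule.mem_top
      induction hx using Submodule.span_induction with
      | mem x hx =>
        obtain ⟨l, rfl⟩ := hx
        have := congrFun hg l
        simpa [hN, Matrix.col, mul_comm] using this
      | zero => simp
      | add x y _ _ hx hy =>
        simp only [map_add, mul_add, Finset.sum_add_distrib, hx, hy, add_zero]
      | smul a x _ hx =>
        have : ∑ j, g j * e.symm j (a • x) = a • ∑ j, g j * e.symm j x := by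
          rw [Finset.smul_sum]
          refine Finset.sum_congr rfl fun j _ => ?_
          have h3 : e.symm j (a • x) = a • e.symm j x := (e.symm j).toLinearMap.map_smul a x
          rw [h3, mul_smul_comm]
        rw [this, hx, smul_zero]
    have h2 := (linearIndependent_toLinearMap k M (AlgebraicClosure k)).comp e.symm e.symm.injective
    refine Fintype.linearIndependent_iff.mp h2 g ?_
    ext x
    simpa using h1 x
  rw [Matrix.linearIndependent_cols_iff_isUnit, ← Matrix.linearIndependent_rows_iff_isUnit] at hcol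
  exact hcol

theorem unif_of_group {k : Type} [Field k] [NumberField k] {n : ℕ} (hn : 3 ≤ n)
    {G : Subgroup (Equiv.Perm (Fin n))} (hG : alternatingGroup (Fin n) ≤ G)
    {M : IntermediateField k (AlgebraicClosure k)} (hM : Pool.Agent.H67.MU.HasGroup G M)
    (hd : finrank k M = n) (e : (M →ₐ[k] AlgebraicClosure k) ≃ Fin n) (θ : Fin n → M)
    (hθ : LinearIndependent k θ) : Unif (fun l j => e.symm j (θ l)) := by
  classical
  intro t ht A hA f
  obtain ⟨A0, hA0, hc0⟩ := ub12_exists_set _ (ub12_indep (by omega) hd e θ hθ) t ht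
  obtain ⟨A', hAA', hA'⟩ := Finset.exists_superset_card_eq hA (by rwa [Fintype.card_fin])
  obtain ⟨π, hπ, hmap⟩ := alt_transitive hn A0 A' (hA0.trans hA'.symm)
  -- an automorphism inducing `π`
  obtain ⟨e0, he0⟩ := hM
  set ρ : Equiv.Perm (Fin n) := e0.symm.trans e with hρ
  have hconj : ρ⁻¹ * π * ρ ∈ G := by
    apply hG
    have := (inferInstance : (alternatingGroup (Fin n)).Normal).conj_mem π hπ ρ⁻¹
    simpa using this
  obtain ⟨σ, hσ⟩ := (he0 _).mp hconj
  have hσ' : ∀ φ : M →ₐ[k] AlgebraicClosure k, e (σ.toAlgHom.comp φ) = π (e φ) := by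
    intro φ
    have h1 := hσ φ
    have h2 : ∀ ψ : M →ₐ[k] AlgebraicClosure k, e ψ = ρ (e0 ψ) := by
      intro ψ; simp [hρ]
    rw [h2, h1, h2 φ]
    simp
  have hw : ∀ (j l : Fin n), e.symm (π j) (θ l) = σ (e.symm j (θ l)) := by
    intro j l
    have h1 : e.symm (π j) = σ.toAlgHom.comp (e.symm j) := by
      rw [Equiv.symm_apply_eq, hσ', Equiv.apply_symm_apply]
    rw [h1]
    rfl
  obtain ⟨c, hc, hcA⟩ := hc0 (fun j => σ.symm (f (π j)))
  refine ⟨fun l => σ (c l), fun l hl => (congrArg σ (hc l hl)).trans (map_zero σ), fun j hj => ?_⟩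
  have hj' : j ∈ A0.map (π : Equiv.Perm (Fin n)).toEmbedding := by
    rw [hmap]; exact hAA' hj
  obtain ⟨i, hi, rfl⟩ := Finset.mem_map.mp hj'
  change ∑ l, σ (c l) * e.symm (π i) (θ l) = f (π i)
  have h3 := congrArg σ (hcA i hi)
  rw [map_sum, AlgEquiv.apply_symm_apply] at h3
  rw [← h3]
  refine Finset.sum_congr rfl fun l _ => ?_
  rw [map_mul, hw]

end Pool.Agent.H52.UB
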