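import Pool.Agent.H52.UB.Minima
import Pool.Agent.H52.UB.Uniform
import Pool.Agent.H52.UB.Submul
import Pool.Agent.H52.UB.LamBound
import Pool.Agent.H52.UB.Gen
import Pool.Agent.H52.UB.Uniq

/-! Project UB, row UB-21: every field has a point of the right size with non-zero Jacobian. -/

set_option autoImplicit false

open NumberField Polynomial Module

namespace Pool.Agent.H52.UB

/-- from a bound of a natural power to a bound with a real exponent -/
private theorem ub21_rpow {L C0 X : ℝ} {N : ℕ} (hN : 1 ≤ N) (hL : 0 ≤ L) (hC : 0 ≤ C0)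
    (hX : 1 ≤ X) (h : L ^ N ≤ (C0 * √X) ^ 2) :
    L ≤ (1 + C0 ^ 2) * X ^ (1 / (N : ℝ)) := by
  have hN0 : (N : ℝ) ≠ 0 := by positivity
  have hX0 : 0 ≤ X := by linarith
  have h1 : (C0 * √X) ^ 2 = C0 ^ 2 * X := by
    rw [mul_pow, Real.sq_sqrt hX0]
  rw [h1] at h
  have h2 : L = (L ^ N) ^ (1 / (N : ℝ)) := by
    rw [← Real.rpow_natCast, ← Real.rpow_mul hL, mul_one_div_cancel hN0, Real.rpow_one]
  have h3 : (L ^ N) ^ (1 / (N : ℝ)) ≤ ((1 + C0 ^ 2) * X) ^ (1 / (N : ℝ)) := by
    refine Real.rpow_le_rpow (by positivity) (h.trans ?_) (by positivity)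
    nlinarith [sq_nonneg C0]
  have h4 : (1 + C0 ^ 2) ^ (1 / (N : ℝ)) ≤ (1 + C0 ^ 2) ^ (1 : ℝ) := by
    refine Real.rpow_le_rpow_of_exponent_le (by nlinarith [sq_nonneg C0]) ?_
    rw [div_le_one (by positivity)]
    exact_mod_cast hN
  rw [Real.rpow_one] at h4
  calc L = (L ^ N) ^ (1 / (N : ℝ)) := h2
    _ ≤ ((1 + C0 ^ 2) * X) ^ (1 / (N : ℝ)) := h3
    _ = (1 + C0 ^ 2) ^ (1 / (N : ℝ)) * X ^ (1 / (N : ℝ)) :=
        Real.mul_rpow (by positivity) hX0
    _ ≤ _ := mul_le_mul_of_nonneg_right h4 (by positivity)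

/-- For every field there is a point `x` with the right sizes and non-zero Jacobian. -/
theorem exists_point (k : Type) [Field k] [NumberField k] {n q d : ℕ} (hn : 3 ≤ n)
    {s : Fin (q + 1) → ℕ} {a : Fin n → Fin (q + 1) → ℕ} (hT : Tiles n q d s a)
    {G : Subgroup (Equiv.Perm (Fin n))} (hG : alternatingGroup (Fin n) ≤ G) :
    ∃ C : ℝ, 1 ≤ C ∧ ∀ (M : IntermediateField k (AlgebraicClosure k)) [NumberField M],
      Pool.Agent.H67.MU.HasGroup G M → finrank k M = n →
      ∀ (X : ℝ), 1 ≤ X → |(discr M : ℝ)| ≤ X → ∀ e : (M →ₐ[k] AlgebraicClosure k) ≃ Fin n,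
      ∃ x : Fin (q + 1) → 𝓞 M,
        (∀ i, house (x i : M) ≤ C * X ^ (1 / (finrank ℚ k * (2 * n - s i : ℝ)))) ∧
        (jac (tbet a) (fun j i => e.symm j (x i : M))).det ≠ 0 := by
  classical
  obtain ⟨C0, hC0, hprod⟩ := minSys_prod k n
  refine ⟨1 + (n * (n * (q + 1) * d)) * (1 + C0 ^ 2), ?_, ?_⟩
  · have : (0 : ℝ) ≤ (n * (n * (q + 1) * d)) * (1 + C0 ^ 2) := by positivity
    linarith
  intro M _ hM hd X hX hdisc e
  obtain ⟨θ, lam, hmin⟩ := exists_minSys k M n hd
  have hu : Unif (fun l j => e.symm j (θ l : M)) :=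
    unif_of_group hn hG hM hd e (fun i => (θ i : M)) hmin.indep
  obtain ⟨c, hc1, hc2, hdet⟩ := gen hT (fun l j => e.symm j (θ l : M)) hu
  have hm : 1 ≤ finrank ℚ k := finrank_pos
  refine ⟨fun i => ∑ l, (c i l : 𝓞 M) * θ l, ?_, ?_⟩
  · intro i
    have hcoe : ((∑ l, (c i l : 𝓞 M) * θ l : 𝓞 M) : M) = ∑ l, (c i l : M) * (θ l : M) := by
      simp
    rw [hcoe]
    have hX0 : (0 : ℝ) < X := by linarith
    rcases Nat.eq_zero_or_pos (s i) with hs0 | hs0
    · have h0 : ∑ l, (c i l : M) * (θ l : M) = 0 := by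
        refine Finset.sum_eq_zero fun l _ => ?_
        rw [hc2 i l (by omega)]
        simp
      have h1 : house (0 : M) = 0 := by
        simp [house]
      rw [h0, h1]
      positivity
    · have hsn : s i ≤ n := hT.le i
      set l0 : Fin n := ⟨s i - 1, by omega⟩ with hl0
      have hl0s : (l0 : ℕ) + 1 = s i := by
        rw [hl0]
        show s i - 1 + 1 = s i
        omega
      have hlam := lam_bound lam hmin.mono hmin.one_le
        (fun i j l hl => submul e θ lam hmin hu i j l hl) (C0 * √|(discr M : ℝ)|)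
        (hprod M hd θ lam hmin) l0
      have hsqrt : √|(discr M : ℝ)| ≤ √X := Real.sqrt_le_sqrt hdisc
      have hlam2 : lam l0 ^ (finrank ℚ k * (2 * n - s i)) ≤ (C0 * √X) ^ 2 := by
        rw [hl0s] at hlam
        refine hlam.trans ?_
        refine pow_le_pow_left₀ (by positivity) ?_ 2
        exact mul_le_mul_of_nonneg_left hsqrt hC0.le
      have hNpos : 1 ≤ finrank ℚ k * (2 * n - s i) :=
        Nat.one_le_iff_ne_zero.2 (Nat.mul_ne_zero (by omega) (by omega))
      have hlam3 := ub21_rpow hNpos (by linarith [hmin.one_le l0]) hC0.le hX hlam2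
      have hcast : ((finrank ℚ k * (2 * n - s i) : ℕ) : ℝ) =
          (finrank ℚ k : ℝ) * (2 * n - s i : ℝ) := by
        rw [Nat.cast_mul, Nat.cast_sub (by omega)]
        push_cast
        ring
      rw [hcast] at hlam3
      set E : ℝ := X ^ (1 / ((finrank ℚ k : ℝ) * (2 * n - s i : ℝ))) with hE
      have hE0 : 0 ≤ E := by positivity
      have hterm : ∀ l ∈ (Finset.univ : Finset (Fin n)), house ((c i l : M) * (θ l : M)) ≤
          (n * (q + 1) * d) * lam l0 := by
        intro l _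
        rw [house_nat_mul]
        have hlam0 : 0 ≤ lam l0 := by linarith [hmin.one_le l0]
        by_cases hl : s i ≤ (l : ℕ)
        · rw [hc2 i l hl]
          simp only [Nat.cast_zero, zero_mul]
          positivity
        · have h1 : (c i l : ℝ) ≤ n * (q + 1) * d := by exact_mod_cast hc1 i l
          have h2 : house (θ l : M) ≤ lam l0 := by
            refine (hmin.le l).trans (hmin.mono ?_)
            rw [Fin.le_def]
            omega
          exact mul_le_mul h1 h2 (house_nonneg _) (by positivity)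
      calc house (∑ l, (c i l : M) * (θ l : M)) ≤ ∑ l, house ((c i l : M) * (θ l : M)) :=
            house_sum_le_sum_house _ _
        _ ≤ ∑ _l : Fin n, (n * (q + 1) * d) * lam l0 := Finset.sum_le_sum hterm
        _ = (n * (n * (q + 1) * d)) * lam l0 := by
            rw [Finset.sum_const, Finset.card_univ, Fintype.card_fin, nsmul_eq_mul]
            ring
        _ ≤ (n * (n * (q + 1) * d)) * ((1 + C0 ^ 2) * E) :=
            mul_le_mul_of_nonneg_left hlam3 (by positivity)
        _ ≤ (1 + (n * (n * (q + 1) * d)) * (1 + C0 ^ 2)) * E := by nlinarith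
  · refine jac_ne_zero a _ ?_
    have : (fun (j : Fin n) (i : Fin (q + 1)) =>
        e.symm j ((∑ l, (c i l : 𝓞 M) * θ l : 𝓞 M) : M)) =
        fun j i => ∑ l, (c i l : AlgebraicClosure k) * e.symm j (θ l : M) := by
      funext j i
      simp
    rw [this]
    exact hdet

end Pool.Agent.H52.UB
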