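import Pool.Agent.H52.UB.Count
import Pool.Agent.H52.UB.Point

/-!
# Project UB (MP_a3214d): the count for tile systems, `A_n ≤ G`
-/

set_option autoImplicit false

open NumberField Polynomial Module

namespace Pool.Agent.H52.UB

theorem count_tiles (k : Type) [Field k] [NumberField k] {n q d : ℕ} (hn : 3 ≤ n)
    {s : Fin (q + 1) → ℕ} {a : Fin n → Fin (q + 1) → ℕ} (hT : Tiles n q d s a)
    {G : Subgroup (Equiv.Perm (Fin n))} (hG : alternatingGroup (Fin n) ≤ G) (ε : ℝ) (hε : 0 < ε) :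
    ∃ C : ℝ, ∀ B : ℝ, 1 ≤ B →
      (Pool.Agent.H67.MU.malleCount k n G B : ℝ) ≤ C * B ^ (expo n q s a + ε) := by
  have h2n : (3 : ℝ) ≤ n := by exact_mod_cast hn
  have hsn : ∀ i, (0 : ℝ) < 2 * n - s i := fun i => by
    have h1 : (s i : ℝ) ≤ n := by exact_mod_cast hT.le i
    linarith
  obtain ⟨C1, hC1, hpt⟩ := exists_point k hn hT hG
  obtain ⟨C, hC⟩ := count_points k (by omega : 1 ≤ n) hT.deg (fun i => 1 / (2 * n - s i : ℝ))
    (fun i => (div_pos one_pos (hsn i)).le) (Pool.Agent.H67.MU.HasGroup G) ⟨C1, hC1, by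
      intro M _ hgr hd X hX hdisc
      obtain ⟨e, -⟩ := id hgr
      obtain ⟨x, hx, hJ⟩ := hpt M hgr hd X hX hdisc e
      refine ⟨e, x, fun i => ?_, hJ⟩
      have h1 : (1 : ℝ) / (2 * n - s i) / finrank ℚ k = 1 / (finrank ℚ k * (2 * n - s i : ℝ)) := by
        rw [div_div, mul_comm]
      rw [h1]
      exact hx i⟩ ε hε
  refine ⟨C, fun B hB => ?_⟩
  have h1 : expo n q s a = ∑ ρ, ∑ l, (tbet a ρ l : ℝ) * (1 / (2 * n - s l : ℝ)) := by
    unfold expo
    refine Finset.sum_congr rfl fun ρ _ => Finset.sum_congr rfl fun l _ => ?_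
    rw [mul_one_div]
  rw [h1]
  exact (hC B hB).2

end Pool.Agent.H52.UB
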