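import Pool.Agent.H52.UB.Defs2

/-!
# Project UB (MP_a3214d), row UB-29: the last minimum of every extension
-/

set_option autoImplicit false

open NumberField Polynomial Module

namespace Pool.Agent.H52.UB

theorem dual_submul {k K : Type} [Field k] [NumberField k] [Field K] [NumberField K] [Algebra k K]
    {n : ℕ} (hn : finrank k K = n) {θ : Fin n → 𝓞 K} {lam : Fin n → ℝ} (h : MinSys k K n θ lam)
    (i j l : Fin n) (hij : (i : ℕ) + j = l) (hl : (l : ℕ) + 1 = n) : lam l ≤ lam i * lam j := by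
  classical
  by_contra hcon
  push Not at hcon
  have hfin : FiniteDimensional k K := Module.Finite.of_restrictScalars_finite ℚ k K
  have hlam0 : ∀ a, 0 ≤ lam a := fun a => zero_le_one.trans (h.one_le a)
  set U : Submodule k K := Submodule.span k ((fun c => (θ c : K)) '' {c | c < l}) with hU
  have hprod : ∀ a ≤ i, ∀ b ≤ j, ((θ a : K) * (θ b : K)) ∈ U := by
    intro a ha b hb
    have h1 : house ((θ a * θ b : 𝓞 K) : K) < lam l := by
      have h2 : ((θ a * θ b : 𝓞 K) : K) = (θ a : K) * (θ b : K) := by simp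
      rw [h2]
      refine lt_of_le_of_lt (house_mul_le _ _) (lt_of_le_of_lt ?_ hcon)
      exact mul_le_mul ((h.le a).trans (h.mono ha)) ((h.le b).trans (h.mono hb)) (house_nonneg _)
        (hlam0 i)
    have h3 := h.min l (θ a * θ b) h1
    have h2 : ((θ a * θ b : 𝓞 K) : K) = (θ a : K) * (θ b : K) := by simp
    rwa [h2] at h3
  have hUfin : finrank k U ≤ (l : ℕ) := by
    have h1 : ((fun c => (θ c : K)) '' {c | c < l}) =
        ((Finset.Iio l).image (fun c => (θ c : K)) : Set K) := by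
      ext x
      simp
    rw [hU, h1]
    refine (finrank_span_finset_le_card _).trans (Finset.card_image_le.trans ?_)
    rw [Fin.card_Iio]
  have hUlt : U < ⊤ := by
    refine lt_top_iff_ne_top.2 fun htop => ?_
    rw [htop, finrank_top, hn] at hUfin
    omega
  obtain ⟨φ, hφ0, hφ⟩ := Submodule.exists_le_ker_of_lt_top U hUlt
  let Ψ : K →ₗ[k] Module.Dual k K :=
    { toFun := fun x => φ.comp (LinearMap.mulLeft k x)
      map_add' := fun x y => by
        ext z
        simp [add_mul]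
      map_smul' := fun c x => by
        ext z
        simp }
  have hΨ : Function.Injective Ψ := by
    rw [← LinearMap.ker_eq_bot, Submodule.eq_bot_iff]
    intro x hx
    by_contra hx0
    apply hφ0
    ext z
    have h1 : Ψ x (x⁻¹ * z) = 0 := by
      rw [LinearMap.mem_ker.1 hx]
      rfl
    have h2 : Ψ x (x⁻¹ * z) = φ (x * (x⁻¹ * z)) := rfl
    rw [h2, mul_inv_cancel_left₀ hx0] at h1
    simpa using h1
  let A : Submodule k K := Submodule.span k (Set.range fun a : {a : Fin n // a ≤ i} => (θ a.1 : K))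
  let B : Submodule k K := Submodule.span k (Set.range fun b : {b : Fin n // b ≤ j} => (θ b.1 : K))
  have hA : finrank k A = (i : ℕ) + 1 := by
    have h1 : LinearIndependent k (fun a : {a : Fin n // a ≤ i} => (θ a.1 : K)) :=
      h.indep.comp _ Subtype.val_injective
    have h2 := finrank_span_eq_card h1
    rw [h2, Fintype.card_subtype, ← Fin.card_Iic i]
    congr 1
    ext x
    simp
  have hB : finrank k B = (j : ℕ) + 1 := by
    have h1 : LinearIndependent k (fun a : {a : Fin n // a ≤ j} => (θ a.1 : K)) :=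
      h.indep.comp _ Subtype.val_injective
    have h2 := finrank_span_eq_card h1
    rw [h2, Fintype.card_subtype, ← Fin.card_Iic j]
    congr 1
    ext x
    simp
  have hle : A.map Ψ ≤ B.dualAnnihilator := by
    rw [Submodule.map_le_iff_le_comap, Submodule.span_le]
    rintro _ ⟨a, rfl⟩
    change Ψ (θ a.1 : K) ∈ B.dualAnnihilator
    rw [Submodule.mem_dualAnnihilator]
    intro y hy
    have h1 : B ≤ LinearMap.ker (Ψ (θ a.1 : K)) := by
      rw [Submodule.span_le]
      rintro _ ⟨b, rfl⟩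
      exact hφ (hprod a.1 a.2 b.1 b.2)
    exact h1 hy
  have h1 : finrank k (A.map Ψ) = (i : ℕ) + 1 := by
    rw [← (Submodule.equivMapOfInjective Ψ hΨ A).finrank_eq, hA]
  have h2 := Submodule.finrank_mono hle
  have h3 := Subspace.finrank_add_finrank_dualAnnihilator_eq B
  rw [hn, hB] at h3
  rw [h1] at h2
  omega

theorem lam_top {n m : ℕ} (lam : Fin n → ℝ) (h1 : ∀ i, 1 ≤ lam i) (l : Fin n)
    (hl : (l : ℕ) + 1 = n) (hsub : ∀ i j : Fin n, (i : ℕ) + j = l → lam l ≤ lam i * lam j) (P : ℝ)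
    (hP : (∏ i, lam i) ^ m ≤ P) : lam l ^ (m * n) ≤ P ^ 2 := by
  have h0 : ∀ i, 0 ≤ lam i := fun i => zero_le_one.trans (h1 i)
  have hprod0 : 0 ≤ ∏ i, lam i := Finset.prod_nonneg fun i _ => h0 i
  have h2 : lam l ^ n ≤ (∏ i, lam i) ^ 2 := by
    have h3 : ∏ _i : Fin n, lam l ≤ ∏ i : Fin n, (lam i * lam (Fin.rev i)) := by
      refine Finset.prod_le_prod (fun _ _ => h0 l) fun i _ => hsub i (Fin.rev i) ?_
      rw [Fin.val_rev]
      have := i.2
      omega
    rw [Finset.prod_const, Finset.card_univ, Fintype.card_fin, Finset.prod_mul_distrib] at h3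
    have h4 : ∏ i : Fin n, lam (Fin.rev i) = ∏ i, lam i :=
      Fintype.prod_equiv Fin.revPerm _ _ fun i => rfl
    rw [h4] at h3
    rw [pow_two]
    exact h3
  calc lam l ^ (m * n) = (lam l ^ n) ^ m := by rw [mul_comm, pow_mul]
    _ ≤ ((∏ i, lam i) ^ 2) ^ m := pow_le_pow_left₀ (pow_nonneg (h0 l) _) h2 _
    _ = ((∏ i, lam i) ^ m) ^ 2 := by rw [← pow_mul, ← pow_mul, mul_comm]
    _ ≤ P ^ 2 := pow_le_pow_left₀ (pow_nonneg hprod0 _) hP _

theorem lam_triv {n m : ℕ} (lam : Fin n → ℝ) (hmono : Monotone lam) (h1 : ∀ i, 1 ≤ lam i) (P : ℝ)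
    (hP : (∏ i, lam i) ^ m ≤ P) (l : Fin n) : lam l ^ (m * (2 * (n - l))) ≤ P ^ 2 := by
  have h0 : ∀ i, 0 ≤ lam i := fun i => zero_le_one.trans (h1 i)
  have hprod0 : 0 ≤ ∏ i, lam i := Finset.prod_nonneg fun i _ => h0 i
  have h2 : lam l ^ (n - (l : ℕ)) ≤ ∏ i, lam i := by
    have h3 : ∏ _i ∈ Finset.Ici l, lam l ≤ ∏ i ∈ Finset.Ici l, lam i :=
      Finset.prod_le_prod (fun _ _ => h0 l) fun i hi => hmono (Finset.mem_Ici.1 hi)
    rw [Finset.prod_const, Fin.card_Ici] at h3
    refine h3.trans ?_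
    have h4 := Finset.prod_sdiff (Finset.subset_univ (Finset.Ici l)) (f := lam)
    rw [← h4]
    refine le_mul_of_one_le_left (Finset.prod_nonneg fun i _ => h0 i) ?_
    calc (1 : ℝ) = ∏ _i ∈ Finset.univ \ Finset.Ici l, (1 : ℝ) := by simp
      _ ≤ ∏ i ∈ Finset.univ \ Finset.Ici l, lam i :=
        Finset.prod_le_prod (fun _ _ => zero_le_one) fun i _ => h1 i
  calc lam l ^ (m * (2 * (n - l))) = ((lam l ^ (n - (l : ℕ))) ^ m) ^ 2 := by
        rw [← pow_mul, ← pow_mul]
        congr 1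
        ring
    _ ≤ ((∏ i, lam i) ^ m) ^ 2 :=
        pow_le_pow_left₀ (pow_nonneg (pow_nonneg (h0 l) _) _)
          (pow_le_pow_left₀ (pow_nonneg (h0 l) _) h2 _) _
    _ ≤ P ^ 2 := pow_le_pow_left₀ (pow_nonneg hprod0 _) hP _

end Pool.Agent.H52.UB
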