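import Pool.Agent.H52.UB.FreeBlocks

/-!
# Project UB part 2, row UB-31: free blocks for the embeddings of a field
-/

set_option autoImplicit false

open NumberField Polynomial Module

namespace Pool.Agent.H52.UB

/-- the sets of embeddings where the combinations of the first `s` elements are arbitrary -/
private def ub31_Fr {k : Type} [Field k] [NumberField k] {n : ℕ} (s : ℕ)
    {M : IntermediateField k (AlgebraicClosure k)} (θ : Fin n → M) :
    Set (Finset (M →ₐ[k] AlgebraicClosure k)) :=
  {A | ∀ f : (M →ₐ[k] AlgebraicClosure k) → AlgebraicClosure k,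
    ∃ v : Fin n → AlgebraicClosure k, (∀ l : Fin n, s ≤ (l : ℕ) → v l = 0) ∧
      ∀ φ ∈ A, ∑ l, v l * φ (θ l) = f φ}

/-- the group of the permutations of the embeddings given by the automorphisms -/
private def ub31_G {k : Type} [Field k] [NumberField k]
    (M : IntermediateField k (AlgebraicClosure k)) :
    Subgroup (Equiv.Perm (M →ₐ[k] AlgebraicClosure k)) where
  carrier := {π | ∃ σ : AlgebraicClosure k ≃ₐ[k] AlgebraicClosure k, ∀ φ x, π φ x = σ (φ x)}
  mul_mem' := by
    rintro π π' ⟨σ, hσ⟩ ⟨σ', hσ'⟩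
    refine ⟨σ * σ', fun φ x => ?_⟩
    rw [Equiv.Perm.mul_apply, hσ, hσ', AlgEquiv.mul_apply]
  one_mem' := ⟨1, fun φ x => by simp⟩
  inv_mem' := by
    rintro π ⟨σ, hσ⟩
    refine ⟨σ.symm, fun φ x => ?_⟩
    have h1 := hσ (π.symm φ) x
    rw [Equiv.apply_symm_apply] at h1
    change π.symm φ x = σ.symm (φ x)
    rw [h1, AlgEquiv.symm_apply_apply]

private theorem ub31_ext {k : Type} [Field k] [NumberField k]
    {M : IntermediateField k (AlgebraicClosure k)} (φ : M →ₐ[k] AlgebraicClosure k) :
    ∃ σ : AlgebraicClosure k ≃ₐ[k] AlgebraicClosure k, ∀ x : M, σ (x : AlgebraicClosure k) = φ x := by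
  have hbij := Algebra.IsAlgebraic.algHom_bijective (φ.liftNormal (AlgebraicClosure k))
  refine ⟨AlgEquiv.ofBijective _ hbij, fun x => ?_⟩
  have h1 := φ.liftNormal_commutes (AlgebraicClosure k) x
  exact h1

private theorem ub31_trans {k : Type} [Field k] [NumberField k]
    {M : IntermediateField k (AlgebraicClosure k)} (φ ψ : M →ₐ[k] AlgebraicClosure k) :
    ∃ g ∈ ub31_G M, g φ = ψ := by
  obtain ⟨σ, hσ⟩ := ub31_ext φ
  obtain ⟨τ, hτ⟩ := ub31_ext ψ
  set ρ : AlgebraicClosure k ≃ₐ[k] AlgebraicClosure k := σ.symm.trans τ with hρ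
  refine ⟨⟨fun χ => (ρ : AlgebraicClosure k →ₐ[k] AlgebraicClosure k).comp χ,
    fun χ => ((ρ.symm : AlgebraicClosure k ≃ₐ[k] AlgebraicClosure k) :
      AlgebraicClosure k →ₐ[k] AlgebraicClosure k).comp χ, fun χ => ?_, fun χ => ?_⟩,
    ⟨ρ, fun χ x => rfl⟩, ?_⟩
  · ext x
    change ρ.symm (ρ (χ x)) = χ x
    exact ρ.symm_apply_apply _
  · ext x
    change ρ (ρ.symm (χ x)) = χ x
    exact ρ.apply_symm_apply _
  · ext x
    change ρ (φ x) = ψ x
    rw [← hσ x, hρ, AlgEquiv.trans_apply, AlgEquiv.symm_apply_apply]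
    exact hτ x

private theorem ub31_det {k : Type} [Field k] [NumberField k] {n : ℕ}
    {M : IntermediateField k (AlgebraicClosure k)} [FiniteDimensional k M]
    (hd : finrank k M = n) (θ : Fin n → M)
    (hθ : LinearIndependent k θ) (e : Fin n ≃ (M →ₐ[k] AlgebraicClosure k)) :
    (Matrix.of fun l j : Fin n => e j (θ l)).det ≠ 0 := by
  rcases Nat.eq_zero_or_pos n with rfl | hn
  · simp
  have : Nonempty (Fin n) := ⟨⟨0, hn⟩⟩
  have hb : Fintype.card (Fin n) = finrank k M := by rw [Fintype.card_fin, hd]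
  set b : Basis (Fin n) k M := basisOfLinearIndependentOfCardEqFinrank hθ hb with hbd
  have hb1 : ∀ l, b l = θ l := by
    intro l
    rw [hbd, coe_basisOfLinearIndependentOfCardEqFinrank]
  have h1 := Algebra.discr_not_zero_of_basis k b
  have h2 := Algebra.discr_eq_det_embeddingsMatrixReindex_pow_two k (AlgebraicClosure k) (b := b) e
  have h3 : Algebra.embeddingsMatrixReindex k (AlgebraicClosure k) (b : Fin n → M) e =
      Matrix.of fun l j : Fin n => e j (θ l) := by
    ext l j
    simp [Algebra.embeddingsMatrixReindex, Algebra.embeddingsMatrix, hb1]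
  rw [h3] at h2
  intro h0
  rw [h0, zero_pow two_ne_zero] at h2
  exact h1 ((map_eq_zero (algebraMap k (AlgebraicClosure k))).1 h2)

theorem exists_numbering {k : Type} [Field k] [NumberField k] {n s : ℕ} (hs : s ≤ n)
    {M : IntermediateField k (AlgebraicClosure k)} (hd : finrank k M = n) (θ : Fin n → M)
    (hθ : LinearIndependent k θ) (blk : Fin n → ℕ) (hb : BlockOK n s blk) :
    ∃ e : (M →ₐ[k] AlgebraicClosure k) ≃ Fin n,
      (∀ t, FreeAt (fun l j => e.symm j (θ l)) s {j | blk j = t}) ∧
      FreeAt (fun l j => e.symm j (θ l)) n Set.univ := by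
  classical
  have hn : 0 < n := by
    by_contra h0
    have h1 : n = 0 := by omega
    have h2 := hb 0
    subst h1
    have h3 : s = 0 := by omega
    subst h3
    simp at h2
  have : FiniteDimensional k M := FiniteDimensional.of_finrank_pos (by omega)
  have hcard : Fintype.card (M →ₐ[k] AlgebraicClosure k) = n := by
    rw [AlgHom.card k M (AlgebraicClosure k), hd]
  set e0 : Fin n ≃ (M →ₐ[k] AlgebraicClosure k) := (Fintype.equivFinOfCardEq hcard).symm
  have hdet0 := ub31_det hd θ hθ e0
  -- the columns are independent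
  have hcol : ∀ v : Fin n → AlgebraicClosure k,
      (∀ φ : M →ₐ[k] AlgebraicClosure k, ∑ l, v l * φ (θ l) = 0) → v = 0 := by
    intro v hv
    refine Matrix.eq_zero_of_vecMul_eq_zero hdet0 ?_
    funext j
    exact hv (e0 j)
  -- the starting set
  set c : (M →ₐ[k] AlgebraicClosure k) → (Fin s → AlgebraicClosure k) :=
    fun φ l => φ (θ (Fin.castLE hs l)) with hc
  have hspan : Submodule.span (AlgebraicClosure k) (Set.range c) = ⊤ := by
    by_contra hne
    obtain ⟨ψ, hψ0, hψ⟩ := Submodule.exists_le_ker_of_lt_top _ (lt_top_iff_ne_top.2 hne)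
    apply hψ0
    set v : Fin n → AlgebraicClosure k :=
      fun l => if h : (l : ℕ) < s then ψ (Pi.single ⟨l, h⟩ 1) else 0 with hv
    have h1 : v = 0 := by
      apply hcol
      intro φ
      have h2 : ψ (c φ) = 0 := by
        have : c φ ∈ Submodule.span (AlgebraicClosure k) (Set.range c) :=
          Submodule.subset_span ⟨φ, rfl⟩
        exact LinearMap.mem_ker.1 (hψ this)
      have h3 : c φ = ∑ l : Fin s, c φ l • (Pi.single l 1 : Fin s → AlgebraicClosure k) := by
        funext i
        simp [Finset.sum_apply, Pi.single_apply]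
      rw [h3, map_sum] at h2
      have h4 : ∑ l : Fin n, v l * φ (θ l) = ∑ l : Fin s, v (Fin.castLE hs l) * φ (θ (Fin.castLE hs l)) := by
        rw [← Finset.sum_subset (Finset.subset_univ (Finset.univ.image (Fin.castLE hs)))]
        · rw [Finset.sum_image]
          intro a _ b _ hab
          exact Fin.castLE_injective hs hab
        · intro l _ hl
          have h5 : ¬ (l : ℕ) < s := by
            intro h6
            apply hl
            rw [Finset.mem_image]
            exact ⟨⟨l, h6⟩, Finset.mem_univ _, rfl⟩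
          rw [hv]
          simp only [h5, dite_false, zero_mul]
      rw [h4, ← h2]
      refine Finset.sum_congr rfl fun l _ => ?_
      rw [map_smul, smul_eq_mul, mul_comm]
      congr 1
      rw [hv]
      simp
    refine LinearMap.pi_ext' fun l => LinearMap.ext_ring ?_
    have h2 := congrFun h1 (Fin.castLE hs l)
    rw [hv] at h2
    simpa using h2
  obtain ⟨κ, a, ha, hsp, hli⟩ := exists_linearIndependent' (AlgebraicClosure k) c
  have : Finite κ := Finite.of_injective a ha
  have : Fintype κ := Fintype.ofFinite κ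
  set b : Basis κ (AlgebraicClosure k) (Fin s → AlgebraicClosure k) :=
    Basis.mk hli (by rw [hsp, hspan]) with hbas
  have hκ : Fintype.card κ = s := by
    have h1 := Module.finrank_eq_card_basis b
    rw [Module.finrank_fin_fun] at h1
    exact h1.symm
  set B : Finset (M →ₐ[k] AlgebraicClosure k) := Finset.univ.map ⟨a, ha⟩ with hB
  have hBs : B.card = s := by rw [hB, Finset.card_map, Finset.card_univ, hκ]
  have hBF : B ∈ ub31_Fr s θ := by
    intro f
    set ψ : (Fin s → AlgebraicClosure k) →ₗ[AlgebraicClosure k] AlgebraicClosure k :=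
      b.constr (AlgebraicClosure k) (fun i => f (a i)) with hψ
    refine ⟨fun l => if h : (l : ℕ) < s then ψ (Pi.single ⟨l, h⟩ 1) else 0, ?_, ?_⟩
    · intro l hl
      have : ¬ (l : ℕ) < s := not_lt.2 hl
      simp only [this, dite_false]
    · intro φ hφ
      rw [hB, Finset.mem_map] at hφ
      obtain ⟨i, -, rfl⟩ := hφ
      change ∑ l : Fin n, (if h : (l : ℕ) < s then ψ (Pi.single ⟨l, h⟩ 1) else 0) * a i (θ l) =
        f (a i)
      have h2 : ψ (c (a i)) = f (a i) := by
        have h3 : b i = c (a i) := by rw [hbas, Basis.mk_apply]; rfl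
        rw [← h3, hψ, Basis.constr_basis]
      have h3 : c (a i) = ∑ l : Fin s, c (a i) l • (Pi.single l 1 : Fin s → AlgebraicClosure k) := by
        funext i
        simp [Finset.sum_apply, Pi.single_apply]
      rw [h3, map_sum] at h2
      have h4 : ∑ l : Fin n, (if h : (l : ℕ) < s then ψ (Pi.single ⟨l, h⟩ 1) else 0) * a i (θ l) =
          ∑ l : Fin s, ψ (Pi.single l 1) * a i (θ (Fin.castLE hs l)) := by
        rw [← Finset.sum_subset (Finset.subset_univ (Finset.univ.image (Fin.castLE hs)))]
        · rw [Finset.sum_image]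
          · refine Finset.sum_congr rfl fun l _ => ?_
            simp
          · intro a _ b _ hab
            exact Fin.castLE_injective hs hab
        · intro l _ hl
          have h5 : ¬ (l : ℕ) < s := by
            intro h6
            apply hl
            rw [Finset.mem_image]
            exact ⟨⟨l, h6⟩, Finset.mem_univ _, rfl⟩
          simp only [h5, dite_false, zero_mul]
      rw [h4, ← h2]
      refine Finset.sum_congr rfl fun l _ => ?_
      rw [map_smul, smul_eq_mul, mul_comm]
  obtain ⟨e, he⟩ := free_blocks hcard (ub31_G M) ub31_trans (ub31_Fr s θ)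
    (fun A hA B' hB' f => by
      obtain ⟨v, h1, h2⟩ := hA f
      exact ⟨v, h1, fun φ hφ => h2 φ (hB' hφ)⟩)
    (fun A hA g hg f => by
      obtain ⟨σ, hσ⟩ := hg
      obtain ⟨v, h1, h2⟩ := hA (fun φ => σ.symm (f (g φ)))
      refine ⟨fun l => σ (v l), fun l hl => ?_, fun φ hφ => ?_⟩
      · change σ (v l) = 0
        rw [h1 l hl, map_zero]
      rw [Finset.mem_map] at hφ
      obtain ⟨χ, hχ, rfl⟩ := hφ
      change ∑ l, σ (v l) * g χ (θ l) = f (g χ)
      have h3 := congrArg σ (h2 χ hχ)
      rw [AlgEquiv.apply_symm_apply, map_sum] at h3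
      rw [← h3]
      refine Finset.sum_congr rfl fun l _ => ?_
      rw [map_mul, hσ])
    B hBF hBs blk hb
  refine ⟨e, fun t f => ?_, fun f => ?_⟩
  · obtain ⟨v, h1, h2⟩ := he t (fun φ => f (e φ))
    refine ⟨v, h1, fun j hj => ?_⟩
    have h3 := h2 (e.symm j) (by
      rw [Finset.mem_filter]
      refine ⟨Finset.mem_univ _, ?_⟩
      rw [Equiv.apply_symm_apply]
      exact hj)
    rw [Equiv.apply_symm_apply] at h3
    exact h3
  · have hdet := ub31_det hd θ hθ e.symm
    refine ⟨Matrix.vecMul f (Matrix.of fun l j : Fin n => e.symm j (θ l))⁻¹,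
      fun l hl => absurd hl (not_le.2 l.2), fun j _ => ?_⟩
    have h1 : Matrix.vecMul (Matrix.vecMul f (Matrix.of fun l j : Fin n => e.symm j (θ l))⁻¹)
        (Matrix.of fun l j : Fin n => e.symm j (θ l)) = f := by
      rw [Matrix.vecMul_vecMul, Matrix.nonsing_inv_mul _ (isUnit_iff_ne_zero.2 hdet),
        Matrix.vecMul_one]
    exact congrFun h1 j

end Pool.Agent.H52.UB
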