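import Pool.Agent.H52.UB.Defs

/-!
# UB-1 : polynomial functions on lines
-/

set_option autoImplicit false

open NumberField Polynomial Module

namespace Pool.Agent.H52.UB

/-! ### UB-1 LinePoly.lean : polynomial functions on lines -/

/-- finitely many such functions, none of them identically zero on the subspace `W`, have a
common non-zero -/
theorem lp_common {F V : Type*} [Field F] [Infinite F] [AddCommGroup V] [Module F V]
    (W : Submodule F V) {ι : Type*} (s : Finset ι) (d : ι → ℕ) (f : ι → V → F)
    (hf : ∀ i ∈ s, LP (d i) (f i)) (h0 : ∀ i ∈ s, ∃ x ∈ W, f i x ≠ 0) :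
    ∃ x ∈ W, ∀ i ∈ s, f i x ≠ 0 := by
  classical
  induction s using Finset.induction_on with
  | empty => exact ⟨0, W.zero_mem, by simp⟩
  | insert a s has ih =>
    obtain ⟨x₁, hx₁, h₁⟩ := ih (fun i hi => hf i (Finset.mem_insert_of_mem hi))
      (fun i hi => h0 i (Finset.mem_insert_of_mem hi))
    obtain ⟨x₂, hx₂, h₂⟩ := h0 a (Finset.mem_insert_self a s)
    choose! p hp using fun (i : ι) (hi : i ∈ insert a s) => hf i hi x₁ (x₂ - x₁)
    have hne : ∀ i ∈ insert a s, p i ≠ 0 := by
      intro i hi hpi
      have h3 := (hp i hi).2
      rw [hpi] at h3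
      simp only [eval_zero] at h3
      rcases Finset.mem_insert.1 hi with rfl | his
      · apply h₂
        have := h3 1
        rwa [one_smul, add_sub_cancel] at this
      · apply h₁ i his
        have := h3 0
        rwa [zero_smul, add_zero] at this
    have hprod : ∏ i ∈ insert a s, p i ≠ 0 := Finset.prod_ne_zero_iff.2 hne
    obtain ⟨t, ht⟩ : ∃ t : F, (∏ i ∈ insert a s, p i).eval t ≠ 0 := by
      by_contra hcon
      push Not at hcon
      exact hprod (Polynomial.zero_of_eval_zero _ hcon)
    refine ⟨x₁ + t • (x₂ - x₁), W.add_mem hx₁ (W.smul_mem t (W.sub_mem hx₂ hx₁)), ?_⟩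
    intro i hi
    rw [(hp i hi).2 t]
    rw [eval_prod] at ht
    exact (Finset.prod_ne_zero_iff.1 ht) i hi

/-- a non-zero at small natural numbers -/
theorem lp_grid {F ι : Type*} [Field F] [CharZero F] [Fintype ι] [DecidableEq ι] (d : ℕ)
    (f : (ι → F) → F) (hf : LP d f) (s : Finset ι) (x : ι → F) (hx : ∀ i, i ∉ s → x i = 0)
    (h0 : f x ≠ 0) : ∃ c : ι → ℕ, (∀ i, c i ≤ d) ∧ (∀ i, i ∉ s → c i = 0) ∧
      f (fun i => (c i : F)) ≠ 0 := by
  have key : ∀ s' : Finset ι, ∃ c : ι → ℕ, (∀ i, c i ≤ d) ∧ (∀ i, i ∉ s' → c i = 0) ∧
      f (fun i => if i ∈ s' then (c i : F) else x i) ≠ 0 := by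
    have hdec : DecidableEq F := Classical.decEq F
    intro s'
    induction s' using Finset.induction_on with
    | empty => exact ⟨fun _ => 0, fun _ => Nat.zero_le _, fun _ _ => rfl, by simpa using h0⟩
    | insert a s' has ih =>
      obtain ⟨c, hc1, hc2, hc3⟩ := ih
      set y : ι → F := fun i => if i ∈ s' then (c i : F) else x i with hy
      obtain ⟨p, hpd, hp⟩ := hf y (Pi.single a 1)
      have hp0 : p ≠ 0 := by
        intro h
        apply hc3
        have := hp 0
        rw [zero_smul, add_zero, h, eval_zero] at this
        exact this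
      obtain ⟨m, hm, hmp⟩ : ∃ m : ℕ, m ≤ d ∧ p.eval ((m : F) - y a) ≠ 0 := by
        by_contra hcon
        push Not at hcon
        let T : Finset F := (Finset.range (d + 1)).image fun m : ℕ => (m : F) - y a
        have hT : T.card = d + 1 := by
          rw [Finset.card_image_of_injective, Finset.card_range]
          intro m m' hmm
          have : (m : F) = (m' : F) := by
            have h1 : (m : F) - y a = (m' : F) - y a := hmm
            exact sub_left_injective h1
          exact_mod_cast this
        have hsub : T ⊆ p.roots.toFinset := by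
          intro t ht
          obtain ⟨m, hm, rfl⟩ := Finset.mem_image.1 ht
          rw [Multiset.mem_toFinset, mem_roots hp0]
          exact hcon m (Nat.lt_succ_iff.1 (Finset.mem_range.1 hm))
        have h1 := Finset.card_le_card hsub
        have h2 := Multiset.toFinset_card_le p.roots
        have h3 := p.card_roots'
        omega
      refine ⟨Function.update c a m, ?_, ?_, ?_⟩
      · intro i
        rcases eq_or_ne i a with rfl | hi
        · rw [Function.update_self]
          exact hm
        · rw [Function.update_of_ne hi]
          exact hc1 i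
      · intro i hi
        have hia : i ≠ a := fun h => hi (h ▸ Finset.mem_insert_self a s')
        rw [Function.update_of_ne hia]
        exact hc2 i fun h => hi (Finset.mem_insert_of_mem h)
      · have heq : (fun i => if i ∈ insert a s' then ((Function.update c a m i : ℕ) : F) else x i) =
            y + ((m : F) - y a) • Pi.single a 1 := by
          funext i
          rcases eq_or_ne i a with rfl | hi
          · simp
          · rw [Function.update_of_ne hi, Pi.add_apply, Pi.smul_apply, Pi.single_eq_of_ne hi,
              smul_zero, add_zero]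
            simp only [Finset.mem_insert, hi, false_or, hy]
        rw [heq, hp]
        exact hmp
  obtain ⟨c, hc1, hc2, hc3⟩ := key s
  refine ⟨c, hc1, hc2, ?_⟩
  have heq : (fun i => if i ∈ s then (c i : F) else x i) = fun i => (c i : F) := by
    funext i
    by_cases hi : i ∈ s
    · rw [if_pos hi]
    · rw [if_neg hi, hx i hi, hc2 i hi, Nat.cast_zero]
  rwa [heq] at hc3

/-- the determinant of a matrix of monomials in linear coordinates -/
theorem lp_det {F V ι : Type*} [Field F] [AddCommGroup V] [Module F V] [Fintype ι] [DecidableEq ι]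
    (q d : ℕ) (L : ι → Fin q → V →ₗ[F] F) (c : ι → ι → F) (b : ι → Fin q → ℕ)
    (hb : ∀ j, ∑ l, b j l ≤ d) :
    LP (Fintype.card ι * d)
      (fun v => (Matrix.of fun i j => c i j * mon (fun l => L i l v) (b j)).det) := by
  intro x y
  let P : Matrix ι ι F[X] := Matrix.of fun i j =>
    C (c i j) * ∏ l, (C (L i l x) + X * C (L i l y)) ^ b j l
  have hPd : ∀ i j, (P i j).natDegree ≤ d := by
    intro i j
    refine (natDegree_C_mul_le _ _).trans ?_
    refine (natDegree_prod_le _ _).trans (le_trans (Finset.sum_le_sum fun l _ => ?_) (hb j))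
    refine natDegree_pow_le.trans ?_
    have h1 : (C (L i l x) + X * C (L i l y)).natDegree ≤ 1 := by
      refine (natDegree_add_le _ _).trans (max_le ?_ ?_)
      · rw [natDegree_C]
        exact Nat.zero_le _
      · refine natDegree_mul_le.trans ?_
        rw [natDegree_C, add_zero]
        exact natDegree_X_le
    calc b j l * _ ≤ b j l * 1 := Nat.mul_le_mul_left _ h1
      _ = b j l := mul_one _
  refine ⟨P.det, ?_, ?_⟩
  · rw [Matrix.det_apply]
    refine natDegree_sum_le_of_forall_le _ _ fun σ _ => ?_
    refine (natDegree_smul_le _ _).trans ?_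
    refine (natDegree_prod_le _ _).trans ?_
    refine (Finset.sum_le_sum fun i _ => hPd _ _).trans ?_
    rw [Finset.sum_const, Finset.card_univ, smul_eq_mul]
  · intro t
    have h1 : P.det.eval t = (P.map (fun p : F[X] => p.eval t)).det := by
      have := RingHom.map_det (evalRingHom t) P
      simpa using this
    rw [h1]
    refine congrArg Matrix.det ?_
    ext i j
    simp only [Matrix.of_apply, Matrix.map_apply, P, eval_mul, eval_C, eval_prod, eval_pow,
      eval_add, eval_X, mon, map_add, map_smul, smul_eq_mul]

end Pool.Agent.H52.UB
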