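import Pool.Agent.H52.UB.Defs2
import Pool.Agent.H52.UB.LinePoly
import Pool.Agent.H52.UB.Limit
import Pool.Agent.H52.UB.SliceInj

/-!
# Project UB part 2 (MP_a3214d), row UB-26: the tile lemma, general form

The condition on the subspaces `W i` is exactly what the induction uses (`NodeOnto`). The version
`tile'` has the same condition with functions on the places.
-/

set_option autoImplicit false

open NumberField Polynomial Module

namespace Pool.Agent.H52.UB

theorem slice_onto {F : Type*} [Field F] {Z : Type} {q : ℕ} {D V : Type}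
    (a : D ⊕ V → Fin (q + 1) → ℕ) (ι : D ⊕ V → Z) (W : Fin (q + 1) → Submodule F (Z → F))
    (h : NodeOnto a ι W) (e : ℕ) :
    NodeOnto (sa a e) (fun p => ι (sp a e p)) (fun i => W i.succ) := by
  intro i c f
  obtain ⟨w, hw, h1⟩ := h i.succ (Fin.cons e c) (Function.extend (sp a e) f 0)
  refine ⟨w, hw, ?_⟩
  intro ρ hρ
  have h2 := h1 (ub3_emb a e ρ) (by
    rw [ub3_bet]
    intro l
    refine Fin.cases ?_ (fun l => ?_) l
    · intro _
      rfl
    · intro hl
      exact hρ l (Fin.succ_lt_succ_iff.mp hl))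
  rw [ub3_pt, (sp_inj a e).extend_apply] at h2
  exact h2

/-- The linear map `x ↦ (z ↦ x z i)`. -/
private def ub26_coord (F Z : Type*) [Field F] (q : ℕ) (i : Fin q) :
    (Z → Fin q → F) →ₗ[F] (Z → F) where
  toFun x := fun z => x z i
  map_add' _ _ := rfl
  map_smul' _ _ := rfl

/-- The linear map `x ↦ x z i`. -/
private def ub26_ev (F Z : Type*) [Field F] (q : ℕ) (z : Z) (i : Fin q) :
    (Z → Fin q → F) →ₗ[F] F where
  toFun x := x z i
  map_add' _ _ := rfl
  map_smul' _ _ := rfl

/-- The determinant of a node is a polynomial function on lines. -/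
private theorem ub26_lp {F : Type*} [Field F] {Z : Type} {q : ℕ} {D V : Type} [Fintype D]
    [Fintype V] [DecidableEq D] [DecidableEq V] (a : D ⊕ V → Fin q → ℕ) (ι : D ⊕ V → Z) :
    ∃ d : ℕ, LP d (fun x : Z → Fin q → F => (nodeMat a (fun p => x (ι p))).det) := by
  refine ⟨_, lp_det (ι := Ix q D V) q (∑ j : Ix q D V, ∑ l, bet a j l)
    (fun ρ l => ub26_ev F Z q (ι (pt ρ)) l) (fun ρ ρ' => (wt ρ (bet a ρ') : F)) (bet a) ?_⟩
  intro j
  exact Finset.single_le_sum (f := fun j : Ix q D V => ∑ l, bet a j l)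
    (fun _ _ => Nat.zero_le _) (Finset.mem_univ j)

/-- The node with no coordinates. -/
private theorem ub26_zero {F : Type*} [Field F] {D V : Type} [Fintype D]
    [Fintype V] [DecidableEq D] [DecidableEq V] (a : D ⊕ V → Fin 0 → ℕ)
    (h : Function.Injective (bet a)) (x : D ⊕ V → Fin 0 → F) : (nodeMat a x).det ≠ 0 := by
  have h1 : nodeMat a x = 1 := by
    ext ρ ρ'
    have h2 : ρ = ρ' := h (Subsingleton.elim _ _)
    subst h2
    rw [Matrix.one_apply_eq]
    rcases ρ with ⟨j, _ | i⟩ | v
    · simp [nodeMat, wt, mon]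
    · exact i.elim0
    · simp [nodeMat, wt, mon]
  rw [h1, Matrix.det_one]
  exact one_ne_zero

theorem tile2 {F : Type*} [Field F] [Infinite F] {Z : Type} [Fintype Z] :
    ∀ (q : ℕ) (D V : Type) [Fintype D] [Fintype V] [DecidableEq D] [DecidableEq V]
      (a : D ⊕ V → Fin q → ℕ), Function.Injective (bet a) → ∀ (ι : D ⊕ V → Z)
      (W : Fin q → Submodule F (Z → F)), NodeOnto a ι W →
      ∃ x : Z → Fin q → F, (∀ i, (fun z => x z i) ∈ W i) ∧
        (nodeMat a (fun p => x (ι p))).det ≠ 0 := by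
  intro q
  induction q with
  | zero =>
    intro D V _ _ _ _ a ha ι W _
    exact ⟨fun _ i => i.elim0, fun i => i.elim0, ub26_zero a ha _⟩
  | succ q ih =>
    intro D V _ _ _ _ a ha ι W hW
    -- the slices
    have hslice : ∀ e : ℕ, ∃ x : Z → Fin q → F, (∀ i, (fun z => x z i) ∈ W i.succ) ∧
        (nodeMat (sa a e) (fun p => x (ι (sp a e p)))).det ≠ 0 := by
      intro e
      exact ih (SD a e) (SV a e) (sa a e) (slice_inj a ha e) (fun p => ι (sp a e p))
        (fun i => W i.succ) (slice_onto a ι W hW e)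
    -- the subspace of the last coordinates
    let U : Submodule F (Z → Fin q → F) := ⨅ i, (W i.succ).comap (ub26_coord F Z q i)
    have hU : ∀ x : Z → Fin q → F, x ∈ U ↔ ∀ i, (fun z => x z i) ∈ W i.succ := by
      intro x
      rw [Submodule.mem_iInf]
      rfl
    obtain ⟨E, hE⟩ := slice_empty a
    choose d hd using fun e : ℕ => ub26_lp (F := F) (Z := Z) (sa a e) (ι ∘ sp a e)
    obtain ⟨x', hx'U, hx'⟩ := lp_common U (Finset.range E) d
      (fun e => fun x : Z → Fin q → F => (nodeMat (sa a e) (fun p => x (ι (sp a e p)))).det)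
      (fun e _ => hd e) (fun e _ => by
        obtain ⟨x, hx1, hx2⟩ := hslice e
        exact ⟨x, (hU x).mpr hx1, hx2⟩)
    have hall : ∀ e : ℕ, (nodeMat (sa a e) (fun p => x' (ι (sp a e p)))).det ≠ 0 := by
      intro e
      by_cases he : e < E
      · exact hx' e (Finset.mem_range.mpr he)
      · have := hE e (not_lt.mp he)
        rw [Matrix.det_isEmpty]
        exact one_ne_zero
    obtain ⟨z, hz⟩ := limit a (fun p => x' (ι p)) hall
    -- the first coordinate
    obtain ⟨w, hwW, hw⟩ := hW 0 (fun _ => 0) z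
    have hw' : ∀ p, w (ι p) = z p := by
      rintro (j | v)
      · exact hw (Sum.inl (j, none)) (fun l hl => absurd hl (by simp))
      · exact hw (Sum.inr v) (fun l hl => absurd hl (by simp))
    refine ⟨fun y => Fin.cons (w y) (x' y), ?_, ?_⟩
    · intro i
      refine Fin.cases ?_ (fun i => ?_) i
      · simpa using hwW
      · simpa using (hU x').mp hx'U i
    · have h1 : (fun p => (Fin.cons (w (ι p)) (x' (ι p)) : Fin (q + 1) → F)) =
          fun p => Fin.cons (z p) (x' (ι p)) := by
        funext p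
        rw [hw' p]
      rw [h1]
      exact hz

/-- The tile lemma, with functions on the places. -/
theorem tile' {F : Type*} [Field F] [Infinite F] {Z : Type} [Fintype Z] [DecidableEq Z] :
    ∀ (q : ℕ) (D V : Type) [Fintype D] [Fintype V] [DecidableEq D] [DecidableEq V]
      (a : D ⊕ V → Fin q → ℕ), Function.Injective (bet a) → ∀ (ι : D ⊕ V → Z),
      Function.Injective ι → ∀ (W : Fin q → Submodule F (Z → F)),
      (∀ (i : Fin q) (c : Fin q → ℕ) (f : Z → F), ∃ w ∈ W i,
        ∀ p : D ⊕ V, (∃ ρ : Ix q D V, pt ρ = p ∧ ∀ l < i, bet a ρ l = c l) → w (ι p) = f (ι p)) →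
      ∃ x : Z → Fin q → F, (∀ i, (fun z => x z i) ∈ W i) ∧
        (nodeMat a (fun p => x (ι p))).det ≠ 0 := by
  intro q D V _ _ _ _ a ha ι hι W hW
  refine tile2 q D V a ha ι W ?_
  intro i c f
  obtain ⟨w, hw, h1⟩ := hW i c (Function.extend ι f 0)
  refine ⟨w, hw, fun ρ hρ => ?_⟩
  have h2 := h1 (pt ρ) ⟨ρ, rfl, hρ⟩
  rw [hι.extend_apply] at h2
  exact h2

end Pool.Agent.H52.UB
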