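import Pool.Agent.H52.UB.Top
import Pool.Agent.H52.UB.Tile2

/-!
# Project UB part 2 (MP_a3214d), row UB-27: the top level of the tile lemma, general form

`top2` has a condition on the rows, `top'` is the same statement with a condition on the places.
-/

set_option autoImplicit false

open NumberField Polynomial Module

namespace Pool.Agent.H52.UB

theorem ub27_onto {F : Type*} [Field F] {n q : ℕ} (a : Fin n → Fin (q + 1) → ℕ)
    (W : Fin (q + 1) → Submodule F (Fin n → F))
    (hW : ∀ (i : Fin (q + 1)) (c : Fin (q + 1) → ℕ) (f : Fin n → F), ∃ w ∈ W i,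
      ∀ ρ : Fin n × Fin (q + 1), (∀ l < i, tbet a ρ l = c l) → w ρ.1 = f ρ.1) (e : ℕ) :
    NodeOnto (ub6_a a e) (ub6_i a e) (fun i => W i.succ) := by
  intro i c f
  obtain ⟨w, hw, h1⟩ := hW i.succ (Fin.cons e c) (Function.extend (ub6_i a e) f 0)
  refine ⟨w, hw, ?_⟩
  intro ρ hρ
  have h2 := h1 (ub6_x a e ρ) (by
    rw [ub6_tbet]
    intro l
    refine Fin.cases ?_ (fun l => ?_) l
    · intro _
      rfl
    · intro hl
      rw [Fin.cons_succ, Fin.cons_succ]
      exact hρ l (Fin.succ_lt_succ_iff.mp hl))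
  rw [ub6_pt, (ub6_i_inj a e).extend_apply] at h2
  exact h2

theorem top2 {F : Type*} [Field F] [CharZero F] {n q : ℕ} (a : Fin n → Fin (q + 1) → ℕ)
    (ha : ∀ j, 1 ≤ a j 0) (hinj : Function.Injective (tbet a))
    (W : Fin (q + 1) → Submodule F (Fin n → F))
    (hW : ∀ (i : Fin (q + 1)) (c : Fin (q + 1) → ℕ) (f : Fin n → F), ∃ w ∈ W i,
      ∀ ρ : Fin n × Fin (q + 1), (∀ l < i, tbet a ρ l = c l) → w ρ.1 = f ρ.1) :
    ∃ x : Fin n → Fin (q + 1) → F, (∀ i, (fun z => x z i) ∈ W i) ∧ (topMat a x).det ≠ 0 := by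
  have : Infinite F := CharZero.infinite F
  -- a common point for all slices
  obtain ⟨x', hx', hdet⟩ : ∃ x' ∈ ub6_W W, ∀ e ∈ Finset.univ.image (fun j => a j 0),
      (nodeMat (ub6_a a e) (fun p => x' (ub6_i a e p))).det ≠ 0 := by
    refine lp_common (ub6_W W) (Finset.univ.image fun j => a j 0)
      (fun e => Fintype.card (Ix q (ub6_D a e) Empty) * ∑ ρ, ∑ l, bet (ub6_a a e) ρ l)
      (fun e x => (nodeMat (ub6_a a e) (fun p => x (ub6_i a e p))).det)
      (fun e _ => ub6_lp a e) fun e _ => ?_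
    obtain ⟨x, hx1, hx2⟩ := tile2 (F := F) (Z := Fin n) q (ub6_D a e) Empty (ub6_a a e)
      (ub6_bet_inj a e hinj) (ub6_i a e) (fun i => W i.succ) (ub27_onto a W hW e)
    exact ⟨x, hx1, hx2⟩
  have hall : ∀ e : ℕ, (nodeMat (ub6_a a e) (fun p => x' (ub6_i a e p))).det ≠ 0 := by
    intro e
    by_cases he : e ∈ Finset.univ.image (fun j => a j 0)
    · exact hdet e he
    · have : IsEmpty (ub6_D a e) := ⟨fun j => he (Finset.mem_image.mpr ⟨j.1, Finset.mem_univ _, j.2⟩)⟩
      rw [Matrix.det_isEmpty]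
      exact one_ne_zero
  obtain ⟨z, hz⟩ := top_limit a ha x' (by
    intro e
    have h := hall e
    convert h using 3
    · funext p
      rcases p with j | v
      · rfl
      · exact v.elim
    · funext p
      rcases p with j | v
      · rfl
      · exact v.elim)
  refine ⟨fun j => Fin.cons (z j) (x' j), fun i => ?_, hz⟩
  refine Fin.cases ?_ (fun i => ?_) i
  · obtain ⟨w, hw1, hw2⟩ := hW 0 0 z
    have h2 : (fun j : Fin n => (Fin.cons (z j) (x' j) : Fin (q + 1) → F) 0) = w := by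
      funext j
      rw [Fin.cons_zero]
      exact (hw2 (j, 0) (fun l hl => absurd hl (Fin.not_lt_zero l))).symm
    rw [h2]
    exact hw1
  · exact hx' i

/-- The same statement with a condition on the places. -/
theorem top' {F : Type*} [Field F] [CharZero F] {n q : ℕ} (a : Fin n → Fin (q + 1) → ℕ)
    (ha : ∀ j, 1 ≤ a j 0) (hinj : Function.Injective (tbet a))
    (W : Fin (q + 1) → Submodule F (Fin n → F))
    (hW : ∀ (i : Fin (q + 1)) (c : Fin (q + 1) → ℕ) (f : Fin n → F), ∃ w ∈ W i,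
      ∀ j : Fin n, (∃ i', ∀ l < i, tbet a (j, i') l = c l) → w j = f j) :
    ∃ x : Fin n → Fin (q + 1) → F, (∀ i, (fun z => x z i) ∈ W i) ∧ (topMat a x).det ≠ 0 := by
  refine top2 a ha hinj W fun i c f => ?_
  obtain ⟨w, hw, h1⟩ := hW i c f
  exact ⟨w, hw, fun ρ hρ => h1 ρ.1 ⟨ρ.2, hρ⟩⟩

end Pool.Agent.H52.UB
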