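import Pool.Agent.H52.UB.Defs2
import Pool.Agent.H52.UB.LinePoly
import Pool.Agent.H52.UB.Top2

/-!
# Project UB, row UB-28: natural coefficients, general form
-/

set_option autoImplicit false

namespace Pool.Agent.H52.UB

/-- the combinations of the vectors `w l`, `l < t` -/
private def ub28_W {F : Type*} [Field F] {n : ℕ} (w : Fin n → Fin n → F) (t : ℕ) :
    Submodule F (Fin n → F) where
  carrier := {x | ∃ c : Fin n → F, (∀ l : Fin n, t ≤ (l : ℕ) → c l = 0) ∧
    x = fun j => ∑ l, c l * w l j}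
  add_mem' := by
    rintro x y ⟨c, hc, rfl⟩ ⟨c', hc', rfl⟩
    refine ⟨c + c', fun l hl => by simp [hc l hl, hc' l hl], ?_⟩
    funext j
    simp [add_mul, Finset.sum_add_distrib]
  zero_mem' := ⟨0, fun _ _ => rfl, by funext j; simp⟩
  smul_mem' := by
    rintro r x ⟨c, hc, rfl⟩
    refine ⟨r • c, fun l hl => by simp [hc l hl], ?_⟩
    funext j
    simp [Finset.mul_sum, mul_assoc]

/-- the coordinate `i` of the point `j` as a linear function of the coefficients -/
private def ub28_L {F : Type*} [Field F] {n q : ℕ} (w : Fin n → Fin n → F)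
    (ρ : Fin n × Fin (q + 1)) (i : Fin (q + 1)) : (Fin (q + 1) × Fin n → F) →ₗ[F] F :=
  ∑ l, (w l ρ.1) • LinearMap.proj (i, l)

theorem gen2 {F : Type*} [Field F] [CharZero F] {n q d : ℕ} (a : Fin n → Fin (q + 1) → ℕ)
    (ha : ∀ j, 1 ≤ a j 0) (hinj : Function.Injective (tbet a)) (hd : ∀ ρ, ∑ l, tbet a ρ l ≤ d)
    (s : Fin (q + 1) → ℕ) (w : Fin n → Fin n → F) (hw : Reach a s w) :
    ∃ c : Fin (q + 1) → Fin n → ℕ, (∀ i l, c i l ≤ n * (q + 1) * d) ∧
      (∀ (i : Fin (q + 1)) (l : Fin n), s i ≤ (l : ℕ) → c i l = 0) ∧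
      (topMat a (fun j i => ∑ l, (c i l : F) * w l j)).det ≠ 0 := by
  classical
  obtain ⟨x, hx, hdet⟩ := top2 a ha hinj (fun i => ub28_W w (s i)) (fun i c f => by
    obtain ⟨g, hg, h⟩ := hw i c f
    exact ⟨fun j => ∑ l, g l * w l j, ⟨g, hg, rfl⟩, fun ρ hρ => h ρ.1 ⟨ρ.2, hρ⟩⟩)
  choose cc hcc hxc using hx
  -- the determinant as a function of the coefficients
  let f : (Fin (q + 1) × Fin n → F) → F := fun v =>
    (topMat a (fun j i => ∑ l, v (i, l) * w l j)).det
  have hf : LP (n * (q + 1) * d) f := by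
    have h := lp_det (F := F) (V := Fin (q + 1) × Fin n → F) (ι := Fin n × Fin (q + 1)) (q + 1) d
      (fun ρ i => ub28_L w ρ i) (fun ρ ρ' => ((tbet a ρ' ρ.2 : ℕ) : F)) (tbet a) hd
    rw [Fintype.card_prod, Fintype.card_fin, Fintype.card_fin] at h
    have e : f = fun v => (Matrix.of fun (i j : Fin n × Fin (q + 1)) =>
        ((tbet a j i.2 : ℕ) : F) * mon (fun l => ub28_L w i l v) (tbet a j)).det := by
      funext v
      simp only [f]
      congr 1
      ext ρ ρ'
      simp only [topMat, Matrix.of_apply]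
      congr 1
      congr 1
      funext l
      simp [ub28_L, mul_comm]
    rw [e]
    exact h
  obtain ⟨c, hc1, hc2, hc3⟩ := lp_grid (n * (q + 1) * d) f hf
    (Finset.univ.filter fun p : Fin (q + 1) × Fin n => (p.2 : ℕ) < s p.1)
    (fun p => cc p.1 p.2) (by
      intro p hp
      rw [Finset.mem_filter] at hp
      exact hcc p.1 p.2 (by by_contra h; exact hp ⟨Finset.mem_univ _, by omega⟩)) (by
      have e : (fun (j : Fin n) (i : Fin (q + 1)) => ∑ l, cc i l * w l j) = x := by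
        funext j i
        exact (congrFun (hxc i) j).symm
      simp only [f, e]
      exact hdet)
  refine ⟨fun i l => c (i, l), fun i l => hc1 _, fun i l hl => hc2 _ ?_, ?_⟩
  · rw [Finset.mem_filter]
    intro h
    have := h.2
    simp only at this
    omega
  · exact hc3

/-- the same with the condition written out -/
theorem gen' {F : Type*} [Field F] [CharZero F] {n q d : ℕ} (s : Fin (q + 1) → ℕ)
    (a : Fin n → Fin (q + 1) → ℕ) (ha : ∀ j, 1 ≤ a j 0) (hinj : Function.Injective (tbet a))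
    (hd : ∀ ρ, ∑ l, tbet a ρ l ≤ d) (w : Fin n → Fin n → F)
    (hw : ∀ (i : Fin (q + 1)) (c : Fin (q + 1) → ℕ) (f : Fin n → F), ∃ g : Fin n → F,
      (∀ l : Fin n, s i ≤ (l : ℕ) → g l = 0) ∧
      ∀ j : Fin n, (∃ i', ∀ l < i, tbet a (j, i') l = c l) → ∑ l, g l * w l j = f j) :
    ∃ c : Fin (q + 1) → Fin n → ℕ, (∀ i l, c i l ≤ n * (q + 1) * d) ∧
      (∀ (i : Fin (q + 1)) (l : Fin n), s i ≤ (l : ℕ) → c i l = 0) ∧
      (topMat a (fun j i => ∑ l, (c i l : F) * w l j)).det ≠ 0 :=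
  gen2 a ha hinj hd s w hw

end Pool.Agent.H52.UB
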