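import Pool.Agent.H52.UB.Defs2

/-!
# Project UB (MP_a3214d): reachable systems from blocks and from uniformity
-/

set_option autoImplicit false

open NumberField

namespace Pool.Agent.H52.UB

theorem ub32_mono {F : Type*} [Field F] {n s : ℕ} {w : Fin n → Fin n → F} {A B : Set (Fin n)}
    (h : FreeAt w s B) (hAB : A ⊆ B) : FreeAt w s A := by
  intro f
  obtain ⟨v, hv, hf⟩ := h f
  exact ⟨v, hv, fun j hj => hf j (hAB hj)⟩

theorem reach_of_blocks {F : Type*} [Field F] {n q d h s : ℕ} {blk : Fin n → ℕ}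
    {a : Fin n → Fin (q + 1) → ℕ} (hT : BTiles n q d h s blk a) (w : Fin n → Fin n → F)
    (h1 : ∀ t, FreeAt w s {j | blk j = t}) (h2 : FreeAt w n Set.univ) :
    Reach a (fun i => if (i : ℕ) < h then n else s) w := by
  intro i c
  by_cases hi : (i : ℕ) < h
  · simp only [hi, if_true]
    exact ub32_mono h2 (Set.subset_univ _)
  · simp only [hi, if_false]
    by_cases hne : ({j | ∃ i', ∀ l < i, tbet a (j, i') l = c l} : Set (Fin n)).Nonempty
    · obtain ⟨j0, i0, hj0⟩ := hne
      refine ub32_mono (h1 (blk j0)) ?_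
      rintro j ⟨i', hj⟩
      have hlt : ∀ l : Fin (q + 1), (l : ℕ) < h → l < i := fun l hl => by
        rw [Fin.lt_def]; omega
      exact hT.one (j, i') (j0, i0) (fun l hl => by rw [hj l (hlt l hl), hj0 l (hlt l hl)])
    · rw [Set.not_nonempty_iff_eq_empty] at hne
      rw [hne]
      intro f
      exact ⟨0, fun l _ => rfl, fun j hj => absurd hj (Set.notMem_empty j)⟩

theorem reach_of_unif {F : Type*} [Field F] {n q d : ℕ} {s : Fin (q + 1) → ℕ}
    {a : Fin n → Fin (q + 1) → ℕ} (hT : Tiles n q d s a) (w : Fin n → Fin n → F) (hw : Unif w) :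
    Reach a s w := by
  classical
  intro i c f
  set A : Finset (Fin n) := Finset.univ.filter (fun j => ∃ i', ∀ l < i, tbet a (j, i') l = c l)
    with hA
  have hcard : A.card ≤ s i := by
    have h := hT.size i c
    rwa [Nat.card_eq_fintype_card, Fintype.card_subtype] at h
  obtain ⟨v, hv, hf⟩ := hw (s i) (hT.le i) A hcard f
  refine ⟨v, hv, fun j hj => hf j ?_⟩
  rw [hA, Finset.mem_filter]
  exact ⟨Finset.mem_univ _, hj⟩

end Pool.Agent.H52.UB
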