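import Pool.Agent.H52.UB.Minima
import Pool.Agent.H52.UB.Gen2
import Pool.Agent.H52.UB.FreeGal
import Pool.Agent.H52.UB.Reach2
import Pool.Agent.H52.UB.Dual
import Pool.Agent.H52.UB.Uniq

/-! Project UB, row UB-33: points of the right size for all extensions. -/

set_option autoImplicit false

open NumberField Polynomial Module

namespace Pool.Agent.H52.UB

/-- the general form -/
theorem point_of_reach {k : Type} [Field k] [NumberField k] {n q d : ℕ}
    {a : Fin n → Fin (q + 1) → ℕ} (ha : ∀ j, 1 ≤ a j 0) (hinj : Function.Injective (tbet a))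
    (hdeg : ∀ ρ, ∑ l, tbet a ρ l ≤ d) (s : Fin (q + 1) → ℕ)
    {M : IntermediateField k (AlgebraicClosure k)} [NumberField M]
    (e : (M →ₐ[k] AlgebraicClosure k) ≃ Fin n) (θ : Fin n → 𝓞 M) (lam : Fin n → ℝ)
    (hm : MinSys k M n θ lam) (hr : Reach a s (fun l j => e.symm j (θ l : M)))
    (L : Fin (q + 1) → ℝ) (hL : ∀ i, 0 ≤ L i)
    (hlam : ∀ (i : Fin (q + 1)) (l : Fin n), (l : ℕ) < s i → lam l ≤ L i) :
    ∃ x : Fin (q + 1) → 𝓞 M, (∀ i, house (x i : M) ≤ (n * (n * (q + 1) * d) : ℝ) * L i) ∧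
      (jac (tbet a) (fun j i => e.symm j (x i : M))).det ≠ 0 := by
  classical
  obtain ⟨c, hc1, hc2, hdet⟩ := gen2 a ha hinj hdeg s (fun l j => e.symm j (θ l : M)) hr
  refine ⟨fun i => ∑ l, (c i l : 𝓞 M) * θ l, ?_, ?_⟩
  · intro i
    have hcoe : ((∑ l, (c i l : 𝓞 M) * θ l : 𝓞 M) : M) = ∑ l, (c i l : M) * (θ l : M) := by
      simp
    rw [hcoe]
    have hterm : ∀ l ∈ (Finset.univ : Finset (Fin n)), house ((c i l : M) * (θ l : M)) ≤
        (n * (q + 1) * d) * L i := by
      intro l _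
      rw [house_nat_mul]
      by_cases hl : s i ≤ (l : ℕ)
      · rw [hc2 i l hl]
        simp only [Nat.cast_zero, zero_mul]
        have := hL i
        positivity
      · have h1 : (c i l : ℝ) ≤ n * (q + 1) * d := by exact_mod_cast hc1 i l
        have h2 : house (θ l : M) ≤ L i := (hm.le l).trans (hlam i l (not_le.1 hl))
        exact mul_le_mul h1 h2 (house_nonneg _) (by positivity)
    calc house (∑ l, (c i l : M) * (θ l : M)) ≤ ∑ l, house ((c i l : M) * (θ l : M)) :=
          house_sum_le_sum_house _ _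
      _ ≤ ∑ _l : Fin n, (n * (q + 1) * d) * L i := Finset.sum_le_sum hterm
      _ = (n * (n * (q + 1) * d)) * L i := by
          rw [Finset.sum_const, Finset.card_univ, Fintype.card_fin, nsmul_eq_mul]
          ring
  · refine jac_ne_zero a _ ?_
    have : (fun (j : Fin n) (i : Fin (q + 1)) =>
        e.symm j ((∑ l, (c i l : 𝓞 M) * θ l : 𝓞 M) : M)) =
        fun j i => ∑ l, (c i l : AlgebraicClosure k) * e.symm j (θ l : M) := by
      funext j i
      simp
    rw [this]
    exact hdet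

/-- from a bound of a natural power to a bound with a real exponent -/
private theorem ub33_rpow {L C0 X : ℝ} {N : ℕ} (hN : 1 ≤ N) (hL : 0 ≤ L) (hC : 0 ≤ C0)
    (hX : 1 ≤ X) (h : L ^ N ≤ (C0 * √X) ^ 2) :
    L ≤ (1 + C0 ^ 2) * X ^ (1 / (N : ℝ)) := by
  have hN0 : (N : ℝ) ≠ 0 := by positivity
  have hX0 : 0 ≤ X := by linarith
  have h1 : (C0 * √X) ^ 2 = C0 ^ 2 * X := by
    rw [mul_pow, Real.sq_sqrt hX0]
  rw [h1] at h
  have h2 : L = (L ^ N) ^ (1 / (N : ℝ)) := by
    rw [← Real.rpow_natCast, ← Real.rpow_mul hL, mul_one_div_cancel hN0, Real.rpow_one]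
  have h3 : (L ^ N) ^ (1 / (N : ℝ)) ≤ ((1 + C0 ^ 2) * X) ^ (1 / (N : ℝ)) := by
    refine Real.rpow_le_rpow (by positivity) (h.trans ?_) (by positivity)
    nlinarith [sq_nonneg C0]
  have h4 : (1 + C0 ^ 2) ^ (1 / (N : ℝ)) ≤ (1 + C0 ^ 2) ^ (1 : ℝ) := by
    refine Real.rpow_le_rpow_of_exponent_le (by nlinarith [sq_nonneg C0]) ?_
    rw [div_le_one (by positivity)]
    exact_mod_cast hN
  rw [Real.rpow_one] at h4
  calc L = (L ^ N) ^ (1 / (N : ℝ)) := h2
    _ ≤ ((1 + C0 ^ 2) * X) ^ (1 / (N : ℝ)) := h3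
    _ = (1 + C0 ^ 2) ^ (1 / (N : ℝ)) * X ^ (1 / (N : ℝ)) :=
        Real.mul_rpow (by positivity) hX0
    _ ≤ _ := mul_le_mul_of_nonneg_right h4 (by positivity)

theorem exists_point2 (k : Type) [Field k] [NumberField k] {n q d h s : ℕ} (hn : 1 ≤ n)
    (hs : 1 ≤ s) (hsn : s ≤ n) {blk : Fin n → ℕ} {a : Fin n → Fin (q + 1) → ℕ}
    (hT : BTiles n q d h s blk a) :
    ∃ C : ℝ, 1 ≤ C ∧ ∀ (M : IntermediateField k (AlgebraicClosure k)) [NumberField M],
      finrank k M = n → ∀ (X : ℝ), 1 ≤ X → |(discr M : ℝ)| ≤ X →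
      ∃ (e : (M →ₐ[k] AlgebraicClosure k) ≃ Fin n) (x : Fin (q + 1) → 𝓞 M),
        (∀ i, house (x i : M) ≤ C * X ^ (ex2 n q h s i / finrank ℚ k)) ∧
        (jac (tbet a) (fun j i => e.symm j (x i : M))).det ≠ 0 := by
  classical
  obtain ⟨C0, hC0, hprod⟩ := minSys_prod k n
  refine ⟨1 + (n * (n * (q + 1) * d)) * (1 + C0 ^ 2), ?_, ?_⟩
  · have : (0 : ℝ) ≤ (n * (n * (q + 1) * d)) * (1 + C0 ^ 2) := by positivity
    linarith
  intro M _ hd X hX hdisc
  obtain ⟨θ, lam, hmin⟩ := exists_minSys k M n hd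
  obtain ⟨e, h1, h2⟩ := exists_numbering hsn hd (fun i => (θ i : M)) hmin.indep blk hT.ok
  have hreach := reach_of_blocks hT _ h1 h2
  have hm : 1 ≤ finrank ℚ k := finrank_pos
  have hX0 : (0 : ℝ) < X := by linarith
  have hsqrt : √|(discr M : ℝ)| ≤ √X := Real.sqrt_le_sqrt hdisc
  have hP2 : (C0 * √|(discr M : ℝ)|) ^ 2 ≤ (C0 * √X) ^ 2 :=
    pow_le_pow_left₀ (by positivity) (mul_le_mul_of_nonneg_left hsqrt hC0.le) 2
  have hP := hprod M hd θ lam hmin
  obtain ⟨x, hx, hdet⟩ := point_of_reach hT.pos hT.inj hT.deg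
    (fun i : Fin (q + 1) => if (i : ℕ) < h then n else s) e θ lam hmin hreach
    (fun i => (1 + C0 ^ 2) * X ^ (ex2 n q h s i / finrank ℚ k)) (fun i => by positivity)
    (by
      intro i l hl
      by_cases hi : (i : ℕ) < h
      · -- the last minimum
        set l0 : Fin n := ⟨n - 1, by omega⟩ with hl0
        have hl0n : (l0 : ℕ) + 1 = n := by
          rw [hl0]
          show n - 1 + 1 = n
          omega
        have hle : lam l ≤ lam l0 := by
          refine hmin.mono ?_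
          rw [Fin.le_def]
          have := l.2
          omega
        have h3 := lam_top lam hmin.one_le l0 hl0n
          (fun i j hij => dual_submul hd hmin i j l0 hij hl0n) _ hP
        have h4 := ub33_rpow (Nat.one_le_iff_ne_zero.2 (Nat.mul_ne_zero (by omega) (by omega)))
          (by linarith [hmin.one_le l0]) hC0.le hX (h3.trans hP2)
        refine hle.trans (h4.trans (le_of_eq ?_))
        have h5 : (1 : ℝ) / ((finrank ℚ k * n : ℕ) : ℝ) = ex2 n q h s i / finrank ℚ k := by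
          rw [ex2, if_pos hi, Nat.cast_mul, div_div, mul_comm]
        rw [h5]
      · simp only [if_neg hi] at hl
        set l0 : Fin n := ⟨s - 1, by omega⟩ with hl0
        have hl0s : (l0 : ℕ) = s - 1 := rfl
        have hle : lam l ≤ lam l0 := by
          refine hmin.mono ?_
          rw [Fin.le_def]
          omega
        have h3 := lam_triv lam hmin.mono hmin.one_le _ hP l0
        rw [hl0s] at h3
        have h4 := ub33_rpow (Nat.one_le_iff_ne_zero.2 (Nat.mul_ne_zero (by omega) (by omega)))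
          (by linarith [hmin.one_le l0]) hC0.le hX (h3.trans hP2)
        refine hle.trans (h4.trans (le_of_eq ?_))
        have h5 : (1 : ℝ) / ((finrank ℚ k * (2 * (n - (s - 1))) : ℕ) : ℝ) =
            ex2 n q h s i / finrank ℚ k := by
          rw [ex2, if_neg hi, div_div, Nat.cast_mul, Nat.cast_mul, Nat.cast_sub (by omega),
            Nat.cast_sub hs]
          push_cast
          ring
        rw [h5])
  refine ⟨e, x, fun i => (hx i).trans ?_, hdet⟩
  have hE0 : 0 ≤ X ^ (ex2 n q h s i / finrank ℚ k) := by positivity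
  nlinarith
end Pool.Agent.H52.UB
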