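import Pool.Agent.H52.UB.Count
import Pool.Agent.H52.UB.Point2

/-!
# Project UB (MP_a3214d), row UB-34: the number of all extensions of degree `n`

`count_points` with the trivial condition, and the comparison with Malle's counting function.
-/

set_option autoImplicit false

open NumberField Polynomial Module

namespace Pool.Agent.H52.UB

/-- all extensions are the extensions with the trivial condition -/
noncomputable def ub34_equiv (k : Type) [Field k] [NumberField k] (n : ℕ) (B : ℝ) :
    Cls k n (fun _ => True) B ≃ ExtCls k n B :=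
  Quot.congr
    (Equiv.subtypeEquivRight fun _ => ⟨fun h => ⟨h.1, h.2.2⟩, fun h => ⟨h.1, trivial, h.2⟩⟩)
    fun _ _ => Iff.rfl

/-- two extensions with the same class are isomorphic -/
theorem ub34_exact {k : Type} [Field k] [NumberField k] {n : ℕ} {B : ℝ}
    {L L' : {M : IntermediateField k (AlgebraicClosure k) //
      Module.finrank k M = n ∧ ∃ h : NumberField M,
        ((|@NumberField.discr M _ h| : ℤ) : ℝ) ≤ B * ((|NumberField.discr k| : ℤ) : ℝ) ^ n}}
    (h : (Quot.mk _ L : ExtCls k n B) = Quot.mk _ L') : Nonempty (L.1 ≃ₐ[k] L'.1) := by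
  have h1 := Quot.eqvGen_exact h
  clear h
  induction h1 with
  | rel _ _ h => exact h
  | refl x => exact ⟨AlgEquiv.refl⟩
  | symm x y _ ih => exact ih.map AlgEquiv.symm
  | trans x y z _ _ ih1 ih2 =>
    obtain ⟨e1⟩ := ih1
    obtain ⟨e2⟩ := ih2
    exact ⟨e1.trans e2⟩

/-- explicit exponent for all extensions of degree `n` -/
theorem count_btiles (k : Type) [Field k] [NumberField k] {n q d h s : ℕ} (hn : 1 ≤ n)
    (hs : 1 ≤ s) (hsn : s ≤ n) {blk : Fin n → ℕ} {a : Fin n → Fin (q + 1) → ℕ}
    (hT : BTiles n q d h s blk a) (ε : ℝ) (hε : 0 < ε) :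
    ∃ C : ℝ, ∀ B : ℝ, 1 ≤ B → Finite (ExtCls k n B) ∧
      (extCount k n B : ℝ) ≤ C * B ^ (expo2 n q h s a + ε) := by
  obtain ⟨C, hC⟩ := count_points k hn hT.deg (ex2 n q h s) (fun i => by
    unfold ex2
    have h1 : (s : ℝ) ≤ n := by exact_mod_cast hsn
    split_ifs
    · positivity
    · apply div_nonneg zero_le_one
      linarith) (fun _ => True) (by
    obtain ⟨C, hC1, hC⟩ := exists_point2 k hn hs hsn hT
    exact ⟨C, hC1, fun M _ _ hM => hC M hM⟩) ε hε
  refine ⟨C, fun B hB => ?_⟩
  obtain ⟨h1, h2⟩ := hC B hB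
  refine ⟨Finite.of_equiv _ (ub34_equiv k n B), ?_⟩
  have h3 : extCount k n B = Nat.card (Cls k n (fun _ => True) B) :=
    Nat.card_congr (ub34_equiv k n B).symm
  rw [h3]
  exact h2

theorem malle_le_ext (k : Type) [Field k] [NumberField k] (n : ℕ)
    (G : Subgroup (Equiv.Perm (Fin n))) (B : ℝ) (hf : Finite (ExtCls k n B)) :
    Pool.Agent.H67.MU.malleCount k n G B ≤ extCount k n B := by
  unfold Pool.Agent.H67.MU.malleCount extCount
  refine Nat.card_le_card_of_injective
    (Quot.map (fun L => ⟨L.1, L.2.1, L.2.2.2⟩) fun _ _ h => h) ?_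
  intro x y
  induction x using Quot.ind with | _ x => ?_
  induction y using Quot.ind with | _ y => ?_
  intro h
  exact Quot.sound (ub34_exact h)

end Pool.Agent.H52.UB
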