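import Pool.Agent.H52.UB.Defs2

/-!
# Project UB (MP_a3214d), row UB-30: averaging over a transitive group
-/

set_option autoImplicit false

open NumberField

namespace Pool.Agent.H52.UB

section Avg

variable {Z : Type} [Fintype Z] [DecidableEq Z] (G : Subgroup (Equiv.Perm Z))

open scoped Classical in
/-- the number of the elements of `G` that map `b` to `r` -/
noncomputable def ub30_N (b r : Z) : ℕ := (Finset.univ.filter fun g : G => g.1 b = r).card

theorem ub30_N_le (hG : ∀ x y : Z, ∃ g ∈ G, g x = y) (b r r' : Z) :
    ub30_N G b r ≤ ub30_N G b r' := by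
  classical
  obtain ⟨h, hh, hr⟩ := hG r r'
  unfold ub30_N
  apply Finset.card_le_card_of_injOn (fun g : G => (⟨h, hh⟩ : G) * g)
  · intro g hg
    simp only [Finset.coe_filter, Finset.mem_univ, true_and, Set.mem_setOf_eq] at hg ⊢
    show h (g.1 b) = r'
    rw [hg, hr]
  · intro g _ g' _ hgg
    exact mul_left_cancel hgg

theorem ub30_count (hG : ∀ x y : Z, ∃ g ∈ G, g x = y) (b r : Z) :
    Fintype.card Z * ub30_N G b r = Nat.card G := by
  classical
  have h1 : Nat.card G = ∑ r' : Z, ub30_N G b r' := by
    rw [Nat.card_eq_fintype_card, ← Finset.card_univ]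
    unfold ub30_N
    exact Finset.card_eq_sum_card_fiberwise (f := fun g : G => g.1 b) (t := Finset.univ)
      (fun _ _ => Finset.mem_coe.2 (Finset.mem_univ _))
  have h2 : ∀ r' ∈ (Finset.univ : Finset Z), ub30_N G b r' = ub30_N G b r := fun r' _ =>
    le_antisymm (ub30_N_le G hG b r' r) (ub30_N_le G hG b r r')
  rw [h1, Finset.sum_congr rfl h2, Finset.sum_const, Finset.card_univ, smul_eq_mul]

theorem ub30_avg (hG : ∀ x y : Z, ∃ g ∈ G, g x = y) (B R : Finset Z) :
    ∃ g ∈ G, B.card * R.card ≤
      Fintype.card Z * (B.map (g : Equiv.Perm Z).toEmbedding ∩ R).card := by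
  classical
  by_contra hcon
  push Not at hcon
  have hcard : ∀ g : G, (B.map (g.1 : Equiv.Perm Z).toEmbedding ∩ R).card =
      ∑ b ∈ B, ∑ r ∈ R, if g.1 b = r then 1 else 0 := by
    intro g
    have h1 : B.map (g.1 : Equiv.Perm Z).toEmbedding ∩ R =
        (B.filter fun b => g.1 b ∈ R).map (g.1 : Equiv.Perm Z).toEmbedding := by
      ext z
      simp only [Finset.mem_inter, Finset.mem_map, Finset.mem_filter, Equiv.coe_toEmbedding]
      constructor
      · rintro ⟨⟨b, hb, rfl⟩, hz⟩
        exact ⟨b, ⟨hb, hz⟩, rfl⟩
      · rintro ⟨b, ⟨hb, hz⟩, rfl⟩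
        exact ⟨⟨b, hb, rfl⟩, hz⟩
    rw [h1, Finset.card_map, Finset.card_filter]
    refine Finset.sum_congr rfl fun b _ => ?_
    rw [Finset.sum_ite_eq]
  have hsum : Fintype.card Z * ∑ g : G, (B.map (g.1 : Equiv.Perm Z).toEmbedding ∩ R).card =
      Nat.card G * (B.card * R.card) := by
    have h1 : ∑ g : G, (B.map (g.1 : Equiv.Perm Z).toEmbedding ∩ R).card =
        ∑ b ∈ B, ∑ r ∈ R, ub30_N G b r := by
      rw [Finset.sum_congr rfl fun g _ => hcard g, Finset.sum_comm]
      refine Finset.sum_congr rfl fun b _ => ?_
      rw [Finset.sum_comm]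
      refine Finset.sum_congr rfl fun r _ => ?_
      rw [ub30_N, Finset.card_filter]
    rw [h1, Finset.mul_sum]
    have h2 : ∀ b ∈ B, Fintype.card Z * ∑ r ∈ R, ub30_N G b r = Nat.card G * R.card := by
      intro b _
      rw [Finset.mul_sum, Finset.sum_congr rfl fun r _ => ub30_count G hG b r, Finset.sum_const,
        smul_eq_mul, mul_comm]
    rw [Finset.sum_congr rfl h2, Finset.sum_const, smul_eq_mul]
    ring
  have hlt : Fintype.card Z * ∑ g : G, (B.map (g.1 : Equiv.Perm Z).toEmbedding ∩ R).card <
      Nat.card G * (B.card * R.card) := by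
    have h3 : Nat.card G * (B.card * R.card) = ∑ _g : G, B.card * R.card := by
      rw [Finset.sum_const, Nat.card_eq_fintype_card, ← Finset.card_univ, smul_eq_mul]
    rw [Finset.mul_sum, h3]
    exact Finset.sum_lt_sum_of_nonempty Finset.univ_nonempty fun g _ => hcon g.1 g.2
  omega

end Avg

theorem free_blocks {Z : Type} [Fintype Z] [DecidableEq Z] {n s : ℕ} (hZ : Fintype.card Z = n)
    (G : Subgroup (Equiv.Perm Z)) (hG : ∀ x y : Z, ∃ g ∈ G, g x = y) (Fr : Set (Finset Z))
    (hsub : ∀ A ∈ Fr, ∀ B ⊆ A, B ∈ Fr)
    (hact : ∀ A ∈ Fr, ∀ g ∈ G, A.map (g : Equiv.Perm Z).toEmbedding ∈ Fr)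
    (B : Finset Z) (hB : B ∈ Fr) (hs : B.card = s) (blk : Fin n → ℕ) (hb : BlockOK n s blk) :
    ∃ e : Z ≃ Fin n, ∀ t, Finset.univ.filter (fun z => blk (e z) = t) ∈ Fr := by
  classical
  have hempty : (∅ : Finset Z) ∈ Fr := hsub B hB ∅ (Finset.empty_subset _)
  have hcardfib : ∀ t, Nat.card {j : Fin n // blk j = t} =
      (Finset.univ.filter fun j => blk j = t).card := fun t => by
    rw [Nat.card_eq_fintype_card, Fintype.card_subtype]
  have hcardge : ∀ t, Nat.card {j : Fin n // t ≤ blk j} =
      (Finset.univ.filter fun j => t ≤ blk j).card := fun t => by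
    rw [Nat.card_eq_fintype_card, Fintype.card_subtype]
  -- partial colourings
  have key : ∀ t : ℕ, ∃ φ : Z → ℕ, (∀ z, φ z ≤ t) ∧
      (Finset.univ.filter fun z => φ z = t).card = (Finset.univ.filter fun j => t ≤ blk j).card ∧
      ∀ i < t, (Finset.univ.filter fun z => φ z = i) ∈ Fr ∧
        (Finset.univ.filter fun z => φ z = i).card = (Finset.univ.filter fun j => blk j = i).card := by
    intro t
    induction t with
    | zero =>
      refine ⟨fun _ => 0, fun _ => le_refl _, ?_, fun i hi => absurd hi (Nat.not_lt_zero i)⟩
      simp [hZ]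
    | succ t ih =>
      obtain ⟨φ, hφ, hR, hi⟩ := ih
      set R : Finset Z := Finset.univ.filter fun z => φ z = t with hRdef
      obtain ⟨g, hg, hav⟩ := ub30_avg G hG B R
      have hsize : (Finset.univ.filter fun j => blk j = t).card ≤
          (B.map (g : Equiv.Perm Z).toEmbedding ∩ R).card := by
        have h1 := hb t
        rw [hcardfib, hcardge, ← hR] at h1
        rw [hs, hZ] at hav
        by_contra hlt
        push Not at hlt
        have h2 : (B.map (g : Equiv.Perm Z).toEmbedding ∩ R).card + 1 ≤
            (Finset.univ.filter fun j => blk j = t).card := hlt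
        have h3 := Nat.mul_le_mul_left n h2
        rw [Nat.mul_add, Nat.mul_one] at h3
        omega
      obtain ⟨S, hSsub, hScard⟩ := Finset.exists_subset_card_eq hsize
      have hSR : S ⊆ R := hSsub.trans Finset.inter_subset_right
      have hSF : S ∈ Fr := hsub _ (hact B hB g hg) S (hSsub.trans Finset.inter_subset_left)
      refine ⟨fun z => if z ∈ R \ S then t + 1 else φ z, ?_, ?_, ?_⟩
      · intro z
        by_cases hz : z ∈ R \ S
        · simp [hz]
        · simp only [hz, if_false]
          exact (hφ z).trans (Nat.le_succ t)
      · have h1 : (Finset.univ.filter fun z => (if z ∈ R \ S then t + 1 else φ z) = t + 1) =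
            R \ S := by
          ext z
          simp only [Finset.mem_filter, Finset.mem_univ, true_and]
          by_cases hz : z ∈ R \ S
          · simp [hz]
          · simp only [hz, if_false, iff_false]
            have := hφ z
            omega
        rw [h1, Finset.card_sdiff_of_subset hSR, hR, hScard]
        have h2 : (Finset.univ.filter fun j => t ≤ blk j).card =
            (Finset.univ.filter fun j => blk j = t).card +
              (Finset.univ.filter fun j => t + 1 ≤ blk j).card := by
          rw [← Finset.card_union_of_disjoint]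
          · congr 1
            ext j
            simp only [Finset.mem_filter, Finset.mem_univ, true_and, Finset.mem_union]
            omega
          · rw [Finset.disjoint_filter]
            intro j _ h h'
            omega
        omega
      · intro i hit
        rcases Nat.lt_succ_iff_lt_or_eq.1 hit with h | rfl
        · have h1 : (Finset.univ.filter fun z => (if z ∈ R \ S then t + 1 else φ z) = i) =
              Finset.univ.filter fun z => φ z = i := by
            ext z
            simp only [Finset.mem_filter, Finset.mem_univ, true_and]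
            by_cases hz : z ∈ R \ S
            · have h2 : φ z = t := by
                have := (Finset.mem_sdiff.1 hz).1
                rw [hRdef, Finset.mem_filter] at this
                exact this.2
              simp only [hz, if_true]
              omega
            · simp [hz]
          rw [h1]
          exact hi i h
        · have h1 : (Finset.univ.filter fun z => (if z ∈ R \ S then i + 1 else φ z) = i) = S := by
            ext z
            simp only [Finset.mem_filter, Finset.mem_univ, true_and]
            by_cases hz : z ∈ R \ S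
            · have h2 : z ∉ S := (Finset.mem_sdiff.1 hz).2
              simp only [hz, if_true, h2, iff_false]
              omega
            · simp only [hz, if_false]
              constructor
              · intro h2
                by_contra h3
                exact hz (Finset.mem_sdiff.2 ⟨by rw [hRdef, Finset.mem_filter]; exact ⟨Finset.mem_univ _, h2⟩, h3⟩)
              · intro h2
                have := hSR h2
                rw [hRdef, Finset.mem_filter] at this
                exact this.2
          rw [h1]
          exact ⟨hSF, hScard⟩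
  -- all blocks
  obtain ⟨T, hT⟩ : ∃ T : ℕ, ∀ j, blk j < T := by
    refine ⟨∑ j, blk j + 1, fun j => ?_⟩
    have := Finset.single_le_sum (f := blk) (fun _ _ => Nat.zero_le _) (Finset.mem_univ j)
    omega
  obtain ⟨φ, hφ, hR, hi⟩ := key T
  have hR0 : (Finset.univ.filter fun z => φ z = T) = ∅ := by
    rw [← Finset.card_eq_zero, hR, Finset.card_eq_zero, Finset.filter_eq_empty_iff]
    intro j _
    have := hT j
    omega
  have hall : ∀ t, (Finset.univ.filter fun z => φ z = t) ∈ Fr ∧
      (Finset.univ.filter fun z => φ z = t).card = (Finset.univ.filter fun j => blk j = t).card := by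
    intro t
    rcases lt_or_ge t T with h | h
    · exact hi t h
    · have h1 : (Finset.univ.filter fun z => φ z = t) = ∅ := by
        rcases h.eq_or_lt with rfl | h'
        · exact hR0
        · rw [Finset.filter_eq_empty_iff]
          intro z _
          have := hφ z
          omega
      have h2 : (Finset.univ.filter fun j => blk j = t) = ∅ := by
        rw [Finset.filter_eq_empty_iff]
        intro j _
        have := hT j
        omega
      rw [h1, h2]
      exact ⟨hempty, by simp⟩
  have hfib : ∀ t, Nonempty ({z : Z // φ z = t} ≃ {j : Fin n // blk j = t}) := by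
    intro t
    rw [← Fintype.card_eq, Fintype.card_subtype, Fintype.card_subtype]
    exact (hall t).2
  let e : Z ≃ Fin n := Equiv.ofFiberEquiv fun t => (hfib t).some
  refine ⟨e, fun t => ?_⟩
  have h1 : ∀ z, blk (e z) = φ z := fun z => Equiv.ofFiberEquiv_map _ z
  have h2 : (Finset.univ.filter fun z => blk (e z) = t) = Finset.univ.filter fun z => φ z = t := by
    ext z
    simp [h1]
  rw [h2]
  exact (hall t).1

end Pool.Agent.H52.UB
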