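import Pool.Agent.H52.UB.Defs

/-!
# Project UB (MP_a3214d): Minkowski's second theorem for number fields
-/

set_option autoImplicit false

open NumberField Module MeasureTheory

namespace Pool.Agent.H52.UB

/-- Minkowski's second theorem in a Euclidean space. -/
theorem ub9_second {E : Type*} [NormedAddCommGroup E] [InnerProductSpace ℝ E]
    [FiniteDimensional ℝ E] [MeasurableSpace E] [BorelSpace E] {N : ℕ} (hN : finrank ℝ E = N)
    (L : AddSubgroup E) [Countable L] (F : Set E) (hF : IsAddFundamentalDomain L F volume)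
    (v : Fin N → E) (mu : Fin N → ℝ) (hmono : Monotone mu) (hpos : ∀ i, 0 < mu i)
    (hmin : ∀ x ∈ L, x ≠ 0 → ∃ i : Fin N, mu i ≤ ‖x‖ ∧
      x ∈ Submodule.span ℝ (v '' {l | l ≤ i})) :
    ENNReal.ofReal (∏ i, mu i) * volume (Metric.ball (0 : E) 1) ≤ volume F * 2 ^ N := by
  classical
  let e : OrthonormalBasis (Fin N) ℝ E :=
    InnerProductSpace.gramSchmidtOrthonormalBasis (by rw [hN, Fintype.card_fin]) v
  let A : E →ₗ[ℝ] E := Matrix.toLin e.toBasis e.toBasis (Matrix.diagonal mu)
  have hdet : LinearMap.det A = ∏ i, mu i := by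
    rw [LinearMap.det_toLin, Matrix.det_diagonal]
  have hprod : 0 < ∏ i, mu i := Finset.prod_pos fun i _ => hpos i
  have hvol : volume (A '' Metric.ball (0 : E) 1) =
      ENNReal.ofReal (∏ i, mu i) * volume (Metric.ball (0 : E) 1) := by
    rw [Measure.addHaar_image_linearMap, hdet, abs_of_pos hprod]
  have hA : ∀ (y : E) (j : Fin N), e.repr (A y) j = mu j * e.repr y j := by
    intro y j
    have h1 : e.toBasis.repr (A y) j = (Matrix.diagonal mu).mulVec (e.toBasis.repr y) j := by
      rw [Matrix.repr_toLin]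
    rw [Matrix.mulVec_diagonal] at h1
    exact h1
  by_contra hcon
  rw [not_le, ← hvol, ← hN] at hcon
  obtain ⟨⟨x, hxL⟩, hx0, hxs⟩ := exists_ne_zero_mem_lattice_of_measure_mul_two_pow_lt_measure
    hF (s := A '' Metric.ball (0 : E) 1) (by
      rintro _ ⟨y, hy, rfl⟩
      refine ⟨-y, ?_, map_neg _ _⟩
      rw [mem_ball_zero_iff] at hy ⊢
      rwa [norm_neg]) ((convex_ball (0 : E) 1).linear_image A) hcon
  obtain ⟨y, hy, hyx⟩ := hxs
  rw [mem_ball_zero_iff] at hy
  have hyx' : A y = x := hyx
  have hx0' : x ≠ 0 := fun h => hx0 (by ext; exact h)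
  obtain ⟨i, hi, hspan⟩ := hmin x hxL hx0'
  -- the coordinates of `x` after `i` vanish
  have hzero : ∀ j, i < j → e.repr x j = 0 := by
    intro j hij
    have h1 : ∀ z ∈ Submodule.span ℝ (v '' {l | l ≤ i}), e.repr z j = 0 := by
      intro z hz
      induction hz using Submodule.span_induction with
      | mem z hz =>
        obtain ⟨l, hl, rfl⟩ := hz
        exact InnerProductSpace.gramSchmidtOrthonormalBasis_inv_triangular' _ v
          (lt_of_le_of_lt hl hij)
      | zero => rw [map_zero]; rfl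
      | add a b _ _ ha hb =>
        rw [map_add, PiLp.add_apply, ha, hb, add_zero]
      | smul c a _ ha =>
        rw [map_smul, PiLp.smul_apply, ha, smul_zero]
    exact h1 x hspan
  have hx2 : ‖x‖ ^ 2 = ∑ j, (e.repr x j) ^ 2 := by
    rw [← LinearIsometryEquiv.norm_map e.repr x, EuclideanSpace.norm_sq_eq]
    exact Finset.sum_congr rfl fun j _ => by rw [Real.norm_eq_abs, sq_abs]
  have hy2 : ‖y‖ ^ 2 = ∑ j, (e.repr y j) ^ 2 := by
    rw [← LinearIsometryEquiv.norm_map e.repr y, EuclideanSpace.norm_sq_eq]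
    exact Finset.sum_congr rfl fun j _ => by rw [Real.norm_eq_abs, sq_abs]
  have h1 : ‖x‖ ^ 2 ≤ mu i ^ 2 * ‖y‖ ^ 2 := by
    rw [hx2, hy2, Finset.mul_sum]
    refine Finset.sum_le_sum fun j _ => ?_
    by_cases hj : j ≤ i
    · have h2 : e.repr x j = mu j * e.repr y j := by rw [← hyx']; exact hA y j
      rw [h2, mul_pow]
      refine mul_le_mul_of_nonneg_right ?_ (sq_nonneg _)
      exact pow_le_pow_left₀ (hpos j).le (hmono hj) 2
    · rw [hzero j (not_le.mp hj), zero_pow two_ne_zero]
      positivity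
  have h2 : mu i ^ 2 ≤ ‖x‖ ^ 2 := pow_le_pow_left₀ (hpos i).le hi 2
  have h3 : ‖y‖ ^ 2 < 1 := by
    have := norm_nonneg y
    nlinarith
  have h4 : 0 < mu i ^ 2 := pow_pos (hpos i) 2
  nlinarith

open scoped Classical in
/-- The Euclidean norm dominates the house. -/
theorem ub9_house_le (K : Type) [Field K] [NumberField K] (a : K)
    (x : mixedEmbedding.euclidean.mixedSpace K)
    (h : mixedEmbedding.euclidean.toMixed K x = mixedEmbedding K a) : house a ≤ ‖x‖ := by
  classical
  rw [house, pi_norm_le_iff_of_nonneg (norm_nonneg x)]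
  intro φ
  have h1 : ‖canonicalEmbedding K a φ‖ = InfinitePlace.mk φ a := rfl
  rw [h1]
  set w := InfinitePlace.mk φ with hw
  rcases InfinitePlace.isReal_or_isComplex w with hr | hc
  · have h2 : (mixedEmbedding K a).1 ⟨w, hr⟩ = InfinitePlace.embedding_of_isReal hr a := rfl
    have h3 : ‖(mixedEmbedding K a).1 ⟨w, hr⟩‖ = w a := by
      rw [h2]
      exact InfinitePlace.norm_embedding_of_isReal hr a
    rw [← h3, ← h]
    have h4 : (mixedEmbedding.euclidean.toMixed K x).1 ⟨w, hr⟩ = x.fst ⟨w, hr⟩ := rfl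
    rw [h4]
    exact (PiLp.norm_apply_le x.fst _).trans (WithLp.norm_fst_le _ x)
  · have h2 : (mixedEmbedding K a).2 ⟨w, hc⟩ = InfinitePlace.embedding w a := rfl
    have h3 : ‖(mixedEmbedding K a).2 ⟨w, hc⟩‖ = w a := by
      rw [h2]
      exact InfinitePlace.norm_embedding_eq w a
    rw [← h3, ← h]
    have h4 : (mixedEmbedding.euclidean.toMixed K x).2 ⟨w, hc⟩ = x.snd ⟨w, hc⟩ := rfl
    rw [h4]
    exact (PiLp.norm_apply_le x.snd _).trans (WithLp.norm_snd_le _ x)

open scoped Classical in
theorem ub9_field {N : ℕ} (K : Type) [Field K] [NumberField K] (hN : finrank ℚ K = N)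
    (θ : Fin N → 𝓞 K) (mu : Fin N → ℝ) (h : MinSys ℚ K N θ mu) :
    ENNReal.ofReal (∏ i, mu i) *
      volume (Metric.ball (0 : mixedEmbedding.euclidean.mixedSpace K) 1) ≤
      ENNReal.ofReal √|(discr K : ℝ)| * 2 ^ N := by
  let T := mixedEmbedding.euclidean.toMixed K
  let b := mixedEmbedding.latticeBasis K
  let bE : Basis _ ℝ (mixedEmbedding.euclidean.mixedSpace K) := b.map T.symm.toLinearEquiv
  have hE : finrank ℝ (mixedEmbedding.euclidean.mixedSpace K) = N := by
    rw [mixedEmbedding.euclidean.finrank, hN]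
  have hne : Nonempty (Fin N) := by
    rw [← Fin.pos_iff_nonempty, ← hN]
    exact finrank_pos
  let bK : Basis (Fin N) ℚ K := basisOfLinearIndependentOfCardEqFinrank
    (b := fun i => (θ i : K)) h.indep (by rw [Fintype.card_fin, hN])
  have hbK : ∀ i, bK i = (θ i : K) := fun i => by
    simp [bK]
  -- the volume of the fundamental domain
  have hvol : volume (ZSpan.fundamentalDomain bE) ≤ ENNReal.ofReal √|(discr K : ℝ)| := by
    have h1 : ZSpan.fundamentalDomain bE = T ⁻¹' (ZSpan.fundamentalDomain b) := by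
      ext x
      rw [Set.mem_preimage, ZSpan.mem_fundamentalDomain, ZSpan.mem_fundamentalDomain]
      rfl
    rw [h1, (mixedEmbedding.euclidean.volumePreserving_toMixed K).measure_preimage
      (ZSpan.fundamentalDomain_measurableSet b).nullMeasurableSet,
      mixedEmbedding.volume_fundamentalDomain_latticeBasis]
    have h2 : ENNReal.ofReal √|(discr K : ℝ)| = ((NNReal.sqrt ‖discr K‖₊ : NNReal) : ENNReal) := by
      rw [← ENNReal.ofReal_coe_nnreal, Real.coe_sqrt, coe_nnnorm, Int.norm_eq_abs]
    rw [h2]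
    have h3 : ((2 : ENNReal)⁻¹) ^ InfinitePlace.nrComplexPlaces K ≤ 1 := by
      refine pow_le_one₀ zero_le ?_
      rw [ENNReal.inv_le_one]
      norm_num
    calc _ ≤ 1 * ((NNReal.sqrt ‖discr K‖₊ : NNReal) : ENNReal) := by gcongr
      _ = _ := one_mul _
  have hcount : Countable (Submodule.span ℤ (Set.range bE)).toAddSubgroup := by
    change Countable (Submodule.span ℤ (Set.range bE))
    infer_instance
  refine (ub9_second hE (Submodule.span ℤ (Set.range bE)).toAddSubgroup
    (ZSpan.fundamentalDomain bE) (ZSpan.isAddFundamentalDomain' bE volume)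
    (fun i => T.symm (mixedEmbedding K (θ i : K))) mu h.mono
    (fun i => lt_of_lt_of_le one_pos (h.one_le i)) ?_).trans ?_
  · intro x hx hx0
    -- the lattice point comes from an integer
    have h1 : T x ∈ Submodule.span ℤ (Set.range b) := by
      rw [Submodule.mem_toAddSubgroup, Basis.mem_span_iff_repr_mem] at hx
      rw [Basis.mem_span_iff_repr_mem]
      exact hx
    obtain ⟨a, ha⟩ := (mixedEmbedding.mem_span_latticeBasis K).mp h1
    have ha' : mixedEmbedding K (a : K) = T x := ha
    have ha0 : (a : K) ≠ 0 := by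
      intro h0
      rw [h0, map_zero] at ha'
      exact hx0 ((map_eq_zero_iff T T.injective).mp ha'.symm)
    have hsupp : (bK.repr (a : K)).support.Nonempty := by
      rw [Finsupp.support_nonempty_iff]
      intro h0
      exact ha0 ((map_eq_zero_iff bK.repr bK.repr.injective).mp h0)
    set i := (bK.repr (a : K)).support.max' hsupp with hi
    have hi0 : bK.repr (a : K) i ≠ 0 := by
      have := Finset.max'_mem _ hsupp
      rw [← hi, Finsupp.mem_support_iff] at this
      exact this
    refine ⟨i, ?_, ?_⟩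
    · refine le_trans ?_ (ub9_house_le K (a : K) x ha'.symm)
      by_contra hlt
      rw [not_le] at hlt
      have h2 := h.min i a hlt
      have h3 : (fun l => (θ l : K)) = bK := by
        funext l
        rw [hbK]
      rw [h3, Basis.mem_span_image] at h2
      have h4 : i ∈ {l : Fin N | l < i} :=
        h2 (by rw [Finset.mem_coe, Finsupp.mem_support_iff]; exact hi0)
      exact lt_irrefl i h4
    · have h2 : x = ∑ l, ((bK.repr (a : K) l : ℚ) : ℝ) •
          T.symm (mixedEmbedding K (θ l : K)) := by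
        have h3 : (a : K) = ∑ l, bK.repr (a : K) l • (θ l : K) := by
          conv_lhs => rw [← bK.sum_repr (a : K)]
          exact Finset.sum_congr rfl fun l _ => by rw [hbK]
        have h4 : x = T.symm (mixedEmbedding K (a : K)) := by
          rw [ha', ContinuousLinearEquiv.symm_apply_apply]
        rw [h4]
        conv_lhs => rw [h3]
        rw [map_sum, map_sum]
        refine Finset.sum_congr rfl fun l _ => ?_
        rw [map_rat_smul (mixedEmbedding K), ← Rat.cast_smul_eq_qsmul ℝ, map_smul]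
      rw [h2]
      refine Submodule.sum_mem _ fun l _ => ?_
      by_cases hl : bK.repr (a : K) l = 0
      · rw [hl, Rat.cast_zero, zero_smul]
        exact Submodule.zero_mem _
      · refine Submodule.smul_mem _ _ (Submodule.subset_span ⟨l, ?_, rfl⟩)
        exact Finset.le_max' _ _ (Finsupp.mem_support_iff.mpr hl)
  · gcongr

theorem minkowski_second (N : ℕ) : ∃ C : ℝ, 0 < C ∧ ∀ (K : Type) [Field K] [NumberField K],
    finrank ℚ K = N → ∀ (θ : Fin N → 𝓞 K) (mu : Fin N → ℝ), MinSys ℚ K N θ mu →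
      ∏ i, mu i ≤ C * √|(discr K : ℝ)| := by
  classical
  have hκ : 0 < √Real.pi ^ N / Real.Gamma ((N : ℝ) / 2 + 1) := by
    have h1 : 0 < √Real.pi := Real.sqrt_pos.mpr Real.pi_pos
    have h2 : 0 < Real.Gamma ((N : ℝ) / 2 + 1) := Real.Gamma_pos_of_pos (by positivity)
    positivity
  refine ⟨2 ^ N / (√Real.pi ^ N / Real.Gamma ((N : ℝ) / 2 + 1)), by positivity, ?_⟩
  intro K _ _ hN θ mu h
  have h1 := ub9_field K hN θ mu h
  have hE : finrank ℝ (mixedEmbedding.euclidean.mixedSpace K) = N := by
    rw [mixedEmbedding.euclidean.finrank, hN]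
  rw [InnerProductSpace.volume_ball, hE, ENNReal.ofReal_one, one_pow, one_mul] at h1
  have h0 : 0 ≤ ∏ i, mu i := Finset.prod_nonneg fun i _ => le_trans zero_le_one (h.one_le i)
  have h2 : ENNReal.ofReal √|(discr K : ℝ)| * 2 ^ N =
      ENNReal.ofReal (√|(discr K : ℝ)| * 2 ^ N) := by
    rw [ENNReal.ofReal_mul (Real.sqrt_nonneg _), ENNReal.ofReal_pow (by norm_num)]
    norm_num
  rw [← ENNReal.ofReal_mul h0, h2, ENNReal.ofReal_le_ofReal_iff (by positivity)] at h1
  rw [div_mul_eq_mul_div, le_div_iff₀ hκ]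
  linarith

end Pool.Agent.H52.UB
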