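import Pool.Agent.H52.UB.Defs
import Pool.Agent.H52.UB.Second

/-!
# Project UB (MP_a3214d), row UB-10: systems of minima
-/

set_option autoImplicit false

open NumberField Module

namespace Pool.Agent.H52.UB

/-- an integer of least house outside a proper subspace -/
theorem ub10_exists_min (k K : Type) [Field k] [NumberField k] [Field K] [NumberField K]
    [Algebra k K] (S : Submodule k K) (hS : S ≠ ⊤) :
    ∃ x : 𝓞 K, (x : K) ∉ S ∧ ∀ y : 𝓞 K, (y : K) ∉ S → house (x : K) ≤ house (y : K) := by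
  obtain ⟨z, hz⟩ : ∃ z : K, z ∉ S := by
    by_contra hcon
    push Not at hcon
    exact hS (eq_top_iff.2 fun x _ => hcon x)
  obtain ⟨x0, hx0⟩ : ∃ x0 : 𝓞 K, (x0 : K) ∉ S := by
    obtain ⟨⟨a, b⟩, hab⟩ := IsLocalization.surj (Algebra.algebraMapSubmonoid (𝓞 K)
      (nonZeroDivisors ℤ)) z
    obtain ⟨b, c, hc, hcb⟩ := b
    refine ⟨a, fun ha => hz ?_⟩
    have hc0 : c ≠ 0 := nonZeroDivisors.ne_zero hc
    have h1 : z * (c : K) = (a : K) := by
      have h2 : algebraMap (𝓞 K) K b = (c : K) := by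
        rw [← hcb]
        simp
      rw [← h2]
      exact hab
    have hck : (c : k) ≠ 0 := by exact_mod_cast hc0
    have h3 : z = ((c : k)⁻¹) • (a : K) := by
      rw [← h1, Algebra.smul_def, map_inv₀, map_intCast]
      have hcK : (c : K) ≠ 0 := by exact_mod_cast hc0
      field_simp
    rw [h3]
    exact S.smul_mem _ ha
  have hfin : {x : 𝓞 K | (x : K) ∉ S ∧ house (x : K) ≤ house (x0 : K)}.Finite := by
    refine Set.Finite.of_finite_image (f := fun x : 𝓞 K => (x : K)) ?_
      (fun a _ b _ h => RingOfIntegers.ext h)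
    refine (Embeddings.finite_of_norm_le K ℂ (house (x0 : K))).subset ?_
    rintro _ ⟨x, ⟨_, hx⟩, rfl⟩
    exact ⟨x.isIntegral_coe, fun φ => (norm_embedding_le_house _ φ).trans hx⟩
  obtain ⟨x, hx, hmin⟩ := Set.exists_min_image _ (fun x : 𝓞 K => house (x : K)) hfin
    ⟨x0, hx0, le_rfl⟩
  refine ⟨x, hx.1, fun y hy => ?_⟩
  by_cases h : house (y : K) ≤ house (x0 : K)
  · exact hmin y ⟨hy, h⟩
  · exact hx.2.trans (not_le.1 h).le

/-- greedy construction -/
theorem ub10_greedy (k K : Type) [Field k] [NumberField k] [Field K] [NumberField K]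
    [Algebra k K] (m : ℕ) (hm : m ≤ finrank k K) :
    ∃ θ : Fin m → 𝓞 K, LinearIndependent k (fun i => (θ i : K)) ∧
      Monotone (fun i => house (θ i : K)) ∧
      ∀ (i : Fin m) (x : 𝓞 K), house (x : K) < house (θ i : K) →
        (x : K) ∈ Submodule.span k ((fun l => (θ l : K)) '' {l | l < i}) := by
  induction m with
  | zero => exact ⟨fun i => i.elim0, linearIndependent_empty_type, fun i => i.elim0, fun i => i.elim0⟩
  | succ m ih =>
    obtain ⟨θ, hli, hmo, hmin⟩ := ih (by omega)
    have hS : Submodule.span k (Set.range fun i => (θ i : K)) ≠ ⊤ := by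
      intro htop
      have h1 : finrank k (Submodule.span k (Set.range fun i => (θ i : K))) = m := by
        rw [finrank_span_eq_card hli, Fintype.card_fin]
      rw [htop, finrank_top] at h1
      omega
    obtain ⟨x, hx, hxmin⟩ := ub10_exists_min k K _ hS
    have hsub : ∀ i : Fin m, Submodule.span k ((fun l => (θ l : K)) '' {l | l < i}) ≤
        Submodule.span k (Set.range fun i => (θ i : K)) := fun i =>
      Submodule.span_mono (Set.image_subset_range _ _)
    have hle : ∀ i : Fin m, house (θ i : K) ≤ house (x : K) := by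
      intro i
      by_contra hcon
      exact hx (hsub i (hmin i x (not_le.1 hcon)))
    refine ⟨Fin.snoc θ x, ?_, ?_, ?_⟩
    · have h1 : (fun i => ((Fin.snoc θ x : Fin (m + 1) → 𝓞 K) i : K)) =
          Fin.snoc (fun i => (θ i : K)) (x : K) := by
        funext i
        refine Fin.lastCases ?_ (fun j => ?_) i
        · simp
        · simp
      rw [h1]
      exact hli.finSnoc hx
    · intro i j hij
      refine Fin.lastCases (motive := fun j => i ≤ j →
        house (((Fin.snoc θ x : Fin (m + 1) → 𝓞 K) i : 𝓞 K) : K) ≤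
          house (((Fin.snoc θ x : Fin (m + 1) → 𝓞 K) j : 𝓞 K) : K)) ?_ (fun j => ?_) j hij
      · intro _
        refine Fin.lastCases ?_ (fun i => ?_) i
        · exact le_rfl
        · simpa using hle i
      · intro hij
        obtain ⟨i', rfl⟩ : ∃ i' : Fin m, i = i'.castSucc := by
          refine ⟨⟨i, ?_⟩, rfl⟩
          have h1 : (i : ℕ) ≤ (j.castSucc : ℕ) := hij
          have h2 : (j.castSucc : ℕ) = j := rfl
          omega
        simpa using hmo (Fin.castSucc_le_castSucc_iff.1 hij)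
    · intro i y hy
      refine Fin.lastCases (motive := fun i =>
        house (y : K) < house (((Fin.snoc θ x : Fin (m + 1) → 𝓞 K) i : 𝓞 K) : K) →
        (y : K) ∈ Submodule.span k ((fun l => (((Fin.snoc θ x : Fin (m + 1) → 𝓞 K) l : 𝓞 K) : K)) ''
          {l | l < i})) ?_ (fun i => ?_) i hy
      · intro hy
        rw [Fin.snoc_last] at hy
        by_contra hcon
        refine absurd (hxmin y fun h => hcon ?_) (not_le.2 hy)
        refine Submodule.span_mono ?_ h
        rintro _ ⟨l, rfl⟩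
        exact ⟨l.castSucc, Fin.castSucc_lt_last l, by simp⟩
      · intro hy
        rw [Fin.snoc_castSucc] at hy
        refine Submodule.span_mono ?_ (hmin i y hy)
        rintro _ ⟨l, hl, rfl⟩
        exact ⟨l.castSucc, Fin.castSucc_lt_castSucc_iff.2 hl, by simp⟩

theorem exists_minSys (k K : Type) [Field k] [NumberField k] [Field K] [NumberField K]
    [Algebra k K] (n : ℕ) (hn : finrank k K = n) :
    ∃ (θ : Fin n → 𝓞 K) (lam : Fin n → ℝ), MinSys k K n θ lam := by
  obtain ⟨θ, hli, hmo, hmin⟩ := ub10_greedy k K n hn.ge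
  refine ⟨θ, fun i => house (θ i : K), hli, hmo, fun i => ?_, fun _ => le_rfl, hmin⟩
  exact one_le_house_of_isIntegral (θ i).isIntegral_coe (hli.ne_zero i)

/-- comparison of the minima over `k` and over `ℚ` -/
theorem ub10_compare (k K : Type) [Field k] [NumberField k] [Field K] [NumberField K]
    [Algebra k K] {n N : ℕ} {θ : Fin n → 𝓞 K} {lam : Fin n → ℝ} (h : MinSys k K n θ lam)
    {ω : Fin N → 𝓞 K} {mu : Fin N → ℝ} (h' : MinSys ℚ K N ω mu) (i : Fin n) (t : Fin N)
    (ht : finrank ℚ k * (i : ℕ) ≤ t) : lam i ≤ mu t := by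
  by_contra hcon
  push Not at hcon
  set S : Submodule k K := Submodule.span k ((fun l => (θ l : K)) '' {l | l < i}) with hSdef
  have hmem : ∀ s : Fin N, s ≤ t → (ω s : K) ∈ S := fun s hs =>
    h.min i (ω s) (((h'.le s).trans (h'.mono hs)).trans_lt hcon)
  have hfk : FiniteDimensional k K := FiniteDimensional.right ℚ k K
  have hdim : finrank k S ≤ i := by
    have h1 : (fun l => (θ l : K)) '' {l | l < i} =
        Set.range (fun l : Fin (i : ℕ) => (θ ⟨l, l.2.trans i.2⟩ : K)) := by
      ext z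
      constructor
      · rintro ⟨l, hl, rfl⟩
        exact ⟨⟨l, hl⟩, rfl⟩
      · rintro ⟨l, rfl⟩
        exact ⟨⟨l, l.2.trans i.2⟩, l.2, rfl⟩
    rw [hSdef, h1]
    exact (finrank_range_le_card _).trans (by simp)
  have hdimQ : finrank ℚ S ≤ finrank ℚ k * i := by
    rw [← finrank_mul_finrank ℚ k S]
    exact Nat.mul_le_mul_left _ hdim
  have hli : LinearIndependent ℚ (fun s : Fin ((t : ℕ) + 1) =>
      (⟨(ω ⟨s, lt_of_lt_of_le s.2 t.2⟩ : K), hmem _ (Nat.lt_succ_iff.1 s.2)⟩ : S)) := by
    have h1 : LinearIndependent ℚ (fun s : Fin ((t : ℕ) + 1) =>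
        (ω ⟨s, lt_of_lt_of_le s.2 t.2⟩ : K)) :=
      h'.indep.comp (fun s : Fin ((t : ℕ) + 1) => (⟨s, lt_of_lt_of_le s.2 t.2⟩ : Fin N))
        (fun a b hab => Fin.ext (congrArg (fun z : Fin N => (z : ℕ)) hab))
    exact LinearIndependent.of_comp (S.subtype.restrictScalars ℚ) h1
  have hfin : Module.Finite ℚ S := Module.Finite.trans (R := ℚ) k S
  have h2 := hli.fintype_card_le_finrank
  rw [Fintype.card_fin] at h2
  omega

theorem minSys_prod (k : Type) [Field k] [NumberField k] (n : ℕ) : ∃ C : ℝ, 0 < C ∧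
    ∀ (K : Type) [Field K] [NumberField K] [Algebra k K], finrank k K = n →
      ∀ (θ : Fin n → 𝓞 K) (lam : Fin n → ℝ), MinSys k K n θ lam →
        (∏ i, lam i) ^ finrank ℚ k ≤ C * √|(discr K : ℝ)| := by
  obtain ⟨C, hC, hmink⟩ := minkowski_second (n * finrank ℚ k)
  refine ⟨C, hC, fun K _ _ _ hn θ lam h => ?_⟩
  have hN : finrank ℚ K = n * finrank ℚ k := by
    rw [← finrank_mul_finrank ℚ k K, hn, mul_comm]
  obtain ⟨ω, mu, h'⟩ := exists_minSys ℚ K _ hN
  refine le_trans ?_ (hmink K hN ω mu h')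
  rw [← finProdFinEquiv.prod_comp, Fintype.prod_prod_type]
  rw [← Finset.prod_pow]
  refine Finset.prod_le_prod (fun i _ => pow_nonneg (zero_le_one.trans (h.one_le i)) _)
    fun i _ => ?_
  calc lam i ^ finrank ℚ k = ∏ _s : Fin (finrank ℚ k), lam i := by simp
    _ ≤ ∏ s : Fin (finrank ℚ k), mu (finProdFinEquiv (i, s)) := by
        refine Finset.prod_le_prod (fun _ _ => zero_le_one.trans (h.one_le i)) fun s _ => ?_
        refine ub10_compare k K h h' i _ ?_
        rw [finProdFinEquiv_apply_val]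
        exact Nat.le_add_left _ _

end Pool.Agent.H52.UB
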